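import Pool.Agent.N457.PS.AR
import Pool.Agent.N223.PS.Loo

/-!
Rotations, reversal and reflection of rooted self-avoiding loops of `ℤ²`: they keep the area.
-/

set_option autoImplicit false

namespace Pool.Agent.K6.H36.PJ

open Pool.Agent.N223.PS Pool.Agent.N457.PS

/-- change of the root -/
def rot {L : ℕ} (s : ZMod L) (f : ZMod L → ℤ × ℤ) (i : ZMod L) : ℤ × ℤ := f (i + s) - f s

/-- change of the orientation -/
def rev {L : ℕ} (f : ZMod L → ℤ × ℤ) (i : ZMod L) : ℤ × ℤ := f (-i)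

/-- reflection in the horizontal axis -/
def flp {L : ℕ} (f : ZMod L → ℤ × ℤ) (i : ZMod L) : ℤ × ℤ := ((f i).1, -(f i).2)

theorem rot_loop {L : ℕ} {f : ZMod L → ℤ × ℤ} (hf : IsLoop L f) (s : ZMod L) :
    IsLoop L (rot s f) := by
  obtain ⟨h0, h1, h2⟩ := hf
  refine ⟨?_, ?_, ?_⟩
  · simp [rot]
  · intro i j hij
    have h3 : f (i + s) = f (j + s) := by
      have := hij
      unfold rot at this
      exact sub_left_injective this
    exact add_left_injective s (h1 h3)
  · intro i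
    have h3 := h2 (i + s)
    have e : i + 1 + s = i + s + 1 := by ring
    unfold rot
    rw [e]
    simp only [Prod.fst_sub, Prod.snd_sub]
    rw [sub_sub_sub_cancel_right, sub_sub_sub_cancel_right]
    exact h3

theorem rev_loop {L : ℕ} {f : ZMod L → ℤ × ℤ} (hf : IsLoop L f) : IsLoop L (rev f) := by
  obtain ⟨h0, h1, h2⟩ := hf
  refine ⟨?_, ?_, ?_⟩
  · simp [rev, h0]
  · intro i j hij
    exact neg_injective (h1 hij)
  · intro i
    have h3 := h2 (-i - 1)
    have e : -i - 1 + 1 = -i := by ring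
    rw [e] at h3
    unfold rev
    have e2 : -(i + 1) = -i - 1 := by ring
    rw [e2, abs_sub_comm, abs_sub_comm (f (-i - 1)).2]
    exact h3

theorem flp_loop {L : ℕ} {f : ZMod L → ℤ × ℤ} (hf : IsLoop L f) : IsLoop L (flp f) := by
  obtain ⟨h0, h1, h2⟩ := hf
  refine ⟨?_, ?_, ?_⟩
  · simp [flp, h0]
  · intro i j hij
    apply h1
    unfold flp at hij
    rw [Prod.mk.injEq] at hij
    exact Prod.ext hij.1 (neg_injective hij.2)
  · intro i
    have h3 := h2 i
    unfold flp
    simp only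
    rw [show -(f (i + 1)).2 - -(f i).2 = -((f (i + 1)).2 - (f i).2) by ring, abs_neg]
    exact h3

theorem rot_rot {L : ℕ} (s t : ZMod L) (f : ZMod L → ℤ × ℤ) :
    rot s (rot t f) = rot (s + t) f := by
  funext i
  unfold rot
  rw [sub_sub_sub_cancel_right, add_assoc]

theorem rot_zero {L : ℕ} {f : ZMod L → ℤ × ℤ} (hf : f 0 = 0) : rot 0 f = f := by
  funext i
  simp [rot, hf]

theorem rev_rev {L : ℕ} (f : ZMod L → ℤ × ℤ) : rev (rev f) = f := by
  funext i
  simp [rev]

theorem flp_flp {L : ℕ} (f : ZMod L → ℤ × ℤ) : flp (flp f) = f := by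
  funext i
  simp [flp]

/-! ### the area -/

theorem encl_rot {L : ℕ} (f : ZMod L → ℤ × ℤ) (s : ZMod L) (c : ℤ × ℤ) :
    Encl L (rot s f) c ↔ Encl L f (c + f s) := by
  unfold Encl
  have e : Nat.card {k : ZMod L // Above L (rot s f) c.1 c.2 k} =
      Nat.card {k : ZMod L // Above L f (c + f s).1 (c + f s).2 k} := by
    refine Nat.card_congr (Equiv.subtypeEquiv (Equiv.addRight s) ?_)
    intro k
    have e1 : k + 1 + s = k + s + 1 := by ring
    simp only [Equiv.coe_addRight, Above, rot, e1, Prod.fst_sub, Prod.snd_sub, Prod.fst_add,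
      Prod.snd_add]
    constructor
    · rintro ⟨h1, h2⟩
      refine ⟨?_, by omega⟩
      rcases h1 with ⟨h3, h4⟩ | ⟨h3, h4⟩
      · left; constructor <;> omega
      · right; constructor <;> omega
    · rintro ⟨h1, h2⟩
      refine ⟨?_, by omega⟩
      rcases h1 with ⟨h3, h4⟩ | ⟨h3, h4⟩
      · left; constructor <;> omega
      · right; constructor <;> omega
  rw [e]

theorem area_rot {L : ℕ} (f : ZMod L → ℤ × ℤ) (s : ZMod L) : area L (rot s f) = area L f := by
  unfold area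
  exact Nat.card_congr (Equiv.subtypeEquiv (Equiv.addRight (f s)) (fun c => encl_rot f s c))

theorem hor {L : ℕ} {f : ZMod L → ℤ × ℤ} (hf : IsLoop L f) {i : ZMod L}
    (h : (f i).1 ≠ (f (i + 1)).1) : (f (i + 1)).2 = (f i).2 := by
  have h1 := hf.2.2 i
  have h2 : 1 ≤ |(f (i + 1)).1 - (f i).1| := by
    apply Int.one_le_abs
    intro h3
    apply h
    omega
  have h3 := abs_nonneg ((f (i + 1)).2 - (f i).2)
  have h4 : |(f (i + 1)).2 - (f i).2| = 0 := by omega
  have := abs_eq_zero.1 h4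
  omega

theorem encl_rev {L : ℕ} {f : ZMod L → ℤ × ℤ} (hf : IsLoop L f) (c : ℤ × ℤ) :
    Encl L (rev f) c ↔ Encl L f c := by
  unfold Encl
  have e : Nat.card {k : ZMod L // Above L (rev f) c.1 c.2 k} =
      Nat.card {k : ZMod L // Above L f c.1 c.2 k} := by
    refine Nat.card_congr (Equiv.subtypeEquiv (Equiv.subLeft (-1)) ?_)
    intro k
    have e1 : -1 - k + 1 = -k := by ring
    have e2 : -(k + 1) = -1 - k := by ring
    simp only [Equiv.subLeft_apply, Above, rev, e1, e2]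
    constructor
    · rintro ⟨h1, h2⟩
      have h3 : (f (-1 - k)).1 ≠ (f (-1 - k + 1)).1 := by
        rw [e1]; omega
      have h4 := hor hf h3
      rw [e1] at h4
      refine ⟨by omega, by omega⟩
    · rintro ⟨h1, h2⟩
      have h3 : (f (-1 - k)).1 ≠ (f (-1 - k + 1)).1 := by
        rw [e1]; omega
      have h4 := hor hf h3
      rw [e1] at h4
      refine ⟨by omega, by omega⟩
  rw [e]

theorem area_rev {L : ℕ} {f : ZMod L → ℤ × ℤ} (hf : IsLoop L f) : area L (rev f) = area L f := by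
  unfold area
  exact Nat.card_congr (Equiv.subtypeEquivRight (fun c => encl_rev hf c))

/-- enclosed cells through sums -/
theorem encl_iff {L : ℕ} [NeZero L] (f : ZMod L → ℤ × ℤ) (c : ℤ × ℤ) :
    Encl L f c ↔ ∑ k : ZMod L, tv (Above L f c.1 c.2 k) = 1 := by
  classical
  unfold Encl
  rw [Nat.card_eq_fintype_card, Fintype.card_subtype, ← ZMod.natCast_eq_one_iff_odd,
    Finset.card_filter, Nat.cast_sum]
  have e : ∑ k : ZMod L, (((if Above L f c.1 c.2 k then 1 else 0 : ℕ)) : ZMod 2) =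
      ∑ k : ZMod L, tv (Above L f c.1 c.2 k) := by
    refine Finset.sum_congr rfl fun k _ => ?_
    unfold tv
    split_ifs <;> simp
  rw [e]

/-- a horizontal edge between the columns `a` and `a + 1` -/
def Hj {L : ℕ} (f : ZMod L → ℤ × ℤ) (a : ℤ) (k : ZMod L) : Prop :=
  ((f k).1 = a ∧ (f (k + 1)).1 = a + 1) ∨ ((f k).1 = a + 1 ∧ (f (k + 1)).1 = a)

theorem tv_hj {L : ℕ} {f : ZMod L → ℤ × ℤ} (hf : IsLoop L f) (a : ℤ) (k : ZMod L) :
    tv (Hj f a k) = tv ((f k).1 ≤ a) + tv ((f (k + 1)).1 ≤ a) := by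
  have h0 := hf.2.2 k
  have h9 := abs_nonneg ((f (k + 1)).2 - (f k).2)
  have h1 := abs_le.1 (show |(f (k + 1)).1 - (f k).1| ≤ 1 by omega)
  by_cases h2 : (f k).1 ≤ a
  · by_cases h3 : (f (k + 1)).1 ≤ a
    · rw [tv_true h2, tv_true h3, tv_false]
      · decide
      · unfold Hj
        omega
    · rw [tv_true h2, tv_false h3, tv_true]
      · decide
      · unfold Hj
        omega
  · by_cases h3 : (f (k + 1)).1 ≤ a
    · rw [tv_false h2, tv_true h3, tv_true]
      · decide
      · unfold Hj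
        omega
    · rw [tv_false h2, tv_false h3, tv_false]
      · decide
      · unfold Hj
        omega

theorem sum_hj {L : ℕ} [NeZero L] {f : ZMod L → ℤ × ℤ} (hf : IsLoop L f) (a : ℤ) :
    ∑ k : ZMod L, tv (Hj f a k) = 0 := by
  have e : ∑ k : ZMod L, tv (Hj f a k) =
      ∑ k : ZMod L, tv ((f k).1 ≤ a) + ∑ k : ZMod L, tv ((f (k + 1)).1 ≤ a) := by
    rw [← Finset.sum_add_distrib]
    exact Finset.sum_congr rfl fun k _ => tv_hj hf a k
  have e2 : ∑ k : ZMod L, tv ((f (k + 1)).1 ≤ a) = ∑ k : ZMod L, tv ((f k).1 ≤ a) :=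
    Equiv.sum_comp (Equiv.addRight (1 : ZMod L)) (fun k => tv ((f k).1 ≤ a))
  rw [e, e2]
  exact CharTwo.add_self_eq_zero _

theorem encl_flp {L : ℕ} [NeZero L] {f : ZMod L → ℤ × ℤ} (hf : IsLoop L f) (c : ℤ × ℤ) :
    Encl L (flp f) c ↔ Encl L f (c.1, -1 - c.2) := by
  rw [encl_iff, encl_iff]
  have e : ∑ k : ZMod L, tv (Above L (flp f) c.1 c.2 k) +
      ∑ k : ZMod L, tv (Above L f c.1 (-1 - c.2) k) = 0 := by
    rw [← sum_hj hf c.1, ← Finset.sum_add_distrib]
    refine Finset.sum_congr rfl fun k _ => ?_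
    by_cases h1 : Hj f c.1 k
    · by_cases h2 : c.2 < -(f k).2
      · rw [tv_true h1, tv_true (show Above L (flp f) c.1 c.2 k from ⟨h1, h2⟩), tv_false]
        · decide
        · rintro ⟨-, h3⟩
          omega
      · rw [tv_true h1, tv_false (fun h3 => h2 h3.2),
          tv_true (show Above L f c.1 (-1 - c.2) k from ⟨h1, by omega⟩)]
        decide
    · rw [tv_false h1, tv_false (fun h3 => h1 h3.1), tv_false (fun h3 => h1 h3.1)]
      decide
  have e2 := CharTwo.add_eq_zero.1 e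
  rw [e2]

theorem area_flp {L : ℕ} [NeZero L] {f : ZMod L → ℤ × ℤ} (hf : IsLoop L f) :
    area L (flp f) = area L f := by
  unfold area
  refine Nat.card_congr (Equiv.subtypeEquiv
    ⟨fun c => (c.1, -1 - c.2), fun c => (c.1, -1 - c.2), ?_, ?_⟩ (fun c => encl_flp hf c))
  · intro c
    ext <;> simp
  · intro c
    ext <;> simp

/-! ### finiteness -/

theorem loop_bound {L : ℕ} {f : ZMod L → ℤ × ℤ} (hf : IsLoop L f) (k : ℕ) :
    |(f (k : ZMod L)).1| + |(f (k : ZMod L)).2| ≤ k := by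
  induction k with
  | zero => simp [hf.1]
  | succ k ih =>
    have h1 := hf.2.2 (k : ZMod L)
    push_cast
    have h2 := abs_sub_abs_le_abs_sub (f ((k : ZMod L) + 1)).1 (f (k : ZMod L)).1
    have h3 := abs_sub_abs_le_abs_sub (f ((k : ZMod L) + 1)).2 (f (k : ZMod L)).2
    omega

theorem loops_finite (L : ℕ) [NeZero L] : {f : ZMod L → ℤ × ℤ | IsLoop L f}.Finite := by
  refine Set.Finite.subset (Set.Finite.pi' (t := fun _ : ZMod L =>
    ((Finset.Icc (-(L : ℤ)) L) ×ˢ (Finset.Icc (-(L : ℤ)) L) : Finset (ℤ × ℤ)))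
    (fun _ => Finset.finite_toSet _)) ?_
  intro f hf i
  have h1 := loop_bound hf i.val
  rw [ZMod.natCast_zmod_val] at h1
  have h2 := ZMod.val_lt i
  have h3 := abs_nonneg (f i).1
  have h4 := abs_nonneg (f i).2
  have h5 := abs_le.1 (show |(f i).1| ≤ L by omega)
  have h6 := abs_le.1 (show |(f i).2| ≤ L by omega)
  simp only [Finset.coe_product, Finset.coe_Icc, Set.mem_prod, Set.mem_Icc]
  exact ⟨h5, h6⟩

end Pool.Agent.K6.H36.PJ
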