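import Pool.Agent.K6.H36.PJ.Sums
import Pool.Agent.Results.MP_c0584e_pr.PolygonWalkRatio

/-!
The number of loops is `μ ^ (2 n)` up to a factor `exp (K (log n) ^ 2)`.
-/

set_option autoImplicit false

namespace Pool.Agent.K6.H36.PJ

open Pool.Agent.N223.PS

theorem card_LF {n : ℕ} (hn : 2 ≤ n) : ((LF (2 * n)).card : ℝ) = Pool.Agent.H739K.HYP.a n := by
  rw [← Pool.Agent.Results.MP_c0584e_pr.PolygonWalkRatio.A_eq n hn]
  congr 1
  have : NeZero (2 * n) := ⟨by omega⟩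
  have e : Pool.Agent.Results.MP_c0584e_pr.PolygonWalkRatio.A (2 * n) =
    Nat.card {f : ZMod (2 * n) → ℤ × ℤ | IsLoop (2 * n) f} := rfl
  have e2 : Nat.card {f : ZMod (2 * n) → ℤ × ℤ | IsLoop (2 * n) f} =
    {f : ZMod (2 * n) → ℤ × ℤ | IsLoop (2 * n) f}.ncard := rfl
  rw [e, e2]
  unfold LF
  rw [dif_pos (loops_finite (2 * n)), Set.ncard_eq_toFinset_card _ (loops_finite (2 * n))]

theorem log_two_mul_le {n : ℕ} (hn : 2 ≤ n) : Real.log ((2 * n : ℕ) : ℝ) ≤ 2 * Real.log n := by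
  have h0 : (2 : ℝ) ≤ n := by exact_mod_cast hn
  push_cast
  rw [Real.log_mul (by norm_num) (by positivity)]
  have := Real.log_le_log (by norm_num) h0
  linarith

theorem counts : ∃ K : ℝ, 0 ≤ K ∧ ∀ n : ℕ, 2 ≤ n →
    H981.mu ^ (2 * n) * Real.exp (-(K * Real.log n ^ 2)) ≤ ((LF (2 * n)).card : ℝ) ∧
    ((LF (2 * n)).card : ℝ) ≤ H981.mu ^ (2 * n) * Real.exp (K * Real.log n ^ 2) := by
  have hmu : 0 < H981.mu := H981.mu_pos
  have hmu2 : 2.43 ≤ H981.mu := Pool.Agent.H739K.mu_ge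
  obtain ⟨-, K, hK, h⟩ := Pool.Agent.W387.Q.bnd
  obtain ⟨K1, hK1, hup⟩ := Pool.Agent.TH508.LT.ex2.up
  have hlmu : 0 ≤ Real.log H981.mu := Real.log_nonneg (by linarith)
  have hL2 : (0 : ℝ) < Real.log 2 := Real.log_pos (by norm_num)
  refine ⟨4 * K + 4 * K1 + Real.log H981.mu / Real.log 2 ^ 2, by positivity, fun n hn => ?_⟩
  have hnr : (2 : ℝ) ≤ n := by exact_mod_cast hn
  have hlog : Real.log ((2 * n - 1 : ℕ) : ℝ) ≤ 2 * Real.log n := by
    refine le_trans (Real.log_le_log ?_ ?_) (log_two_mul_le hn)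
    · exact_mod_cast (by omega : 0 < 2 * n - 1)
    · exact_mod_cast (by omega : 2 * n - 1 ≤ 2 * n)
  have hlog0 : 0 ≤ Real.log ((2 * n - 1 : ℕ) : ℝ) := Real.log_natCast_nonneg _
  have hsq : Real.log ((2 * n - 1 : ℕ) : ℝ) ^ 2 ≤ 4 * Real.log n ^ 2 := by
    have := pow_le_pow_left₀ hlog0 hlog 2
    linarith [this, mul_pow 2 (Real.log n) 2]
  have hln : Real.log 2 ≤ Real.log n := Real.log_le_log (by norm_num) hnr
  have hln2 : Real.log 2 ^ 2 ≤ Real.log n ^ 2 := pow_le_pow_left₀ hL2.le hln 2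
  have hmul : Real.log H981.mu ≤ Real.log H981.mu / Real.log 2 ^ 2 * Real.log n ^ 2 := by
    rw [div_mul_eq_mul_div, le_div_iff₀ (by positivity)]
    exact mul_le_mul_of_nonneg_left hln2 hlmu
  have e1 : H981.mu ^ (2 * n) = H981.mu ^ (2 * n - 1) * Real.exp (Real.log H981.mu) := by
    rw [Real.exp_log hmu, ← pow_succ]
    congr 1
    omega
  rw [card_LF hn]
  constructor
  · have h1 : H981.mu ^ (2 * n - 1) * Real.exp (-(K * Real.log ((2 * n - 1 : ℕ) : ℝ) ^ 2)) ≤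
        ((Pool.Agent.H739K.KP (2 * n - 1)).card : ℝ) := (h (2 * n - 1) (by omega) (by omega)).1
    unfold Pool.Agent.H739K.HYP.a
    refine le_trans ?_ h1
    rw [e1, mul_assoc, ← Real.exp_add]
    apply mul_le_mul_of_nonneg_left _ (by positivity)
    apply Real.exp_le_exp.2
    have h2 := mul_le_mul_of_nonneg_left hsq hK
    have h3 : 0 ≤ 4 * K1 * Real.log n ^ 2 := by positivity
    nlinarith [h2, h3, hmul]
  · have h3 : Pool.Agent.H739K.HYP.a n ≤ H981.cr' (2 * n - 1) := by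
      rw [← Pool.Agent.H739K.SWR.card_eq_cr']
      unfold Pool.Agent.H739K.HYP.a Pool.Agent.H739K.KP
      exact_mod_cast Finset.card_filter_le _ _
    have h4 : H981.cr' (2 * n - 1) ≤ H981.mu ^ (2 * n - 1) *
        Real.exp (K1 * Real.log ((2 * n - 1 : ℕ) : ℝ) ^ 2) := hup (2 * n - 1) (by omega)
    refine h3.trans (h4.trans ?_)
    rw [e1, mul_assoc, ← Real.exp_add]
    apply mul_le_mul_of_nonneg_left _ (by positivity)
    apply Real.exp_le_exp.2
    have h2 := mul_le_mul_of_nonneg_left hsq hK1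
    have h3 : 0 ≤ 4 * K * Real.log n ^ 2 := by positivity
    have h5 : 0 ≤ Real.log H981.mu / Real.log 2 ^ 2 * Real.log n ^ 2 := by positivity
    nlinarith [h2, h3, h5, hlmu]

end Pool.Agent.K6.H36.PJ
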