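import Pool.Agent.K6.H36.PJ.Sq2

/-!
The area is invariant under the exchange of the coordinates, and it is at most the area of the
bounding box.
-/

set_option autoImplicit false

namespace Pool.Agent.K6.H36.PJ

open Pool.Agent.N223.PS Pool.Agent.N457.PS

theorem step_cases {L : ℕ} {f : ZMod L → ℤ × ℤ} (hf : IsLoop L f) (k : ZMod L) :
    ((f (k + 1)).1 = (f k).1 + 1 ∧ (f (k + 1)).2 = (f k).2) ∨
    ((f (k + 1)).1 = (f k).1 - 1 ∧ (f (k + 1)).2 = (f k).2) ∨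
    ((f (k + 1)).1 = (f k).1 ∧ (f (k + 1)).2 = (f k).2 + 1) ∨
    ((f (k + 1)).1 = (f k).1 ∧ (f (k + 1)).2 = (f k).2 - 1) := by
  have h := hf.2.2 k
  rcases abs_cases ((f (k + 1)).1 - (f k).1) with ⟨h1, h2⟩ | ⟨h1, h2⟩ <;>
    rcases abs_cases ((f (k + 1)).2 - (f k).2) with ⟨h3, h4⟩ | ⟨h3, h4⟩ <;> omega

theorem quad_step {L : ℕ} {f : ZMod L → ℤ × ℤ} (hf : IsLoop L f) (a b : ℤ) (k : ZMod L) :
    tv (a < (f k).1 ∧ b < (f k).2) + tv (a < (f (k + 1)).1 ∧ b < (f (k + 1)).2) =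
      tv (Above L f a b k) + tv (Above L (swp f) b a k) := by
  have z : (0 : ZMod 2) + 0 = 0 := by decide
  have o : (1 : ZMod 2) + 1 = 0 := by decide
  have zo : (0 : ZMod 2) + 1 = 1 := by decide
  have oz : (1 : ZMod 2) + 0 = 1 := by decide
  obtain ⟨P1, e1⟩ : ∃ P1, P1 = (a < (f k).1 ∧ b < (f k).2) := ⟨_, rfl⟩
  obtain ⟨P2, e2⟩ : ∃ P2, P2 = (a < (f (k + 1)).1 ∧ b < (f (k + 1)).2) := ⟨_, rfl⟩
  obtain ⟨P3, e3⟩ : ∃ P3, P3 = Above L f a b k := ⟨_, rfl⟩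
  obtain ⟨P4, e4⟩ : ∃ P4, P4 = Above L (swp f) b a k := ⟨_, rfl⟩
  rw [← e1, ← e2, ← e3, ← e4]
  by_cases p1 : P1 <;> by_cases p2 : P2 <;> by_cases p3 : P3 <;> by_cases p4 : P4 <;>
    simp only [tv_true, tv_false, p1, p2, p3, p4, z, o, zo, oz, not_false_eq_true] <;>
    exfalso <;>
    rw [e1] at p1 <;> rw [e2] at p2 <;> rw [e3] at p3 <;> rw [e4] at p4 <;>
    unfold Above at p3 p4 <;>
    unfold swp at p4 <;>
    dsimp only at p3 p4 <;>
    rcases step_cases hf k with ⟨s1, s2⟩ | ⟨s1, s2⟩ | ⟨s1, s2⟩ | ⟨s1, s2⟩ <;>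
    omega

theorem quad_sum {L : ℕ} [NeZero L] {f : ZMod L → ℤ × ℤ} (hf : IsLoop L f) (a b : ℤ) :
    ∑ k : ZMod L, tv (Above L f a b k) = ∑ k : ZMod L, tv (Above L (swp f) b a k) := by
  have h1 : ∑ k : ZMod L, (tv (a < (f k).1 ∧ b < (f k).2) +
      tv (a < (f (k + 1)).1 ∧ b < (f (k + 1)).2)) = 0 := by
    rw [Finset.sum_add_distrib]
    have h4 : ∑ k : ZMod L, tv (a < (f (k + 1)).1 ∧ b < (f (k + 1)).2) =
        ∑ k : ZMod L, tv (a < (f k).1 ∧ b < (f k).2) :=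
      Fintype.sum_equiv (Equiv.addRight 1) _ _ (fun k => rfl)
    rw [h4]
    exact CharTwo.add_self_eq_zero _
  rw [Finset.sum_congr rfl (fun k _ => quad_step hf a b k), Finset.sum_add_distrib] at h1
  have h2 := CharTwo.add_self_eq_zero (∑ k : ZMod L, tv (Above L (swp f) b a k))
  linear_combination h1 - h2

theorem encl_swp {L : ℕ} [NeZero L] {f : ZMod L → ℤ × ℤ} (hf : IsLoop L f) (c : ℤ × ℤ) :
    Encl L (swp f) (c.2, c.1) ↔ Encl L f c := by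
  rw [encl_iff, encl_iff, quad_sum hf]

theorem area_swp {L : ℕ} [NeZero L] {f : ZMod L → ℤ × ℤ} (hf : IsLoop L f) :
    area L (swp f) = area L f := by
  unfold area
  refine (Nat.card_congr (Equiv.subtypeEquiv (Equiv.prodComm ℤ ℤ) ?_)).symm
  intro c
  exact (encl_swp hf c).symm

theorem area_le_box {L : ℕ} [NeZero L] {w h : ℕ} {f : ZMod L → ℤ × ℤ} (hf : IsLoop L f)
    (h1 : Nr (w : ℤ) f) (h2 : Lw (h : ℤ) f) : area L f ≤ w * h := by
  classical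
  obtain ⟨i0, h0⟩ := Finite.exists_min (fun i : ZMod L => (f i).1)
  obtain ⟨j0, h0'⟩ := Finite.exists_min (fun i : ZMod L => (f i).2)
  have e : area L f = {c : ℤ × ℤ | Encl L f c}.ncard := rfl
  have hsub : {c : ℤ × ℤ | Encl L f c} ⊆
      ((Finset.Ico (f i0).1 ((f i0).1 + w) ×ˢ Finset.Ico (f j0).2 ((f j0).2 + h) :
        Finset (ℤ × ℤ)) : Set (ℤ × ℤ)) := by
    intro c hc
    have h3 := encl_box hf (x0 := (f i0).1) (x1 := (f i0).1 + w) (y0 := (f j0).2)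
      (y1 := (f j0).2 + h) (fun i => ⟨h0 i, by have := h1 i i0; omega⟩)
      (fun i => ⟨h0' i, by have := h2 i j0; omega⟩) hc
    simp only [Finset.coe_product, Finset.coe_Ico, Set.mem_prod, Set.mem_Ico]
    exact h3
  rw [e]
  refine (Set.ncard_le_ncard hsub (Finset.finite_toSet _)).trans ?_
  rw [Set.ncard_coe_finset, Finset.card_product, Int.card_Ico, Int.card_Ico]
  have e1 : ((f i0).1 + w - (f i0).1).toNat = w := by omega
  have e2 : ((f j0).2 + h - (f j0).2).toNat = h := by omega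
  rw [e1, e2]

end Pool.Agent.K6.H36.PJ
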