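import Pool.Agent.K6.H36.PJ.Dm9

/-!
The sums over the polygons in a square with a bound for the area.
-/

set_option autoImplicit false

namespace Pool.Agent.K6.H36.PJ

open Pool.Agent.N223.PS Pool.Agent.N457.PS Filter Topology

/-- the sum of `x ^ |P|` over the polygons `P` in a square of side `w` with area at most `r` -/
noncomputable def Qr (x r : ℝ) (w : ℕ) : ℝ :=
  ∑ n ∈ Finset.Icc 2 ((w + 1) ^ 2), Br r w w (2 * n) / (4 * n) * x ^ (2 * n)

theorem rterm_nonneg {x : ℝ} (hx : 0 < x) (r : ℝ) (w n : ℕ) :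
    0 ≤ Br r w w (2 * n) / (4 * n) * x ^ (2 * n) := by
  have := Br_nonneg r w w (2 * n)
  positivity

theorem Qr_mono {x : ℝ} (hx : 0 < x) {r r' : ℝ} (hr : r ≤ r') {w w' : ℕ} (h : w ≤ w') :
    Qr x r w ≤ Qr x r' w' := by
  unfold Qr
  refine le_trans (Finset.sum_le_sum (g := fun n => Br r' w' w' (2 * n) / (4 * n) * x ^ (2 * n))
    fun n _ => ?_) ?_
  · apply mul_le_mul_of_nonneg_right _ (by positivity)
    apply div_le_div_of_nonneg_right _ (by positivity)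
    exact Br_mono hr (by exact_mod_cast h) (by exact_mod_cast h) _
  · apply Finset.sum_le_sum_of_subset_of_nonneg
    · apply Finset.Icc_subset_Icc le_rfl
      exact Nat.pow_le_pow_left (by omega) 2
    · intro n _ _
      exact rterm_nonneg hx r' w' n

theorem Br_eq_Bn {r : ℝ} {w : ℕ} (hr : (w : ℝ) ^ 2 ≤ r) {L : ℕ} (hL : 0 < L) :
    Br r w w L = Bn w w L := by
  classical
  have : NeZero L := ⟨by omega⟩
  unfold Br Bn
  refine Finset.sum_congr rfl fun f hf => ?_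
  by_cases H : Nr (w : ℤ) f ∧ Lw (w : ℤ) f
  · have h1 := area_le_box ((mem_LF hL).1 hf) H.1 H.2
    have h2 : (area L f : ℝ) ≤ r := by
      have : (area L f : ℝ) ≤ ((w * w : ℕ) : ℝ) := by exact_mod_cast h1
      push_cast at this
      linarith [this, pow_two (w : ℝ)]
    rw [if_pos H, if_pos ⟨H, h2⟩]
  · rw [if_neg H, if_neg (fun h => H h.1)]

theorem Br_unit {r : ℝ} (hr : 1 ≤ r) : 1 ≤ Br r 1 1 4 := by
  have h := Br_eq_Bn (r := r) (w := 1) (by norm_num; exact hr) (by norm_num : 0 < 4)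
  rw [Nat.cast_one] at h
  rw [h]
  exact Bn_unit

theorem Qr_ge {x : ℝ} (hx : 0 < x) {r : ℝ} (hr : 1 ≤ r) {w : ℕ} (hw : 1 ≤ w) :
    x ^ 4 / 8 ≤ Qr x r w := by
  unfold Qr
  have h1 : 2 ∈ Finset.Icc 2 ((w + 1) ^ 2) := by
    rw [Finset.mem_Icc]
    have : 2 ^ 2 ≤ (w + 1) ^ 2 := Nat.pow_le_pow_left (by omega) 2
    omega
  refine le_trans ?_ (Finset.single_le_sum (fun n _ => rterm_nonneg hx r w n) h1)
  have h2 : 1 ≤ Br r w w (2 * 2) :=
    (Br_unit hr).trans (Br_mono le_rfl (by exact_mod_cast hw) (by exact_mod_cast hw) _)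
  have e1 : x ^ 4 / 8 = 1 / (4 * ((2 : ℕ) : ℝ)) * x ^ (2 * 2) := by
    push_cast; ring
  rw [e1]
  apply mul_le_mul_of_nonneg_right _ (by positivity)
  exact div_le_div_of_nonneg_right h2 (by positivity)

theorem Qr_pos {x : ℝ} (hx : 0 < x) {r : ℝ} (hr : 1 ≤ r) {w : ℕ} (hw : 1 ≤ w) : 0 < Qr x r w :=
  lt_of_lt_of_le (by positivity) (Qr_ge hx hr hw)

theorem Qr_le {x : ℝ} (hx : 0 < x) (r : ℝ) (w : ℕ) : Qr x r w ≤ Zs x w := by
  unfold Qr Zs
  refine Finset.sum_le_sum fun n _ => ?_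
  apply mul_le_mul_of_nonneg_right _ (by positivity)
  exact div_le_div_of_nonneg_right (Br_le_Bn _ _ _ _) (by positivity)

theorem Qr_eq {x r : ℝ} {w : ℕ} (hr : (w : ℝ) ^ 2 ≤ r) : Qr x r w = Zs x w := by
  unfold Qr Zs
  refine Finset.sum_congr rfl fun n hn => ?_
  rw [Finset.mem_Icc] at hn
  rw [Br_eq_Bn hr (by omega)]

theorem exists_rterm {x : ℝ} (hx : 0 < x) {r : ℝ} (hr : 1 ≤ r) {w : ℕ} (hw : 1 ≤ w) :
    ∃ n : ℕ, 2 ≤ n ∧ n ≤ (w + 1) ^ 2 ∧ 0 < Br r w w (2 * n) ∧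
    Real.log (Qr x r w) - 2 * Real.log ((w : ℝ) + 1) ≤
      Real.log (Br r w w (2 * n)) + 2 * n * Real.log x := by
  have h1 : 2 ∈ Finset.Icc 2 ((w + 1) ^ 2) := by
    rw [Finset.mem_Icc]
    have : 2 ^ 2 ≤ (w + 1) ^ 2 := Nat.pow_le_pow_left (by omega) 2
    omega
  obtain ⟨n, hn, hmax⟩ := Finset.exists_max_image (Finset.Icc 2 ((w + 1) ^ 2))
    (fun n : ℕ => Br r w w (2 * n) / (4 * n) * x ^ (2 * n)) ⟨2, h1⟩
  rw [Finset.mem_Icc] at hn
  have hn0 : (1 : ℝ) ≤ n := by exact_mod_cast (by omega : 1 ≤ n)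
  have hZ := Qr_pos hx hr hw
  have h2 : Qr x r w ≤ ((w : ℝ) + 1) ^ 2 * (Br r w w (2 * n) / (4 * n) * x ^ (2 * n)) := by
    unfold Qr
    refine (Finset.sum_le_card_nsmul _ _ _ hmax).trans ?_
    rw [nsmul_eq_mul]
    apply mul_le_mul_of_nonneg_right _ (rterm_nonneg hx r w n)
    rw [Nat.card_Icc]
    have : (((w + 1) ^ 2 + 1 - 2 : ℕ) : ℝ) ≤ (((w + 1) ^ 2 : ℕ) : ℝ) := by
      exact_mod_cast (by omega : (w + 1) ^ 2 + 1 - 2 ≤ (w + 1) ^ 2)
    push_cast at this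
    exact this
  have hB : 0 < Br r w w (2 * n) := by
    rcases (Br_nonneg r w w (2 * n)).lt_or_eq with h | h
    · exact h
    · rw [← h] at h2
      simp at h2
      linarith
  refine ⟨n, hn.1, hn.2, hB, ?_⟩
  have h3 := Real.log_le_log hZ h2
  rw [Real.log_mul (by positivity) (by positivity), Real.log_mul (by positivity) (by positivity),
    Real.log_div hB.ne' (by positivity), Real.log_pow, Real.log_pow] at h3
  have h4 : 0 ≤ Real.log (4 * n) := Real.log_nonneg (by linarith)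
  push_cast at h3
  linarith

/-- the error of a block -/
noncomputable def Er (w : ℕ) : ℝ := 3 + 6 * Real.log ((w : ℝ) + 1)

/-- the logarithm of a block -/
theorem block_ge {x r : ℝ} {w n : ℕ} (hn : 2 ≤ n) (hn2 : n ≤ (w + 1) ^ 2)
    (hB : 0 < Br r w w (2 * n))
    (h : Real.log (Qr x r w) - 2 * Real.log ((w : ℝ) + 1) ≤
      Real.log (Br r w w (2 * n)) + 2 * n * Real.log x) :
    Real.log (Qr x r w) - Er w ≤
      Real.log (Br r w w (2 * n) / (8 * n * ((w : ℝ) + 1) ^ 2)) + 2 * n * Real.log x := by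
  have hn0 : (0 : ℝ) < n := by exact_mod_cast (by omega : 0 < n)
  rw [Real.log_div hB.ne' (by positivity), Real.log_mul (by positivity) (by positivity),
    Real.log_mul (by norm_num) hn0.ne', Real.log_pow]
  have h1 : Real.log n ≤ 2 * Real.log ((w : ℝ) + 1) := by
    have h3 : (n : ℝ) ≤ ((w : ℝ) + 1) ^ 2 := by exact_mod_cast hn2
    have := Real.log_le_log hn0 h3
    rwa [Real.log_pow] at this
  have h8 : Real.log 8 ≤ 3 := by
    have : (8 : ℝ) = 2 ^ 3 := by norm_num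
    rw [this, Real.log_pow]
    have := Real.log_two_lt_d9
    push_cast
    linarith
  unfold Er
  push_cast
  linarith

theorem arith_a {s l : ℝ} (hs : 1 ≤ s) (hl : 0 ≤ l) : 1 + 2 * l ≤ 2 * s * (3 + 3 * l) := by
  nlinarith

theorem arith_b {s lb lN l4 a lx Q P lw lH v ax nc : ℝ}
    (L1 : 2 * s * (lb - lN) - l4 + 2 * (2 * s * (a + nc)) * lx ≤ Q)
    (G3 : 2 * s * (P - (6 + lw + 4 * lH)) ≤ 2 * s * (lb - lN + 2 * a * lx))
    (F2 : 4 * s * -(v * ax) ≤ 4 * s * (nc * lx))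
    (E4 : 1 + 2 * lH ≤ 2 * s * (3 + 3 * lH)) (E5 : l4 ≤ 1 + 2 * lH) :
    2 * s * P - 2 * s * (9 + lw + 2 * v * ax + 7 * lH) ≤ Q := by
  nlinarith

theorem arith_c {P u1 u2 s1 s2 n1 n2 lx lw lH c lb lN : ℝ}
    (G1 : P ≤ 2 * s1 * (u1 + 2 * n1 * lx) + 2 * s2 * (u2 + 2 * n2 * lx))
    (L2 : 2 * s1 * u1 + 2 * s2 * u2 - c ≤ lb) (E1 : c ≤ 3 + lw) (E2 : lN ≤ 3 + 4 * lH) :
    P - (6 + lw + 4 * lH) ≤ lb - lN + 2 * (2 * s1 * n1 + 2 * s2 * n2) * lx := by
  nlinarith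

/-- squares with two kinds of loops -/
theorem mixQ {x : ℝ} (hx : 0 < x) {w : ℕ} (hw : 1 ≤ w) {r1 r2 : ℝ} (hr1 : 1 ≤ r1) (hr2 : 1 ≤ r2)
    {s1 s2 : ℕ} (h1 : 1 ≤ s1) (h2 : 1 ≤ s2) {H : ℕ} (hH : H = 2 * (s1 + s2) * (w + 1) + 2) :
    2 * ((s1 : ℝ) + s2) * (2 * s1 * (Real.log (Qr x r1 w) - Er w) +
        2 * s2 * (Real.log (Qr x r2 w) - Er w)) -
      2 * ((s1 : ℝ) + s2) * (9 + Real.log ((w : ℝ) + 2) + 2 * ((w : ℝ) + 2) * |Real.log x| +
        7 * Real.log ((H : ℝ) + 1)) ≤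
      Real.log (Qr x (2 * (s1 + s2) * (2 * s1 * (r1 + 1) + 2 * s2 * (r2 + 1) + 2 * w + 1)) H) := by
  obtain ⟨n1, a1, a2, a3, a4⟩ := exists_rterm hx hr1 hw
  obtain ⟨n2, b1, b2, b3, b4⟩ := exists_rterm hx hr2 hw
  have A := block_ge a1 a2 a3 a4
  have B := block_ge b1 b2 b3 b4
  have hn10 : (0 : ℝ) < n1 := by exact_mod_cast (by omega : 0 < n1)
  have hn20 : (0 : ℝ) < n2 := by exact_mod_cast (by omega : 0 < n2)
  have hs10 : (0 : ℝ) < s1 := by exact_mod_cast h1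
  have hs20 : (0 : ℝ) < s2 := by exact_mod_cast h2
  obtain ⟨nc, c1, c2⟩ := column a1 b1 h1 h2 a3 b3
  obtain ⟨N, hN⟩ : ∃ N, N = 2 * s1 * n1 + 2 * s2 * n2 + nc := ⟨_, rfl⟩
  obtain ⟨s, hs⟩ : ∃ s, s = s1 + s2 := ⟨_, rfl⟩
  have hsr : (s : ℝ) = s1 + s2 := by rw [hs]; push_cast; ring
  have hs1 : 1 ≤ s := by omega
  have hs0 : (1 : ℝ) ≤ s := by exact_mod_cast hs1
  rw [← hsr]
  rw [← hs] at hH
  rw [← hs, ← hN, ← hH] at c2
  obtain ⟨R, hR⟩ : ∃ R : ℝ, R = 2 * s1 * (r1 + 1) + 2 * s2 * (r2 + 1) + 2 * w := ⟨_, rfl⟩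
  rw [← hR] at c2 ⊢
  have hN2 : 2 ≤ N := by
    rw [hN]
    nlinarith
  obtain ⟨b, hb⟩ : ∃ b, b = Br R w H (2 * N) := ⟨_, rfl⟩
  obtain ⟨u1, hu1⟩ : ∃ u, u = Br r1 w w (2 * n1) / (8 * n1 * ((w : ℝ) + 1) ^ 2) := ⟨_, rfl⟩
  obtain ⟨u2, hu2⟩ : ∃ u, u = Br r2 w w (2 * n2) / (8 * n2 * ((w : ℝ) + 1) ^ 2) := ⟨_, rfl⟩
  have hu10 : 0 < u1 := by rw [hu1]; positivity
  have hu20 : 0 < u2 := by rw [hu2]; positivity
  rw [← hu1, ← hu2, ← hb] at c2
  have hb0 : 0 < b := lt_of_lt_of_le (by positivity) c2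
  have M := mixsq (R := R) hN2 hs1 (w := w) (H := H) (by omega) (by rw [← hb]; exact hb0)
  rw [← hb] at M
  -- the length is bounded
  have hw0 : (0 : ℝ) ≤ w := by positivity
  have hlen : 2 * N ≤ (H + 1) ^ 2 := by
    by_contra hcon
    have h3 : Br R w H (2 * N) ≤ Bn H H (2 * N) := by
      refine (Br_mono le_rfl ?_ le_rfl _).trans (Br_le_Bn R H H (2 * N))
      have : w ≤ H := by
        rw [hH]
        nlinarith
      exact_mod_cast this
    rw [Bn_zero (by omega) (by omega), ← hb] at h3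
    linarith
  obtain ⟨m, hm⟩ : ∃ m, m = 2 * s * N := ⟨_, rfl⟩
  rw [← hm] at M
  have hN0 : (0 : ℝ) < N := by exact_mod_cast (by omega : 0 < N)
  have hH0 : (0 : ℝ) < (H : ℝ) + 1 := by positivity
  have hp : 0 < (b / (8 * N * ((H : ℝ) + 1) ^ 2)) ^ (2 * s) := by positivity
  have hBm : 0 < Br (2 * s * (R + 1)) H H (2 * m) := lt_of_lt_of_le hp M
  have hm2 : 2 ≤ m := by
    rw [hm]
    nlinarith
  have hlen2 : 2 * m ≤ (H + 1) ^ 2 := by
    by_contra hcon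
    have h3 := Br_le_Bn (2 * s * (R + 1)) H H (2 * m)
    rw [Bn_zero (by omega) (by omega)] at h3
    linarith
  have hm0 : (0 : ℝ) < m := by exact_mod_cast (by omega : 0 < m)
  have hQ : Br (2 * s * (R + 1)) H H (2 * m) / (4 * m) * x ^ (2 * m) ≤
      Qr x (2 * s * (R + 1)) H := by
    unfold Qr
    exact Finset.single_le_sum (f := fun n : ℕ => Br (2 * s * (R + 1)) H H (2 * n) / (4 * n) *
      x ^ (2 * n)) (fun n _ => rterm_nonneg hx _ H n) (Finset.mem_Icc.2 ⟨hm2, by omega⟩)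
  have hQ2 : (b / (8 * N * ((H : ℝ) + 1) ^ 2)) ^ (2 * s) / (4 * m) * x ^ (2 * m) ≤
      Qr x (2 * s * (R + 1)) H := by
    refine le_trans ?_ hQ
    apply mul_le_mul_of_nonneg_right _ (by positivity)
    exact div_le_div_of_nonneg_right M (by positivity)
  have L1 := Real.log_le_log (by positivity) hQ2
  rw [Real.log_mul (by positivity) (by positivity), Real.log_div hp.ne' (by positivity),
    Real.log_pow, Real.log_pow, Real.log_div hb0.ne' (by positivity)] at L1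
  have L2 := Real.log_le_log (by positivity) c2
  rw [Real.log_div (by positivity) (by positivity), Real.log_mul (by positivity) (by positivity),
    Real.log_pow, Real.log_pow] at L2
  -- the logarithms of the errors
  have h8 : Real.log 8 ≤ 3 := by
    have : (8 : ℝ) = 2 ^ 3 := by norm_num
    rw [this, Real.log_pow]
    have := Real.log_two_lt_d9
    push_cast
    linarith
  have E1 : Real.log (8 * ((w : ℝ) + 2)) ≤ 3 + Real.log ((w : ℝ) + 2) := by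
    rw [Real.log_mul (by norm_num) (by positivity)]
    linarith
  have E2 : Real.log (8 * N * ((H : ℝ) + 1) ^ 2) ≤ 3 + 4 * Real.log ((H : ℝ) + 1) := by
    rw [Real.log_mul (by positivity) (by positivity), Real.log_mul (by norm_num) hN0.ne',
      Real.log_pow]
    have h3 : (N : ℝ) ≤ ((H : ℝ) + 1) ^ 2 := by
      have : N ≤ (H + 1) ^ 2 := by omega
      exact_mod_cast this
    have h4 := Real.log_le_log hN0 h3
    rw [Real.log_pow] at h4
    push_cast at h4 ⊢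
    linarith
  have E3 : Real.log (4 * m) ≤ 1 + 2 * Real.log ((H : ℝ) + 1) := by
    have h3 : 4 * (m : ℝ) ≤ 2 * ((H : ℝ) + 1) ^ 2 := by
      have : 4 * m ≤ 2 * (H + 1) ^ 2 := by omega
      exact_mod_cast this
    have h4 := Real.log_le_log (by positivity) h3
    have h5 : Real.log (2 * ((H : ℝ) + 1) ^ 2) = Real.log 2 + 2 * Real.log ((H : ℝ) + 1) := by
      rw [Real.log_mul (by norm_num) (by positivity), Real.log_pow]
      push_cast
      ring
    have := Real.log_two_lt_d9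
    linarith
  -- the powers of x
  have hmr : (m : ℝ) = 2 * s * (2 * s1 * n1 + 2 * s2 * n2 + nc) := by
    rw [hm, hN]
    push_cast
    ring
  have F1 : (nc : ℝ) * Real.log x ≥ -(((w : ℝ) + 2) * |Real.log x|) := by
    have h3 : (nc : ℝ) ≤ (w : ℝ) + 2 := by exact_mod_cast c1
    have h4 := neg_abs_le (Real.log x)
    have h5 := mul_le_mul_of_nonneg_left h4 (Nat.cast_nonneg (α := ℝ) nc)
    have h6 := mul_le_mul_of_nonneg_right h3 (abs_nonneg (Real.log x))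
    linarith
  have hlH : 0 ≤ Real.log ((H : ℝ) + 1) := Real.log_nonneg (by
    have : (0 : ℝ) ≤ H := Nat.cast_nonneg _
    linarith)
  rw [← hu1] at A
  rw [← hu2] at B
  have G1 : 2 * s1 * (Real.log (Qr x r1 w) - Er w) + 2 * s2 * (Real.log (Qr x r2 w) - Er w) ≤
      2 * s1 * (Real.log u1 + 2 * n1 * Real.log x) + 2 * s2 * (Real.log u2 + 2 * n2 * Real.log x) :=
    add_le_add (mul_le_mul_of_nonneg_left A (by positivity))
      (mul_le_mul_of_nonneg_left B (by positivity))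
  push_cast at L2
  have G2 := arith_c G1 L2 E1 E2
  have G3 := mul_le_mul_of_nonneg_left G2 (by positivity : (0 : ℝ) ≤ 2 * s)
  have F2 := mul_le_mul_of_nonneg_left F1 (by positivity : (0 : ℝ) ≤ 4 * s)
  push_cast at L1
  rw [hmr] at L1 E3
  exact arith_b L1 G3 F2 (arith_a hs0 hlH) E3

end Pool.Agent.K6.H36.PJ
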