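import Pool.Agent.K6.H36.PJ.Dm10

/-!
The entropy of the area of the polygons in a square: existence and concavity.
-/

set_option autoImplicit false

namespace Pool.Agent.K6.H36.PJ

open Pool.Agent.N223.PS Pool.Agent.N457.PS Filter Topology

theorem tendsto_inv_nat : Tendsto (fun W : ℕ => 1 / (W : ℝ)) atTop (𝓝 0) :=
  tendsto_natCast_atTop_atTop.const_div_atTop 1

theorem tendsto_floor_sub {c : ℝ} (hc : 0 < c) :
    Tendsto (fun W : ℕ => ((⌊c * W⌋₊ - 1 : ℕ) : ℝ) / W) atTop (𝓝 c) := by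
  have h1 : Tendsto (fun W : ℕ => c - 2 * (1 / (W : ℝ))) atTop (𝓝 (c - 2 * 0)) :=
    tendsto_const_nhds.sub (tendsto_inv_nat.const_mul 2)
  rw [mul_zero, sub_zero] at h1
  refine tendsto_of_tendsto_of_tendsto_of_le_of_le' h1 tendsto_const_nhds ?_ ?_
  · filter_upwards [eventually_ge_atTop 1] with W hW
    have hW0 : (0 : ℝ) < W := by exact_mod_cast hW
    have h2 := Nat.lt_floor_add_one (c * W)
    have h3 : (⌊c * W⌋₊ : ℝ) ≤ ((⌊c * W⌋₊ - 1 : ℕ) : ℝ) + 1 := by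
      have : ⌊c * W⌋₊ ≤ (⌊c * W⌋₊ - 1) + 1 := by omega
      exact_mod_cast this
    rw [le_div_iff₀ hW0]
    have : (c - 2 * (1 / (W : ℝ))) * W = c * W - 2 := by field_simp
    rw [this]
    linarith
  · filter_upwards [eventually_ge_atTop 1] with W hW
    have hW0 : (0 : ℝ) < W := by exact_mod_cast hW
    rw [div_le_iff₀ hW0]
    have h2 := Nat.floor_le (by positivity : 0 ≤ c * W)
    have h3 : ((⌊c * W⌋₊ - 1 : ℕ) : ℝ) ≤ (⌊c * W⌋₊ : ℝ) := by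
      exact_mod_cast Nat.sub_le _ _
    linarith

theorem tendsto_floor_mul {u : ℕ → ℕ} {c θ : ℝ} (hθ : 0 ≤ θ)
    (hu : Tendsto (fun W : ℕ => (u W : ℝ) / W) atTop (𝓝 c)) :
    Tendsto (fun W : ℕ => ((⌊θ * u W⌋₊ : ℕ) : ℝ) / W) atTop (𝓝 (θ * c)) := by
  have h1 : Tendsto (fun W : ℕ => θ * ((u W : ℝ) / W) - 1 / (W : ℝ)) atTop (𝓝 (θ * c - 0)) :=
    (hu.const_mul θ).sub tendsto_inv_nat
  rw [sub_zero] at h1
  refine tendsto_of_tendsto_of_tendsto_of_le_of_le' h1 (hu.const_mul θ) ?_ ?_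
  · filter_upwards [eventually_ge_atTop 1] with W hW
    have hW0 : (0 : ℝ) < W := by exact_mod_cast hW
    have h2 := Nat.lt_floor_add_one (θ * u W)
    rw [le_div_iff₀ hW0]
    have : (θ * ((u W : ℝ) / W) - 1 / (W : ℝ)) * W = θ * u W - 1 := by field_simp
    rw [this]
    linarith
  · filter_upwards [eventually_ge_atTop 1] with W hW
    have hW0 : (0 : ℝ) < W := by exact_mod_cast hW
    rw [div_le_iff₀ hW0]
    have h2 := Nat.floor_le (by positivity : 0 ≤ θ * u W)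
    have : θ * ((u W : ℝ) / W) * W = θ * u W := by field_simp
    rw [this]
    exact h2

theorem tendsto_log_one : Tendsto (fun W : ℕ => Real.log ((W : ℝ) + 1) / W) atTop (𝓝 0) := by
  have h1 : Tendsto (fun x : ℝ => Real.log x / x) atTop (𝓝 0) := by
    have := Real.isLittleO_log_id_atTop.tendsto_div_nhds_zero
    exact this
  have h2 : Tendsto (fun W : ℕ => (W : ℝ) + 1) atTop atTop :=
    tendsto_atTop_add_const_right _ _ tendsto_natCast_atTop_atTop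
  have h3 := (h1.comp h2).mul (tendsto_add_div 1)
  rw [zero_mul] at h3
  refine h3.congr' ?_
  filter_upwards [eventually_ge_atTop 1] with W hW
  have hW0 : (0 : ℝ) < W := by exact_mod_cast hW
  simp only [Function.comp]
  have : (0 : ℝ) < (W : ℝ) + 1 := by positivity
  field_simp

theorem arith_d {s T : ℝ} (hs : 1 ≤ s) (hT : 0 ≤ T) : 1 ≤ 2 * s * (T + 1) := by
  nlinarith

/-- squares with two kinds of loops, in the limit -/
theorem mix_ev {x : ℝ} (hx : 0 < x) {α β θ : ℝ} (hθ : 0 < θ) (hθ1 : θ < 1) {w : ℕ} (hw : 1 ≤ w)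
    (hr1 : 1 ≤ α * (w : ℝ) ^ 2) (hr2 : 1 ≤ β * (w : ℝ) ^ 2)
    (hb : (θ * α + (1 - θ) * β) * (w : ℝ) ^ 2 + 1 < (θ * α + (1 - θ) * β) * ((w : ℝ) + 1) ^ 2)
    {l : ℝ} (hl : l < (θ * (Real.log (Qr x (α * (w : ℝ) ^ 2) w) - Er w) +
      (1 - θ) * (Real.log (Qr x (β * (w : ℝ) ^ 2) w) - Er w)) / ((w : ℝ) + 1) ^ 2) :
    ∀ᶠ W : ℕ in atTop,
      l ≤ Real.log (Qr x ((θ * α + (1 - θ) * β) * (W : ℝ) ^ 2) W) / (W : ℝ) ^ 2 := by
  have hw1 : (0 : ℝ) < (w : ℝ) + 1 := by positivity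
  obtain ⟨c, hc⟩ : ∃ c : ℝ, c = 1 / (2 * ((w : ℝ) + 1)) := ⟨_, rfl⟩
  have hc0 : 0 < c := by rw [hc]; positivity
  have hc2 : 4 * c ^ 2 = 1 / ((w : ℝ) + 1) ^ 2 := by
    rw [hc]
    field_simp
    ring
  obtain ⟨s, hs⟩ : ∃ s : ℕ → ℕ, s = fun W : ℕ => ⌊c * (W : ℝ)⌋₊ - 1 := ⟨_, rfl⟩
  have hsl : Tendsto (fun W : ℕ => (s W : ℝ) / W) atTop (𝓝 c) := by
    rw [hs]
    exact tendsto_floor_sub hc0
  obtain ⟨s1, hs1⟩ : ∃ s1 : ℕ → ℕ, s1 = fun W : ℕ => ⌊θ * (s W : ℝ)⌋₊ := ⟨_, rfl⟩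
  have hs1l : Tendsto (fun W : ℕ => (s1 W : ℝ) / W) atTop (𝓝 (θ * c)) := by
    rw [hs1]
    exact tendsto_floor_mul hθ.le hsl
  have hle : ∀ W, s1 W ≤ s W := by
    intro W
    rw [hs1]
    simp only
    apply Nat.floor_le_of_le
    have : (0 : ℝ) ≤ s W := Nat.cast_nonneg _
    nlinarith
  obtain ⟨s2, hs2⟩ : ∃ s2 : ℕ → ℕ, s2 = fun W => s W - s1 W := ⟨_, rfl⟩
  have hsum : ∀ W, s1 W + s2 W = s W := by
    intro W
    rw [hs2]
    have := hle W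
    simp only
    omega
  have hsumr : ∀ W, (s1 W : ℝ) + s2 W = s W := by
    intro W
    exact_mod_cast hsum W
  have hs2l : Tendsto (fun W : ℕ => (s2 W : ℝ) / W) atTop (𝓝 ((1 - θ) * c)) := by
    have h1 := hsl.sub hs1l
    have e1 : c - θ * c = (1 - θ) * c := by ring
    rw [e1] at h1
    refine h1.congr ?_
    intro W
    rw [← sub_div, ← hsumr W]
    congr 1
    ring
  obtain ⟨A, hA⟩ : ∃ A, A = Real.log (Qr x (α * (w : ℝ) ^ 2) w) - Er w := ⟨_, rfl⟩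
  obtain ⟨B, hB⟩ : ∃ B, B = Real.log (Qr x (β * (w : ℝ) ^ 2) w) - Er w := ⟨_, rfl⟩
  obtain ⟨C, hC⟩ : ∃ C, C = 9 + Real.log ((w : ℝ) + 2) + 2 * ((w : ℝ) + 2) * |Real.log x| :=
    ⟨_, rfl⟩
  obtain ⟨γ, hγ⟩ : ∃ γ, γ = θ * α + (1 - θ) * β := ⟨_, rfl⟩
  rw [← hA, ← hB] at hl
  rw [← hγ] at hb ⊢
  -- the limit of the lower bound
  have hg : Tendsto (fun W : ℕ => 2 * ((s W : ℝ) / W) * (2 * ((s1 W : ℝ) / W) * A +
      2 * ((s2 W : ℝ) / W) * B) - 2 * ((s W : ℝ) / W) * (C * (1 / (W : ℝ)) +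
        7 * (Real.log ((W : ℝ) + 1) / W))) atTop
      (𝓝 (2 * c * (2 * (θ * c) * A + 2 * ((1 - θ) * c) * B) - 2 * c * (C * 0 + 7 * 0))) := by
    refine (((hsl.const_mul 2).mul (((hs1l.const_mul 2).mul_const A).add
      ((hs2l.const_mul 2).mul_const B)))).sub ((hsl.const_mul 2).mul
        ((tendsto_inv_nat.const_mul C).add (tendsto_log_one.const_mul 7)))
  have e0 : 2 * c * (2 * (θ * c) * A + 2 * ((1 - θ) * c) * B) - 2 * c * (C * 0 + 7 * 0) =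
      (θ * A + (1 - θ) * B) / ((w : ℝ) + 1) ^ 2 := by
    rw [div_eq_mul_one_div, ← hc2]
    ring
  rw [e0] at hg
  have hg1 := hg.eventually (lt_mem_nhds hl)
  -- the limit of the areas
  have hR : Tendsto (fun W : ℕ => 2 * ((s W : ℝ) / W) * (2 * ((s1 W : ℝ) / W) *
      (α * (w : ℝ) ^ 2 + 1) + 2 * ((s2 W : ℝ) / W) * (β * (w : ℝ) ^ 2 + 1) +
        (2 * w + 1) * (1 / (W : ℝ)))) atTop
      (𝓝 (2 * c * (2 * (θ * c) * (α * (w : ℝ) ^ 2 + 1) +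
        2 * ((1 - θ) * c) * (β * (w : ℝ) ^ 2 + 1) + (2 * w + 1) * 0))) := by
    refine (hsl.const_mul 2).mul ((((hs1l.const_mul 2).mul_const _).add
      ((hs2l.const_mul 2).mul_const _)).add (tendsto_inv_nat.const_mul _))
  have e1 : 2 * c * (2 * (θ * c) * (α * (w : ℝ) ^ 2 + 1) +
        2 * ((1 - θ) * c) * (β * (w : ℝ) ^ 2 + 1) + (2 * w + 1) * 0) =
      (γ * (w : ℝ) ^ 2 + 1) / ((w : ℝ) + 1) ^ 2 := by
    rw [div_eq_mul_one_div, ← hc2, hγ]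
    ring
  rw [e1] at hR
  have hb2 : (γ * (w : ℝ) ^ 2 + 1) / ((w : ℝ) + 1) ^ 2 < γ := by
    rw [div_lt_iff₀ (by positivity)]
    exact hb
  have hR1 := hR.eventually (gt_mem_nhds hb2)
  have hp1 := hs1l.eventually (lt_mem_nhds (by positivity : 0 < θ * c))
  have hp2 := hs2l.eventually (lt_mem_nhds (mul_pos (by linarith) hc0 : 0 < (1 - θ) * c))
  filter_upwards [hg1, hR1, hp1, hp2, eventually_ge_atTop 1] with W g1 g2 g3 g4 hW
  have hW0 : (0 : ℝ) < W := by exact_mod_cast hW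
  have k1 : 1 ≤ s1 W := by
    by_contra hcon
    have : s1 W = 0 := by omega
    rw [this] at g3
    simp at g3
  have k2 : 1 ≤ s2 W := by
    by_contra hcon
    have : s2 W = 0 := by omega
    rw [this] at g4
    simp at g4
  -- the size of the square
  have hsz : 2 * (s1 W + s2 W) * (w + 1) + 2 ≤ W := by
    have k3 : 1 ≤ s W := by rw [← hsum W]; omega
    have k4 : (s W : ℝ) + 1 ≤ c * W := by
      have h3 : ((⌊c * W⌋₊ : ℕ) : ℝ) ≤ c * W := Nat.floor_le (by positivity)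
      have h4 : s W + 1 = ⌊c * W⌋₊ := by
        have h5 : s W = ⌊c * W⌋₊ - 1 := by rw [hs]
        omega
      have h6 : ((s W + 1 : ℕ) : ℝ) = ((⌊c * W⌋₊ : ℕ) : ℝ) := by rw [h4]
      push_cast at h6
      linarith
    have k5 : 2 * ((w : ℝ) + 1) * ((s W : ℝ) + 1) ≤ W := by
      have := mul_le_mul_of_nonneg_left k4 (by positivity : (0 : ℝ) ≤ 2 * ((w : ℝ) + 1))
      have e2 : 2 * ((w : ℝ) + 1) * (c * W) = W := by
        rw [hc]
        field_simp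
      linarith
    have k6 : 2 * (w + 1) * (s W + 1) ≤ W := by exact_mod_cast k5
    rw [hsum W]
    nlinarith
  have M := mixQ hx hw hr1 hr2 k1 k2 (H := 2 * (s1 W + s2 W) * (w + 1) + 2) rfl
  rw [← hA, ← hB, hsumr W] at M
  obtain ⟨H, hH⟩ : ∃ H, H = 2 * (s1 W + s2 W) * (w + 1) + 2 := ⟨_, rfl⟩
  rw [← hH] at M hsz
  obtain ⟨R, hRR⟩ : ∃ R : ℝ, R = 2 * (s W : ℝ) * (2 * s1 W * (α * (w : ℝ) ^ 2 + 1) +
    2 * s2 W * (β * (w : ℝ) ^ 2 + 1) + 2 * w + 1) := ⟨_, rfl⟩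
  rw [← hRR] at M
  have hRle : R ≤ γ * (W : ℝ) ^ 2 := by
    have h3 : R / (W : ℝ) ^ 2 ≤ γ := by
      refine le_trans (le_of_eq ?_) g2.le
      rw [hRR]
      field_simp
      ring
    rwa [div_le_iff₀ (by positivity)] at h3
  have hR0 : 1 ≤ R := by
    have k1r : (1 : ℝ) ≤ s1 W := by exact_mod_cast k1
    have k2r : (1 : ℝ) ≤ s2 W := by exact_mod_cast k2
    have ksr : (1 : ℝ) ≤ s W := by rw [← hsumr W]; linarith
    have h3 : 0 ≤ 2 * s1 W * (α * (w : ℝ) ^ 2 + 1) + 2 * s2 W * (β * (w : ℝ) ^ 2 + 1) + 2 * w := by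
      have : 0 ≤ α * (w : ℝ) ^ 2 + 1 := by linarith
      have : 0 ≤ β * (w : ℝ) ^ 2 + 1 := by linarith
      positivity
    rw [hRR]
    exact arith_d ksr h3
  have hlog : Real.log (Qr x R H) ≤ Real.log (Qr x (γ * (W : ℝ) ^ 2) W) :=
    Real.log_le_log (Qr_pos hx hR0 (by omega)) (Qr_mono hx hRle hsz)
  have hlH : Real.log ((H : ℝ) + 1) ≤ Real.log ((W : ℝ) + 1) := by
    apply Real.log_le_log (by positivity)
    have : (H : ℝ) ≤ W := by exact_mod_cast hsz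
    linarith
  rw [le_div_iff₀ (by positivity)]
  have g5 := mul_le_mul_of_nonneg_right g1.le (by positivity : (0 : ℝ) ≤ (W : ℝ) ^ 2)
  refine g5.trans (le_trans ?_ (M.trans hlog))
  have e3 : (2 * ((s W : ℝ) / W) * (2 * ((s1 W : ℝ) / W) * A + 2 * ((s2 W : ℝ) / W) * B) -
      2 * ((s W : ℝ) / W) * (C * (1 / (W : ℝ)) + 7 * (Real.log ((W : ℝ) + 1) / W))) *
        (W : ℝ) ^ 2 = 2 * s W * (2 * s1 W * A + 2 * s2 W * B) -
          2 * s W * (C + 7 * Real.log ((W : ℝ) + 1)) := by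
    field_simp
  rw [e3, ← hC]
  have h7 := mul_le_mul_of_nonneg_left hlH (by positivity : (0 : ℝ) ≤ 2 * (s W : ℝ) * 7)
  linarith

/-- an abstract limit theorem -/
theorem lim_of {a b : ℕ → ℝ} {w0 : ℕ} {C : ℝ}
    (h1 : ∀ w, w0 ≤ w → ∀ l, l < b w → ∀ᶠ W in atTop, l ≤ a W)
    (h2 : Tendsto (fun w => a w - b w) atTop (𝓝 0)) (h3 : ∀ᶠ w in atTop, a w ≤ C) :
    ∃ l, Tendsto a atTop (𝓝 l) := by
  have hbd : ∀ w, w0 ≤ w → b w ≤ C := by
    intro w hw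
    refine le_of_forall_lt fun l hl => ?_
    obtain ⟨l', hl', hl''⟩ := exists_between hl
    obtain ⟨W, hW1, hW2⟩ := ((h1 w hw l' hl'').and h3).exists
    linarith
  obtain ⟨S, hS⟩ : ∃ S : Set ℝ, S = b '' Set.Ici w0 := ⟨_, rfl⟩
  have hSne : S.Nonempty := by rw [hS]; exact ⟨b w0, w0, Set.mem_Ici.2 le_rfl, rfl⟩
  have hSbd : BddAbove S := by
    refine ⟨C, ?_⟩
    rw [hS]
    rintro _ ⟨w, hw, rfl⟩
    exact hbd w hw
  refine ⟨sSup S, tendsto_order.2 ⟨fun l hl => ?_, fun u hu => ?_⟩⟩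
  · obtain ⟨y, hy, hly⟩ := exists_lt_of_lt_csSup hSne hl
    rw [hS] at hy
    obtain ⟨w, hw, rfl⟩ := hy
    obtain ⟨l', hl', hl''⟩ := exists_between hly
    filter_upwards [h1 w hw l' hl''] with W hW
    linarith
  · have h4 := h2.eventually (gt_mem_nhds (by linarith : 0 < u - sSup S))
    filter_upwards [h4, eventually_ge_atTop w0] with W hW1 hW2
    have h5 : b W ≤ sSup S := le_csSup hSbd (by rw [hS]; exact ⟨W, hW2, rfl⟩)
    linarith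

end Pool.Agent.K6.H36.PJ
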