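import Pool.Agent.K6.H36.PJ.Dm11

/-!
The entropy of the area of the polygons in a square, and the pressure.
-/

set_option autoImplicit false

namespace Pool.Agent.K6.H36.PJ

open Pool.Agent.N223.PS Pool.Agent.N457.PS Filter Topology

theorem ev_one_le {α : ℝ} (hα : 0 < α) : ∀ᶠ w : ℕ in atTop, 1 ≤ α * (w : ℝ) ^ 2 := by
  have h : Tendsto (fun w : ℕ => α * (w : ℝ) ^ 2) atTop atTop :=
    ((tendsto_pow_atTop (by norm_num : (2 : ℕ) ≠ 0)).comp
      tendsto_natCast_atTop_atTop).const_mul_atTop hα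
  exact h.eventually_ge_atTop 1

theorem ev_next {α : ℝ} (hα : 0 < α) :
    ∀ᶠ w : ℕ in atTop, α * (w : ℝ) ^ 2 + 1 < α * ((w : ℝ) + 1) ^ 2 := by
  have h : Tendsto (fun w : ℕ => α * (w : ℝ)) atTop atTop :=
    tendsto_natCast_atTop_atTop.const_mul_atTop hα
  filter_upwards [h.eventually_ge_atTop 1] with w hw
  nlinarith

theorem Er_tendsto : Tendsto (fun w : ℕ => Er w / ((w : ℝ) + 1) ^ 2) atTop (𝓝 0) := by
  have h1 : Tendsto (fun w : ℕ => 3 * ((1 / (w : ℝ)) * (1 / (w : ℝ))) +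
      6 * (Real.log ((w : ℝ) + 1) / (w : ℝ) ^ 2)) atTop (𝓝 (3 * (0 * 0) + 6 * 0)) :=
    ((tendsto_inv_nat.mul tendsto_inv_nat).const_mul 3).add (tendsto_log_sq.const_mul 6)
  have e0 : (3 : ℝ) * (0 * 0) + 6 * 0 = 0 := by ring
  rw [e0] at h1
  refine squeeze_zero' ?_ ?_ h1
  · filter_upwards [eventually_ge_atTop 1] with w hw
    have : (0 : ℝ) ≤ w := Nat.cast_nonneg _
    have := Real.log_nonneg (by linarith : (1 : ℝ) ≤ (w : ℝ) + 1)
    unfold Er
    positivity
  · filter_upwards [eventually_ge_atTop 1] with w hw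
    have hw0 : (0 : ℝ) < w := by exact_mod_cast hw
    have h0 := Real.log_nonneg (by linarith : (1 : ℝ) ≤ (w : ℝ) + 1)
    have e1 : 3 * ((1 / (w : ℝ)) * (1 / (w : ℝ))) + 6 * (Real.log ((w : ℝ) + 1) / (w : ℝ) ^ 2) =
        Er w / (w : ℝ) ^ 2 := by
      unfold Er
      field_simp
    rw [e1]
    apply div_le_div_of_nonneg_left _ (by positivity) (by nlinarith)
    unfold Er
    positivity

/-- the lower bounds of the blocks have the same limit -/
theorem block_tendsto {x α : ℝ} (hx : 0 < x) (hα : 0 < α) :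
    Tendsto (fun w : ℕ => Real.log (Qr x (α * (w : ℝ) ^ 2) w) / (w : ℝ) ^ 2 -
      (Real.log (Qr x (α * (w : ℝ) ^ 2) w) - Er w) / ((w : ℝ) + 1) ^ 2) atTop (𝓝 0) := by
  have ht : Tendsto (fun w : ℕ => 1 - 1 / (((w : ℝ) + 1) / w) ^ 2) atTop (𝓝 (1 - 1 / 1 ^ 2)) :=
    tendsto_const_nhds.sub (tendsto_const_nhds.div ((tendsto_add_div 1).pow 2) (by norm_num))
  have e0 : (1 : ℝ) - 1 / 1 ^ 2 = 0 := by norm_num
  rw [e0] at ht
  have hlo : Tendsto (fun w : ℕ => Real.log (x ^ 4 / 8) * ((1 / (w : ℝ)) * (1 / (w : ℝ))) *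
      (1 - 1 / (((w : ℝ) + 1) / w) ^ 2)) atTop (𝓝 (Real.log (x ^ 4 / 8) * (0 * 0) * 0)) :=
    ((tendsto_inv_nat.mul tendsto_inv_nat).const_mul _).mul ht
  have hhi : Tendsto (fun w : ℕ => Real.log (Zs x w) / (w : ℝ) ^ 2 *
      (1 - 1 / (((w : ℝ) + 1) / w) ^ 2)) atTop (𝓝 (lam x * 0)) := (lam_tendsto hx).mul ht
  rw [mul_zero] at hlo hhi
  have hmid : Tendsto (fun w : ℕ => Real.log (Qr x (α * (w : ℝ) ^ 2) w) / (w : ℝ) ^ 2 *
      (1 - 1 / (((w : ℝ) + 1) / w) ^ 2)) atTop (𝓝 0) := by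
    refine tendsto_of_tendsto_of_tendsto_of_le_of_le' hlo hhi ?_ ?_
    all_goals
      filter_upwards [eventually_ge_atTop 1, ev_one_le hα] with w hw hr
      have hw0 : (0 : ℝ) < w := by exact_mod_cast hw
      have ht0 : 0 ≤ 1 - 1 / (((w : ℝ) + 1) / w) ^ 2 := by
        have h1 : 1 ≤ ((w : ℝ) + 1) / w := by
          rw [one_le_div hw0]
          linarith
        have h2 : 1 ≤ (((w : ℝ) + 1) / w) ^ 2 := one_le_pow₀ h1
        have h3 : 1 / (((w : ℝ) + 1) / w) ^ 2 ≤ 1 := by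
          rw [div_le_one (by positivity)]
          exact h2
        linarith
      apply mul_le_mul_of_nonneg_right _ ht0
    · have h1 := Real.log_le_log (by positivity) (Qr_ge hx hr hw)
      have e1 : Real.log (x ^ 4 / 8) * ((1 / (w : ℝ)) * (1 / (w : ℝ))) =
        Real.log (x ^ 4 / 8) / (w : ℝ) ^ 2 := by field_simp
      rw [e1]
      exact div_le_div_of_nonneg_right h1 (by positivity)
    · apply div_le_div_of_nonneg_right _ (by positivity)
      exact Real.log_le_log (Qr_pos hx hr hw) (Qr_le hx _ _)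
  have h := hmid.add Er_tendsto
  rw [add_zero] at h
  refine h.congr' ?_
  filter_upwards [eventually_ge_atTop 1] with w hw
  have hw0 : (0 : ℝ) < w := by exact_mod_cast hw
  have hw1 : (0 : ℝ) < (w : ℝ) + 1 := by positivity
  field_simp
  ring

theorem exists_phi {x α : ℝ} (hx : 0 < x) (hα : 0 < α) : ∃ l : ℝ,
    Tendsto (fun W : ℕ => Real.log (Qr x (α * (W : ℝ) ^ 2) W) / (W : ℝ) ^ 2) atTop (𝓝 l) := by
  obtain ⟨w0, hw0⟩ := eventually_atTop.1
    ((ev_one_le hα).and ((ev_next hα).and (eventually_ge_atTop 1)))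
  have e : (1 / 2 : ℝ) * α + (1 - 1 / 2) * α = α := by ring
  refine lim_of (b := fun w : ℕ => (Real.log (Qr x (α * (w : ℝ) ^ 2) w) - Er w) /
    ((w : ℝ) + 1) ^ 2) (w0 := w0) (C := lam x + 1) ?_ (block_tendsto hx hα) ?_
  · intro w hw l hl
    obtain ⟨h1, h2, h3⟩ := hw0 w hw
    have h := mix_ev hx (α := α) (β := α) (θ := 1 / 2) (by norm_num) (by norm_num) h3 h1 h1
      (by rw [e]; exact h2) (l := l) (by
        refine lt_of_lt_of_le hl (le_of_eq ?_)
        ring)
    rw [e] at h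
    exact h
  · have h4 := (lam_tendsto hx).eventually (gt_mem_nhds (by linarith : lam x < lam x + 1))
    filter_upwards [h4, eventually_ge_atTop 1, ev_one_le hα] with w w4 hw hr
    refine le_trans ?_ w4.le
    apply div_le_div_of_nonneg_right _ (by positivity)
    exact Real.log_le_log (Qr_pos hx hr hw) (Qr_le hx _ _)

/-- the entropy -/
noncomputable def phi (x α : ℝ) : ℝ :=
  if h : 0 < x ∧ 0 < α then Classical.choose (exists_phi h.1 h.2) else 0

theorem phi_tendsto {x α : ℝ} (hx : 0 < x) (hα : 0 < α) :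
    Tendsto (fun W : ℕ => Real.log (Qr x (α * (W : ℝ) ^ 2) W) / (W : ℝ) ^ 2) atTop
      (𝓝 (phi x α)) := by
  unfold phi
  rw [dif_pos ⟨hx, hα⟩]
  exact Classical.choose_spec (exists_phi hx hα)

theorem phi_mono {x : ℝ} (hx : 0 < x) {α β : ℝ} (hα : 0 < α) (h : α ≤ β) : phi x α ≤ phi x β := by
  refine le_of_tendsto_of_tendsto (phi_tendsto hx hα) (phi_tendsto hx (by linarith)) ?_
  filter_upwards [eventually_ge_atTop 1, ev_one_le hα] with w hw hr
  apply div_le_div_of_nonneg_right _ (by positivity)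
  exact Real.log_le_log (Qr_pos hx hr hw)
    (Qr_mono hx (mul_le_mul_of_nonneg_right h (by positivity)) le_rfl)

theorem phi_le_lam {x : ℝ} (hx : 0 < x) {α : ℝ} (hα : 0 < α) : phi x α ≤ lam x := by
  refine le_of_tendsto_of_tendsto (phi_tendsto hx hα) (lam_tendsto hx) ?_
  filter_upwards [eventually_ge_atTop 1, ev_one_le hα] with w hw hr
  apply div_le_div_of_nonneg_right _ (by positivity)
  exact Real.log_le_log (Qr_pos hx hr hw) (Qr_le hx _ _)

theorem phi_nonneg {x : ℝ} (hx : 0 < x) {α : ℝ} (hα : 0 < α) : 0 ≤ phi x α := by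
  have h1 : Tendsto (fun w : ℕ => Real.log (x ^ 4 / 8) * ((1 / (w : ℝ)) * (1 / (w : ℝ)))) atTop
      (𝓝 (Real.log (x ^ 4 / 8) * (0 * 0))) := (tendsto_inv_nat.mul tendsto_inv_nat).const_mul _
  rw [mul_zero, mul_zero] at h1
  refine le_of_tendsto_of_tendsto h1 (phi_tendsto hx hα) ?_
  filter_upwards [eventually_ge_atTop 1, ev_one_le hα] with w hw hr
  have hw0 : (0 : ℝ) < w := by exact_mod_cast hw
  have h1 := Real.log_le_log (by positivity) (Qr_ge hx hr hw)
  have e1 : Real.log (x ^ 4 / 8) * ((1 / (w : ℝ)) * (1 / (w : ℝ))) =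
    Real.log (x ^ 4 / 8) / (w : ℝ) ^ 2 := by field_simp
  rw [e1]
  exact div_le_div_of_nonneg_right h1 (by positivity)

theorem phi_one {x : ℝ} (hx : 0 < x) : phi x 1 = lam x := by
  refine tendsto_nhds_unique (phi_tendsto hx one_pos) ((lam_tendsto hx).congr ?_)
  intro w
  rw [Qr_eq (by rw [one_mul])]

/-- the entropy is concave -/
theorem phi_concave {x : ℝ} (hx : 0 < x) : ConcaveOn ℝ (Set.Ioi 0) (phi x) := by
  refine ⟨convex_Ioi 0, ?_⟩
  intro α hα β hβ a b ha hb hab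
  rw [Set.mem_Ioi] at hα hβ
  simp only [smul_eq_mul]
  rcases ha.eq_or_lt with h0 | h0
  · have h1 : b = 1 := by linarith
    rw [← h0, h1]
    simp
  rcases hb.eq_or_lt with h0' | h0'
  · have h1 : a = 1 := by linarith
    rw [← h0', h1]
    simp
  have hb1 : b = 1 - a := by linarith
  subst hb1
  have hγ : 0 < a * α + (1 - a) * β := by positivity
  have hlim : Tendsto (fun w : ℕ => (a * (Real.log (Qr x (α * (w : ℝ) ^ 2) w) - Er w) +
      (1 - a) * (Real.log (Qr x (β * (w : ℝ) ^ 2) w) - Er w)) / ((w : ℝ) + 1) ^ 2) atTop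
      (𝓝 (a * phi x α + (1 - a) * phi x β)) := by
    have h1 := (phi_tendsto hx hα).sub (block_tendsto hx hα)
    have h2 := (phi_tendsto hx hβ).sub (block_tendsto hx hβ)
    have h3 := (h1.const_mul a).add (h2.const_mul (1 - a))
    rw [sub_zero, sub_zero] at h3
    refine h3.congr ?_
    intro w
    rw [sub_sub_cancel, sub_sub_cancel]
    ring
  refine le_of_forall_lt fun l hl => ?_
  obtain ⟨l', hl', hl''⟩ := exists_between hl
  refine lt_of_lt_of_le hl' ?_
  obtain ⟨w, h1, h2, h3, h4, h5⟩ := ((hlim.eventually (lt_mem_nhds hl'')).and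
    ((ev_one_le hα).and ((ev_one_le hβ).and ((ev_next hγ).and (eventually_ge_atTop 1))))).exists
  exact ge_of_tendsto (phi_tendsto hx hγ) (mix_ev hx h0 (by linarith) h5 h2 h3 h4 h1)

/-! ### the Legendre transform -/

/-- the trivial bound -/
theorem phi_le {x : ℝ} (hx : 0 < x) {α : ℝ} (hα : 0 < α) {e : ℝ} (he : 0 ≤ e) :
    phi x α ≤ lam2 x e + e * α := by
  classical
  have h1 := (phi_tendsto hx hα).sub_const (e * α)
  have h2 : phi x α - e * α ≤ lam2 x e := by
    refine le_of_tendsto_of_tendsto h1 (lam2_tendsto hx e) ?_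
    filter_upwards [eventually_ge_atTop 1, ev_one_le hα] with w hw hr
    have hw0 : (0 : ℝ) < w := by exact_mod_cast hw
    have h3 : Real.exp (-(e * (α * (w : ℝ) ^ 2))) * Qr x (α * (w : ℝ) ^ 2) w ≤ Zw x e w := by
      unfold Qr Zw
      rw [Finset.mul_sum]
      refine Finset.sum_le_sum fun n _ => ?_
      have h4 : Real.exp (-(e * (α * (w : ℝ) ^ 2))) * Br (α * (w : ℝ) ^ 2) w w (2 * n) ≤
          Bw e w w (2 * n) := by
        unfold Br Bw
        rw [Finset.mul_sum]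
        refine Finset.sum_le_sum fun f _ => ?_
        by_cases H : (Nr (w : ℤ) f ∧ Lw (w : ℤ) f) ∧ (area (2 * n) f : ℝ) ≤ α * (w : ℝ) ^ 2
        · rw [if_pos H, if_pos H.1, mul_one]
          unfold ex
          apply Real.exp_le_exp.2
          have := mul_le_mul_of_nonneg_left H.2 he
          linarith
        · rw [if_neg H, mul_zero]
          split_ifs
          · exact (ex_pos e f).le
          · exact le_rfl
      have h5 := mul_le_mul_of_nonneg_right (div_le_div_of_nonneg_right h4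
        (by positivity : (0 : ℝ) ≤ 4 * n)) (by positivity : (0 : ℝ) ≤ x ^ (2 * n))
      refine le_trans (le_of_eq ?_) h5
      ring
    have hQ := Qr_pos hx hr hw
    have h6 := Real.log_le_log (by positivity) h3
    rw [Real.log_mul (Real.exp_pos _).ne' hQ.ne', Real.log_exp] at h6
    rw [le_div_iff₀ (by positivity)]
    refine le_trans (le_of_eq ?_) h6
    field_simp
    ring
  linarith

/-- the sum over the values of the area -/
theorem Zw_le_sum {x : ℝ} (hx : 0 < x) {e : ℝ} (he : 0 ≤ e) {J : ℕ} (hJ : 1 ≤ J) (w : ℕ) :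
    Zw x e w ≤ ∑ j ∈ Finset.range J, Real.exp (-(e * ((j : ℝ) / J * (w : ℝ) ^ 2))) *
      Qr x (((j : ℝ) + 1) / J * (w : ℝ) ^ 2) w := by
  classical
  have hJ0 : (0 : ℝ) < J := by exact_mod_cast hJ
  have key : ∀ L : ℕ, 0 < L → Bw e w w L ≤ ∑ j ∈ Finset.range J,
      Real.exp (-(e * ((j : ℝ) / J * (w : ℝ) ^ 2))) *
        Br (((j : ℝ) + 1) / J * (w : ℝ) ^ 2) w w L := by
    intro L hL
    have : NeZero L := ⟨by omega⟩
    unfold Bw Br
    simp only [Finset.mul_sum]
    rw [Finset.sum_comm]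
    refine Finset.sum_le_sum fun f hf => ?_
    have hnn : ∀ j ∈ Finset.range J, 0 ≤ Real.exp (-(e * ((j : ℝ) / J * (w : ℝ) ^ 2))) *
        (if (Nr (w : ℤ) f ∧ Lw (w : ℤ) f) ∧ (area L f : ℝ) ≤ ((j : ℝ) + 1) / J * (w : ℝ) ^ 2
          then (1 : ℝ) else 0) := by
      intro j _
      split_ifs <;> positivity
    by_cases H : Nr (w : ℤ) f ∧ Lw (w : ℤ) f
    · rw [if_pos H]
      have h1 := area_le_box ((mem_LF hL).1 hf) H.1 H.2
      have h2 : (area L f : ℝ) ≤ (w : ℝ) ^ 2 := by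
        have : (area L f : ℝ) ≤ ((w * w : ℕ) : ℝ) := by exact_mod_cast h1
        push_cast at this
        linarith [this, pow_two (w : ℝ)]
      have hex : ∃ j : ℕ, (area L f : ℝ) ≤ ((j : ℝ) + 1) / J * (w : ℝ) ^ 2 := by
        refine ⟨J - 1, ?_⟩
        have : ((J - 1 : ℕ) : ℝ) + 1 = J := by
          have : J - 1 + 1 = J := by omega
          exact_mod_cast this
        rw [this, div_self hJ0.ne', one_mul]
        exact h2
      obtain ⟨j, hj⟩ : ∃ j, j = Nat.find hex := ⟨_, rfl⟩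
      have hj1 : (area L f : ℝ) ≤ ((j : ℝ) + 1) / J * (w : ℝ) ^ 2 := by
        rw [hj]
        exact Nat.find_spec hex
      have hj2 : j < J := by
        rw [hj]
        refine lt_of_le_of_lt (Nat.find_min' hex (m := J - 1) ?_) (by omega)
        have : ((J - 1 : ℕ) : ℝ) + 1 = J := by
          have : J - 1 + 1 = J := by omega
          exact_mod_cast this
        rw [this, div_self hJ0.ne', one_mul]
        exact h2
      have hj3 : (j : ℝ) / J * (w : ℝ) ^ 2 ≤ area L f := by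
        rcases Nat.eq_zero_or_pos j with h0 | h0
        · rw [h0]
          simp
        · have h3 : ¬ (area L f : ℝ) ≤ (((j - 1 : ℕ) : ℝ) + 1) / J * (w : ℝ) ^ 2 := by
            apply Nat.find_min hex
            rw [← hj]
            omega
          have : ((j - 1 : ℕ) : ℝ) + 1 = j := by
            have : j - 1 + 1 = j := by omega
            exact_mod_cast this
          rw [this] at h3
          exact (not_le.1 h3).le
      have h4 := Finset.single_le_sum hnn (Finset.mem_range.2 hj2)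
      rw [if_pos ⟨H, hj1⟩, mul_one] at h4
      refine le_trans ?_ h4
      unfold ex
      apply Real.exp_le_exp.2
      have := mul_le_mul_of_nonneg_left hj3 he
      linarith
    · rw [if_neg H]
      exact Finset.sum_nonneg hnn
  unfold Zw Qr
  simp only [Finset.mul_sum]
  rw [Finset.sum_comm]
  refine Finset.sum_le_sum fun n hn => ?_
  rw [Finset.mem_Icc] at hn
  have h5 := mul_le_mul_of_nonneg_right (div_le_div_of_nonneg_right (key (2 * n) (by omega))
    (by positivity : (0 : ℝ) ≤ 4 * n)) (by positivity : (0 : ℝ) ≤ x ^ (2 * n))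
  refine h5.trans (le_of_eq ?_)
  rw [Finset.sum_div, Finset.sum_mul]
  refine Finset.sum_congr rfl fun j _ => ?_
  ring

/-- the supporting lines -/
theorem lam2_le_phi {x : ℝ} (hx : 0 < x) {α : ℝ} {e : ℝ} (he : 0 ≤ e)
    (h : ∀ β : ℝ, 0 < β → phi x β ≤ phi x α + e * (β - α)) : lam2 x e ≤ phi x α - e * α := by
  refine le_of_forall_pos_le_add fun δ hδ => ?_
  obtain ⟨J, hJ⟩ : ∃ J : ℕ, J = ⌈2 * e / δ⌉₊ + 1 := ⟨_, rfl⟩
  have hJ1 : 1 ≤ J := by omega
  have hJ0 : (0 : ℝ) < J := by exact_mod_cast hJ1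
  have hJe : e / J ≤ δ / 2 := by
    have h1 : 2 * e / δ ≤ J := by
      have := Nat.le_ceil (2 * e / δ)
      rw [hJ]
      push_cast
      linarith
    rw [div_le_iff₀ hδ] at h1
    rw [div_le_div_iff₀ hJ0 (by norm_num)]
    linarith
  obtain ⟨M, hM⟩ : ∃ M, M = phi x α - e * α + δ := ⟨_, rfl⟩
  rw [← hM]
  -- the terms
  have hterm : ∀ j ∈ Finset.range J, ∀ᶠ w : ℕ in atTop,
      Real.exp (-(e * ((j : ℝ) / J * (w : ℝ) ^ 2))) * Qr x (((j : ℝ) + 1) / J * (w : ℝ) ^ 2) w ≤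
        Real.exp ((w : ℝ) ^ 2 * M) := by
    intro j _
    have hβ : 0 < ((j : ℝ) + 1) / J := by positivity
    have h1 := (phi_tendsto hx hβ).eventually (gt_mem_nhds (by linarith :
      phi x (((j : ℝ) + 1) / J) < phi x (((j : ℝ) + 1) / J) + δ / 2))
    filter_upwards [h1, eventually_ge_atTop 1, ev_one_le hβ] with w h2 hw hr
    have hw0 : (0 : ℝ) < w := by exact_mod_cast hw
    have hQ := Qr_pos hx hr hw
    rw [div_lt_iff₀ (by positivity)] at h2
    have h3 : Qr x (((j : ℝ) + 1) / J * (w : ℝ) ^ 2) w ≤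
        Real.exp ((phi x (((j : ℝ) + 1) / J) + δ / 2) * (w : ℝ) ^ 2) := by
      rw [← Real.exp_log hQ]
      exact Real.exp_le_exp.2 h2.le
    refine (mul_le_mul_of_nonneg_left h3 (Real.exp_pos _).le).trans ?_
    rw [← Real.exp_add]
    apply Real.exp_le_exp.2
    have h4 := h _ hβ
    have h5 : phi x (((j : ℝ) + 1) / J) + δ / 2 - e * (j / J) ≤ M := by
      have e1 : e * (((j : ℝ) + 1) / J - α) = e * (j / J) + e / J - e * α := by ring
      rw [e1] at h4
      rw [hM]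
      linarith
    have h6 := mul_le_mul_of_nonneg_right h5 (by positivity : (0 : ℝ) ≤ (w : ℝ) ^ 2)
    linarith
  have hall : ∀ᶠ w : ℕ in atTop, ∀ j ∈ Finset.range J,
      Real.exp (-(e * ((j : ℝ) / J * (w : ℝ) ^ 2))) * Qr x (((j : ℝ) + 1) / J * (w : ℝ) ^ 2) w ≤
        Real.exp ((w : ℝ) ^ 2 * M) := (Filter.eventually_all_finset _).2 hterm
  have hlim : Tendsto (fun w : ℕ => Real.log J * ((1 / (w : ℝ)) * (1 / (w : ℝ))) + M) atTop
      (𝓝 (Real.log J * (0 * 0) + M)) :=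
    ((tendsto_inv_nat.mul tendsto_inv_nat).const_mul _).add_const M
  rw [mul_zero, mul_zero, zero_add] at hlim
  refine le_of_tendsto_of_tendsto (lam2_tendsto hx e) hlim ?_
  filter_upwards [hall, eventually_ge_atTop 1] with w h1 hw
  have hw0 : (0 : ℝ) < w := by exact_mod_cast hw
  have h2 : Zw x e w ≤ J * Real.exp ((w : ℝ) ^ 2 * M) := by
    refine (Zw_le_sum hx he hJ1 w).trans ((Finset.sum_le_card_nsmul _ _ _ h1).trans ?_)
    rw [Finset.card_range, nsmul_eq_mul]
  have h3 := Real.log_le_log (Zw_pos hx e hw) h2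
  rw [Real.log_mul hJ0.ne' (Real.exp_pos _).ne', Real.log_exp] at h3
  rw [div_le_iff₀ (by positivity)]
  refine h3.trans (le_of_eq ?_)
  field_simp

/-- the slope of a supporting line -/
theorem exists_slope {f : ℝ → ℝ} (hf : ConcaveOn ℝ (Set.Ioi 0) f)
    (hm : ∀ α β : ℝ, 0 < α → α ≤ β → f α ≤ f β) {α : ℝ} (hα : 0 < α) :
    ∃ e : ℝ, 0 ≤ e ∧ ∀ β : ℝ, 0 < β → f β ≤ f α + e * (β - α) := by
  obtain ⟨S, hS⟩ : ∃ S : Set ℝ, S = (fun β => (f α - f β) / (α - β)) '' Set.Ioo 0 α := ⟨_, rfl⟩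
  have hne : S.Nonempty := by
    rw [hS]
    exact ⟨_, α / 2, ⟨by linarith, by linarith⟩, rfl⟩
  have hlow : ∀ γ, α < γ → ∀ y ∈ S, (f γ - f α) / (γ - α) ≤ y := by
    intro γ hγ y hy
    rw [hS] at hy
    obtain ⟨β, hβ, rfl⟩ := hy
    exact hf.slope_anti_adjacent (Set.mem_Ioi.2 hβ.1) (Set.mem_Ioi.2 (by linarith)) hβ.2 hγ
  have h0 : ∀ y ∈ S, 0 ≤ y := by
    intro y hy
    rw [hS] at hy
    obtain ⟨β, hβ, rfl⟩ := hy
    exact div_nonneg (by linarith [hm β α hβ.1 hβ.2.le]) (by linarith [hβ.2])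
  have hbd : BddBelow S := ⟨0, fun y hy => h0 y hy⟩
  refine ⟨sInf S, le_csInf hne h0, fun β hβ => ?_⟩
  rcases lt_trichotomy β α with h | h | h
  · have h1 : sInf S ≤ (f α - f β) / (α - β) := csInf_le hbd (by
      rw [hS]
      exact ⟨β, ⟨hβ, h⟩, rfl⟩)
    rw [le_div_iff₀ (by linarith)] at h1
    linarith
  · rw [h]
    simp
  · have h1 : (f β - f α) / (β - α) ≤ sInf S := le_csInf hne (hlow β h)
    rw [div_le_iff₀ (by linarith)] at h1
    linarith

/-- the entropy is the Legendre transform of the pressure -/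
theorem phi_eq {x : ℝ} (hx : 0 < x) {α : ℝ} (hα : 0 < α) :
    ∃ e : ℝ, 0 ≤ e ∧ phi x α = lam2 x e + e * α := by
  obtain ⟨e, he, h⟩ := exists_slope (phi_concave hx) (fun α β h1 h2 => phi_mono hx h1 h2) hα
  refine ⟨e, he, le_antisymm (phi_le hx hα he) ?_⟩
  have := lam2_le_phi hx he h
  linarith

end Pool.Agent.K6.H36.PJ
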