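import Pool.Agent.K6.H36.PJ.Dm12

/-!
The upper tail of the area of the polygons in a square.
-/

set_option autoImplicit false

namespace Pool.Agent.K6.H36.PJ

open Pool.Agent.N223.PS Pool.Agent.N457.PS Filter Topology

open scoped Classical in
/-- the sum of a function of the area over the rooted loops of width at most `w` and height at
most `h` -/
noncomputable def Bg (φ : ℕ → ℝ) (w h : ℤ) (L : ℕ) : ℝ :=
  ∑ f ∈ LF L, if Nr w f ∧ Lw h f then φ (area L f) else 0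

/-- the sum of `x ^ |P| φ(area P)` over the polygons in a square of side `w` -/
noncomputable def Sg (x : ℝ) (φ : ℕ → ℝ) (w : ℕ) : ℝ :=
  ∑ n ∈ Finset.Icc 2 ((w + 1) ^ 2), Bg φ w w (2 * n) / (4 * n) * x ^ (2 * n)

theorem Bg_nonneg {φ : ℕ → ℝ} (hφ : ∀ a, 0 ≤ φ a) (w h : ℤ) (L : ℕ) : 0 ≤ Bg φ w h L := by
  unfold Bg
  exact Finset.sum_nonneg fun f _ => by
    split_ifs
    · exact hφ _
    · exact le_rfl

theorem gterm_nonneg {x : ℝ} (hx : 0 < x) {φ : ℕ → ℝ} (hφ : ∀ a, 0 ≤ φ a) (w n : ℕ) :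
    0 ≤ Bg φ w w (2 * n) / (4 * n) * x ^ (2 * n) := by
  have := Bg_nonneg hφ w w (2 * n)
  positivity

theorem Bg_mono {φ ψ : ℕ → ℝ} (hψ : ∀ a, 0 ≤ ψ a) (h : ∀ a, φ a ≤ ψ a) {w w' v v' : ℤ}
    (hw : w ≤ w') (hv : v ≤ v') (L : ℕ) : Bg φ w v L ≤ Bg ψ w' v' L := by
  classical
  unfold Bg
  refine Finset.sum_le_sum fun f _ => ?_
  by_cases H : Nr w f ∧ Lw v f
  · rw [if_pos H, if_pos ⟨fun i j => (H.1 i j).trans hw, fun i j => (H.2 i j).trans hv⟩]
    exact h _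
  · rw [if_neg H]
    split_ifs
    · exact hψ _
    · exact le_rfl

theorem Sg_mono {x : ℝ} (hx : 0 < x) {φ ψ : ℕ → ℝ} (hψ : ∀ a, 0 ≤ ψ a) (h : ∀ a, φ a ≤ ψ a)
    {w w' : ℕ} (hw : w ≤ w') : Sg x φ w ≤ Sg x ψ w' := by
  unfold Sg
  refine le_trans (Finset.sum_le_sum (g := fun n => Bg ψ w' w' (2 * n) / (4 * n) * x ^ (2 * n))
    fun n _ => ?_) ?_
  · apply mul_le_mul_of_nonneg_right _ (by positivity)
    apply div_le_div_of_nonneg_right _ (by positivity)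
    exact Bg_mono hψ h (by exact_mod_cast hw) (by exact_mod_cast hw) _
  · apply Finset.sum_le_sum_of_subset_of_nonneg
    · apply Finset.Icc_subset_Icc le_rfl
      exact Nat.pow_le_pow_left (by omega) 2
    · intro n _ _
      exact gterm_nonneg hx hψ w' n

/-- the exchange of the inside and the outside, for a given length -/
theorem gdual_L {φ ψ : ℕ → ℝ} (hφ : ∀ a, 0 ≤ φ a) (hψ : ∀ a, 0 ≤ ψ a) (w : ℕ)
    (h : ∀ a b, b + a + 1 = (w + 2) * (w + 2) → φ a ≤ ψ b) {L : ℕ} (hL : 3 ≤ L) :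
    Bg φ w w L ≤ 2 * L * (((w : ℝ) + 1) * Bg ψ (w + 2 : ℕ) (w + 2 : ℕ) (4 * w + 8 + L)) := by
  classical
  have i1 : NeZero L := ⟨by omega⟩
  have hinv : Inv (fun f : ZMod L → ℤ × ℤ =>
      if Nr (w : ℤ) f ∧ Lw (w : ℤ) f then φ (area L f) else 0) := by
    refine ⟨fun f => ?_, fun f s hf => ?_, fun f hf => ?_⟩
    · split_ifs
      · exact hφ _
      · exact le_rfl
    · simp only [nr_rot, lw_rot, area_rot]
    · simp only [nr_rev, lw_rev, area_rev hf]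
  have h1 := sum_loops_le hL hinv
  have h2 : Bg φ w w L ≤ 2 * L * ∑ f ∈ TF L,
      (if Nr (w : ℤ) f ∧ Lw (w : ℤ) f then φ (area L f) else 0) := h1
  refine h2.trans (mul_le_mul_of_nonneg_left ?_ (by positivity))
  have h3 : ∑ f ∈ TF L, (if Nr (w : ℤ) f ∧ Lw (w : ℤ) f then φ (area L f) else 0) ≤
      ∑ a ∈ Finset.range (w + 1), ∑ f ∈ TF L, if Cb w a f then φ (area L f) else 0 := by
    rw [Finset.sum_comm]
    refine Finset.sum_le_sum fun f hf => ?_
    have hnn : ∀ a ∈ Finset.range (w + 1), 0 ≤ (if Cb w a f then φ (area L f) else 0) := by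
      intro a _
      split_ifs
      · exact hφ _
      · exact le_rfl
    by_cases H : Nr (w : ℤ) f ∧ Lw (w : ℤ) f
    · rw [if_pos H]
      obtain ⟨a, ha, hab⟩ := exists_Cb ((mem_TF (by omega)).1 hf) H.1 H.2
      have h4 := Finset.single_le_sum hnn ha
      rwa [if_pos hab] at h4
    · rw [if_neg H]
      exact Finset.sum_nonneg hnn
  refine h3.trans ?_
  have h4 : ∀ a ∈ Finset.range (w + 1), ∑ f ∈ TF L, (if Cb w a f then φ (area L f) else 0) ≤
      Bg ψ (w + 2 : ℕ) (w + 2 : ℕ) (4 * w + 8 + L) := by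
    intro a ha
    rw [Finset.mem_range] at ha
    have haw : a ≤ w := by omega
    have hM2 : 4 * w + 8 = 2 * (w - a + 1) + 2 * (w + 2) + 2 * (a + 1) := by omega
    rw [hM2]
    rw [← Finset.sum_filter]
    have h5 := sum_le_of_inj ((TF L).filter (fun f => Cb w a f))
      (LF (2 * (w - a + 1) + 2 * (w + 2) + 2 * (a + 1) + L))
      (fun f => join (2 * (w - a + 1) + 2 * (w + 2) + 2 * (a + 1)) L (fr w a) f)
      (fun J => if Nr ((w + 2 : ℕ) : ℤ) J ∧ Lw ((w + 2 : ℕ) : ℤ) J then ψ (area _ J) else 0)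
      (fun J _ => by
        split_ifs
        · exact hψ _
        · exact le_rfl)
      (fun f hf => by
        rw [Finset.mem_filter] at hf
        have hf1 := (mem_TF (by omega)).1 hf.1
        exact (mem_LF (by omega)).2 (frame hL haw hf1 hf.2).1)
      (fun f hf f' hf' h => by
        rw [Finset.mem_filter] at hf hf'
        have hf1 := (mem_TF (by omega)).1 hf.1
        have hf1' := (mem_TF (by omega)).1 hf'.1
        exact join_inj' (by omega) hf1.loop.1 hf1'.loop.1 h)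
    refine le_trans (Finset.sum_le_sum fun f hf => ?_) h5
    rw [Finset.mem_filter] at hf
    have hf1 := (mem_TF (by omega)).1 hf.1
    obtain ⟨-, g2, g3, g4⟩ := frame hL haw hf1 hf.2
    rw [if_pos ⟨g3, g4⟩]
    exact h _ _ g2
  refine (Finset.sum_le_sum h4).trans (le_of_eq ?_)
  rw [Finset.sum_const, Finset.card_range, nsmul_eq_mul]
  push_cast
  ring

/-- the factor of the exchange -/
noncomputable def Cx (x : ℝ) (w : ℕ) : ℝ :=
  ((w : ℝ) + 1) * (4 * ((w : ℝ) + 3) ^ 2 / x ^ (4 * w + 8))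

theorem Cx_pos {x : ℝ} (hx : 0 < x) (w : ℕ) : 0 < Cx x w := by
  unfold Cx
  positivity

/-- the exchange of the inside and the outside -/
theorem gdual {x : ℝ} (hx : 0 < x) {φ ψ : ℕ → ℝ} (hφ : ∀ a, 0 ≤ φ a) (hψ : ∀ a, 0 ≤ ψ a) (w : ℕ)
    (h : ∀ a b, b + a + 1 = (w + 2) * (w + 2) → φ a ≤ ψ b) :
    Sg x φ w ≤ Cx x w * Sg x ψ (w + 2) := by
  classical
  obtain ⟨A, hA⟩ : ∃ A : ℝ, A = (w : ℝ) + 1 := ⟨_, rfl⟩
  have hA0 : 0 < A := by rw [hA]; positivity
  obtain ⟨C, hC⟩ : ∃ C : ℝ, C = 4 * ((w : ℝ) + 3) ^ 2 / x ^ (4 * w + 8) := ⟨_, rfl⟩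
  have hC0 : 0 < C := by rw [hC]; positivity
  unfold Cx
  rw [← hA, ← hC]
  have h1 : ∀ n ∈ Finset.Icc 2 ((w + 1) ^ 2), Bg φ w w (2 * n) / (4 * n) * x ^ (2 * n) ≤
      A * C * (Bg ψ (w + 2 : ℕ) (w + 2 : ℕ) (2 * (n + (2 * w + 4))) /
        (4 * ((n + (2 * w + 4) : ℕ) : ℝ)) * x ^ (2 * (n + (2 * w + 4)))) := by
    intro n hn
    rw [Finset.mem_Icc] at hn
    have hn0 : (0 : ℝ) < n := by exact_mod_cast (by omega : 0 < n)
    have h2 := gdual_L hφ hψ w h (L := 2 * n) (by omega)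
    have e1 : 4 * w + 8 + 2 * n = 2 * (n + (2 * w + 4)) := by ring
    rw [e1] at h2
    obtain ⟨m, hm⟩ : ∃ m, m = n + (2 * w + 4) := ⟨_, rfl⟩
    rw [← hm] at h2 ⊢
    obtain ⟨B, hB⟩ : ∃ B, B = Bg ψ (w + 2 : ℕ) (w + 2 : ℕ) (2 * m) := ⟨_, rfl⟩
    have hB0 : 0 ≤ B := by rw [hB]; exact Bg_nonneg hψ _ _ _
    rw [← hB] at h2 ⊢
    have hm0 : (0 : ℝ) < m := by exact_mod_cast (by omega : 0 < m)
    have hmle : (m : ℝ) ≤ ((w : ℝ) + 3) ^ 2 := by
      have : m ≤ (w + 3) ^ 2 := by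
        have e2 : (w + 3) ^ 2 = (w + 1) ^ 2 + (4 * w + 8) := by ring
        omega
      exact_mod_cast this
    have h3 : Bg φ w w (2 * n) / (4 * n) * x ^ (2 * n) ≤ A * B * x ^ (2 * n) := by
      apply mul_le_mul_of_nonneg_right _ (by positivity)
      rw [div_le_iff₀ (by positivity)]
      refine h2.trans (le_of_eq ?_)
      rw [hA]
      push_cast
      ring
    refine h3.trans ?_
    have e3 : x ^ (2 * m) = x ^ (2 * n) * x ^ (4 * w + 8) := by
      rw [← pow_add]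
      congr 1
      omega
    have h4 : B * x ^ (2 * n) ≤ C * (B / (4 * m) * x ^ (2 * m)) := by
      rw [hC, e3]
      have e4 : 4 * ((w : ℝ) + 3) ^ 2 / x ^ (4 * w + 8) *
          (B / (4 * m) * (x ^ (2 * n) * x ^ (4 * w + 8))) =
          (((w : ℝ) + 3) ^ 2 / m) * (B * x ^ (2 * n)) := by
        field_simp
      rw [e4]
      have h5 : 1 ≤ ((w : ℝ) + 3) ^ 2 / m := by rwa [one_le_div hm0]
      have h6 : 0 ≤ B * x ^ (2 * n) := by positivity
      nlinarith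
    calc A * B * x ^ (2 * n) = A * (B * x ^ (2 * n)) := by ring
      _ ≤ A * (C * (B / (4 * m) * x ^ (2 * m))) := mul_le_mul_of_nonneg_left h4 hA0.le
      _ = _ := by ring
  have h2 : ∑ n ∈ Finset.Icc 2 ((w + 1) ^ 2),
      (fun m : ℕ => Bg ψ (w + 2 : ℕ) (w + 2 : ℕ) (2 * m) / (4 * (m : ℝ)) * x ^ (2 * m))
        (n + (2 * w + 4)) ≤ Sg x ψ (w + 2) := by
    refine sum_le_of_inj (Finset.Icc 2 ((w + 1) ^ 2)) (Finset.Icc 2 ((w + 2 + 1) ^ 2))
      (fun n => n + (2 * w + 4))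
      (fun m : ℕ => Bg ψ (w + 2 : ℕ) (w + 2 : ℕ) (2 * m) / (4 * (m : ℝ)) * x ^ (2 * m))
      (fun m _ => gterm_nonneg hx hψ (w + 2) m) ?_ ?_
    · intro n hn
      rw [Finset.mem_Icc] at hn ⊢
      have e2 : (w + 2 + 1) ^ 2 = (w + 1) ^ 2 + (4 * w + 8) := by ring
      constructor
      · omega
      · omega
    · intro n _ n' _ h
      omega
  unfold Sg at h2 ⊢
  refine (Finset.sum_le_sum h1).trans ?_
  rw [← Finset.mul_sum]
  exact mul_le_mul_of_nonneg_left h2 (by positivity)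

/-! ### the tails -/

open scoped Classical in
/-- the indicator of the small areas -/
noncomputable def lo (r : ℝ) (a : ℕ) : ℝ := if (a : ℝ) ≤ r then 1 else 0

open scoped Classical in
/-- the indicator of the large areas -/
noncomputable def hi (r : ℝ) (a : ℕ) : ℝ := if r ≤ (a : ℝ) then 1 else 0

theorem lo_nonneg (r : ℝ) (a : ℕ) : 0 ≤ lo r a := by
  unfold lo
  split_ifs <;> norm_num

theorem hi_nonneg (r : ℝ) (a : ℕ) : 0 ≤ hi r a := by
  unfold hi
  split_ifs <;> norm_num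

theorem hi_anti {r r' : ℝ} (h : r ≤ r') (a : ℕ) : hi r' a ≤ hi r a := by
  unfold hi
  by_cases h1 : r' ≤ (a : ℝ)
  · rw [if_pos h1, if_pos (h.trans h1)]
  · rw [if_neg h1]
    split_ifs <;> norm_num

theorem Qr_eq_Sg (x r : ℝ) (w : ℕ) : Qr x r w = Sg x (lo r) w := by
  classical
  unfold Qr Sg Br Bg lo
  refine Finset.sum_congr rfl fun n _ => ?_
  congr 2
  refine Finset.sum_congr rfl fun f _ => ?_
  by_cases h1 : Nr (w : ℤ) f ∧ Lw (w : ℤ) f
  · by_cases h2 : (area (2 * n) f : ℝ) ≤ r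
    · rw [if_pos ⟨h1, h2⟩, if_pos h1, if_pos h2]
    · rw [if_neg (fun h => h2 h.2), if_pos h1, if_neg h2]
  · rw [if_neg (fun h => h1 h.1), if_neg h1]

/-- large areas to small areas -/
theorem hi_lo {x : ℝ} (hx : 0 < x) (w : ℕ) {r r' : ℝ} (h : ((w : ℝ) + 2) ^ 2 - 1 - r ≤ r') :
    Sg x (hi r) w ≤ Cx x w * Qr x r' (w + 2) := by
  rw [Qr_eq_Sg]
  refine gdual hx (hi_nonneg r) (lo_nonneg r') w fun a b hab => ?_
  unfold hi lo
  by_cases h1 : r ≤ (a : ℝ)
  · have h2 : (b : ℝ) + a + 1 = ((w : ℝ) + 2) * ((w : ℝ) + 2) := by exact_mod_cast hab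
    rw [if_pos h1, if_pos (by nlinarith)]
  · rw [if_neg h1]
    split_ifs <;> norm_num

/-- small areas to large areas -/
theorem lo_hi {x : ℝ} (hx : 0 < x) (w : ℕ) {r r' : ℝ} (h : r' ≤ ((w : ℝ) + 2) ^ 2 - 1 - r) :
    Qr x r w ≤ Cx x w * Sg x (hi r') (w + 2) := by
  rw [Qr_eq_Sg]
  refine gdual hx (lo_nonneg r) (hi_nonneg r') w fun a b hab => ?_
  unfold hi lo
  by_cases h1 : (a : ℝ) ≤ r
  · have h2 : (b : ℝ) + a + 1 = ((w : ℝ) + 2) * ((w : ℝ) + 2) := by exact_mod_cast hab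
    rw [if_pos h1, if_pos (by nlinarith)]
  · rw [if_neg h1]
    split_ifs <;> norm_num

theorem logC_tendsto {x : ℝ} (hx : 0 < x) :
    Tendsto (fun w : ℕ => Real.log (Cx x w) / (w : ℝ) ^ 2) atTop (𝓝 0) := by
  have hl : Tendsto (fun W : ℕ => Real.log ((W : ℝ) + 1) / (W : ℝ) ^ 2) atTop (𝓝 0) :=
    tendsto_log_sq
  have hl3 : Tendsto (fun W : ℕ => Real.log ((W : ℝ) + 3) / (W : ℝ) ^ 2) atTop (𝓝 0) := by
    have h4 := (hl.comp (tendsto_add_atTop_nat 2)).mul ((tendsto_add_div 2).pow 2)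
    rw [zero_mul] at h4
    refine h4.congr' ?_
    filter_upwards [eventually_ge_atTop 1] with w hw
    have hw0 : (0 : ℝ) < w := by exact_mod_cast hw
    simp only [Function.comp]
    push_cast
    have : (0 : ℝ) < (w : ℝ) + 2 := by positivity
    have e1 : (w : ℝ) + 2 + 1 = w + 3 := by ring
    rw [e1]
    field_simp
  have hR : Tendsto (fun w : ℕ => Real.log ((w : ℝ) + 1) / (w : ℝ) ^ 2 +
      (Real.log 4 * ((1 / (w : ℝ)) * (1 / (w : ℝ))) + 2 * (Real.log ((w : ℝ) + 3) / (w : ℝ) ^ 2) -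
        Real.log x * (4 * (1 / (w : ℝ)) + 8 * ((1 / (w : ℝ)) * (1 / (w : ℝ)))))) atTop
      (𝓝 (0 + (Real.log 4 * (0 * 0) + 2 * 0 - Real.log x * (4 * 0 + 8 * (0 * 0))))) := by
    refine hl.add ((((tendsto_inv_nat.mul tendsto_inv_nat).const_mul _).add
      (hl3.const_mul 2)).sub ?_)
    exact ((tendsto_inv_nat.const_mul 4).add
      ((tendsto_inv_nat.mul tendsto_inv_nat).const_mul 8)).const_mul _
  have e0 : (0 + (Real.log 4 * (0 * 0) + 2 * 0 - Real.log x * (4 * 0 + 8 * (0 * 0)))) = 0 := by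
    ring
  rw [e0] at hR
  refine hR.congr' ?_
  filter_upwards [eventually_ge_atTop 1] with w hw
  have hw0 : (0 : ℝ) < w := by exact_mod_cast hw
  unfold Cx
  rw [Real.log_mul (by positivity) (by positivity), Real.log_div (by positivity) (by positivity),
    Real.log_mul (by norm_num) (by positivity), Real.log_pow, Real.log_pow]
  push_cast
  field_simp

theorem shift_tendsto {u : ℕ → ℝ} {l : ℝ}
    (h : Tendsto (fun w : ℕ => u w / (w : ℝ) ^ 2) atTop (𝓝 l)) :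
    Tendsto (fun w : ℕ => u (w + 2) / (w : ℝ) ^ 2) atTop (𝓝 l) := by
  have h1 := h.comp (tendsto_add_atTop_nat 2)
  have h2 := h1.mul ((tendsto_add_div 2).pow 2)
  rw [one_pow, mul_one] at h2
  refine h2.congr' ?_
  filter_upwards [eventually_ge_atTop 1] with w hw
  have hw0 : (0 : ℝ) < w := by exact_mod_cast hw
  simp only [Function.comp]
  push_cast
  have : (0 : ℝ) < (w : ℝ) + 2 := by positivity
  field_simp

theorem unshift_tendsto {u : ℕ → ℝ} {l : ℝ}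
    (h : Tendsto (fun w : ℕ => u w / (w : ℝ) ^ 2) atTop (𝓝 l)) :
    Tendsto (fun w : ℕ => u w / ((w : ℝ) + 2) ^ 2) atTop (𝓝 l) := by
  have h2 := h.div ((tendsto_add_div 2).pow 2) (by norm_num)
  rw [one_pow, div_one] at h2
  refine h2.congr' ?_
  filter_upwards [eventually_ge_atTop 1] with w hw
  have hw0 : (0 : ℝ) < w := by exact_mod_cast hw
  simp only [Pi.div_apply]
  field_simp

theorem phi_cont {x : ℝ} (hx : 0 < x) {α : ℝ} (hα : 0 < α) : ContinuousAt (phi x) α :=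
  ((phi_concave hx).continuousOn isOpen_Ioi).continuousAt (Ioi_mem_nhds hα)

theorem Hr_pos {x : ℝ} (hx : 0 < x) {α : ℝ} (hα : 0 < α) :
    ∀ᶠ w : ℕ in atTop, 0 < Sg x (hi ((1 - α) * (w : ℝ) ^ 2)) w := by
  have h1 : ∀ᶠ w : ℕ in atTop, 0 < Sg x (hi ((1 - α) * ((w + 2 : ℕ) : ℝ) ^ 2)) (w + 2) := by
    filter_upwards [ev_one_le (half_pos hα), eventually_ge_atTop 1] with w hr hw
    have hw0 : (0 : ℝ) < w := by exact_mod_cast hw
    have h2 := lo_hi hx w (r := α / 2 * (w : ℝ) ^ 2) (r' := (1 - α) * ((w + 2 : ℕ) : ℝ) ^ 2) (by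
      push_cast
      nlinarith)
    have h3 := Qr_pos hx hr hw
    have h4 := Cx_pos hx w
    by_contra hcon
    have := mul_nonpos_of_nonneg_of_nonpos h4.le (not_lt.1 hcon)
    linarith
  obtain ⟨N, hN⟩ := eventually_atTop.1 h1
  filter_upwards [eventually_ge_atTop (N + 2)] with W hW
  obtain ⟨w, rfl⟩ : ∃ w, W = w + 2 := ⟨W - 2, by omega⟩
  exact hN w (by omega)

/-- the upper tail -/
theorem hi_tendsto {x : ℝ} (hx : 0 < x) {α : ℝ} (hα : 0 < α) :
    Tendsto (fun w : ℕ => Real.log (Sg x (hi ((1 - α) * (w : ℝ) ^ 2)) w) / (w : ℝ) ^ 2) atTop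
      (𝓝 (phi x α)) := by
  have hc := phi_cont hx hα
  refine tendsto_order.2 ⟨fun l hl => ?_, fun u hu => ?_⟩
  · -- the lower bound
    obtain ⟨β, hβ0, hβ1, hβ2⟩ : ∃ β, 0 < β ∧ β < α ∧ l < phi x β := by
      have h1 := hc.eventually (lt_mem_nhds hl)
      have h2 : ∀ᶠ β in 𝓝[<] α, l < phi x β := h1.filter_mono nhdsWithin_le_nhds
      obtain ⟨β, h3, h4⟩ := (h2.and (Ioo_mem_nhdsLT hα)).exists
      exact ⟨β, h4.1, h4.2, h3⟩
    have h1 : Tendsto (fun w : ℕ => Real.log (Qr x (β * (w : ℝ) ^ 2) w) / ((w : ℝ) + 2) ^ 2 -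
        Real.log (Cx x w) / ((w : ℝ) + 2) ^ 2) atTop (𝓝 (phi x β - 0)) :=
      (unshift_tendsto (phi_tendsto hx hβ0)).sub (unshift_tendsto (logC_tendsto hx))
    rw [sub_zero] at h1
    have h2 := h1.eventually (lt_mem_nhds hβ2)
    have h3 : ∀ᶠ w : ℕ in atTop, l <
        Real.log (Sg x (hi ((1 - α) * ((w + 2 : ℕ) : ℝ) ^ 2)) (w + 2)) /
          ((w + 2 : ℕ) : ℝ) ^ 2 := by
      filter_upwards [h2, ev_one_le hβ0, ev_one_le (sub_pos.2 hβ1), eventually_ge_atTop 1]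
        with w g1 g2 g3 hw
      have hw0 : (0 : ℝ) < w := by exact_mod_cast hw
      have h4 := lo_hi hx w (r := β * (w : ℝ) ^ 2) (r' := (1 - α) * ((w + 2 : ℕ) : ℝ) ^ 2) (by
        push_cast
        nlinarith)
      have hQ := Qr_pos hx g2 hw
      have hC := Cx_pos hx w
      have hS : 0 < Sg x (hi ((1 - α) * ((w + 2 : ℕ) : ℝ) ^ 2)) (w + 2) := by
        by_contra hcon
        have := mul_nonpos_of_nonneg_of_nonpos hC.le (not_lt.1 hcon)
        linarith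
      have h5 := Real.log_le_log hQ h4
      rw [Real.log_mul hC.ne' hS.ne'] at h5
      refine lt_of_lt_of_le g1 ?_
      rw [← sub_div]
      have e1 : ((w + 2 : ℕ) : ℝ) = (w : ℝ) + 2 := by push_cast; ring
      rw [e1] at h5 ⊢
      apply div_le_div_of_nonneg_right _ (by positivity)
      linarith
    obtain ⟨N, hN⟩ := eventually_atTop.1 h3
    filter_upwards [eventually_ge_atTop (N + 2)] with W hW
    obtain ⟨w, rfl⟩ : ∃ w, W = w + 2 := ⟨W - 2, by omega⟩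
    exact hN w (by omega)
  · -- the upper bound
    obtain ⟨β, hβ1, hβ2⟩ : ∃ β, α < β ∧ phi x β < u := by
      have h1 := hc.eventually (gt_mem_nhds hu)
      have h2 : ∀ᶠ β in 𝓝[>] α, phi x β < u := h1.filter_mono nhdsWithin_le_nhds
      obtain ⟨β, h3, h4⟩ := (h2.and self_mem_nhdsWithin).exists
      exact ⟨β, h4, h3⟩
    have hβ0 : 0 < β := by linarith
    have h1 : Tendsto (fun w : ℕ => Real.log (Cx x w) / (w : ℝ) ^ 2 +
        Real.log (Qr x (β * ((w + 2 : ℕ) : ℝ) ^ 2) (w + 2)) / (w : ℝ) ^ 2) atTop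
        (𝓝 (0 + phi x β)) :=
      (logC_tendsto hx).add (shift_tendsto (u := fun w : ℕ => Real.log (Qr x (β * (w : ℝ) ^ 2) w))
        (phi_tendsto hx hβ0))
    rw [zero_add] at h1
    have h5 : Tendsto (fun w : ℕ => (β - α) * (w : ℝ)) atTop atTop :=
      tendsto_natCast_atTop_atTop.const_mul_atTop (by linarith)
    filter_upwards [h1.eventually (gt_mem_nhds hβ2), Hr_pos hx hα, eventually_ge_atTop 1,
      ev_one_le hβ0, h5.eventually_ge_atTop 8] with w g1 g2 hw g4 g5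
    have hw0 : (0 : ℝ) < w := by exact_mod_cast hw
    have hw1 : (1 : ℝ) ≤ w := by exact_mod_cast hw
    have h6 := hi_lo hx w (r := (1 - α) * (w : ℝ) ^ 2) (r' := β * ((w + 2 : ℕ) : ℝ) ^ 2) (by
      push_cast
      have h7 := mul_le_mul_of_nonneg_right g5 hw0.le
      nlinarith)
    have hQ : 0 < Qr x (β * ((w + 2 : ℕ) : ℝ) ^ 2) (w + 2) := by
      apply Qr_pos hx _ (by omega)
      push_cast
      nlinarith
    have h7 := Real.log_le_log g2 h6
    rw [Real.log_mul (Cx_pos hx w).ne' hQ.ne'] at h7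
    refine lt_of_le_of_lt ?_ g1
    rw [← add_div]
    exact div_le_div_of_nonneg_right h7 (by positivity)

end Pool.Agent.K6.H36.PJ
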