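import Pool.Agent.K6.H36.PJ.Dm13

/-!
The rate function of the area of the polygons in a square.
-/

set_option autoImplicit false

namespace Pool.Agent.K6.H36.PJ

open Pool.Agent.N223.PS Pool.Agent.N457.PS Filter Topology

/-- the rate function -/
noncomputable def Jr (x α : ℝ) : ℝ := lam x - phi x α

theorem Jr_nonneg {x : ℝ} (hx : 0 < x) {α : ℝ} (hα : 0 < α) : 0 ≤ Jr x α := by
  unfold Jr
  linarith [phi_le_lam hx hα]

theorem Jr_le {x : ℝ} (hx : 0 < x) {α : ℝ} (hα : 0 < α) : Jr x α ≤ lam x := by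
  unfold Jr
  linarith [phi_nonneg hx hα]

theorem Jr_anti {x : ℝ} (hx : 0 < x) : AntitoneOn (Jr x) (Set.Ioi 0) := by
  intro α hα β _ h
  unfold Jr
  linarith [phi_mono hx (Set.mem_Ioi.1 hα) h]

theorem Jr_convex {x : ℝ} (hx : 0 < x) : ConvexOn ℝ (Set.Ioi 0) (Jr x) := by
  have h := (phi_concave hx).neg
  refine ⟨convex_Ioi 0, ?_⟩
  intro α hα β hβ a b ha hb hab
  have h1 := (phi_concave hx).2 hα hβ ha hb hab
  simp only [smul_eq_mul] at h1 ⊢
  unfold Jr
  have : lam x = a * lam x + b * lam x := by rw [← add_mul, hab, one_mul]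
  linarith

/-- the rate function is the Legendre transform of the pressure -/
theorem Jr_max {x : ℝ} (hx : 0 < x) {α : ℝ} (hα : 0 < α) :
    IsGreatest {y : ℝ | ∃ e : ℝ, 0 ≤ e ∧ y = lam2 x 0 - lam2 x e - e * α} (Jr x α) := by
  rw [lam2_zero hx]
  constructor
  · obtain ⟨e, he, h⟩ := phi_eq hx hα
    refine ⟨e, he, ?_⟩
    unfold Jr
    linarith
  · rintro y ⟨e, he, rfl⟩
    unfold Jr
    linarith [phi_le hx hα he]

theorem Jr_half {x : ℝ} (hx : 0 < x) {α : ℝ} (hα : 1 / 2 ≤ α) : Jr x α = 0 := by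
  have hα0 : 0 < α := by linarith
  refine le_antisymm ?_ (Jr_nonneg hx hα0)
  obtain ⟨e, he, h⟩ := phi_eq hx hα0
  unfold Jr
  rcases he.eq_or_lt with h0 | h0
  · rw [← h0, lam2_zero hx] at h
    linarith
  · have h1 := lam_le_half hx h0
    have h2 := mul_le_mul_of_nonneg_left hα he
    linarith

theorem lam2_four {x : ℝ} (hx : 1 / H981.mu ≤ x) : lam2 x (4 * Real.log (H981.mu * x)) = 0 := by
  have hmu : 0 < H981.mu := H981.mu_pos
  have hx0 : 0 < x := lt_of_lt_of_le (by positivity) hx
  have h1 : 0 ≤ Real.log (H981.mu * x) := by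
    apply Real.log_nonneg
    rw [div_le_iff₀ hmu] at hx
    linarith
  apply lam2_eq_zero hx0 (by linarith)
  have := gg_ge (e := 4 * Real.log (H981.mu * x)) (by linarith)
  linarith

theorem Jr_ge {x : ℝ} (hx : 1 / H981.mu ≤ x) {α : ℝ} (hα : 0 < α) :
    lam2 x 0 - 4 * Real.log (H981.mu * x) * α ≤ Jr x α := by
  have hmu : 0 < H981.mu := H981.mu_pos
  have hx0 : 0 < x := lt_of_lt_of_le (by positivity) hx
  have h1 : 0 ≤ Real.log (H981.mu * x) := by
    apply Real.log_nonneg
    rw [div_le_iff₀ hmu] at hx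
    linarith
  have h2 := phi_le hx0 hα (e := 4 * Real.log (H981.mu * x)) (by linarith)
  rw [lam2_four hx] at h2
  rw [lam2_zero hx0]
  unfold Jr
  linarith

/-- the mean area -/
theorem ma_dense {x : ℝ} (hx : 1 / H981.mu < x) {c : ℝ}
    (hc : c < lam2 x 0 / (4 * Real.log (H981.mu * x))) :
    ∀ᶠ w : ℕ in atTop, c ≤ ma x w / (w : ℝ) ^ 2 ∧ ma x w / (w : ℝ) ^ 2 ≤ 1 - c := by
  have hmu : 0 < H981.mu := H981.mu_pos
  have hx0 : 0 < x := lt_trans (by positivity) hx
  have h1 : 0 < Real.log (H981.mu * x) := by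
    apply Real.log_pos
    rw [div_lt_iff₀ hmu] at hx
    linarith
  obtain ⟨q, hq⟩ : ∃ q, q = lam2 x 0 / (4 * Real.log (H981.mu * x)) := ⟨_, rfl⟩
  rw [← hq] at hc
  have h2 := ma_bounds hx0 (e := 4 * Real.log (H981.mu * x)) (by linarith)
    (η := q - c) (by linarith)
  rw [lam2_four hx.le, sub_zero, ← lam2_zero hx0, ← hq] at h2
  filter_upwards [h2] with w h3
  constructor <;> linarith

/-- the pressure is convex in the weight of the area -/
theorem lam2_conv {x : ℝ} (hx : 0 < x) (ε δ : ℝ) {t s : ℝ} (ht : 0 < t) (hs : 0 < s)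
    (hts : t + s = 1) : lam2 x (t * ε + s * δ) ≤ t * lam2 x ε + s * lam2 x δ := by
  have h := lam2_convex hx hx ε δ ht hs hts
  have e : x ^ t * x ^ s = x := by
    rw [← Real.rpow_add hx, hts, Real.rpow_one]
  rwa [e] at h

/-- the rate function vanishes only in the middle if and only if the pressure is differentiable -/
theorem deriv_iff {x : ℝ} (hx : 0 < x) :
    (∀ α : ℝ, 0 < α → α < 1 / 2 → 0 < Jr x α) ↔ HasDerivAt (lam2 x) (-(1 / 2)) 0 := by
  constructor
  · intro h
    have hR : Tendsto (fun e : ℝ => (lam x - lam2 x e) / e) (𝓝[>] 0) (𝓝 (1 / 2)) := by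
      refine tendsto_order.2 ⟨fun l hl => ?_, fun u hu => ?_⟩
      · obtain ⟨α, hα0, hα1, hα2⟩ : ∃ α, 0 < α ∧ l < α ∧ α < 1 / 2 := by
          obtain ⟨α, h1, h2⟩ := exists_between (max_lt hl (by norm_num : (0 : ℝ) < 1 / 2))
          exact ⟨α, lt_of_le_of_lt (le_max_right _ _) h1, lt_of_le_of_lt (le_max_left _ _) h1, h2⟩
        have h1 := h α hα0 hα2
        obtain ⟨e0, he0, h2⟩ := phi_eq hx hα0
        unfold Jr at h1
        have he : 0 < e0 := by
          rcases he0.eq_or_lt with h3 | h3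
          · rw [← h3, lam2_zero hx] at h2
            linarith
          · exact h3
        have h3 : e0 * α < lam x - lam2 x e0 := by linarith
        filter_upwards [Ioo_mem_nhdsGT he] with e hee
        rw [lt_div_iff₀ hee.1]
        have h4 := lam2_conv hx e0 0 (t := e / e0) (s := 1 - e / e0) (div_pos hee.1 he)
          (by rw [sub_pos, div_lt_one he]; exact hee.2) (by ring)
        rw [mul_zero, add_zero, div_mul_cancel₀ _ he.ne', lam2_zero hx] at h4
        have h5 : e / e0 * (e0 * α) < e / e0 * (lam x - lam2 x e0) :=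
          mul_lt_mul_of_pos_left h3 (div_pos hee.1 he)
        have e1 : e / e0 * (e0 * α) = e * α := by field_simp
        rw [e1] at h5
        have h6 := mul_lt_mul_of_pos_left hα1 hee.1
        linarith
      · filter_upwards [self_mem_nhdsWithin] with e he
        have he0 : (0 : ℝ) < e := he
        have h1 := lam_le_half hx he0
        refine lt_of_le_of_lt ?_ hu
        rw [div_le_iff₀ he0]
        linarith
    rw [hasDerivAt_iff_tendsto_slope, ← nhdsLT_sup_nhdsGT, tendsto_sup]
    constructor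
    · have h1 : Tendsto (fun e : ℝ => -e) (𝓝[<] 0) (𝓝[>] 0) := by
        have := tendsto_neg_nhdsLT (a := (0 : ℝ))
        rwa [neg_zero] at this
      have h2 := (hR.comp h1).sub_const 1
      have e0 : (1 / 2 : ℝ) - 1 = -(1 / 2) := by norm_num
      rw [e0] at h2
      refine h2.congr' ?_
      filter_upwards [self_mem_nhdsWithin] with e he
      have he0 : e < 0 := he
      simp only [Function.comp]
      rw [slope_def_field, lam2_zero hx, sub_zero, dual hx e]
      have : e ≠ 0 := he0.ne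
      field_simp
      ring
    · have h2 := hR.neg
      refine h2.congr' ?_
      filter_upwards [self_mem_nhdsWithin] with e he
      rw [slope_def_field, lam2_zero hx, sub_zero, ← neg_div]
      congr 1
      ring
  · intro h α hα hα1
    by_contra hcon
    have h0 : Jr x α = 0 := le_antisymm (not_lt.1 hcon) (Jr_nonneg hx hα)
    unfold Jr at h0
    have h2 := (hasDerivAt_iff_tendsto_slope.1 h).mono_left
      (nhdsWithin_mono (0 : ℝ) (fun y (hy : y ∈ Set.Ioi (0 : ℝ)) => (ne_of_gt hy : y ≠ 0)))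
    have h3 : ∀ᶠ e in 𝓝[>] (0 : ℝ), -α ≤ slope (lam2 x) 0 e := by
      filter_upwards [self_mem_nhdsWithin] with e he
      have he0 : (0 : ℝ) < e := he
      rw [slope_def_field, lam2_zero hx, sub_zero, le_div_iff₀ he0]
      have := phi_le hx hα he0.le
      linarith
    have h4 := ge_of_tendsto h2 h3
    linarith

end Pool.Agent.K6.H36.PJ
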