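import Pool.Agent.K6.H36.PJ.Dm14

/-!
Uniform polygons in a square with a bound for the area.
-/

set_option autoImplicit false

namespace Pool.Agent.K6.H36.PJ

open Pool.Agent.N223.PS Pool.Agent.N457.PS Filter Topology

/-- the bound at every side of the square -/
theorem Qr_upper {x : ℝ} (hx : 0 < x) {α : ℝ} (hα : 0 < α) {w : ℕ} (hw : 1 ≤ w)
    (h : 1 ≤ α * w) : Real.log (Qr x (α * (w : ℝ) ^ 2) w) ≤
      ((w : ℝ) + 1) ^ 2 * phi x α + (3 + 6 * Real.log ((w : ℝ) + 1)) := by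
  have hw1 : (1 : ℝ) ≤ w := by exact_mod_cast hw
  have h1 : 1 ≤ α * (w : ℝ) ^ 2 := by nlinarith
  have h2 : α * (w : ℝ) ^ 2 + 1 < α * ((w : ℝ) + 1) ^ 2 := by nlinarith
  have e : (1 / 2 : ℝ) * α + (1 - 1 / 2) * α = α := by ring
  have h3 : (Real.log (Qr x (α * (w : ℝ) ^ 2) w) - Er w) / ((w : ℝ) + 1) ^ 2 ≤ phi x α := by
    refine le_of_forall_lt fun l hl => ?_
    obtain ⟨l', hl', hl''⟩ := exists_between hl
    refine lt_of_lt_of_le hl' ?_
    have h4 := mix_ev hx (α := α) (β := α) (θ := 1 / 2) (by norm_num) (by norm_num) hw h1 h1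
      (by rw [e]; exact h2) (l := l') (by
        refine lt_of_lt_of_le hl'' (le_of_eq ?_)
        ring)
    rw [e] at h4
    exact ge_of_tendsto (phi_tendsto hx hα) h4
  rw [div_le_iff₀ (by positivity)] at h3
  unfold Er at h3
  linarith

theorem uniform_le : ∃ K : ℝ, 0 < K ∧ ∀ n : ℕ, 2 ≤ n → ∀ w : ℕ, 1 ≤ w → ∀ x α : ℝ, 0 < x →
    0 < α → 1 ≤ α * w → Br (α * (w : ℝ) ^ 2) w w (2 * n) / Zl 0 (2 * n) ≤
      Real.exp (((w : ℝ) + 1) ^ 2 * phi x α - 2 * n * Real.log (H981.mu * x) +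
        6 * Real.log ((w : ℝ) + 1) + K * Real.log n ^ 2) := by
  obtain ⟨K, hK, h⟩ := counts
  have hmu : 0 < H981.mu := H981.mu_pos
  have hL2 : (0 : ℝ) < Real.log 2 := Real.log_pos (by norm_num)
  refine ⟨K + 5 / Real.log 2 ^ 2 + 1 / Real.log 2, by positivity, ?_⟩
  intro n hn w hw x α hx hα hαw
  have hn0 : (0 : ℝ) < n := by exact_mod_cast (by omega : 0 < n)
  have hnr : (2 : ℝ) ≤ n := by exact_mod_cast hn
  have hZ := Zl_pos 0 (by omega : 1 ≤ n)
  rcases (Br_nonneg (α * (w : ℝ) ^ 2) w w (2 * n)).eq_or_lt with hB | hB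
  · rw [← hB, zero_div]
    positivity
  have hlen : n ≤ (w + 1) ^ 2 := by
    by_contra hcon
    have h3 := Br_le_Bn (α * (w : ℝ) ^ 2) w w (2 * n)
    rw [Bn_zero (by omega) (by omega)] at h3
    linarith
  have h1 : Br (α * (w : ℝ) ^ 2) w w (2 * n) / (4 * n) * x ^ (2 * n) ≤
      Qr x (α * (w : ℝ) ^ 2) w := by
    unfold Qr
    exact Finset.single_le_sum (f := fun n : ℕ => Br (α * (w : ℝ) ^ 2) w w (2 * n) / (4 * n) *
      x ^ (2 * n)) (fun n _ => rterm_nonneg hx _ w n) (Finset.mem_Icc.2 ⟨hn, hlen⟩)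
  have h2 := (Real.log_le_log (by positivity) h1).trans (Qr_upper hx hα hw hαw)
  rw [Real.log_mul (by positivity) (by positivity), Real.log_div hB.ne' (by positivity),
    Real.log_pow] at h2
  have h3 := (h n hn).1
  rw [← Zl_zero] at h3
  have h4 := Real.log_le_log (by positivity) h3
  rw [Real.log_mul (by positivity) (Real.exp_pos _).ne', Real.log_exp, Real.log_pow] at h4
  have hln : Real.log 2 ≤ Real.log n := Real.log_le_log (by norm_num) hnr
  have h5 : Real.log (4 * n) ≤ 2 + Real.log n := by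
    rw [Real.log_mul (by norm_num) hn0.ne']
    have : (4 : ℝ) = 2 ^ 2 := by norm_num
    rw [this, Real.log_pow]
    have := Real.log_two_lt_d9
    push_cast
    linarith
  have h6 : 5 ≤ 5 / Real.log 2 ^ 2 * Real.log n ^ 2 := by
    rw [div_mul_eq_mul_div, le_div_iff₀ (by positivity)]
    have := pow_le_pow_left₀ hL2.le hln 2
    linarith
  have h7 : Real.log n ≤ 1 / Real.log 2 * Real.log n ^ 2 := by
    rw [div_mul_eq_mul_div, le_div_iff₀ hL2]
    nlinarith
  rw [← Real.exp_log (div_pos hB hZ)]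
  apply Real.exp_le_exp.2
  rw [Real.log_div hB.ne' hZ.ne', Real.log_mul hmu.ne' hx.ne']
  push_cast at h2 h4
  linarith

end Pool.Agent.K6.H36.PJ
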