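import Pool.Agent.K6.H36.PJ.Dm1

/-!
Joins of loops in a box, with a weight for the area.
-/

set_option autoImplicit false

namespace Pool.Agent.K6.H36.PJ

open Pool.Agent.N223.PS Pool.Agent.N457.PS Filter Topology

/-- the weight of a loop -/
noncomputable def ex (e : ℝ) {L : ℕ} (f : ZMod L → ℤ × ℤ) : ℝ := Real.exp (-(e * area L f))

theorem ex_pos (e : ℝ) {L : ℕ} (f : ZMod L → ℤ × ℤ) : 0 < ex e f := Real.exp_pos _

/-- the constant of a join -/
noncomputable def Ce (e : ℝ) : ℝ := 2 * Real.exp |e|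

theorem Ce_ge (e : ℝ) : 2 ≤ Ce e := by
  unfold Ce
  have := Real.one_le_exp (abs_nonneg e)
  linarith

theorem Ce_pos (e : ℝ) : 0 < Ce e := by linarith [Ce_ge e]

open scoped Classical in
/-- the sum over the loops of the class `(a, b)` of height at most `h` -/
noncomputable def Vw (e : ℝ) (k h a b : ℤ) (L : ℕ) : ℝ :=
  ∑ f ∈ TF L, if Pl k a b f ∧ Lw h f then ex e f else 0

open scoped Classical in
/-- the sum over all the rooted loops of the class `(a, b)` of height at most `h` -/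
noncomputable def Uw (e : ℝ) (k h a b : ℤ) (L : ℕ) : ℝ :=
  ∑ f ∈ LF L, if Pl k a b f ∧ Lw h f then ex e f else 0

open scoped Classical in
/-- the sum over the rooted loops of width at most `w` and height at most `h` -/
noncomputable def Bw (e : ℝ) (w h : ℤ) (L : ℕ) : ℝ :=
  ∑ f ∈ LF L, if Nr w f ∧ Lw h f then ex e f else 0

theorem Vw_nonneg (e : ℝ) (k h a b : ℤ) (L : ℕ) : 0 ≤ Vw e k h a b L := by
  unfold Vw
  exact Finset.sum_nonneg fun f _ => by
    split_ifs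
    · exact (ex_pos e f).le
    · exact le_rfl

theorem Bw_nonneg (e : ℝ) (w h : ℤ) (L : ℕ) : 0 ≤ Bw e w h L := by
  unfold Bw
  exact Finset.sum_nonneg fun f _ => by
    split_ifs
    · exact (ex_pos e f).le
    · exact le_rfl

theorem Vw_mul (e : ℝ) (k h h' a b c : ℤ) {M N : ℕ} (hM : 2 ≤ M) (hN : 2 ≤ N) :
    Vw e k h' c b M * Vw e k h a b N ≤ Ce e * Vw e k (h + h' + 1) a c (M + N) := by
  classical
  have iM : NeZero M := ⟨by omega⟩
  have hinv : Inv (fun f : ZMod (M + N) → ℤ × ℤ =>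
      if Pl k a c f ∧ Lw (h + h' + 1) f then ex e f else 0) := by
    refine ⟨fun f => ?_, fun f s hf => ?_, fun f hf => ?_⟩
    · split_ifs
      · exact (ex_pos e f).le
      · exact le_rfl
    · simp only [pl_rot hf s, lw_rot, ex, area_rot]
    · simp only [pl_rev, lw_rev, ex, area_rev hf]
  have hj := join_le hM hN hinv
  have h1 : Real.exp (-e) * (Vw e k h' c b M * Vw e k h a b N) ≤
      2 * Vw e k (h + h' + 1) a c (M + N) := by
    refine le_trans ?_ hj
    rw [sum_BF (by omega)]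
    unfold Vw
    rw [Finset.sum_mul_sum, Finset.mul_sum]
    refine Finset.sum_le_sum fun g hg => ?_
    rw [Finset.mul_sum]
    refine Finset.sum_le_sum fun f hf => ?_
    have hg' := (mem_TF (by omega)).1 hg
    have hf' := (mem_TF (by omega)).1 hf
    by_cases h1 : Pl k c b g ∧ Lw h' g
    · by_cases h2 : Pl k a b f ∧ Lw h f
      · have h3 : Pl k b c (flp (rev g)) := pl_flp.2 (pl_rev.2 h1.1)
        have h4 : Lw h' (flp (rev g)) := (lw_flp _).2 ((lw_rev _).2 h1.2)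
        rw [if_pos h1, if_pos h2, if_pos ⟨pl_join hg'.bot hf' hM hN h2.1 h3,
          lw_join hg'.bot hf' hM hN h2.2 h4⟩]
        unfold ex
        rw [join_area hg'.bot hf' hM hN, area_flp (rev_loop hg'.loop), area_rev hg'.loop,
          ← Real.exp_add, ← Real.exp_add]
        apply le_of_eq
        congr 1
        push_cast
        ring
      · rw [if_neg h2, mul_zero, mul_zero]
        split_ifs
        · exact (ex_pos e _).le
        · exact le_rfl
    · rw [if_neg h1, zero_mul, mul_zero]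
      split_ifs
      · exact (ex_pos e _).le
      · exact le_rfl
  have h2 : (1 : ℝ) ≤ Real.exp |e| * Real.exp (-e) := by
    rw [← Real.exp_add]
    apply Real.one_le_exp
    have := le_abs_self e
    linarith
  have h3 : 0 ≤ Vw e k h' c b M * Vw e k h a b N :=
    mul_nonneg (Vw_nonneg _ _ _ _ _ _) (Vw_nonneg _ _ _ _ _ _)
  have h4 := mul_le_mul_of_nonneg_left h1 (Real.exp_pos |e|).le
  have h5 := mul_le_mul_of_nonneg_right h2 h3
  unfold Ce
  linarith

theorem Vw_le_Uw (e : ℝ) (k h a b : ℤ) {L : ℕ} (hL : 0 < L) : Vw e k h a b L ≤ Uw e k h a b L := by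
  classical
  unfold Vw Uw
  exact Finset.sum_le_sum_of_subset_of_nonneg (TF_sub hL)
    (fun f _ _ => by
      split_ifs
      · exact (ex_pos e f).le
      · exact le_rfl)

theorem Uw_le_Vw (e : ℝ) (k h a b : ℤ) {L : ℕ} (hL : 3 ≤ L) :
    Uw e k h a b L ≤ 2 * L * Vw e k h a b L := by
  classical
  have : NeZero L := ⟨by omega⟩
  refine sum_loops_le hL ⟨fun f => ?_, fun f s hf => ?_, fun f hf => ?_⟩
  · split_ifs
    · exact (ex_pos e f).le
    · exact le_rfl
  · simp only [pl_rot hf s, lw_rot, ex, area_rot]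
  · simp only [pl_rev, lw_rev, ex, area_rev hf]

theorem Uw_symm (e : ℝ) (k h a b : ℤ) {L : ℕ} (hL : 0 < L) :
    Uw e k h a b L = Uw e k h b a L := by
  classical
  have : NeZero L := ⟨by omega⟩
  unfold Uw
  refine Finset.sum_bij' (fun f _ => flp f) (fun f _ => flp f) ?_ ?_ ?_ ?_ ?_
  · intro f hf
    exact (mem_LF hL).2 (flp_loop ((mem_LF hL).1 hf))
  · intro f hf
    exact (mem_LF hL).2 (flp_loop ((mem_LF hL).1 hf))
  · intro f _
    exact flp_flp f
  · intro f _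
    exact flp_flp f
  · intro f hf
    simp only [pl_flp, lw_flp, ex, area_flp ((mem_LF hL).1 hf)]

theorem Vw_symm_le (e : ℝ) (k h a b : ℤ) {L : ℕ} (hL : 3 ≤ L) :
    Vw e k h a b L ≤ 2 * L * Vw e k h b a L := by
  refine (Vw_le_Uw e k h a b (by omega)).trans ?_
  rw [Uw_symm e k h a b (by omega)]
  exact Uw_le_Vw e k h b a hL

theorem Bw_symm (e : ℝ) (w h : ℤ) {L : ℕ} (hL : 0 < L) : Bw e w h L = Bw e h w L := by
  classical
  have : NeZero L := ⟨by omega⟩
  unfold Bw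
  refine Finset.sum_bij' (fun f _ => swp f) (fun f _ => swp f) ?_ ?_ ?_ ?_ ?_
  · intro f hf
    exact (mem_LF hL).2 (swp_loop ((mem_LF hL).1 hf))
  · intro f hf
    exact (mem_LF hL).2 (swp_loop ((mem_LF hL).1 hf))
  · intro f _
    exact swp_swp f
  · intro f _
    exact swp_swp f
  · intro f hf
    have e1 : (Nr w f ∧ Lw h f) ↔ (Nr h (swp f) ∧ Lw w (swp f)) := by
      unfold Nr Lw swp
      exact and_comm
    simp only [e1, ex, area_swp ((mem_LF hL).1 hf)]

theorem Uw_le_Bw (e : ℝ) (k h a b : ℤ) {L : ℕ} : Uw e k h a b L ≤ Bw e k h L := by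
  classical
  unfold Uw Bw
  refine Finset.sum_le_sum fun f _ => ?_
  by_cases H : Pl k a b f ∧ Lw h f
  · rw [if_pos H, if_pos ⟨pl_nr H.1, H.2⟩]
  · rw [if_neg H]
    split_ifs
    · exact (ex_pos e f).le
    · exact le_rfl

theorem Bw_le (e : ℝ) {k : ℕ} (h : ℤ) {L : ℕ} (hL : 0 < L) :
    Bw e k h L ≤ ∑ ab ∈ Finset.Icc (0 : ℤ) k ×ˢ Finset.Icc (0 : ℤ) k, Uw e k h ab.1 ab.2 L := by
  classical
  have : NeZero L := ⟨by omega⟩
  unfold Uw Bw
  rw [Finset.sum_comm]
  refine Finset.sum_le_sum fun f _ => ?_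
  have hnn : ∀ ab ∈ Finset.Icc (0 : ℤ) k ×ˢ Finset.Icc (0 : ℤ) k,
      0 ≤ (if Pl k ab.1 ab.2 f ∧ Lw h f then ex e f else 0) := by
    intro ab _
    split_ifs
    · exact (ex_pos e f).le
    · exact le_rfl
  by_cases H : Nr (k : ℤ) f ∧ Lw h f
  · rw [if_pos H]
    obtain ⟨a, ha, b, hb, hab⟩ := wid_pl (nr_wid.1 H.1)
    have h1 := Finset.single_le_sum hnn (Finset.mem_product.2 ⟨ha, hb⟩ :
      ((a, b) : ℤ × ℤ) ∈ Finset.Icc (0 : ℤ) k ×ˢ Finset.Icc (0 : ℤ) k)
    simp only at h1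
    rw [if_pos ⟨hab, H.2⟩] at h1
    exact h1
  · rw [if_neg H]
    exact Finset.sum_nonneg hnn

/-- the most important class -/
theorem exists_class_w (e : ℝ) {k : ℕ} (h : ℤ) {L : ℕ} (hL : 3 ≤ L) :
    ∃ a b : ℤ, Bw e k h L ≤ 2 * L * ((k : ℝ) + 1) ^ 2 * Vw e k h a b L := by
  classical
  obtain ⟨ab, hab, hmax⟩ := Finset.exists_max_image
    (Finset.Icc (0 : ℤ) k ×ˢ Finset.Icc (0 : ℤ) k) (fun ab => Uw e k h ab.1 ab.2 L)
    ⟨(0, 0), Finset.mem_product.2 ⟨Finset.mem_Icc.2 ⟨le_rfl, by positivity⟩,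
      Finset.mem_Icc.2 ⟨le_rfl, by positivity⟩⟩⟩
  refine ⟨ab.1, ab.2, (Bw_le e h (by omega)).trans ?_⟩
  refine (Finset.sum_le_card_nsmul _ _ _ hmax).trans ?_
  rw [Finset.card_product, Int.card_Icc, nsmul_eq_mul]
  have he : ((k : ℤ) + 1 - 0).toNat = k + 1 := by omega
  rw [he]
  push_cast
  have h1 := mul_le_mul_of_nonneg_left (Uw_le_Vw e k h ab.1 ab.2 hL)
    (by positivity : (0 : ℝ) ≤ ((k : ℝ) + 1) * (k + 1))
  refine h1.trans (le_of_eq ?_)
  ring

/-- chains of loops of the same class -/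
theorem wq_chain_even (e : ℝ) (k h a b : ℤ) {L : ℕ} (hL : 2 ≤ L) {t : ℕ} (ht : 1 ≤ t) :
    Ce e * (Vw e k h a b L / Ce e) ^ (2 * t) ≤ Vw e k (2 * t * (h + 1) - 1) a a (2 * t * L) := by
  have hv := Vw_nonneg e k h a b L
  have hc := Ce_pos e
  have base : Ce e * (Vw e k h a b L / Ce e) ^ 2 ≤ Vw e k (2 * (h + 1) - 1) a a (2 * L) := by
    have h1 := Vw_mul e k h h a b a hL hL
    have e1 : h + h + 1 = 2 * (h + 1) - 1 := by ring
    rw [e1, ← two_mul] at h1
    have e2 : Ce e * (Vw e k h a b L / Ce e) ^ 2 = Vw e k h a b L * Vw e k h a b L / Ce e := by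
      field_simp
    rw [e2, div_le_iff₀ hc]
    linarith
  induction t, ht using Nat.le_induction with
  | base =>
    have e1 : (2 : ℤ) * ((1 : ℕ) : ℤ) * (h + 1) - 1 = 2 * (h + 1) - 1 := by push_cast; ring
    rw [mul_one, e1]
    exact base
  | succ t ht ih =>
    have hM : 2 ≤ 2 * t * L := by nlinarith
    have h1 := Vw_mul e k (2 * (h + 1) - 1) (2 * t * (h + 1) - 1) a a a hM
      (by omega : 2 ≤ 2 * L)
    have e1 : 2 * (h + 1) - 1 + (2 * t * (h + 1) - 1) + 1 = 2 * ((t + 1 : ℕ) : ℤ) * (h + 1) - 1 := by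
      push_cast; ring
    have e2 : 2 * t * L + 2 * L = 2 * (t + 1) * L := by ring
    rw [e1, e2] at h1
    have h2 := mul_le_mul ih base (by positivity) (Vw_nonneg _ _ _ _ _ _)
    have e3 : Ce e * (Vw e k h a b L / Ce e) ^ (2 * t) * (Ce e * (Vw e k h a b L / Ce e) ^ 2) =
        Ce e * (Ce e * (Vw e k h a b L / Ce e) ^ (2 * (t + 1))) := by ring
    rw [e3] at h2
    exact le_of_mul_le_mul_left (h2.trans h1) hc

theorem wq_chain (e : ℝ) (k h a b : ℤ) {L : ℕ} (hL : 3 ≤ L) {t : ℕ} (ht : 1 ≤ t) :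
    ∃ a' b' : ℤ, (Vw e k h a b L / (2 * Ce e * L)) ^ t ≤
      Vw e k (t * (h + 1) - 1) a' b' (t * L) := by
  have hv := Vw_nonneg e k h a b L
  have hc := Ce_pos e
  have hc2 := Ce_ge e
  have hL0 : (0 : ℝ) < L := by exact_mod_cast (by omega : 0 < L)
  have hL1 : (1 : ℝ) ≤ L := by exact_mod_cast (by omega : 1 ≤ L)
  have hle : Vw e k h a b L / (2 * Ce e * L) ≤ Vw e k h a b L / Ce e :=
    div_le_div_of_nonneg_left hv hc (by nlinarith)
  have h0 : 0 ≤ Vw e k h a b L / (2 * Ce e * L) := by positivity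
  obtain ⟨s, hs | hs⟩ := Nat.even_or_odd' t
  · refine ⟨a, a, ?_⟩
    have h1 := wq_chain_even e k h a b (by omega : 2 ≤ L) (by omega : 1 ≤ s)
    rw [hs]
    push_cast at h1 ⊢
    refine le_trans ?_ h1
    have h2 := pow_le_pow_left₀ h0 hle (2 * s)
    have h3 : 0 ≤ (Vw e k h a b L / Ce e) ^ (2 * s) := by positivity
    nlinarith
  · have hs1 := Vw_symm_le e k h a b hL
    have h2 : Vw e k h a b L / (2 * L) ≤ Vw e k h b a L := by
      rw [div_le_iff₀ (by positivity)]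
      linarith
    rcases Nat.eq_zero_or_pos s with h3 | h3
    · refine ⟨a, b, ?_⟩
      subst h3
      rw [hs]
      push_cast
      simp only [pow_one, one_mul]
      have he : h + 1 - 1 = h := by ring
      rw [he]
      refine hle.trans ?_
      rw [div_le_iff₀ hc]
      nlinarith
    · refine ⟨b, a, ?_⟩
      have h4 := wq_chain_even e k h a b (by omega : 2 ≤ L) h3
      have hM : 2 ≤ 2 * s * L := by nlinarith
      have h5 := Vw_mul e k h (2 * s * (h + 1) - 1) b a a hM (by omega : 2 ≤ L)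
      rw [hs]
      have e1 : h + (2 * s * (h + 1) - 1) + 1 = ((2 * s + 1 : ℕ) : ℤ) * (h + 1) - 1 := by
        push_cast; ring
      have e2 : 2 * s * L + L = (2 * s + 1) * L := by ring
      rw [e1, e2] at h5
      have h6 := mul_le_mul h4 h2 (by positivity) (Vw_nonneg _ _ _ _ _ _)
      have h7 := h6.trans h5
      have h8 : (Vw e k h a b L / (2 * Ce e * L)) ^ (2 * s + 1) ≤
          (Vw e k h a b L / Ce e) ^ (2 * s) * (Vw e k h a b L / (2 * L)) := by
        rw [pow_succ]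
        apply mul_le_mul (pow_le_pow_left₀ h0 hle _) _ h0 (by positivity)
        exact div_le_div_of_nonneg_left hv (by positivity) (by nlinarith)
      have h9 : Ce e * ((Vw e k h a b L / Ce e) ^ (2 * s) * (Vw e k h a b L / (2 * L))) ≤
          Ce e * Vw e k (((2 * s + 1 : ℕ) : ℤ) * (h + 1) - 1) b a ((2 * s + 1) * L) := by
        refine le_trans (le_of_eq ?_) h7
        ring
      exact h8.trans (le_of_mul_le_mul_left h9 hc)

/-- stacks of loops in a box -/
theorem wq_stack (e : ℝ) {w : ℕ} (h : ℤ) {L : ℕ} (hL : 3 ≤ L) {t : ℕ} (ht : 1 ≤ t) :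
    (Bw e w h L / (4 * Ce e * L ^ 2 * ((w : ℝ) + 1) ^ 2)) ^ t ≤
      Bw e w (t * (h + 1) - 1) (t * L) := by
  have hc := Ce_pos e
  have hL0 : (0 : ℝ) < L := by exact_mod_cast (by omega : 0 < L)
  obtain ⟨a, b, hab⟩ := exists_class_w e h hL (k := w)
  obtain ⟨a', b', h1⟩ := wq_chain e w h a b hL ht
  have htL : 0 < t * L := by positivity
  refine le_trans (le_trans (pow_le_pow_left₀ ?_ ?_ t) h1)
    ((Vw_le_Uw _ _ _ _ _ htL).trans (Uw_le_Bw _ _ _ _ _))
  · have := Bw_nonneg e w h L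
    positivity
  · rw [div_le_div_iff₀ (by positivity) (by positivity)]
    have h2 := mul_le_mul_of_nonneg_right hab (by positivity : (0 : ℝ) ≤ 2 * Ce e * L)
    refine h2.trans (le_of_eq ?_)
    ring

/-- squares of loops in a box -/
theorem wsquare (e : ℝ) {w : ℕ} {L : ℕ} (hL : 3 ≤ L) {t : ℕ} (ht : 1 ≤ t) :
    (Bw e w w L / (4 * Ce e * L ^ 2 * ((w : ℝ) + 1) ^ 2)) ^ (t ^ 2) /
      (4 * Ce e * (t * L : ℝ) ^ 2 * (t * ((w : ℝ) + 1)) ^ 2) ^ t ≤
      Bw e (t * (w + 1) - 1 : ℤ) (t * (w + 1) - 1 : ℤ) (t ^ 2 * L) := by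
  have hc := Ce_pos e
  have hL0 : (0 : ℝ) < L := by exact_mod_cast (by omega : 0 < L)
  have ht0 : (0 : ℝ) < t := by exact_mod_cast ht
  have htL : 3 ≤ t * L := by nlinarith
  have h1 := wq_stack e (w := w) w hL ht
  obtain ⟨H, hH⟩ : ∃ H : ℕ, (t * (w + 1) - 1 : ℤ) = H ∧ ((H : ℝ) + 1) = t * (w + 1) := by
    refine ⟨t * (w + 1) - 1, ?_, ?_⟩
    · have : 1 ≤ t * (w + 1) := Nat.mul_pos ht (by omega)
      push_cast [Nat.cast_sub this]
      ring
    · have : 1 ≤ t * (w + 1) := Nat.mul_pos ht (by omega)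
      push_cast [Nat.cast_sub this]
      ring
  have h2 := wq_stack e (w := H) w htL ht
  rw [hH.1] at h1 ⊢
  rw [Bw_symm e (w : ℤ) (H : ℤ) (by positivity)] at h1
  have h0 := Bw_nonneg e w w L
  have h3 : ((Bw e w w L / (4 * Ce e * L ^ 2 * ((w : ℝ) + 1) ^ 2)) ^ t /
      (4 * Ce e * ((t * L : ℕ) : ℝ) ^ 2 * ((H : ℝ) + 1) ^ 2)) ^ t ≤
      (Bw e H w (t * L) / (4 * Ce e * ((t * L : ℕ) : ℝ) ^ 2 * ((H : ℝ) + 1) ^ 2)) ^ t := by
    apply pow_le_pow_left₀ (by positivity)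
    exact div_le_div_of_nonneg_right h1 (by positivity)
  have h4 := h3.trans h2
  rw [hH.1] at h4
  rw [div_pow, ← pow_mul, hH.2] at h4
  have e1 : t * (t * L) = t ^ 2 * L := by ring
  rw [e1] at h4
  push_cast at h4
  have e2 : t * t = t ^ 2 := by ring
  rw [e2] at h4
  exact h4

end Pool.Agent.K6.H36.PJ
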