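import Pool.Agent.K6.H36.PJ.Dm2

/-!
The pressure of the polygons in a square with a weight for the area.
-/

set_option autoImplicit false

namespace Pool.Agent.K6.H36.PJ

open Pool.Agent.N223.PS Pool.Agent.N457.PS Filter Topology

/-- squares of loops, simple form -/
theorem wsquare' (e : ℝ) {w : ℕ} {L : ℕ} (hL : 3 ≤ L) {t : ℕ} (ht : 1 ≤ t) :
    (Bw e w w L * Real.exp (-(9 + 2 * |e| + 4 * Real.log L + 4 * Real.log ((w : ℝ) + 1)))) ^
      (t ^ 2) ≤ Bw e (t * (w + 1) - 1 : ℤ) (t * (w + 1) - 1 : ℤ) (t ^ 2 * L) := by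
  refine le_trans ?_ (wsquare e hL ht)
  have hc2 := Ce_ge e
  have hL0 : (0 : ℝ) < L := by exact_mod_cast (by omega : 0 < L)
  have hL1 : (1 : ℝ) ≤ L := by exact_mod_cast (by omega : 1 ≤ L)
  have ht0 : (0 : ℝ) < t := by exact_mod_cast ht
  have ht1 : (1 : ℝ) ≤ t := by exact_mod_cast ht
  have h0 := Bw_nonneg e w w L
  have hw1 : (1 : ℝ) ≤ (w : ℝ) + 1 := by
    have : (0 : ℝ) ≤ w := by positivity
    linarith
  obtain ⟨A, hA⟩ : ∃ A : ℝ, A = 4 * Ce e * L ^ 2 * ((w : ℝ) + 1) ^ 2 := ⟨_, rfl⟩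
  have hA1 : 1 ≤ A := by
    rw [hA]
    have h1 : (1 : ℝ) ≤ (L : ℝ) ^ 2 := one_le_pow₀ hL1
    have h2 : (1 : ℝ) ≤ ((w : ℝ) + 1) ^ 2 := one_le_pow₀ hw1
    have h3 : (1 : ℝ) ≤ (L : ℝ) ^ 2 * ((w : ℝ) + 1) ^ 2 := one_le_mul_of_one_le_of_one_le h1 h2
    nlinarith
  have hA0 : 0 < A := by linarith
  rw [← hA]
  -- the factor of the last joins
  have hB : (4 * Ce e * (t * L : ℝ) ^ 2 * (t * ((w : ℝ) + 1)) ^ 2) ^ t ≤
      (Real.exp 4 * A) ^ (t ^ 2) := by
    have e1 : 4 * Ce e * (t * L : ℝ) ^ 2 * (t * ((w : ℝ) + 1)) ^ 2 = t ^ 4 * A := by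
      rw [hA]; ring
    have ht4 : (t : ℝ) ^ 4 ≤ Real.exp 4 ^ t := by
      rw [← Real.exp_nat_mul]
      have h1 : (t : ℝ) ≤ Real.exp t := by
        have := Real.add_one_le_exp (t : ℝ)
        linarith
      calc (t : ℝ) ^ 4 ≤ Real.exp t ^ 4 := pow_le_pow_left₀ ht0.le h1 4
        _ = Real.exp (t * 4) := by
          rw [← Real.exp_nat_mul]
          congr 1
          push_cast
          ring
    have hAt : A ≤ A ^ t := le_self_pow₀ hA1 (by omega)
    rw [e1]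
    have h1 : (t : ℝ) ^ 4 * A ≤ (Real.exp 4 * A) ^ t := by
      rw [mul_pow]
      exact mul_le_mul ht4 hAt hA0.le (by positivity)
    have h2 := pow_le_pow_left₀ (by positivity) h1 t
    rw [← pow_mul] at h2
    have e2 : t * t = t ^ 2 := by ring
    rw [e2] at h2
    exact h2
  have hBpos : 0 < (4 * Ce e * (t * L : ℝ) ^ 2 * (t * ((w : ℝ) + 1)) ^ 2) ^ t := by
    have := Ce_pos e
    positivity
  rw [le_div_iff₀ hBpos]
  refine (mul_le_mul_of_nonneg_left hB (by positivity)).trans ?_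
  rw [← mul_pow]
  apply pow_le_pow_left₀ (by positivity)
  rw [mul_assoc]
  rw [le_div_iff₀ hA0, mul_assoc]
  apply mul_le_of_le_one_right h0
  have e3 : A = 8 * Real.exp (|e| + 2 * Real.log L + 2 * Real.log ((w : ℝ) + 1)) := by
    rw [Real.exp_add, Real.exp_add, hA]
    have e4 : Real.exp (2 * Real.log L) = (L : ℝ) ^ 2 := by
      rw [mul_comm, Real.exp_mul, Real.exp_log hL0]
      norm_cast
    have e5 : Real.exp (2 * Real.log ((w : ℝ) + 1)) = ((w : ℝ) + 1) ^ 2 := by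
      rw [mul_comm, Real.exp_mul, Real.exp_log (by linarith)]
      norm_cast
    rw [e4, e5]
    unfold Ce
    ring
  have e6 : Real.exp (-(9 + 2 * |e| + 4 * Real.log L + 4 * Real.log ((w : ℝ) + 1))) *
      (Real.exp 4 * A * A) = 64 * Real.exp (-5) := by
    rw [e3]
    have : Real.exp (-(9 + 2 * |e| + 4 * Real.log L + 4 * Real.log ((w : ℝ) + 1))) *
        (Real.exp 4 * (8 * Real.exp (|e| + 2 * Real.log L + 2 * Real.log ((w : ℝ) + 1))) *
        (8 * Real.exp (|e| + 2 * Real.log L + 2 * Real.log ((w : ℝ) + 1)))) =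
        64 * (Real.exp (-(9 + 2 * |e| + 4 * Real.log L + 4 * Real.log ((w : ℝ) + 1))) *
          Real.exp 4 *
          Real.exp (|e| + 2 * Real.log L + 2 * Real.log ((w : ℝ) + 1)) *
          Real.exp (|e| + 2 * Real.log L + 2 * Real.log ((w : ℝ) + 1))) := by ring
    rw [this, ← Real.exp_add, ← Real.exp_add, ← Real.exp_add]
    congr 2
    ring
  rw [mul_assoc, e6, Real.exp_neg, ← div_eq_mul_inv, div_le_one (Real.exp_pos _)]
  have e8 : Real.exp 5 = Real.exp 1 ^ 5 := by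
    rw [← Real.exp_nat_mul]
    norm_num
  rw [e8]
  have h3 := Real.exp_one_gt_d9
  have h4 := pow_le_pow_left₀ (by norm_num : (0 : ℝ) ≤ 2.7182818283) h3.le 5
  refine le_trans ?_ h4
  norm_num

theorem Bw_mono (e : ℝ) {w w' h h' : ℤ} (hw : w ≤ w') (hh : h ≤ h') (L : ℕ) :
    Bw e w h L ≤ Bw e w' h' L := by
  classical
  unfold Bw
  refine Finset.sum_le_sum fun f _ => ?_
  by_cases H : Nr w f ∧ Lw h f
  · rw [if_pos H, if_pos ⟨fun i j => (H.1 i j).trans hw, fun i j => (H.2 i j).trans hh⟩]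
  · rw [if_neg H]
    split_ifs
    · exact (ex_pos e f).le
    · exact le_rfl

theorem Bw_zero' (w h : ℤ) (L : ℕ) : Bw 0 w h L = Bn w h L := by
  unfold Bw Bn ex
  simp

theorem Bw_anti {e e' : ℝ} (h : e ≤ e') (w h' : ℤ) (L : ℕ) : Bw e' w h' L ≤ Bw e w h' L := by
  classical
  unfold Bw
  refine Finset.sum_le_sum fun f _ => ?_
  by_cases H : Nr w f ∧ Lw h' f
  · rw [if_pos H, if_pos H]
    unfold ex
    apply Real.exp_le_exp.2
    have := mul_le_mul_of_nonneg_right h (Nat.cast_nonneg (α := ℝ) (area L f))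
    linarith
  · rw [if_neg H, if_neg H]

theorem Bw_le_Bn (e : ℝ) {w : ℕ} {L : ℕ} (hL : 0 < L) :
    Bw e w w L ≤ Real.exp (|e| * (w : ℝ) ^ 2) * Bn w w L := by
  classical
  have : NeZero L := ⟨by omega⟩
  unfold Bw Bn
  rw [Finset.mul_sum]
  refine Finset.sum_le_sum fun f hf => ?_
  by_cases H : Nr (w : ℤ) f ∧ Lw (w : ℤ) f
  · rw [if_pos H, if_pos H, mul_one]
    unfold ex
    apply Real.exp_le_exp.2
    have h1 := area_le_box ((mem_LF hL).1 hf) H.1 H.2
    have h2 : (area L f : ℝ) ≤ (w : ℝ) ^ 2 := by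
      have : (area L f : ℝ) ≤ ((w * w : ℕ) : ℝ) := by exact_mod_cast h1
      push_cast at this
      linarith [this, pow_two (w : ℝ)]
    have h3 : -(e * (area L f : ℝ)) ≤ |e| * area L f := by
      have := neg_abs_le e
      have := mul_le_mul_of_nonneg_right this (Nat.cast_nonneg (α := ℝ) (area L f))
      linarith
    exact h3.trans (mul_le_mul_of_nonneg_left h2 (abs_nonneg e))
  · rw [if_neg H, if_neg H, mul_zero]

theorem Bw_zero (e : ℝ) {w L : ℕ} (hL : 0 < L) (h : (w + 1) ^ 2 < L) : Bw e w w L = 0 := by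
  have h1 := Bw_le_Bn e (w := w) hL
  rw [Bn_zero hL h, mul_zero] at h1
  exact le_antisymm h1 (Bw_nonneg _ _ _ _)

theorem Bw_pos_of_Bn {e : ℝ} {w h : ℤ} {L : ℕ} (hB : 0 < Bn w h L) : 0 < Bw e w h L := by
  classical
  by_contra hcon
  have h0 : Bw e w h L = 0 := le_antisymm (not_lt.1 hcon) (Bw_nonneg _ _ _ _)
  unfold Bw at h0
  rw [Finset.sum_eq_zero_iff_of_nonneg] at h0
  · apply hB.ne'
    unfold Bn
    apply Finset.sum_eq_zero
    intro f hf
    have h1 := h0 f hf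
    by_cases H : Nr w f ∧ Lw h f
    · rw [if_pos H] at h1
      exact absurd h1 (ex_pos e f).ne'
    · rw [if_neg H]
  · intro f _
    split_ifs
    · exact (ex_pos e f).le
    · exact le_rfl

/-- the sum of `x ^ |P| exp (-e area(P))` over the polygons `P` in a square of side `w`, up to
translation -/
noncomputable def Zw (x e : ℝ) (w : ℕ) : ℝ :=
  ∑ n ∈ Finset.Icc 2 ((w + 1) ^ 2), Bw e w w (2 * n) / (4 * n) * x ^ (2 * n)

theorem Zw_zero (x : ℝ) (w : ℕ) : Zw x 0 w = Zs x w := by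
  unfold Zw Zs
  simp only [Bw_zero']

theorem wterm_nonneg {x : ℝ} (hx : 0 < x) (e : ℝ) (w n : ℕ) :
    0 ≤ Bw e w w (2 * n) / (4 * n) * x ^ (2 * n) := by
  have := Bw_nonneg e w w (2 * n)
  positivity

theorem Zw_mono {x : ℝ} (hx : 0 < x) (e : ℝ) {w w' : ℕ} (h : w ≤ w') : Zw x e w ≤ Zw x e w' := by
  unfold Zw
  refine le_trans (Finset.sum_le_sum (g := fun n => Bw e w' w' (2 * n) / (4 * n) * x ^ (2 * n))
    fun n _ => ?_) ?_
  · apply mul_le_mul_of_nonneg_right _ (by positivity)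
    apply div_le_div_of_nonneg_right _ (by positivity)
    exact Bw_mono e (by exact_mod_cast h) (by exact_mod_cast h) _
  · apply Finset.sum_le_sum_of_subset_of_nonneg
    · apply Finset.Icc_subset_Icc le_rfl
      exact Nat.pow_le_pow_left (by omega) 2
    · intro n _ _
      exact wterm_nonneg hx e w' n

theorem Bw_unit (e : ℝ) : 0 < Bw e 1 1 4 := Bw_pos_of_Bn (by linarith [Bn_unit])

theorem Zw_ge {x : ℝ} (hx : 0 < x) (e : ℝ) {w : ℕ} (hw : 1 ≤ w) :
    Bw e 1 1 4 * x ^ 4 / 8 ≤ Zw x e w := by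
  unfold Zw
  have h1 : 2 ∈ Finset.Icc 2 ((w + 1) ^ 2) := by
    rw [Finset.mem_Icc]
    have : 2 ^ 2 ≤ (w + 1) ^ 2 := Nat.pow_le_pow_left (by omega) 2
    omega
  refine le_trans ?_ (Finset.single_le_sum (fun n _ => wterm_nonneg hx e w n) h1)
  have h2 : Bw e 1 1 4 ≤ Bw e w w (2 * 2) :=
    Bw_mono e (by exact_mod_cast hw) (by exact_mod_cast hw) _
  have e1 : Bw e 1 1 4 * x ^ 4 / 8 = Bw e 1 1 4 / (4 * ((2 : ℕ) : ℝ)) * x ^ (2 * 2) := by
    push_cast; ring
  rw [e1]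
  apply mul_le_mul_of_nonneg_right _ (by positivity)
  exact div_le_div_of_nonneg_right h2 (by positivity)

theorem Zw_pos {x : ℝ} (hx : 0 < x) (e : ℝ) {w : ℕ} (hw : 1 ≤ w) : 0 < Zw x e w :=
  lt_of_lt_of_le (by have := Bw_unit e; positivity) (Zw_ge hx e hw)

theorem wterm_lower {x : ℝ} (hx : 0 < x) (e : ℝ) {w n t : ℕ} (hn : 2 ≤ n) (hn2 : n ≤ (w + 1) ^ 2)
    (ht : 1 ≤ t) (hB : 0 < Bw e w w (2 * n)) :
    (t : ℝ) ^ 2 * (Real.log (Bw e w w (2 * n)) + 2 * n * Real.log x -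
      (9 + 2 * |e| + 4 * Real.log (2 * n) + 4 * Real.log ((w : ℝ) + 1))) -
        Real.log (4 * (t ^ 2 * n)) ≤ Real.log (Zw x e (t * (w + 1) - 1)) := by
  have ht0 : (0 : ℝ) < t := by exact_mod_cast ht
  have hn0 : (0 : ℝ) < n := by exact_mod_cast (by omega : 0 < n)
  have htw : 1 ≤ t * (w + 1) := Nat.mul_pos ht (by omega)
  obtain ⟨W, hW⟩ : ∃ W, W = t * (w + 1) - 1 := ⟨_, rfl⟩
  have hW1 : W + 1 = t * (w + 1) := by omega
  have h1 := wsquare' e (w := w) (L := 2 * n) (by omega) ht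
  have e1 : (t * (w + 1) - 1 : ℤ) = (W : ℤ) := by
    have : ((W : ℤ) + 1) = t * (w + 1) := by exact_mod_cast hW1
    linarith
  have e2 : t ^ 2 * (2 * n) = 2 * (t ^ 2 * n) := by ring
  rw [e1, e2] at h1
  rw [← hW]
  have h2 : t ^ 2 * n ∈ Finset.Icc 2 ((W + 1) ^ 2) := by
    rw [Finset.mem_Icc, hW1, mul_pow]
    constructor
    · have : 1 ≤ t ^ 2 := Nat.one_le_pow _ _ ht
      nlinarith
    · exact Nat.mul_le_mul_left _ hn2
  have h3 : Bw e W W (2 * (t ^ 2 * n)) / (4 * ((t ^ 2 * n : ℕ) : ℝ)) * x ^ (2 * (t ^ 2 * n)) ≤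
      Zw x e W := by
    unfold Zw
    exact Finset.single_le_sum (f := fun n : ℕ => Bw e W W (2 * n) / (4 * n) * x ^ (2 * n))
      (fun n _ => wterm_nonneg hx e W n) h2
  obtain ⟨E, hE⟩ : ∃ E : ℝ, E = 9 + 2 * |e| + 4 * Real.log (2 * n) +
    4 * Real.log ((w : ℝ) + 1) := ⟨_, rfl⟩
  have h4 : (Bw e w w (2 * n) * Real.exp (-E)) ^ (t ^ 2) / (4 * (t ^ 2 * n : ℝ)) *
      x ^ (2 * (t ^ 2 * n)) ≤ Zw x e W := by
    refine le_trans ?_ h3
    push_cast at h1 ⊢
    rw [hE]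
    apply mul_le_mul_of_nonneg_right _ (by positivity)
    exact div_le_div_of_nonneg_right h1 (by positivity)
  have h5 := Real.log_le_log (by positivity) h4
  refine le_trans (le_of_eq ?_) h5
  rw [← hE]
  symm
  rw [Real.log_mul (by positivity) (by positivity), Real.log_div (by positivity) (by positivity),
    Real.log_pow, Real.log_mul hB.ne' (Real.exp_pos _).ne', Real.log_exp, Real.log_pow]
  push_cast
  ring

theorem exists_wterm {x : ℝ} (hx : 0 < x) (e : ℝ) {w : ℕ} (hw : 1 ≤ w) : ∃ n : ℕ, 2 ≤ n ∧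
    n ≤ (w + 1) ^ 2 ∧ 0 < Bw e w w (2 * n) ∧
    Real.log (Zw x e w) - 2 * Real.log ((w : ℝ) + 1) ≤
      Real.log (Bw e w w (2 * n)) + 2 * n * Real.log x := by
  have h1 : 2 ∈ Finset.Icc 2 ((w + 1) ^ 2) := by
    rw [Finset.mem_Icc]
    have : 2 ^ 2 ≤ (w + 1) ^ 2 := Nat.pow_le_pow_left (by omega) 2
    omega
  obtain ⟨n, hn, hmax⟩ := Finset.exists_max_image (Finset.Icc 2 ((w + 1) ^ 2))
    (fun n : ℕ => Bw e w w (2 * n) / (4 * n) * x ^ (2 * n)) ⟨2, h1⟩
  rw [Finset.mem_Icc] at hn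
  have hn0 : (1 : ℝ) ≤ n := by exact_mod_cast (by omega : 1 ≤ n)
  have hZ := Zw_pos hx e hw
  have h2 : Zw x e w ≤ ((w : ℝ) + 1) ^ 2 * (Bw e w w (2 * n) / (4 * n) * x ^ (2 * n)) := by
    unfold Zw
    refine (Finset.sum_le_card_nsmul _ _ _ hmax).trans ?_
    rw [nsmul_eq_mul]
    apply mul_le_mul_of_nonneg_right _ (wterm_nonneg hx e w n)
    rw [Nat.card_Icc]
    have : (((w + 1) ^ 2 + 1 - 2 : ℕ) : ℝ) ≤ (((w + 1) ^ 2 : ℕ) : ℝ) := by
      exact_mod_cast (by omega : (w + 1) ^ 2 + 1 - 2 ≤ (w + 1) ^ 2)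
    push_cast at this
    exact this
  have hB : 0 < Bw e w w (2 * n) := by
    rcases (Bw_nonneg e w w (2 * n)).lt_or_eq with h | h
    · exact h
    · rw [← h] at h2
      simp at h2
      linarith
  refine ⟨n, hn.1, hn.2, hB, ?_⟩
  have h3 := Real.log_le_log hZ h2
  rw [Real.log_mul (by positivity) (by positivity), Real.log_mul (by positivity) (by positivity),
    Real.log_div hB.ne' (by positivity), Real.log_pow, Real.log_pow] at h3
  have h4 : 0 ≤ Real.log (4 * n) := Real.log_nonneg (by linarith)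
  push_cast at h3
  linarith

theorem Zw_super {x : ℝ} (hx : 0 < x) (e : ℝ) (w t : ℕ) (hw : 1 ≤ w) (ht : 1 ≤ t) :
    (t : ℝ) ^ 2 * (Real.log (Zw x e w) - (14 + 2 * |e|) * (1 + Real.log ((w : ℝ) + 1))) -
      (14 + 2 * |e|) * (1 + Real.log ((w : ℝ) + 1)) * t ≤
        Real.log (Zw x e (t * (w + 1) - 1)) := by
  obtain ⟨n, hn, hn2, hB, h1⟩ := exists_wterm hx e hw
  have h2 := wterm_lower hx e hn hn2 ht hB
  have ht0 : (0 : ℝ) < t := by exact_mod_cast ht
  have ht1 : (1 : ℝ) ≤ t := by exact_mod_cast ht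
  have hn0 : (0 : ℝ) < n := by exact_mod_cast (by omega : 0 < n)
  have hw0 : (0 : ℝ) ≤ w := by positivity
  have ha := abs_nonneg e
  have hl0 : 0 ≤ Real.log ((w : ℝ) + 1) := Real.log_nonneg (by linarith)
  have hln : Real.log n ≤ 2 * Real.log ((w : ℝ) + 1) := by
    have h3 : (n : ℝ) ≤ ((w : ℝ) + 1) ^ 2 := by exact_mod_cast hn2
    have := Real.log_le_log hn0 h3
    rwa [Real.log_pow] at this
  have hl2 : Real.log 2 ≤ 1 := by
    have := Real.log_two_lt_d9
    linarith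
  have e1 : Real.log (2 * n) = Real.log 2 + Real.log n := Real.log_mul (by norm_num) hn0.ne'
  have hlt : Real.log t ≤ t := (Real.log_le_sub_one_of_pos ht0).trans (by linarith)
  have e2 : Real.log (4 * (t ^ 2 * n)) = 2 * Real.log 2 + (2 * Real.log t + Real.log n) := by
    rw [Real.log_mul (by norm_num) (by positivity), Real.log_mul (by positivity) hn0.ne',
      Real.log_pow]
    have : (4 : ℝ) = 2 ^ 2 := by norm_num
    rw [this, Real.log_pow]
    push_cast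
    ring
  rw [e2, e1] at h2
  refine le_trans ?_ h2
  have hal : 0 ≤ |e| * Real.log ((w : ℝ) + 1) := mul_nonneg ha hl0
  have h3 : Real.log (Zw x e w) - (14 + 2 * |e|) * (1 + Real.log ((w : ℝ) + 1)) ≤
      Real.log (Bw e w w (2 * n)) + 2 * n * Real.log x -
        (9 + 2 * |e| + 4 * (Real.log 2 + Real.log n) + 4 * Real.log ((w : ℝ) + 1)) := by
    have : (14 + 2 * |e|) * (1 + Real.log ((w : ℝ) + 1)) =
      14 + 2 * |e| + 14 * Real.log ((w : ℝ) + 1) + 2 * (|e| * Real.log ((w : ℝ) + 1)) := by ring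
    rw [this]
    linarith
  have h4 := mul_le_mul_of_nonneg_left h3 (by positivity : (0 : ℝ) ≤ (t : ℝ) ^ 2)
  have h5 : 2 * Real.log 2 + (2 * Real.log t + Real.log n) ≤
      (14 + 2 * |e|) * (1 + Real.log ((w : ℝ) + 1)) * t := by
    have h6 : (14 : ℝ) * (1 + Real.log ((w : ℝ) + 1)) * t ≤
        (14 + 2 * |e|) * (1 + Real.log ((w : ℝ) + 1)) * t := by
      apply mul_le_mul_of_nonneg_right _ ht0.le
      exact mul_le_mul_of_nonneg_right (by linarith) (by linarith)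
    nlinarith [mul_nonneg hl0 ht0.le, mul_nonneg hl0 (sub_nonneg.2 ht1)]
  linarith

theorem Zw_le {x : ℝ} (hx : 0 < x) (e : ℝ) {w : ℕ} (hw : 1 ≤ w) :
    Real.log (Zw x e w) ≤ |e| * (w : ℝ) ^ 2 + Real.log (Zs x w) := by
  have hZ := Zs_pos hx hw
  have h1 : Zw x e w ≤ Real.exp (|e| * (w : ℝ) ^ 2) * Zs x w := by
    unfold Zw Zs
    rw [Finset.mul_sum]
    refine Finset.sum_le_sum fun n hn => ?_
    rw [Finset.mem_Icc] at hn
    have h2 := Bw_le_Bn e (w := w) (L := 2 * n) (by omega)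
    have h3 := mul_le_mul_of_nonneg_right (div_le_div_of_nonneg_right h2
      (by positivity : (0 : ℝ) ≤ 4 * n)) (by positivity : (0 : ℝ) ≤ x ^ (2 * n))
    refine h3.trans (le_of_eq ?_)
    ring
  have h2 := Real.log_le_log (Zw_pos hx e hw) h1
  rw [Real.log_mul (Real.exp_pos _).ne' hZ.ne', Real.log_exp] at h2
  exact h2

theorem exists_lam2 {x : ℝ} (hx : 0 < x) (e : ℝ) : ∃ l : ℝ,
    Tendsto (fun w : ℕ => Real.log (Zw x e w) / (w : ℝ) ^ 2) atTop (𝓝 l) := by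
  obtain ⟨K, hK, h⟩ := Zs_le
  have ha := abs_nonneg e
  have hM : 0 ≤ max 0 (Real.log (H981.mu * x)) := le_max_left _ _
  refine exists_limit (C := 14 + 2 * |e| + K + max 0 (Real.log (H981.mu * x))) ?_ ?_ ?_
    (by positivity)
  · intro w w' hw hww
    exact Real.log_le_log (Zw_pos hx e hw) (Zw_mono hx e hww)
  · intro w t hw ht
    refine le_trans ?_ (Zw_super hx e w t hw ht)
    have hw0 : (0 : ℝ) ≤ w := by positivity
    have hl0 : 0 ≤ Real.log ((w : ℝ) + 1) := Real.log_nonneg (by linarith)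
    have ht0 : (0 : ℝ) < t := by exact_mod_cast ht
    have h1 : (14 + 2 * |e|) * (1 + Real.log ((w : ℝ) + 1)) ≤
        (14 + 2 * |e| + K + max 0 (Real.log (H981.mu * x))) * (1 + Real.log ((w : ℝ) + 1)) :=
      mul_le_mul_of_nonneg_right (by linarith) (by linarith)
    have h2 := mul_le_mul_of_nonneg_left h1 ht0.le
    have h3 := mul_le_mul_of_nonneg_left h1 (by positivity : (0 : ℝ) ≤ (t : ℝ) ^ 2)
    linarith
  · intro w hw
    refine (Zw_le hx e hw).trans ?_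
    have h0 := h x hx w hw
    have hw1 : (1 : ℝ) ≤ w := by exact_mod_cast hw
    have hl0 : 0 ≤ Real.log ((w : ℝ) + 1) := Real.log_nonneg (by linarith)
    have hl1 : Real.log ((w : ℝ) + 1) ≤ (w : ℝ) + 1 := by
      have := Real.log_le_sub_one_of_pos (by linarith : (0 : ℝ) < (w : ℝ) + 1)
      linarith
    have h2 : Real.log ((w : ℝ) + 1) ^ 2 ≤ ((w : ℝ) + 1) ^ 2 := pow_le_pow_left₀ hl0 hl1 2
    have h3 := mul_le_mul_of_nonneg_left h2 hK
    have h4 : |e| * (w : ℝ) ^ 2 ≤ |e| * ((w : ℝ) + 1) ^ 2 :=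
      mul_le_mul_of_nonneg_left (by nlinarith) ha
    nlinarith

/-- the pressure with a weight for the area -/
noncomputable def lam2 (x e : ℝ) : ℝ :=
  if h : 0 < x then Classical.choose (exists_lam2 h e) else 0

theorem lam2_tendsto {x : ℝ} (hx : 0 < x) (e : ℝ) :
    Tendsto (fun w : ℕ => Real.log (Zw x e w) / (w : ℝ) ^ 2) atTop (𝓝 (lam2 x e)) := by
  unfold lam2
  rw [dif_pos hx]
  exact Classical.choose_spec (exists_lam2 hx e)

theorem lam2_zero {x : ℝ} (hx : 0 < x) : lam2 x 0 = lam x := by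
  refine tendsto_nhds_unique (lam2_tendsto hx 0) ?_
  simp only [Zw_zero]
  exact lam_tendsto hx

theorem lam2_nonneg {x : ℝ} (hx : 0 < x) (e : ℝ) : 0 ≤ lam2 x e := by
  have hu := Bw_unit e
  have h1 : Tendsto (fun w : ℕ => Real.log (Bw e 1 1 4 * x ^ 4 / 8) *
      ((1 / (w : ℝ)) * (1 / (w : ℝ)))) atTop
      (𝓝 (Real.log (Bw e 1 1 4 * x ^ 4 / 8) * (0 * 0))) := by
    have h3 : Tendsto (fun W : ℕ => 1 / (W : ℝ)) atTop (𝓝 0) :=
      tendsto_natCast_atTop_atTop.const_div_atTop 1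
    exact (h3.mul h3).const_mul _
  rw [mul_zero, mul_zero] at h1
  refine le_of_tendsto_of_tendsto h1 (lam2_tendsto hx e) ?_
  filter_upwards [eventually_ge_atTop 1] with w hw
  have hw0 : (0 : ℝ) < w := by exact_mod_cast hw
  have h2 := Real.log_le_log (by positivity) (Zw_ge hx e hw)
  have e1 : Real.log (Bw e 1 1 4 * x ^ 4 / 8) * ((1 / (w : ℝ)) * (1 / (w : ℝ))) =
      Real.log (Bw e 1 1 4 * x ^ 4 / 8) / (w : ℝ) ^ 2 := by
    field_simp
  rw [e1]
  exact div_le_div_of_nonneg_right h2 (by positivity)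

theorem lam2_mono {x y : ℝ} (hx : 0 < x) (hxy : x ≤ y) {e e' : ℝ} (he : e' ≤ e) :
    lam2 x e ≤ lam2 y e' := by
  have hy : 0 < y := by linarith
  refine le_of_tendsto_of_tendsto (lam2_tendsto hx e) (lam2_tendsto hy e') ?_
  filter_upwards [eventually_ge_atTop 1] with w hw
  apply div_le_div_of_nonneg_right _ (by positivity)
  refine Real.log_le_log (Zw_pos hx e hw) ?_
  unfold Zw
  refine Finset.sum_le_sum fun n _ => ?_
  have h1 := Bw_nonneg e' w w (2 * n)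
  exact mul_le_mul (div_le_div_of_nonneg_right (Bw_anti he _ _ _) (by positivity))
    (pow_le_pow_left₀ hx.le hxy _) (by positivity) (by positivity)

theorem lam2_ge {x : ℝ} (hx : 0 < x) (e : ℝ) {w n : ℕ} (hw : 1 ≤ w) (hn : 2 ≤ n)
    (hB : 0 < Bw e w w (2 * n)) :
    (Real.log (Bw e w w (2 * n)) + 2 * n * Real.log x -
      (9 + 2 * |e| + 4 * Real.log (2 * n) + 4 * Real.log ((w : ℝ) + 1))) / ((w : ℝ) + 1) ^ 2 ≤
        lam2 x e := by
  have hn0 : (0 : ℝ) < n := by exact_mod_cast (by omega : 0 < n)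
  have hn1 : (1 : ℝ) ≤ n := by exact_mod_cast (by omega : 1 ≤ n)
  have hn2 : n ≤ (w + 1) ^ 2 := by
    by_contra hcon
    rw [Bw_zero e (by omega) (by omega)] at hB
    exact lt_irrefl _ hB
  have h := limit_ge (a := fun w => Real.log (Zw x e w)) (v := w + 1)
    (fun w w' hw hww => Real.log_le_log (Zw_pos hx e hw) (Zw_mono hx e hww)) (lam2_tendsto hx e)
    (by omega) (β := Real.log (Bw e w w (2 * n)) + 2 * n * Real.log x -
      (9 + 2 * |e| + 4 * Real.log (2 * n) + 4 * Real.log ((w : ℝ) + 1))) (D := 4 + Real.log n) (by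
      intro t ht
      refine le_trans ?_ (wterm_lower hx e hn hn2 ht hB)
      have ht0 : (0 : ℝ) < t := by exact_mod_cast ht
      have ht1 : (1 : ℝ) ≤ t := by exact_mod_cast ht
      have hl2 : Real.log 2 ≤ 1 := by
        have := Real.log_two_lt_d9
        linarith
      have hlt : Real.log t ≤ t := (Real.log_le_sub_one_of_pos ht0).trans (by linarith)
      have hln : 0 ≤ Real.log n := Real.log_nonneg hn1
      have e2 : Real.log (4 * (t ^ 2 * n)) = 2 * Real.log 2 + (2 * Real.log t + Real.log n) := by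
        rw [Real.log_mul (by norm_num) (by positivity), Real.log_mul (by positivity) hn0.ne',
          Real.log_pow]
        have : (4 : ℝ) = 2 ^ 2 := by norm_num
        rw [this, Real.log_pow]
        push_cast
        ring
      rw [e2]
      have : 2 * Real.log 2 + (2 * Real.log t + Real.log n) ≤ (4 + Real.log n) * t := by
        nlinarith [mul_nonneg hln (sub_nonneg.2 ht1)]
      linarith)
  push_cast at h
  exact h

end Pool.Agent.K6.H36.PJ
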