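import Pool.Agent.K6.H36.PJ.Dm3

/-!
The frame of a loop: a rectangle around the loop, joined with it; the inside and the outside are
exchanged.
-/

set_option autoImplicit false

namespace Pool.Agent.K6.H36.PJ

open Pool.Agent.N223.PS Pool.Agent.N457.PS

/-! ### rectangles -/

/-- the boundary of a rectangle, as a path -/
def rc (R T D : ℕ) (k : ℕ) : ℤ × ℤ :=
  if k ≤ R then ((k : ℤ), 0)
  else if k ≤ R + D then ((R : ℤ), (R : ℤ) - k)
  else if k ≤ 2 * R + D + T then (2 * (R : ℤ) + D - k, -(D : ℤ))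
  else if k ≤ 2 * R + 2 * D + T then (-(T : ℤ), (k : ℤ) - (2 * R + 2 * D + T))
  else ((k : ℤ) - (2 * R + 2 * D + 2 * T), 0)

theorem nb_of {p q : ℤ × ℤ} (h : (q.1 = p.1 + 1 ∧ q.2 = p.2) ∨ (q.1 = p.1 - 1 ∧ q.2 = p.2) ∨
    (q.1 = p.1 ∧ q.2 = p.2 + 1) ∨ (q.1 = p.1 ∧ q.2 = p.2 - 1)) : Nb p q := by
  unfold Nb
  rcases h with ⟨h1, h2⟩ | ⟨h1, h2⟩ | ⟨h1, h2⟩ | ⟨h1, h2⟩ <;> rw [h1, h2] <;> norm_num

theorem rc_cl {R T D : ℕ} (hR : 1 ≤ R) (hT : 1 ≤ T) (hD : 1 ≤ D) :
    Cl (2 * R + 2 * D + 2 * T) (rc R T D) := by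
  refine ⟨by omega, ?_, ?_, ?_⟩
  · intro i hi
    apply nb_of
    unfold rc
    split_ifs <;> dsimp only <;> omega
  · intro i hi j hj hij
    unfold rc at hij
    split_ifs at hij <;> rw [Prod.mk.injEq] at hij <;> omega
  · unfold rc
    split_ifs <;> rw [Prod.mk.injEq] <;> omega

/-- the boundary of a rectangle -/
def rg (R T D : ℕ) : ZMod (2 * R + 2 * D + 2 * T) → ℤ × ℤ := tol (2 * R + 2 * D + 2 * T) (rc R T D)

section
variable {R T D : ℕ}

theorem rc_zero : rc R T D 0 = 0 := by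
  unfold rc
  rw [if_pos (by omega)]
  rfl

theorem rg_loop (hR : 1 ≤ R) (hT : 1 ≤ T) (hD : 1 ≤ D) :
    IsLoop (2 * R + 2 * D + 2 * T) (rg R T D) :=
  tol_loop (rc_cl hR hT hD) rc_zero

theorem rg_cast (hR : 1 ≤ R) (hT : 1 ≤ T) (hD : 1 ≤ D) {k : ℕ} (hk : k ≤ 2 * R + 2 * D + 2 * T) :
    rg R T D (k : ZMod (2 * R + 2 * D + 2 * T)) = rc R T D k :=
  tol_cast_le (rc_cl hR hT hD).clo (by omega) hk

theorem rg_last (hR : 1 ≤ R) (hT : 1 ≤ T) (hD : 1 ≤ D) : rg R T D (-1) = (-1, 0) := by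
  have h := rg_cast hR hT hD (k := 2 * R + 2 * D + 2 * T - 1) (by omega)
  rw [cast_pred (by omega)] at h
  rw [h]
  unfold rc
  split_ifs <;> rw [Prod.mk.injEq] <;> omega

theorem rg_bdry (hR : 1 ≤ R) (hT : 1 ≤ T) (hD : 1 ≤ D) (i : ZMod (2 * R + 2 * D + 2 * T)) :
    (-(T : ℤ) ≤ (rg R T D i).1 ∧ (rg R T D i).1 ≤ R) ∧
      (-(D : ℤ) ≤ (rg R T D i).2 ∧ (rg R T D i).2 ≤ 0) ∧
      ((rg R T D i).1 = -(T : ℤ) ∨ (rg R T D i).1 = R ∨ (rg R T D i).2 = -(D : ℤ) ∨
        (rg R T D i).2 = 0) := by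
  obtain ⟨k, hk, rfl⟩ := exists_cast (by omega) i
  rw [rg_cast hR hT hD hk.le]
  unfold rc
  split_ifs <;> dsimp only <;> omega

theorem rg_encl (hR : 1 ≤ R) (hT : 1 ≤ T) (hD : 1 ≤ D) (c : ℤ × ℤ) :
    Encl (2 * R + 2 * D + 2 * T) (rg R T D) c ↔
      (-(T : ℤ) ≤ c.1 ∧ c.1 < R) ∧ (-(D : ℤ) ≤ c.2 ∧ c.2 < 0) := by
  have : NeZero (2 * R + 2 * D + 2 * T) := ⟨by omega⟩
  constructor
  · intro hc
    exact encl_box (rg_loop hR hT hD) (fun i => (rg_bdry hR hT hD i).1)
      (fun i => (rg_bdry hR hT hD i).2.1) hc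
  · obtain ⟨a, b⟩ := c
    rintro ⟨⟨h1, h2⟩, h3, h4⟩
    simp only at h1 h2 h3 h4
    rw [encl_range]
    obtain ⟨k0, hk0⟩ : ∃ k0 : ℕ, k0 < 2 * R + 2 * D + 2 * T ∧
        ((k0 : ℤ) = a ∨ ((k0 : ℤ) = a + (2 * R + 2 * D + 2 * T) ∧ a < 0)) := by
      rcases le_or_gt 0 a with h | h
      · exact ⟨a.toNat, by omega, by omega⟩
      · exact ⟨(a + (2 * R + 2 * D + 2 * T)).toNat, by omega, by omega⟩
    rw [Finset.sum_eq_single k0]
    · apply tv_true
      unfold Above
      have e : ((k0 : ℕ) : ZMod (2 * R + 2 * D + 2 * T)) + 1 =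
        ((k0 + 1 : ℕ) : ZMod (2 * R + 2 * D + 2 * T)) := by push_cast; ring
      rw [e, rg_cast hR hT hD (by omega), rg_cast hR hT hD (by omega)]
      unfold rc
      split_ifs <;> dsimp only <;> omega
    · intro k hk hne
      rw [Finset.mem_range] at hk
      apply tv_false
      unfold Above
      have e : ((k : ℕ) : ZMod (2 * R + 2 * D + 2 * T)) + 1 =
        ((k + 1 : ℕ) : ZMod (2 * R + 2 * D + 2 * T)) := by push_cast; ring
      rw [e, rg_cast hR hT hD (by omega), rg_cast hR hT hD (by omega)]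
      unfold rc
      split_ifs <;> dsimp only <;> omega
    · intro h
      exact absurd (Finset.mem_range.2 hk0.1) h

theorem rg_area (hR : 1 ≤ R) (hT : 1 ≤ T) (hD : 1 ≤ D) :
    area (2 * R + 2 * D + 2 * T) (rg R T D) = (R + T) * D := by
  classical
  have e : area (2 * R + 2 * D + 2 * T) (rg R T D) =
      {c : ℤ × ℤ | Encl (2 * R + 2 * D + 2 * T) (rg R T D) c}.ncard := rfl
  have h : {c : ℤ × ℤ | Encl (2 * R + 2 * D + 2 * T) (rg R T D) c} =
      ((Finset.Ico (-(T : ℤ)) R ×ˢ Finset.Ico (-(D : ℤ)) 0 : Finset (ℤ × ℤ)) :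
        Set (ℤ × ℤ)) := by
    ext c
    simp only [Finset.coe_product, Finset.coe_Ico, Set.mem_prod, Set.mem_Ico]
    exact rg_encl hR hT hD c
  rw [e, h, Set.ncard_coe_finset, Finset.card_product, Int.card_Ico, Int.card_Ico]
  congr 1 <;> omega

end

/-! ### nested joins -/

section
variable {M N : ℕ} {G : ZMod M → ℤ × ℤ} {f : ZMod N → ℤ × ℤ}

theorem jn_cl' (hG : IsLoop M G) (gl : G (-1) = (-1, 0)) (hf : IsLoop N f) (f1 : f 1 = (-1, 0))
    (hd : ∀ i j, (G i).1 = (f j).1 → (G i).2 + 1 = (f j).2 → False)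
    (hM : 2 ≤ M) (hN : 2 ≤ N) : Cl (M + N) (jn M N G f) := by
  have hz : jn M N G f (M + N) = 0 := by
    rw [jn_high N (by omega), ZMod.natCast_self, hf.1]
  refine ⟨by omega, ?_, ?_, ?_⟩
  · intro i hi
    rcases Nat.lt_or_ge i 1 with h0 | h0
    · have e : i = 0 := by omega
      subst e
      rw [jn_zero, jn_low (by omega), Nat.cast_zero, hG.1]
      unfold Nb
      norm_num
    rcases Nat.lt_or_ge i M with h1 | h1
    · obtain ⟨j, rfl⟩ : ∃ j, i = j + 1 := ⟨i - 1, by omega⟩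
      rw [jn_low (by omega), jn_low (by omega)]
      have h2 := hG.2.2 (j : ZMod M)
      unfold Nb
      push_cast
      rw [abs_sub_comm, abs_sub_comm ((G (j : ZMod M)).2 + 1)]
      rw [add_sub_add_right_eq_sub]
      exact h2
    rcases Nat.lt_or_ge M i with h2 | h2
    · obtain ⟨j, rfl⟩ : ∃ j, i = M + j := ⟨i - M, by omega⟩
      rw [jn_high j (by omega), add_assoc, jn_high (j + 1) (by omega)]
      have h2 := hf.2.2 (j : ZMod N)
      unfold Nb
      push_cast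
      rw [abs_sub_comm, abs_sub_comm (f (j : ZMod N)).2]
      exact h2
    · have e : i = M := by omega
      subst e
      obtain ⟨j, hj⟩ : ∃ j, i = j + 1 := ⟨i - 1, by omega⟩
      rw [jn_high 1 (by omega), Nat.cast_one, f1]
      have e2 : jn i N G f i = (-1, 1) := by
        have e3 := jn_low (M := i) (N := N) (G := G) (f := f) (j := j) (by omega)
        rw [← hj] at e3
        rw [e3]
        have e4 : ((j : ℕ) : ZMod i) = -1 := by
          rw [← cast_pred (by omega : 0 < i)]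
          congr 1
          omega
        rw [e4, gl]
        norm_num
      rw [e2]
      unfold Nb
      norm_num
  · intro i hi j hj hij
    have key : ∀ i < M + N, (∃ t : ℕ, t < N ∧ jn M N G f i = f (t : ZMod N) ∧
          ((i = 0 ∧ t = 0) ∨ (M < i ∧ i = M + t))) ∨
        (1 ≤ i ∧ i ≤ M ∧
          jn M N G f i = ((G ((i - 1 : ℕ) : ZMod M)).1, (G ((i - 1 : ℕ) : ZMod M)).2 + 1)) := by
      intro i hi
      rcases Nat.lt_or_ge i 1 with h0 | h0
      · left
        have e : i = 0 := by omega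
        subst e
        refine ⟨0, by omega, ?_, Or.inl ⟨rfl, rfl⟩⟩
        rw [jn_zero, Nat.cast_zero, hf.1]
      rcases Nat.lt_or_ge M i with h1 | h1
      · left
        refine ⟨i - M, by omega, ?_, Or.inr ⟨h1, by omega⟩⟩
        unfold jn
        rw [if_neg (by omega), if_neg (by omega)]
      · right
        refine ⟨h0, h1, ?_⟩
        unfold jn
        rw [if_neg (by omega), if_pos (by omega)]
    rcases key i hi with ⟨t, ht, h1, h2⟩ | ⟨h1, h2, h3⟩ <;>
      rcases key j hj with ⟨s, hs, g1, g2⟩ | ⟨g1, g2, g3⟩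
    · rw [h1, g1] at hij
      have := cast_inj ht hs (hf.2.1 hij)
      omega
    · exfalso
      rw [h1, g3] at hij
      apply hd ((j - 1 : ℕ) : ZMod M) (t : ZMod N) <;> rw [hij]
    · exfalso
      rw [h3, g1] at hij
      apply hd ((i - 1 : ℕ) : ZMod M) (s : ZMod N) <;> rw [← hij]
    · rw [h3, g3, Prod.mk.injEq] at hij
      have h5 : G ((i - 1 : ℕ) : ZMod M) = G ((j - 1 : ℕ) : ZMod M) :=
        Prod.ext hij.1 (by omega)
      have := cast_inj (by omega) (by omega) (hG.2.1 h5)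
      omega
  · rw [hz, jn_zero]

theorem join_loop' (hG : IsLoop M G) (gl : G (-1) = (-1, 0)) (hf : IsLoop N f)
    (f1 : f 1 = (-1, 0)) (hd : ∀ i j, (G i).1 = (f j).1 → (G i).2 + 1 = (f j).2 → False)
    (hM : 2 ≤ M) (hN : 2 ≤ N) : IsLoop (M + N) (join M N G f) :=
  tol_loop (jn_cl' hG gl hf f1 hd hM hN) jn_zero

theorem join_encl' (g0 : G 0 = 0) (gl : G (-1) = (-1, 0)) (f0 : f 0 = 0) (f1 : f 1 = (-1, 0))
    (hM : 2 ≤ M) (hN : 2 ≤ N) (c : ℤ × ℤ) :
    ∑ k ∈ Finset.range (M + N), tv (Above (M + N) (join M N G f) c.1 c.2 (k : ZMod (M + N))) =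
      ∑ k ∈ Finset.range M, tv (Above M G c.1 (c.2 - 1) (k : ZMod M)) +
      ∑ k ∈ Finset.range N, tv (Above N f c.1 c.2 (k : ZMod N)) + tv (c = (-1, 0)) := by
  obtain ⟨a, b⟩ := c
  obtain ⟨M', rfl⟩ : ∃ M', M = M' + 1 := ⟨M - 1, by omega⟩
  obtain ⟨N', rfl⟩ : ∃ N', N = N' + 1 := ⟨N - 1, by omega⟩
  simp only
  -- the values
  have z0 : tv (Above (M' + 1 + (N' + 1)) (join (M' + 1) (N' + 1) G f) a b
      ((0 : ℕ) : ZMod (M' + 1 + (N' + 1)))) = 0 := by
    apply tv_false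
    rintro ⟨h, -⟩
    have e1 := join_low (M := M' + 1) (N := N' + 1) (G := G) (f := f) (j := 0) hN (by omega)
    rw [Nat.cast_zero, g0] at e1
    have e2 : ((0 : ℕ) : ZMod (M' + 1 + (N' + 1))) + 1 =
      ((0 + 1 : ℕ) : ZMod (M' + 1 + (N' + 1))) := by push_cast; ring
    rw [e2, e1, Nat.cast_zero, join_zero hM] at h
    simp only [Prod.fst_zero] at h
    omega
  have z1 : ∀ k, k < M' → tv (Above (M' + 1 + (N' + 1)) (join (M' + 1) (N' + 1) G f) a b
      ((k + 1 : ℕ) : ZMod (M' + 1 + (N' + 1)))) =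
        tv (Above (M' + 1) G a (b - 1) ((k : ℕ) : ZMod (M' + 1))) := by
    intro k hk
    apply tv_congr
    have e1 := join_low (M := M' + 1) (N := N' + 1) (G := G) (f := f) (j := k) hN (by omega)
    have e2 := join_low (M := M' + 1) (N := N' + 1) (G := G) (f := f) (j := k + 1) hN (by omega)
    have e3 : ((k + 1 : ℕ) : ZMod (M' + 1 + (N' + 1))) + 1 =
      ((k + 1 + 1 : ℕ) : ZMod (M' + 1 + (N' + 1))) := by push_cast; ring
    have e4 : ((k : ℕ) : ZMod (M' + 1)) + 1 = ((k + 1 : ℕ) : ZMod (M' + 1)) := by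
      push_cast; ring
    unfold Above
    rw [e3, e1, e2, e4]
    simp only
    constructor
    · rintro ⟨h1, h2⟩
      exact ⟨h1, by omega⟩
    · rintro ⟨h1, h2⟩
      exact ⟨h1, by omega⟩
  have z2 : tv (Above (M' + 1 + (N' + 1)) (join (M' + 1) (N' + 1) G f) a b
      ((M' + 1 : ℕ) : ZMod (M' + 1 + (N' + 1)))) = 0 := by
    apply tv_false
    rintro ⟨h, -⟩
    have e1 := join_low (M := M' + 1) (N := N' + 1) (G := G) (f := f) (j := M') hN (by omega)
    have e2 := join_high (M := M' + 1) (N := N' + 1) (G := G) (f := f) (j := 1) (by omega)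
      (by omega)
    have e3 : ((M' + 1 : ℕ) : ZMod (M' + 1 + (N' + 1))) + 1 =
      ((M' + 1 + 1 : ℕ) : ZMod (M' + 1 + (N' + 1))) := by push_cast; ring
    have e4 : ((M' : ℕ) : ZMod (M' + 1)) = -1 := by
      have := cast_pred (M := M' + 1) (by omega)
      rwa [Nat.add_sub_cancel] at this
    rw [e3, e1, e2, e4, gl, Nat.cast_one, f1] at h
    simp only at h
    omega
  have z3 : ∀ k, k < N' → tv (Above (M' + 1 + (N' + 1)) (join (M' + 1) (N' + 1) G f) a b
      ((M' + 1 + (k + 1) : ℕ) : ZMod (M' + 1 + (N' + 1)))) =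
        tv (Above (N' + 1) f a b ((k + 1 : ℕ) : ZMod (N' + 1))) := by
    intro k hk
    apply tv_congr
    have e1 := join_high (M := M' + 1) (N := N' + 1) (G := G) (f := f) (j := k + 1) (by omega)
      (by omega)
    have e3 : ((M' + 1 + (k + 1) : ℕ) : ZMod (M' + 1 + (N' + 1))) + 1 =
      ((M' + 1 + (k + 1 + 1) : ℕ) : ZMod (M' + 1 + (N' + 1))) := by push_cast; ring
    have e4 : ((k + 1 : ℕ) : ZMod (N' + 1)) + 1 = ((k + 1 + 1 : ℕ) : ZMod (N' + 1)) := by
      push_cast; ring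
    have e2 : join (M' + 1) (N' + 1) G f
        ((M' + 1 + (k + 1 + 1) : ℕ) : ZMod (M' + 1 + (N' + 1))) =
          f ((k + 1 + 1 : ℕ) : ZMod (N' + 1)) := by
      rcases Nat.lt_or_ge (k + 1) N' with h1 | h1
      · exact join_high (by omega) (by omega)
      · have e5 : k + 1 + 1 = N' + 1 := by omega
        rw [e5, ZMod.natCast_self, ZMod.natCast_self, join_zero hM, f0]
    unfold Above
    rw [e3, e1, e2, e4]
  have z4 : tv (Above (M' + 1) G a (b - 1) ((M' : ℕ) : ZMod (M' + 1))) =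
      tv (a = -1 ∧ b < 1) := by
    apply tv_congr
    have e4 : ((M' : ℕ) : ZMod (M' + 1)) = -1 := by
      have := cast_pred (M := M' + 1) (by omega)
      rwa [Nat.add_sub_cancel] at this
    unfold Above
    rw [e4, neg_add_cancel, gl, g0]
    simp only [Prod.fst_zero]
    omega
  have z5 : tv (Above (N' + 1) f a b ((0 : ℕ) : ZMod (N' + 1))) = tv (a = -1 ∧ b < 0) := by
    apply tv_congr
    unfold Above
    rw [Nat.cast_zero, zero_add, f1, f0]
    simp only [Prod.fst_zero, Prod.snd_zero]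
    omega
  rw [Finset.sum_range_add, Finset.sum_range_succ', z0, add_zero, Finset.sum_range_succ' _ N',
    add_zero, z2, add_zero, Finset.sum_range_succ _ M', z4, Finset.sum_range_succ' _ N', z5,
    Finset.sum_congr rfl (fun k hk => z1 k (Finset.mem_range.1 hk)),
    Finset.sum_congr rfl (fun k hk => z3 k (Finset.mem_range.1 hk))]
  have z6 : tv (a = -1 ∧ b < 1) + tv (a = -1 ∧ b < 0) + tv ((a, b) = ((-1, 0) : ℤ × ℤ)) = 0 := by
    by_cases h1 : a = -1
    · rcases lt_trichotomy b 0 with h2 | h2 | h2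
      · rw [tv_true ⟨h1, by omega⟩, tv_true ⟨h1, h2⟩, tv_false]
        · decide
        · rw [Prod.mk.injEq]; omega
      · rw [tv_true ⟨h1, by omega⟩, tv_false (by omega), tv_true]
        · decide
        · rw [Prod.mk.injEq]; omega
      · rw [tv_false (by omega), tv_false (by omega), tv_false]
        · decide
        · rw [Prod.mk.injEq]; omega
    · rw [tv_false (fun h => h1 h.1), tv_false (fun h => h1 h.1), tv_false]
      · decide
      · rw [Prod.mk.injEq]; omega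
  linear_combination -z6 + (CharTwo.two_eq_zero : (2 : ZMod 2) = 0) * 0

/-- the area of a nested join -/
theorem nest_area (hG : IsLoop M G) (gl : G (-1) = (-1, 0)) (hf : IsLoop N f)
    (f1 : f 1 = (-1, 0)) (hM : 2 ≤ M) (hN : 2 ≤ N)
    (hsub : ∀ c, Encl N f c → Encl M G (c.1, c.2 - 1)) (h1 : Encl M G (-1, -1))
    (h2 : ¬ Encl N f (-1, 0)) :
    area (M + N) (join M N G f) + area N f + 1 = area M G := by
  have i1 : NeZero M := ⟨by omega⟩
  have i2 : NeZero N := ⟨by omega⟩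
  have i3 : NeZero (M + N) := ⟨by omega⟩
  obtain ⟨S, hS⟩ : ∃ S : Set (ℤ × ℤ), S = {c | Encl M G (c.1, c.2 - 1)} := ⟨_, rfl⟩
  have e0 : S = (fun c : ℤ × ℤ => (c.1, c.2 + 1)) '' {c | Encl M G c} := by
    rw [hS]
    ext c
    constructor
    · intro h
      exact ⟨(c.1, c.2 - 1), h, by ext <;> simp⟩
    · rintro ⟨d, hd, rfl⟩
      have : Encl M G d := hd
      simpa using this
  have e1 : {c : ℤ × ℤ | Encl (M + N) (join M N G f) c} =
      S \ ({c : ℤ × ℤ | Encl N f c} ∪ {(-1, 0)}) := by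
    ext c
    have h3 := join_encl' hG.1 gl hf.1 f1 hM hN c
    rw [Set.mem_ofPred_eq, encl_range, h3, Set.mem_sdiff, Set.mem_union, Set.mem_ofPred_eq,
      Set.mem_singleton_iff, hS, Set.mem_ofPred_eq, encl_range (f := f), encl_range (f := G)]
    have h4 := hsub c
    rw [encl_range, encl_range] at h4
    have h5 : c = (-1, 0) →
        (∑ k ∈ Finset.range M, tv (Above M G c.1 (c.2 - 1) (k : ZMod M)) = 1 ∧
          ¬ ∑ k ∈ Finset.range N, tv (Above N f c.1 c.2 (k : ZMod N)) = 1) := by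
      rintro rfl
      rw [encl_range] at h1 h2
      exact ⟨h1, h2⟩
    obtain ⟨x, hx⟩ : ∃ x, x = ∑ k ∈ Finset.range M,
      tv (Above M G c.1 (c.2 - 1) (k : ZMod M)) := ⟨_, rfl⟩
    obtain ⟨y, hy⟩ : ∃ y, y = ∑ k ∈ Finset.range N, tv (Above N f c.1 c.2 (k : ZMod N)) :=
      ⟨_, rfl⟩
    simp only at *
    rw [← hx, ← hy] at h4 h5 ⊢
    have two : ∀ z : ZMod 2, z = 0 ∨ z = 1 := by decide
    by_cases h6 : c = (-1, 0)
    · rw [tv_true h6]
      obtain ⟨h7, h8⟩ := h5 h6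
      have hy0 : y = 0 := (two y).resolve_right h8
      rw [h7, hy0]
      simp [h6]
    · rw [tv_false h6]
      rcases two x with hx1 | hx1 <;> rcases two y with hy1 | hy1
      · rw [hx1, hy1]; simp [h6]
      · exfalso
        have := h4 hy1
        rw [hx1] at this
        exact absurd this (by decide)
      · rw [hx1, hy1]; simp [h6]
      · rw [hx1, hy1]
        simp [h6]
  have f2 : S.Finite := by
    rw [e0]
    exact (encl_finite hG).image _
  have a1 : area (M + N) (join M N G f) = {c : ℤ × ℤ | Encl (M + N) (join M N G f) c}.ncard := rfl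
  have a2 : area M G = {c : ℤ × ℤ | Encl M G c}.ncard := rfl
  have a3 : area N f = {c : ℤ × ℤ | Encl N f c}.ncard := rfl
  have i : Function.Injective (fun c : ℤ × ℤ => (c.1, c.2 + 1)) := by
    intro c d h
    simp only [Prod.mk.injEq] at h
    exact Prod.ext h.1 (by omega)
  have a4 : S.ncard = area M G := by
    rw [e0, a2, Set.ncard_image_of_injective _ i]
  have hss : {c : ℤ × ℤ | Encl N f c} ∪ {(-1, 0)} ⊆ S := by
    rintro c (hc | hc)
    · rw [hS]
      exact hsub c hc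
    · rw [Set.mem_singleton_iff] at hc
      rw [hS, hc]
      exact h1
  have d1 : Disjoint {c : ℤ × ℤ | Encl N f c} {((-1, 0) : ℤ × ℤ)} := by
    rw [Set.disjoint_singleton_right]
    exact h2
  have a5 : ({c : ℤ × ℤ | Encl N f c} ∪ {((-1, 0) : ℤ × ℤ)}).ncard = area N f + 1 := by
    rw [Set.ncard_union_eq d1 (encl_finite hf) (Set.finite_singleton _), Set.ncard_singleton, a3]
  have a6 := Set.ncard_sdiff_add_ncard_of_subset hss f2
  rw [← e1, ← a1, a5, a4] at a6
  omega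

end

end Pool.Agent.K6.H36.PJ
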