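import Pool.Agent.K6.H36.PJ.Dm4

/-!
The exchange of the inside and the outside of the polygons in a square.
-/

set_option autoImplicit false

namespace Pool.Agent.K6.H36.PJ

open Pool.Agent.N223.PS Pool.Agent.N457.PS Filter Topology

/-- the loop is in the box `[-a, w - a] × [-w, 0]` -/
def Cb {L : ℕ} (w a : ℕ) (f : ZMod L → ℤ × ℤ) : Prop :=
  (∀ i, -(a : ℤ) ≤ (f i).1 ∧ (f i).1 ≤ (w : ℤ) - a) ∧ ∀ i, -(w : ℤ) ≤ (f i).2 ∧ (f i).2 ≤ 0

/-- the frame -/
def fr (w a : ℕ) : ZMod (2 * (w - a + 1) + 2 * (w + 2) + 2 * (a + 1)) → ℤ × ℤ :=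
  rg (w - a + 1) (a + 1) (w + 2)

section
variable {L w a : ℕ} {f : ZMod L → ℤ × ℤ}

theorem fr_disj (ha : a ≤ w) (hc : Cb w a f) :
    ∀ i j, (fr w a i).1 = (f j).1 → (fr w a i).2 + 1 = (f j).2 → False := by
  intro i j h1 h2
  have h3 := rg_bdry (R := w - a + 1) (T := a + 1) (D := w + 2) (by omega) (by omega) (by omega) i
  have h4 := hc.1 j
  have h5 := hc.2 j
  unfold fr at h1 h2
  omega

theorem fr_area (ha : a ≤ w) : area _ (fr w a) = (w + 2) * (w + 2) := by
  unfold fr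
  rw [rg_area (by omega) (by omega) (by omega)]
  congr 1
  omega

/-- the framed loop -/
theorem frame (hL : 3 ≤ L) (ha : a ≤ w) (hf : Top L f) (hc : Cb w a f) :
    IsLoop _ (join _ L (fr w a) f) ∧
      area _ (join _ L (fr w a) f) + area L f + 1 = (w + 2) * (w + 2) ∧
      Nr ((w + 2 : ℕ) : ℤ) (join _ L (fr w a) f) ∧ Lw ((w + 2 : ℕ) : ℤ) (join _ L (fr w a) f) := by
  have i1 : NeZero L := ⟨by omega⟩
  have i2 : NeZero (2 * (w - a + 1) + 2 * (w + 2) + 2 * (a + 1)) := ⟨by omega⟩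
  have hl := rg_loop (R := w - a + 1) (T := a + 1) (D := w + 2) (by omega) (by omega) (by omega)
  have gl := rg_last (R := w - a + 1) (T := a + 1) (D := w + 2) (by omega) (by omega) (by omega)
  have hd := fr_disj ha hc
  have hbox : ∀ c, Encl L f c → (-(a : ℤ) ≤ c.1 ∧ c.1 < (w : ℤ) - a) ∧ (-(w : ℤ) ≤ c.2 ∧ c.2 < 0) :=
    fun c hc' => encl_box hf.loop hc.1 hc.2 hc'
  have hj := join_loop' hl gl hf.loop hf.one hd (by omega) (by omega)
  refine ⟨hj, ?_, ?_, ?_⟩
  · rw [← fr_area ha]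
    apply nest_area hl gl hf.loop hf.one (by omega) (by omega)
    · intro c hc'
      have h1 := hbox c hc'
      rw [rg_encl (by omega) (by omega) (by omega)]
      simp only
      omega
    · rw [rg_encl (by omega) (by omega) (by omega)]
      simp only
      omega
    · intro h
      have := hbox _ h
      simp only at this
      omega
  all_goals
    have key : ∀ i, (-(a : ℤ) - 1 ≤ (join _ L (fr w a) f i).1 ∧
        (join _ L (fr w a) f i).1 ≤ (w : ℤ) - a + 1) ∧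
        (-(w : ℤ) - 1 ≤ (join _ L (fr w a) f i).2 ∧ (join _ L (fr w a) f i).2 ≤ 1) := by
      intro i
      obtain ⟨k, hk, rfl⟩ := exists_cast (by omega) i
      rcases Nat.lt_or_ge k 1 with h0 | h0
      · have e : k = 0 := by omega
        subst e
        rw [Nat.cast_zero, join_zero (by omega)]
        simp only [Prod.fst_zero, Prod.snd_zero]
        omega
      rcases Nat.lt_or_ge (2 * (w - a + 1) + 2 * (w + 2) + 2 * (a + 1)) k with h1 | h1
      · obtain ⟨j, rfl⟩ : ∃ j, k = 2 * (w - a + 1) + 2 * (w + 2) + 2 * (a + 1) + j :=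
          ⟨k - (2 * (w - a + 1) + 2 * (w + 2) + 2 * (a + 1)), by omega⟩
        rw [join_high (by omega) (by omega)]
        have h4 := hc.1 (j : ZMod L)
        have h5 := hc.2 (j : ZMod L)
        omega
      · obtain ⟨j, rfl⟩ : ∃ j, k = j + 1 := ⟨k - 1, by omega⟩
        rw [join_low (by omega) (by omega)]
        have h3 := rg_bdry (R := w - a + 1) (T := a + 1) (D := w + 2) (by omega) (by omega)
          (by omega) (j : ZMod (2 * (w - a + 1) + 2 * (w + 2) + 2 * (a + 1)))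
        unfold fr
        simp only
        omega
    intro i j
    have h1 := key i
    have h2 := key j
    push_cast
    omega

end

theorem join_inj' {M N : ℕ} {G : ZMod M → ℤ × ℤ} {f f' : ZMod N → ℤ × ℤ} (hN : 0 < N)
    (h0 : f 0 = 0) (h0' : f' 0 = 0) (h : join M N G f = join M N G f') : f = f' := by
  funext i
  obtain ⟨k, hk, rfl⟩ := exists_cast (by omega) i
  rcases Nat.eq_zero_or_pos k with h1 | h1
  · subst h1
    rw [Nat.cast_zero, h0, h0']
  · rw [← join_high (M := M) (N := N) (G := G) (f := f) h1 hk, h, join_high h1 hk]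

theorem exists_Cb {L w : ℕ} [NeZero L] {f : ZMod L → ℤ × ℤ} (hf : Top L f) (h1 : Nr (w : ℤ) f)
    (h2 : Lw (w : ℤ) f) : ∃ a ∈ Finset.range (w + 1), Cb w a f := by
  obtain ⟨i0, h0⟩ := Finite.exists_min (fun i : ZMod L => (f i).1)
  have h3 := h0 0
  have h4 := h1 0 i0
  rw [hf.loop.1] at h3 h4
  simp only [Prod.fst_zero] at h3 h4
  refine ⟨(-(f i0).1).toNat, Finset.mem_range.2 (by omega), ?_, ?_⟩
  · intro i
    have h5 := h0 i
    have h6 := h1 i i0
    constructor <;> omega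
  · intro i
    have h5 := h2 0 i
    rw [hf.loop.1] at h5
    simp only [Prod.snd_zero] at h5
    have h6 := hf.hgt i
    constructor <;> omega

/-- the exchange of the inside and the outside, for a given length -/
theorem dual_L (e : ℝ) (w : ℕ) {L : ℕ} (hL : 3 ≤ L) :
    Bw (-e) w w L ≤ 2 * L * (((w : ℝ) + 1) * (Real.exp (e * (((w : ℝ) + 2) ^ 2 - 1)) *
      Bw e (w + 2 : ℕ) (w + 2 : ℕ) (4 * w + 8 + L))) := by
  classical
  have i1 : NeZero L := ⟨by omega⟩
  have hinv : Inv (fun f : ZMod L → ℤ × ℤ => if Nr (w : ℤ) f ∧ Lw (w : ℤ) f then ex (-e) f else 0) := by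
    refine ⟨fun f => ?_, fun f s hf => ?_, fun f hf => ?_⟩
    · split_ifs
      · exact (ex_pos _ f).le
      · exact le_rfl
    · simp only [nr_rot, lw_rot, ex, area_rot]
    · simp only [nr_rev, lw_rev, ex, area_rev hf]
  have h1 := sum_loops_le hL hinv
  have h2 : Bw (-e) w w L ≤ 2 * L * ∑ f ∈ TF L,
      (if Nr (w : ℤ) f ∧ Lw (w : ℤ) f then ex (-e) f else 0) := h1
  refine h2.trans (mul_le_mul_of_nonneg_left ?_ (by positivity))
  have h3 : ∑ f ∈ TF L, (if Nr (w : ℤ) f ∧ Lw (w : ℤ) f then ex (-e) f else 0) ≤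
      ∑ a ∈ Finset.range (w + 1), ∑ f ∈ TF L, if Cb w a f then ex (-e) f else 0 := by
    rw [Finset.sum_comm]
    refine Finset.sum_le_sum fun f hf => ?_
    have hnn : ∀ a ∈ Finset.range (w + 1), 0 ≤ (if Cb w a f then ex (-e) f else 0) := by
      intro a _
      split_ifs
      · exact (ex_pos _ f).le
      · exact le_rfl
    by_cases H : Nr (w : ℤ) f ∧ Lw (w : ℤ) f
    · rw [if_pos H]
      obtain ⟨a, ha, hab⟩ := exists_Cb ((mem_TF (by omega)).1 hf) H.1 H.2
      have h4 := Finset.single_le_sum hnn ha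
      rwa [if_pos hab] at h4
    · rw [if_neg H]
      exact Finset.sum_nonneg hnn
  refine h3.trans ?_
  have h4 : ∀ a ∈ Finset.range (w + 1), ∑ f ∈ TF L, (if Cb w a f then ex (-e) f else 0) ≤
      Real.exp (e * (((w : ℝ) + 2) ^ 2 - 1)) *
        Bw e (w + 2 : ℕ) (w + 2 : ℕ) (4 * w + 8 + L) := by
    intro a ha
    rw [Finset.mem_range] at ha
    have haw : a ≤ w := by omega
    obtain ⟨M, hM⟩ : ∃ M, M = 2 * (w - a + 1) + 2 * (w + 2) + 2 * (a + 1) := ⟨_, rfl⟩
    have hM2 : 4 * w + 8 = 2 * (w - a + 1) + 2 * (w + 2) + 2 * (a + 1) := by omega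
    rw [hM2]
    rw [← Finset.sum_filter]
    have h5 := sum_le_of_inj ((TF L).filter (fun f => Cb w a f))
      (LF (2 * (w - a + 1) + 2 * (w + 2) + 2 * (a + 1) + L))
      (fun f => join (2 * (w - a + 1) + 2 * (w + 2) + 2 * (a + 1)) L (fr w a) f)
      (fun J => if Nr ((w + 2 : ℕ) : ℤ) J ∧ Lw ((w + 2 : ℕ) : ℤ) J then ex e J else 0)
      (fun J _ => by
        split_ifs
        · exact (ex_pos _ J).le
        · exact le_rfl)
      (fun f hf => by
        rw [Finset.mem_filter] at hf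
        have hf1 := (mem_TF (by omega)).1 hf.1
        exact (mem_LF (by omega)).2 (frame hL haw hf1 hf.2).1)
      (fun f hf f' hf' h => by
        rw [Finset.mem_filter] at hf hf'
        have hf1 := (mem_TF (by omega)).1 hf.1
        have hf1' := (mem_TF (by omega)).1 hf'.1
        exact join_inj' (by omega) hf1.loop.1 hf1'.loop.1 h)
    have h6 : ∑ f ∈ (TF L).filter (fun f => Cb w a f), ex (-e) f =
        Real.exp (e * (((w : ℝ) + 2) ^ 2 - 1)) *
        ∑ f ∈ (TF L).filter (fun f => Cb w a f),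
          (fun J : ZMod (2 * (w - a + 1) + 2 * (w + 2) + 2 * (a + 1) + L) → ℤ × ℤ =>
            if Nr ((w + 2 : ℕ) : ℤ) J ∧ Lw ((w + 2 : ℕ) : ℤ) J then ex e J else 0)
            (join (2 * (w - a + 1) + 2 * (w + 2) + 2 * (a + 1)) L (fr w a) f) := by
      rw [Finset.mul_sum]
      refine Finset.sum_congr rfl fun f hf => ?_
      rw [Finset.mem_filter] at hf
      have hf1 := (mem_TF (by omega)).1 hf.1
      obtain ⟨-, g2, g3, g4⟩ := frame hL haw hf1 hf.2
      simp only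
      rw [if_pos ⟨g3, g4⟩]
      unfold ex
      rw [← Real.exp_add]
      congr 1
      have g5 : (area (2 * (w - a + 1) + 2 * (w + 2) + 2 * (a + 1) + L)
          (join (2 * (w - a + 1) + 2 * (w + 2) + 2 * (a + 1)) L (fr w a) f) : ℝ) +
          area L f + 1 = ((w : ℝ) + 2) * ((w : ℝ) + 2) := by exact_mod_cast g2
      have g6 : (area (2 * (w - a + 1) + 2 * (w + 2) + 2 * (a + 1) + L)
          (join (2 * (w - a + 1) + 2 * (w + 2) + 2 * (a + 1)) L (fr w a) f) : ℝ) =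
          ((w : ℝ) + 2) ^ 2 - 1 - area L f := by linarith
      rw [g6]
      ring
    rw [h6]
    exact mul_le_mul_of_nonneg_left h5 (Real.exp_pos _).le
  refine (Finset.sum_le_sum h4).trans (le_of_eq ?_)
  rw [Finset.sum_const, Finset.card_range, nsmul_eq_mul]
  push_cast
  ring

/-- the exchange of the inside and the outside -/
theorem dual_Z {x : ℝ} (hx : 0 < x) (e : ℝ) (w : ℕ) :
    Zw x (-e) w ≤ ((w : ℝ) + 1) * Real.exp (e * (((w : ℝ) + 2) ^ 2 - 1)) *
      (4 * ((w : ℝ) + 3) ^ 2 / x ^ (4 * w + 8)) * Zw x e (w + 2) := by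
  classical
  obtain ⟨A, hA⟩ : ∃ A : ℝ, A = ((w : ℝ) + 1) * Real.exp (e * (((w : ℝ) + 2) ^ 2 - 1)) := ⟨_, rfl⟩
  have hA0 : 0 < A := by rw [hA]; positivity
  obtain ⟨C, hC⟩ : ∃ C : ℝ, C = 4 * ((w : ℝ) + 3) ^ 2 / x ^ (4 * w + 8) := ⟨_, rfl⟩
  have hC0 : 0 < C := by rw [hC]; positivity
  rw [← hA, ← hC]
  have h1 : ∀ n ∈ Finset.Icc 2 ((w + 1) ^ 2), Bw (-e) w w (2 * n) / (4 * n) * x ^ (2 * n) ≤
      A * C * (Bw e (w + 2 : ℕ) (w + 2 : ℕ) (2 * (n + (2 * w + 4))) /
        (4 * ((n + (2 * w + 4) : ℕ) : ℝ)) * x ^ (2 * (n + (2 * w + 4)))) := by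
    intro n hn
    rw [Finset.mem_Icc] at hn
    have hn0 : (0 : ℝ) < n := by exact_mod_cast (by omega : 0 < n)
    have h2 := dual_L e w (L := 2 * n) (by omega)
    have e1 : 4 * w + 8 + 2 * n = 2 * (n + (2 * w + 4)) := by ring
    rw [e1] at h2
    obtain ⟨m, hm⟩ : ∃ m, m = n + (2 * w + 4) := ⟨_, rfl⟩
    rw [← hm] at h2 ⊢
    obtain ⟨B, hB⟩ : ∃ B, B = Bw e (w + 2 : ℕ) (w + 2 : ℕ) (2 * m) := ⟨_, rfl⟩
    have hB0 : 0 ≤ B := by rw [hB]; exact Bw_nonneg _ _ _ _
    rw [← hB] at h2 ⊢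
    have hm0 : (0 : ℝ) < m := by exact_mod_cast (by omega : 0 < m)
    have hmle : (m : ℝ) ≤ ((w : ℝ) + 3) ^ 2 := by
      have : m ≤ (w + 3) ^ 2 := by
        have e2 : (w + 3) ^ 2 = (w + 1) ^ 2 + (4 * w + 8) := by ring
        omega
      exact_mod_cast this
    have h3 : Bw (-e) w w (2 * n) / (4 * n) * x ^ (2 * n) ≤ A * B * x ^ (2 * n) := by
      apply mul_le_mul_of_nonneg_right _ (by positivity)
      rw [div_le_iff₀ (by positivity)]
      refine h2.trans (le_of_eq ?_)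
      rw [hA]
      push_cast
      ring
    refine h3.trans ?_
    have e3 : x ^ (2 * m) = x ^ (2 * n) * x ^ (4 * w + 8) := by
      rw [← pow_add]
      congr 1
      omega
    have h4 : B * x ^ (2 * n) ≤ C * (B / (4 * m) * x ^ (2 * m)) := by
      rw [hC, e3]
      have e4 : 4 * ((w : ℝ) + 3) ^ 2 / x ^ (4 * w + 8) *
          (B / (4 * m) * (x ^ (2 * n) * x ^ (4 * w + 8))) =
          (((w : ℝ) + 3) ^ 2 / m) * (B * x ^ (2 * n)) := by
        field_simp
      rw [e4]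
      have h5 : 1 ≤ ((w : ℝ) + 3) ^ 2 / m := by rwa [one_le_div hm0]
      have h6 : 0 ≤ B * x ^ (2 * n) := by positivity
      nlinarith
    calc A * B * x ^ (2 * n) = A * (B * x ^ (2 * n)) := by ring
      _ ≤ A * (C * (B / (4 * m) * x ^ (2 * m))) := mul_le_mul_of_nonneg_left h4 hA0.le
      _ = _ := by ring
  have h2 : ∑ n ∈ Finset.Icc 2 ((w + 1) ^ 2),
      (fun m : ℕ => Bw e (w + 2 : ℕ) (w + 2 : ℕ) (2 * m) / (4 * (m : ℝ)) * x ^ (2 * m))
        (n + (2 * w + 4)) ≤ Zw x e (w + 2) := by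
    refine sum_le_of_inj (Finset.Icc 2 ((w + 1) ^ 2)) (Finset.Icc 2 ((w + 2 + 1) ^ 2))
      (fun n => n + (2 * w + 4))
      (fun m : ℕ => Bw e (w + 2 : ℕ) (w + 2 : ℕ) (2 * m) / (4 * (m : ℝ)) * x ^ (2 * m))
      (fun m _ => wterm_nonneg hx e (w + 2) m) ?_ ?_
    · intro n hn
      rw [Finset.mem_Icc] at hn ⊢
      have e2 : (w + 2 + 1) ^ 2 = (w + 1) ^ 2 + (4 * w + 8) := by ring
      constructor
      · omega
      · omega
    · intro n _ n' _ h
      omega
  unfold Zw at h2 ⊢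
  refine (Finset.sum_le_sum h1).trans ?_
  rw [← Finset.mul_sum]
  exact mul_le_mul_of_nonneg_left h2 (by positivity)

theorem tendsto_shift {x : ℝ} (hx : 0 < x) (e : ℝ) :
    Tendsto (fun w : ℕ => Real.log (Zw x e (w + 2)) / (w : ℝ) ^ 2) atTop (𝓝 (lam2 x e)) := by
  have h1 := (lam2_tendsto hx e).comp (tendsto_add_atTop_nat 2)
  have h2 := h1.mul ((tendsto_add_div 2).pow 2)
  rw [one_pow, mul_one] at h2
  refine h2.congr' ?_
  filter_upwards [eventually_ge_atTop 1] with w hw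
  have hw0 : (0 : ℝ) < w := by exact_mod_cast hw
  simp only [Function.comp]
  push_cast
  have : (0 : ℝ) < (w : ℝ) + 2 := by positivity
  field_simp

theorem dual_le {x : ℝ} (hx : 0 < x) (e : ℝ) : lam2 x (-e) ≤ lam2 x e + e := by
  have h3 : Tendsto (fun W : ℕ => 1 / (W : ℝ)) atTop (𝓝 0) :=
    tendsto_natCast_atTop_atTop.const_div_atTop 1
  have hl : Tendsto (fun W : ℕ => Real.log ((W : ℝ) + 1) / (W : ℝ) ^ 2) atTop (𝓝 0) :=
    tendsto_log_sq
  have hl3 : Tendsto (fun W : ℕ => Real.log ((W : ℝ) + 3) / (W : ℝ) ^ 2) atTop (𝓝 0) := by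
    have h4 := (hl.comp (tendsto_add_atTop_nat 2)).mul ((tendsto_add_div 2).pow 2)
    rw [zero_mul] at h4
    refine h4.congr' ?_
    filter_upwards [eventually_ge_atTop 1] with w hw
    have hw0 : (0 : ℝ) < w := by exact_mod_cast hw
    simp only [Function.comp]
    push_cast
    have : (0 : ℝ) < (w : ℝ) + 2 := by positivity
    have e1 : (w : ℝ) + 2 + 1 = w + 3 := by ring
    rw [e1]
    field_simp
  have hR : Tendsto (fun w : ℕ => Real.log ((w : ℝ) + 1) / (w : ℝ) ^ 2 +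
      (e * (((w : ℝ) + 2) / w) ^ 2 - e * ((1 / (w : ℝ)) * (1 / (w : ℝ)))) +
      (Real.log 4 * ((1 / (w : ℝ)) * (1 / (w : ℝ))) + 2 * (Real.log ((w : ℝ) + 3) / (w : ℝ) ^ 2) -
        Real.log x * (4 * (1 / (w : ℝ)) + 8 * ((1 / (w : ℝ)) * (1 / (w : ℝ))))) +
      Real.log (Zw x e (w + 2)) / (w : ℝ) ^ 2) atTop
      (𝓝 (0 + (e * 1 ^ 2 - e * (0 * 0)) + (Real.log 4 * (0 * 0) + 2 * 0 -
        Real.log x * (4 * 0 + 8 * (0 * 0))) + lam2 x e)) := by
    refine ((hl.add ?_).add ?_).add (tendsto_shift hx e)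
    · exact (((tendsto_add_div 2).pow 2).const_mul e).sub ((h3.mul h3).const_mul e)
    · refine (((h3.mul h3).const_mul _).add (hl3.const_mul 2)).sub ?_
      exact ((h3.const_mul 4).add ((h3.mul h3).const_mul 8)).const_mul _
  have e0 : (0 + (e * 1 ^ 2 - e * (0 * 0)) + (Real.log 4 * (0 * 0) + 2 * 0 -
        Real.log x * (4 * 0 + 8 * (0 * 0))) + lam2 x e) = lam2 x e + e := by ring
  rw [e0] at hR
  refine le_of_tendsto_of_tendsto (lam2_tendsto hx (-e)) hR ?_
  filter_upwards [eventually_ge_atTop 1] with w hw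
  have hw0 : (0 : ℝ) < w := by exact_mod_cast hw
  have h4 := Real.log_le_log (Zw_pos hx (-e) hw) (dual_Z hx e w)
  have hZ := Zw_pos hx e (w := w + 2) (by omega)
  rw [Real.log_mul (by positivity) hZ.ne', Real.log_mul (by positivity) (by positivity),
    Real.log_mul (by positivity) (Real.exp_pos _).ne', Real.log_exp,
    Real.log_div (by positivity) (by positivity), Real.log_mul (by norm_num) (by positivity),
    Real.log_pow, Real.log_pow] at h4
  rw [div_le_iff₀ (by positivity)]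
  refine h4.trans (le_of_eq ?_)
  push_cast
  field_simp

theorem dual {x : ℝ} (hx : 0 < x) (e : ℝ) : lam2 x (-e) = lam2 x e + e := by
  apply le_antisymm (dual_le hx e)
  have := dual_le hx (-e)
  rw [neg_neg] at this
  linarith

end Pool.Agent.K6.H36.PJ
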