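import Pool.Agent.K6.H36.PJ.Rate

/-!
Small areas at finite perimeters.
-/

set_option autoImplicit false

namespace Pool.Agent.K6.H36.PJ

open Pool.Agent.N223.PS Filter Topology

/-- the rate function -/
noncomputable def II (x : ℝ) : ℝ := Real.log H981.mu - JJ x

theorem II_nonneg {x : ℝ} (hx : 1 / 2 ≤ x) : 0 ≤ II x := sub_nonneg.2 (JJ_le hx)

theorem II_anti : AntitoneOn II (Set.Ici (1 / 2)) := by
  intro x hx y hy h
  have := JJ_mono hx h
  unfold II
  linarith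

theorem II_convex : ConvexOn ℝ (Set.Ici (1 / 2)) II := by
  refine ⟨convex_Ici _, ?_⟩
  intro x hx y hy a b ha hb hab
  have h := JJ_concave.2 hx hy ha hb hab
  simp only [smul_eq_mul] at h ⊢
  unfold II
  have h5 : a * Real.log H981.mu + b * Real.log H981.mu = Real.log H981.mu := by
    rw [← add_mul, hab, one_mul]
  linarith

theorem II_tendsto {x : ℝ} (hx : 1 / 2 < x) :
    Tendsto (fun n : ℕ => -Real.log (ln (2 * n) (2 * n * x) / Zl 0 (2 * n)) / (2 * n)) atTop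
      (𝓝 (II x)) := by
  have h := (Zl_tendsto le_rfl).sub (ln_tendsto hx)
  rw [Lam_zero] at h
  refine h.congr' ?_
  filter_upwards [eventually_ge_atTop 1] with n hn
  have h1 : 0 < ln (2 * n) (2 * n * x) := (qx_pos hx.le hn).trans_le
    ((qn_le_ln (by omega) _).trans (ln_mono _ (by linarith)))
  rw [Real.log_div h1.ne' (Zl_pos 0 hn).ne']
  ring

theorem mu_pow (n : ℕ) : H981.mu ^ (2 * n) = Real.exp (2 * n * Real.log H981.mu) := by
  have hmu : 0 < H981.mu := H981.mu_pos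
  rw [← Real.exp_log hmu, Real.log_exp, ← Real.exp_nat_mul]
  push_cast
  rfl

/-- a polynomial is at most `exp (K log² n)` -/
theorem poly_le {n : ℕ} (hn : 2 ≤ n) : 16 * (n : ℝ) ≤ Real.exp (5 / Real.log 2 * Real.log n ^ 2) := by
  have hL2 : (0 : ℝ) < Real.log 2 := Real.log_pos (by norm_num)
  have hnr : (2 : ℝ) ≤ n := by exact_mod_cast hn
  have hln : Real.log 2 ≤ Real.log n := Real.log_le_log (by norm_num) hnr
  rw [← Real.log_le_iff_le_exp (by positivity), Real.log_mul (by norm_num) (by positivity)]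
  have e8 : Real.log 16 = 4 * Real.log 2 := by
    rw [show (16 : ℝ) = 2 ^ 4 by norm_num, Real.log_pow]
    norm_num
  have h3 : 5 * Real.log n ≤ 5 / Real.log 2 * Real.log n ^ 2 := by
    rw [div_mul_eq_mul_div, le_div_iff₀ hL2]
    nlinarith
  linarith

theorem small_up : ∃ K : ℝ, 0 ≤ K ∧ ∀ n : ℕ, 2 ≤ n → ∀ r : ℝ, (n : ℝ) - 1 ≤ r →
    ln (2 * n) r / Zl 0 (2 * n) ≤
      Real.exp (K * Real.log n ^ 2 - 2 * n * II ((r + 1) / (2 * n))) := by
  obtain ⟨K, hK, h⟩ := counts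
  have hL2 : (0 : ℝ) < Real.log 2 := Real.log_pos (by norm_num)
  refine ⟨K + 5 / Real.log 2, by positivity, fun n hn r hr => ?_⟩
  have hnr : (2 : ℝ) ≤ n := by exact_mod_cast hn
  have hn0 : (0 : ℝ) < n := by linarith
  obtain ⟨x, hx⟩ : ∃ x : ℝ, x = (r + 1) / (2 * n) := ⟨_, rfl⟩
  have hx1 : 1 / 2 ≤ x := by
    rw [hx, le_div_iff₀ (by positivity)]
    linarith
  have hrx : r = 2 * n * x - 1 := by
    rw [hx]
    field_simp
    ring
  rw [← hx, div_le_iff₀ (Zl_pos 0 (by omega))]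
  have h1 := ln_le_qn (L := 2 * n) (by omega) r
  rw [hrx] at h1 ⊢
  have h2 := qn_le hx1 (n := n) (by omega)
  have h3 := (h n hn).1
  rw [← Zl_zero, mu_pow, ← Real.exp_add] at h3
  have h4 := poly_le hn
  calc ln (2 * n) (2 * n * x - 1) ≤ 2 * ((2 * n : ℕ) : ℝ) * qn (2 * n) (2 * n * x - 1) := h1
    _ ≤ 2 * ((2 * n : ℕ) : ℝ) * (2 * Real.exp (2 * n * JJ x)) :=
        mul_le_mul_of_nonneg_left h2 (by positivity)
    _ = 8 * n * Real.exp (2 * n * JJ x) := by push_cast; ring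
    _ ≤ Real.exp (5 / Real.log 2 * Real.log n ^ 2) * Real.exp (2 * n * JJ x) :=
        mul_le_mul_of_nonneg_right (by linarith) (Real.exp_pos _).le
    _ = Real.exp ((K + 5 / Real.log 2) * Real.log n ^ 2 - 2 * n * II x) *
        Real.exp (2 * n * Real.log H981.mu + -(K * Real.log n ^ 2)) := by
        rw [← Real.exp_add, ← Real.exp_add]
        congr 1
        unfold II
        ring
    _ ≤ _ := mul_le_mul_of_nonneg_left h3 (Real.exp_pos _).le

/-- Markov's inequality -/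
theorem half_le {n : ℕ} (hn : 1 ≤ n) {B : ℝ} (hB : mA n ≤ B) (hA : 0 < mA n) :
    1 / 2 * Zl 0 (2 * n) ≤ ln (2 * n) (2 * B) := by
  classical
  have hc := Zl_pos 0 hn
  have h1 : ∑ f ∈ LF (2 * n), (area (2 * n) f : ℝ) = mA n * Zl 0 (2 * n) := by
    unfold mA
    rw [div_mul_cancel₀ _ hc.ne']
  have h2 : ∑ f ∈ LF (2 * n), (2 * B) * (1 - (if (area (2 * n) f : ℝ) ≤ 2 * B then (1 : ℝ) else 0)) ≤
      ∑ f ∈ LF (2 * n), (area (2 * n) f : ℝ) := by
    refine Finset.sum_le_sum fun f _ => ?_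
    by_cases h3 : (area (2 * n) f : ℝ) ≤ 2 * B
    · rw [if_pos h3, sub_self, mul_zero]
      exact Nat.cast_nonneg _
    · rw [if_neg h3, sub_zero, mul_one]
      exact (not_le.1 h3).le
  rw [← Finset.mul_sum, Finset.sum_sub_distrib, Finset.sum_const, nsmul_eq_mul, mul_one,
    ← Zl_zero, h1] at h2
  have h3 : 2 * B * (Zl 0 (2 * n) - ln (2 * n) (2 * B)) ≤ B * Zl 0 (2 * n) :=
    h2.trans (mul_le_mul_of_nonneg_right hB hc.le)
  have hB0 : 0 < B := hA.trans_le hB
  have h4 : B * (2 * (Zl 0 (2 * n) - ln (2 * n) (2 * B))) ≤ B * Zl 0 (2 * n) := by linarith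
  have h5 := le_of_mul_le_mul_left h4 hB0
  linarith

theorem mA_ge_half {n : ℕ} (hn : 2 ≤ n) : (n : ℝ) / 2 ≤ mA n := by
  have h1 := Pool.Agent.Results.MP_f6626d_co.AllOrders.mean_eq hn
  have h2 := Pool.Agent.N929.EZ.area_low_pow (n := 2 * n - 1) (by omega) (by omega) 1
  have h3 := Pool.Agent.N929.EZ.KP_pos (n := 2 * n - 1) (by omega) (by omega)
  have h4 : Pool.Agent.Results.MP_f6626d_co.AllOrders.meanArea n =
      (∑ᶠ f ∈ {f : ZMod (2 * n) → ℤ × ℤ | IsLoop (2 * n) f}, ((area (2 * n) f : ℕ) : ℝ)) /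
        (({f : ZMod (2 * n) → ℤ × ℤ | IsLoop (2 * n) f}.ncard : ℕ) : ℝ) := rfl
  rw [finsum_LF (by omega), ncard_LF (by omega)] at h4
  have h5 : mA n = Pool.Agent.Results.MP_f6626d_co.AllOrders.meanArea n := h4.symm
  rw [h5, h1, le_div_iff₀ h3]
  refine le_trans (le_of_eq ?_) h2
  rw [pow_one]
  congr 1
  have : ((2 * n - 1 : ℕ) : ℝ) = 2 * n - 1 := by
    rw [Nat.cast_sub (by omega)]
    push_cast
    rfl
  rw [this]
  ring

theorem II_mean : ∃ K : ℝ, 0 ≤ K ∧ ∀ n : ℕ, 2 ≤ n →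
    II ((2 * mA n + 1) / (2 * n)) ≤ K * Real.log n ^ 2 / n := by
  obtain ⟨K, hK, h⟩ := small_up
  have hL2 : (0 : ℝ) < Real.log 2 := Real.log_pos (by norm_num)
  refine ⟨K + 1 / Real.log 2, by positivity, fun n hn => ?_⟩
  have hnr : (2 : ℝ) ≤ n := by exact_mod_cast hn
  have hn0 : (0 : ℝ) < n := by linarith
  have hln : Real.log 2 ≤ Real.log n := Real.log_le_log (by norm_num) hnr
  have hA := mA_ge_half hn
  have h1 := h n hn (2 * mA n) (by linarith)
  have h2 := half_le (by omega : 1 ≤ n) le_rfl (by linarith : 0 < mA n)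
  have h3 : 1 / 2 ≤ ln (2 * n) (2 * mA n) / Zl 0 (2 * n) := by
    rw [le_div_iff₀ (Zl_pos 0 (by omega))]
    exact h2
  have h4 := h3.trans h1
  rw [← Real.log_le_iff_le_exp (by norm_num), Real.log_div (by norm_num) (by norm_num),
    Real.log_one] at h4
  have h5 : Real.log 2 ≤ 1 / Real.log 2 * Real.log n ^ 2 := by
    rw [one_div, inv_mul_eq_div, le_div_iff₀ hL2]
    nlinarith
  have h6 : 1 / 2 ≤ (2 * mA n + 1) / (2 * n) := by
    rw [le_div_iff₀ (by positivity)]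
    linarith
  have h7 := II_nonneg h6
  rw [le_div_iff₀ hn0]
  nlinarith

/-- polygons with at most twice the mean area -/
theorem qn_mean : ∃ K : ℝ, 0 ≤ K ∧ ∀ j : ℕ, 2 ≤ j → ∀ B : ℝ, mA j ≤ B →
    2 * (Real.exp (-(K * Real.log j ^ 2)) * H981.mu ^ (2 * j)) ≤ qn (2 * j) (2 * B) := by
  obtain ⟨K, hK, h⟩ := counts
  have hL2 : (0 : ℝ) < Real.log 2 := Real.log_pos (by norm_num)
  refine ⟨K + 5 / Real.log 2, by positivity, fun j hj B hB => ?_⟩
  have hjr : (2 : ℝ) ≤ j := by exact_mod_cast hj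
  have hj0 : (0 : ℝ) < j := by linarith
  have hA := mA_ge_half hj
  have h1 := half_le (by omega : 1 ≤ j) hB (by linarith : 0 < mA j)
  have h2 := ln_le_qn (L := 2 * j) (by omega) (2 * B)
  have h3 := (h j hj).1
  rw [← Zl_zero] at h3
  have h4 := poly_le hj
  have h5 : H981.mu ^ (2 * j) * Real.exp (-(K * Real.log j ^ 2)) ≤ 8 * j * qn (2 * j) (2 * B) := by
    push_cast at h2
    linarith
  have e : Real.exp (-((K + 5 / Real.log 2) * Real.log j ^ 2)) *
      Real.exp (5 / Real.log 2 * Real.log j ^ 2) = Real.exp (-(K * Real.log j ^ 2)) := by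
    rw [← Real.exp_add]
    congr 1
    ring
  have hp : 0 < Real.exp (-((K + 5 / Real.log 2) * Real.log j ^ 2)) * H981.mu ^ (2 * j) := by
    have := H981.mu_pos
    positivity
  have h6 : (16 * (j : ℝ)) * (Real.exp (-((K + 5 / Real.log 2) * Real.log j ^ 2)) *
      H981.mu ^ (2 * j)) ≤ 8 * j * qn (2 * j) (2 * B) := by
    refine le_trans ?_ h5
    calc _ ≤ Real.exp (5 / Real.log 2 * Real.log j ^ 2) *
          (Real.exp (-((K + 5 / Real.log 2) * Real.log j ^ 2)) * H981.mu ^ (2 * j)) :=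
          mul_le_mul_of_nonneg_right h4 hp.le
      _ = H981.mu ^ (2 * j) * (Real.exp (-((K + 5 / Real.log 2) * Real.log j ^ 2)) *
          Real.exp (5 / Real.log 2 * Real.log j ^ 2)) := by ring
      _ = _ := by rw [e]
  have h7 : (8 * (j : ℝ)) * (2 * (Real.exp (-((K + 5 / Real.log 2) * Real.log j ^ 2)) *
      H981.mu ^ (2 * j))) ≤ 8 * j * qn (2 * j) (2 * B) := by linarith
  exact le_of_mul_le_mul_left h7 (by positivity)

/-- chains of polygons -/
theorem chain {m : ℕ} (hm : 2 ≤ m) {B κ : ℝ} (hκ : 0 < κ)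
    (h : ∀ j, m ≤ j → j < 2 * m → 2 * (κ * H981.mu ^ (2 * j)) ≤ qn (2 * j) (2 * B)) :
    ∀ q : ℕ, 1 ≤ q → ∀ ρ : ℕ, ρ < m → 2 * (κ ^ q * H981.mu ^ (2 * (q * m + ρ))) ≤
      qn (2 * (q * m + ρ)) (q * (2 * B + 1) - 1) := by
  have hmu : 0 < H981.mu := H981.mu_pos
  intro q hq
  induction q, hq using Nat.le_induction with
  | base =>
    intro ρ hρ
    have h1 := h (m + ρ) (by omega) (by omega)
    rw [one_mul, pow_one]
    have e : ((1 : ℕ) : ℝ) * (2 * B + 1) - 1 = 2 * B := by push_cast; ring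
    rw [e]
    exact h1
  | succ q hq ih =>
    intro ρ hρ
    have h1 := ih ρ hρ
    have h2 := h m le_rfl (by omega)
    have h3 := qn_mul (M := 2 * m) (N := 2 * (q * m + ρ)) (by omega)
      (by
        have : m ≤ q * m := Nat.le_mul_of_pos_left m (by omega)
        omega) (2 * B) (q * (2 * B + 1) - 1)
    have e1 : 2 * m + 2 * (q * m + ρ) = 2 * ((q + 1) * m + ρ) := by ring
    have e2 : 2 * B + (q * (2 * B + 1) - 1) + 1 = ((q + 1 : ℕ) : ℝ) * (2 * B + 1) - 1 := by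
      push_cast; ring
    rw [e1, e2] at h3
    have h4 : (2 * (κ * H981.mu ^ (2 * m))) * (2 * (κ ^ q * H981.mu ^ (2 * (q * m + ρ)))) ≤
        qn (2 * m) (2 * B) * qn (2 * (q * m + ρ)) (q * (2 * B + 1) - 1) :=
      mul_le_mul h2 h1 (by positivity) (qn_nonneg _ _)
    have e3 : H981.mu ^ (2 * ((q + 1) * m + ρ)) =
        H981.mu ^ (2 * m) * H981.mu ^ (2 * (q * m + ρ)) := by
      rw [← pow_add]
      congr 1
      ring
    rw [e3, pow_succ]
    linarith

theorem Zl_zero_le {n : ℕ} (hn : 2 ≤ n) : Zl 0 (2 * n) ≤ 8 * n * H981.mu ^ (2 * n) := by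
  have h1 := Zl_le_Ct 0 (L := 2 * n) (by omega)
  have h2 := Ct_le (le_refl (0 : ℝ)) (n := n) (by omega)
  rw [Lam_zero, zero_add, ← mu_pow] at h2
  have h3 := mul_le_mul_of_nonneg_left h2 (by positivity : (0 : ℝ) ≤ 2 * ((2 * n : ℕ) : ℝ))
  refine h1.trans (h3.trans (le_of_eq ?_))
  push_cast
  ring

/-- the lower bound for the probability of small areas -/
theorem small_low : ∃ K : ℝ, 0 ≤ K ∧ ∀ m n : ℕ, 2 ≤ m → m ≤ n → ∀ B : ℝ,
    (∀ j, m ≤ j → j < 2 * m → mA j ≤ B) →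
    Real.exp (-(K * (n / m) * Real.log m ^ 2)) ≤
      ln (2 * n) ((2 * B + 1) * (n / m)) / Zl 0 (2 * n) := by
  obtain ⟨K, hK, h⟩ := qn_mean
  have hL2 : (0 : ℝ) < Real.log 2 := Real.log_pos (by norm_num)
  refine ⟨4 * K + 3 / Real.log 2 + 1 / Real.log 2 ^ 2, by positivity, fun m n hm hmn B hB => ?_⟩
  have hmu : 0 < H981.mu := H981.mu_pos
  have hmr : (2 : ℝ) ≤ m := by exact_mod_cast hm
  have hm0 : (0 : ℝ) < m := by linarith
  have hnm : (m : ℝ) ≤ n := by exact_mod_cast hmn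
  have hn0 : (0 : ℝ) < n := by linarith
  have hlm : Real.log 2 ≤ Real.log m := Real.log_le_log (by norm_num) hmr
  have hB1 : 1 ≤ B := (mA_ge_one hm).trans (hB m le_rfl (by omega))
  obtain ⟨q, hq⟩ : ∃ q, q = n / m := ⟨_, rfl⟩
  obtain ⟨ρ, hρ⟩ : ∃ ρ, ρ = n % m := ⟨_, rfl⟩
  have hρm : ρ < m := by rw [hρ]; exact Nat.mod_lt _ (by omega)
  have hq1 : 1 ≤ q := by rw [hq]; exact (Nat.one_le_div_iff (by omega)).2 hmn
  have hqn : q * m + ρ = n := by rw [hq, hρ]; exact Nat.div_add_mod' n m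
  have hqr : (q : ℝ) ≤ n / m := by
    rw [le_div_iff₀ hm0]
    exact_mod_cast (by omega : q * m ≤ n)
  have hx1 : (1 : ℝ) ≤ n / m := by rwa [one_le_div hm0]
  obtain ⟨κ, hκ⟩ : ∃ κ : ℝ, κ = Real.exp (-(4 * K * Real.log m ^ 2)) := ⟨_, rfl⟩
  have hκ0 : 0 < κ := by rw [hκ]; exact Real.exp_pos _
  have h1 := chain hm hκ0 (B := B) (by
    intro j hj1 hj2
    refine le_trans ?_ (h j (by omega) B (hB j hj1 hj2))
    apply mul_le_mul_of_nonneg_left _ (by norm_num)
    apply mul_le_mul_of_nonneg_right _ (by positivity)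
    rw [hκ]
    apply Real.exp_le_exp.2
    have hjr : (j : ℝ) ≤ 2 * m := by exact_mod_cast hj2.le
    have hj0 : (0 : ℝ) < j := by exact_mod_cast (by omega : 0 < j)
    have h2 : Real.log j ≤ 2 * Real.log m := by
      have h3 := Real.log_le_log hj0 hjr
      rw [Real.log_mul (by norm_num) hm0.ne'] at h3
      linarith
    have h3 := pow_le_pow_left₀ (Real.log_natCast_nonneg j) h2 2
    rw [mul_pow] at h3
    have h4 := mul_le_mul_of_nonneg_left h3 hK
    linarith) q hq1 ρ hρm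
  rw [hqn] at h1
  have h2 : qn (2 * n) (q * (2 * B + 1) - 1) ≤ ln (2 * n) ((2 * B + 1) * (n / m)) := by
    refine (qn_le_ln (by omega) _).trans (ln_mono _ ?_)
    have := mul_le_mul_of_nonneg_left hqr (by linarith : 0 ≤ 2 * B + 1)
    linarith
  have h3 := Zl_zero_le (by omega : 2 ≤ n)
  rw [le_div_iff₀ (Zl_pos 0 (by omega))]
  refine le_trans ?_ h2
  refine le_trans ?_ h1
  have h4 : Real.exp (-((4 * K + 3 / Real.log 2 + 1 / Real.log 2 ^ 2) * (n / m) *
      Real.log m ^ 2)) ≤ κ ^ q * (1 / (4 * n)) := by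
    have e1 : κ ^ q * (1 / (4 * (n : ℝ))) = Real.exp (-(4 * K * Real.log m ^ 2) * q -
        Real.log (4 * n)) := by
      rw [Real.exp_sub, Real.exp_log (by positivity), hκ, ← Real.exp_nat_mul,
        mul_comm (-(4 * K * Real.log m ^ 2))]
      ring
    rw [e1]
    apply Real.exp_le_exp.2
    have h5 : 4 * K * Real.log m ^ 2 * q ≤ 4 * K * Real.log m ^ 2 * (n / m) :=
      mul_le_mul_of_nonneg_left hqr (by positivity)
    have h6 : Real.log (4 * n) ≤ (3 / Real.log 2 + 1 / Real.log 2 ^ 2) * (n / m) *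
        Real.log m ^ 2 := by
      have e2 : 4 * (n : ℝ) = 4 * (m * (n / m)) := by field_simp
      rw [e2, Real.log_mul (by norm_num) (by positivity), Real.log_mul hm0.ne' (by positivity)]
      have e3 : Real.log 4 = 2 * Real.log 2 := by
        rw [show (4 : ℝ) = 2 ^ 2 by norm_num, Real.log_pow]
        norm_num
      have h7 : Real.log ((n : ℝ) / m) ≤ n / m := by
        have := Real.log_le_sub_one_of_pos (by positivity : (0 : ℝ) < n / m)
        linarith
      have h8 : 3 * Real.log m ≤ 3 / Real.log 2 * (n / m) * Real.log m ^ 2 := by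
        have h9 : 3 * Real.log m ≤ 3 / Real.log 2 * Real.log m ^ 2 := by
          rw [div_mul_eq_mul_div, le_div_iff₀ hL2]
          nlinarith
        have h10 : 3 / Real.log 2 * Real.log m ^ 2 * 1 ≤
            3 / Real.log 2 * Real.log m ^ 2 * (n / m) :=
          mul_le_mul_of_nonneg_left hx1 (by positivity)
        linarith
      have h11 : (n : ℝ) / m ≤ 1 / Real.log 2 ^ 2 * (n / m) * Real.log m ^ 2 := by
        have h12 : 1 ≤ 1 / Real.log 2 ^ 2 * Real.log m ^ 2 := by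
          rw [one_div, inv_mul_eq_div, le_div_iff₀ (by positivity), one_mul]
          exact pow_le_pow_left₀ hL2.le hlm 2
        have := mul_le_mul_of_nonneg_left h12 (by positivity : (0 : ℝ) ≤ n / m)
        linarith
      rw [e3]
      linarith
    linarith
  have h5 : κ ^ q * (1 / (4 * (n : ℝ))) * Zl 0 (2 * n) ≤
      κ ^ q * (1 / (4 * n)) * (8 * n * H981.mu ^ (2 * n)) :=
    mul_le_mul_of_nonneg_left h3 (by positivity)
  have h6 : κ ^ q * (1 / (4 * (n : ℝ))) * (8 * n * H981.mu ^ (2 * n)) =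
      2 * (κ ^ q * H981.mu ^ (2 * n)) := by
    field_simp
    ring
  calc _ ≤ κ ^ q * (1 / (4 * (n : ℝ))) * Zl 0 (2 * n) :=
        mul_le_mul_of_nonneg_right h4 (Zl_pos 0 (by omega)).le
    _ ≤ _ := h5
    _ = _ := h6

end Pool.Agent.K6.H36.PJ
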