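import Pool.Agent.K6.H36.PJ.Sq2
import Pool.Agent.K6.H36.PJ.Rate2

/-!
The pressure in a square and the mean width.
-/

set_option autoImplicit false

namespace Pool.Agent.K6.H36.PJ

open Pool.Agent.N223.PS Filter Topology

theorem mW_le {n : ℕ} (hn : 1 ≤ n) : mW n ≤ n := by
  unfold mW
  rw [div_le_iff₀ (Zl_pos 0 hn), Zl_zero]
  have h : ∀ f ∈ LF (2 * n), (wid (2 * n) f : ℝ) ≤ n := by
    intro f hf
    exact_mod_cast wid_le_half hn ((mem_LF (by omega)).1 hf)
  have := Finset.sum_le_card_nsmul _ _ _ h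
  rw [nsmul_eq_mul] at this
  linarith

/-- half of the polygons are in a square of side `4 W` -/
theorem sq_half {m : ℕ} (hm : 1 ≤ m) {w : ℕ} (hw : 4 * mW m ≤ (w : ℝ) + 1) :
    Zl 0 (2 * m) / 2 ≤ Bn w w (2 * m) := by
  classical
  have : NeZero (2 * m) := ⟨by omega⟩
  have hZ := Zl_pos 0 hm
  have h1 := mW_ge hm w
  have hw0 : (0 : ℝ) < (w : ℝ) + 1 := by positivity
  have h2 : 1 - Nn w (2 * m) / Zl 0 (2 * m) ≤ 1 / 4 := by
    by_contra hcon
    push Not at hcon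
    have h3 := mul_lt_mul_of_pos_left hcon hw0
    linarith
  have h3 : 3 / 4 * Zl 0 (2 * m) ≤ Nn w (2 * m) := by
    have h4 : 3 / 4 ≤ Nn w (2 * m) / Zl 0 (2 * m) := by linarith
    rwa [le_div_iff₀ hZ] at h4
  have h5 : Nn w (2 * m) = ∑ f ∈ LF (2 * m), if Lw (w : ℤ) f then (1 : ℝ) else 0 := by
    unfold Nn
    refine Finset.sum_bij' (fun f _ => swp f) (fun f _ => swp f) ?_ ?_ ?_ ?_ ?_
    · intro f hf
      exact (mem_LF (by omega)).2 (swp_loop ((mem_LF (by omega)).1 hf))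
    · intro f hf
      exact (mem_LF (by omega)).2 (swp_loop ((mem_LF (by omega)).1 hf))
    · intro f _
      exact swp_swp f
    · intro f _
      exact swp_swp f
    · intro f _
      have e : wid (2 * m) f ≤ w ↔ Lw (w : ℤ) (swp f) := by
        rw [← nr_wid]
        rfl
      simp only [e]
  have h6 : Nn w (2 * m) + Nn w (2 * m) - Zl 0 (2 * m) ≤ Bn w w (2 * m) := by
    nth_rewrite 2 [h5]
    rw [Zl_zero]
    unfold Nn Bn
    have e : ((LF (2 * m)).card : ℝ) = ∑ f ∈ LF (2 * m), (1 : ℝ) := by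
      rw [Finset.sum_const, nsmul_eq_mul, mul_one]
    rw [e, ← Finset.sum_add_distrib, ← Finset.sum_sub_distrib]
    refine Finset.sum_le_sum fun f _ => ?_
    by_cases a : wid (2 * m) f ≤ w
    · by_cases b : Lw (w : ℤ) f
      · rw [if_pos a, if_pos b, if_pos ⟨nr_wid.2 a, b⟩]
        norm_num
      · rw [if_pos a, if_neg b, if_neg (fun h : Nr (w : ℤ) f ∧ Lw (w : ℤ) f => b h.2)]
        norm_num
    · rw [if_neg a, if_neg (fun h : Nr (w : ℤ) f ∧ Lw (w : ℤ) f => a (nr_wid.1 h.1))]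
      split_ifs <;> norm_num
  linarith

theorem sq_block : ∃ K : ℝ, 0 ≤ K ∧ ∀ m : ℕ, 2 ≤ m → ∃ w : ℕ, 1 ≤ w ∧ (w : ℝ) + 1 ≤ 5 * mW m ∧
    0 < Bn w w (2 * m) ∧ 2 * m * Real.log H981.mu - K * Real.log m ^ 2 ≤
      Real.log (Bn w w (2 * m)) - (9 + 4 * Real.log (2 * m) + 4 * Real.log ((w : ℝ) + 1)) := by
  obtain ⟨K, hK, h⟩ := counts
  have hmu : 0 < H981.mu := H981.mu_pos
  have hL2 : (0 : ℝ) < Real.log 2 := Real.log_pos (by norm_num)
  refine ⟨K + 30 / Real.log 2 ^ 2 + 8 / Real.log 2, by positivity, fun m hm => ?_⟩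
  have hW1 := mW_ge_one hm
  have hWm := mW_le (by omega : 1 ≤ m)
  have hmr : (2 : ℝ) ≤ m := by exact_mod_cast hm
  have hm0 : (0 : ℝ) < m := by linarith
  obtain ⟨w, hw⟩ : ∃ w, w = ⌊4 * mW m⌋₊ := ⟨_, rfl⟩
  have hw1 : (w : ℝ) ≤ 4 * mW m := by rw [hw]; exact Nat.floor_le (by linarith)
  have hw2 : 4 * mW m ≤ (w : ℝ) + 1 := by rw [hw]; exact (Nat.lt_floor_add_one _).le
  have hw3 : 1 ≤ w := by
    rw [hw]
    exact Nat.le_floor (by push_cast; linarith)
  have hB := sq_half (by omega : 1 ≤ m) hw2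
  have hZ := Zl_pos 0 (by omega : 1 ≤ m)
  refine ⟨w, hw3, by linarith, by linarith, ?_⟩
  have h1 := (h m hm).1
  rw [← Zl_zero] at h1
  have h2 : H981.mu ^ (2 * m) * Real.exp (-(K * Real.log m ^ 2)) / 2 ≤ Bn w w (2 * m) := by
    linarith
  have h3 := Real.log_le_log (by positivity) h2
  rw [Real.log_div (by positivity) (by norm_num), Real.log_mul (by positivity)
    (Real.exp_pos _).ne', Real.log_exp, Real.log_pow] at h3
  have hln : Real.log 2 ≤ Real.log m := Real.log_le_log (by norm_num) hmr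
  have hl2 : Real.log 2 ≤ 1 := by
    have := Real.log_two_lt_d9
    linarith
  have h4 : Real.log (2 * m) ≤ 1 + Real.log m := by
    rw [Real.log_mul (by norm_num) hm0.ne']
    linarith
  have h5 : Real.log ((w : ℝ) + 1) ≤ 3 + Real.log m := by
    have h6 : (w : ℝ) + 1 ≤ 8 * m := by linarith
    have h7 := Real.log_le_log (by positivity) h6
    rw [Real.log_mul (by norm_num) hm0.ne'] at h7
    have : Real.log 8 = 3 * Real.log 2 := by
      have : (8 : ℝ) = 2 ^ 3 := by norm_num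
      rw [this, Real.log_pow]
      push_cast
      rfl
    linarith
  have h6 : 30 ≤ 30 / Real.log 2 ^ 2 * Real.log m ^ 2 := by
    rw [div_mul_eq_mul_div, le_div_iff₀ (by positivity)]
    have := pow_le_pow_left₀ hL2.le hln 2
    linarith
  have h7 : 8 * Real.log m ≤ 8 / Real.log 2 * Real.log m ^ 2 := by
    rw [div_mul_eq_mul_div, le_div_iff₀ hL2]
    nlinarith
  push_cast at h3
  linarith

/-- the pressure is at least `W ^ (-2)` -/
theorem lam_ge_width : ∃ K : ℝ, 0 < K ∧ ∀ m : ℕ, 2 ≤ m → ∀ x : ℝ, 0 < x →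
    (2 * m * Real.log (H981.mu * x) - K * Real.log m ^ 2) / (25 * mW m ^ 2) ≤ lam x := by
  obtain ⟨K, hK, h⟩ := sq_block
  have hmu : 0 < H981.mu := H981.mu_pos
  refine ⟨K + 1, by linarith, fun m hm x hx => ?_⟩
  obtain ⟨w, hw1, hw2, hB, h1⟩ := h m hm
  have hW1 := mW_ge_one hm
  have h2 := lam_ge hx hw1 hm hB
  rcases le_or_gt (2 * m * Real.log (H981.mu * x) - (K + 1) * Real.log m ^ 2) 0 with h3 | h3
  · exact (div_nonpos_of_nonpos_of_nonneg h3 (by positivity)).trans (lam_nonneg hx)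
  · refine le_trans ?_ h2
    have h4 : ((w : ℝ) + 1) ^ 2 ≤ 25 * mW m ^ 2 := by
      have := pow_le_pow_left₀ (by positivity) hw2 2
      linarith [this, mul_pow 5 (mW m) 2]
    have h5 : 2 * m * Real.log (H981.mu * x) - (K + 1) * Real.log m ^ 2 ≤
        Real.log (Bn w w (2 * m)) + 2 * m * Real.log x -
          (9 + 4 * Real.log (2 * m) + 4 * Real.log ((w : ℝ) + 1)) := by
      rw [Real.log_mul hmu.ne' hx.ne']
      have := sq_nonneg (Real.log m)
      linarith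
    exact div_le_div₀ (h3.le.trans h5) h5 (by positivity) h4

/-- confinement to a square -/
theorem confine : ∃ K : ℝ, 0 ≤ K ∧ ∀ t m : ℕ, 1 ≤ t → 2 ≤ m → ∃ w : ℕ, (w : ℝ) ≤ 5 * t * mW m ∧
    Real.exp (-(K * t ^ 2 * Real.log m ^ 2)) ≤
      Bn w w (2 * (t ^ 2 * m)) / Zl 0 (2 * (t ^ 2 * m)) := by
  obtain ⟨K, hK, h⟩ := sq_block
  have hmu : 0 < H981.mu := H981.mu_pos
  have hL2 : (0 : ℝ) < Real.log 2 := Real.log_pos (by norm_num)
  refine ⟨K + 10 / Real.log 2 ^ 2 + 10 / Real.log 2, by positivity, fun t m ht hm => ?_⟩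
  obtain ⟨w, hw1, hw2, hB, h1⟩ := h m hm
  have ht0 : (0 : ℝ) < t := by exact_mod_cast ht
  have ht1 : (1 : ℝ) ≤ t := by exact_mod_cast ht
  have hmr : (2 : ℝ) ≤ m := by exact_mod_cast hm
  have hm0 : (0 : ℝ) < m := by linarith
  have htw : 1 ≤ t * (w + 1) := Nat.mul_pos ht (by omega)
  obtain ⟨W, hW⟩ : ∃ W, W = t * (w + 1) - 1 := ⟨_, rfl⟩
  have hW1 : W + 1 = t * (w + 1) := by omega
  have hW2 : (W : ℝ) + 1 = t * (w + 1) := by exact_mod_cast hW1
  have h2 := square' (w := w) (L := 2 * m) (by omega) ht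
  have e1 : (t * (w + 1) - 1 : ℤ) = (W : ℤ) := by
    have : ((W : ℤ) + 1) = t * (w + 1) := by exact_mod_cast hW1
    linarith
  have e2 : t ^ 2 * (2 * m) = 2 * (t ^ 2 * m) := by ring
  rw [e1, e2] at h2
  refine ⟨W, ?_, ?_⟩
  · have := mul_le_mul_of_nonneg_left hw2 ht0.le
    linarith
  · have hn : 2 ≤ t ^ 2 * m := by
      have : 1 ≤ t ^ 2 := Nat.one_le_pow _ _ ht
      nlinarith
    rw [le_div_iff₀ (Zl_pos 0 (by omega))]
    refine le_trans ?_ h2
    refine (mul_le_mul_of_nonneg_left (Zl_zero_le hn) (Real.exp_pos _).le).trans ?_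
    push_cast
    have e3 : (Bn w w (2 * m) * Real.exp (-(9 + 4 * Real.log (2 * m) + 4 *
        Real.log ((w : ℝ) + 1)))) ^ t ^ 2 = Real.exp ((t : ℝ) ^ 2 * (Real.log (Bn w w (2 * m)) -
          (9 + 4 * Real.log (2 * m) + 4 * Real.log ((w : ℝ) + 1)))) := by
      rw [← Real.exp_log hB, ← Real.exp_add, ← Real.exp_nat_mul, Real.log_exp]
      push_cast
      congr 1
    rw [e3]
    have e4 : H981.mu ^ (2 * (t ^ 2 * m)) = Real.exp (2 * t ^ 2 * m * Real.log H981.mu) := by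
      rw [← Real.exp_log hmu, Real.log_exp, ← Real.exp_nat_mul]
      congr 1
      push_cast
      ring
    have e5 : 8 * ((t : ℝ) ^ 2 * m) = Real.exp (3 * Real.log 2 + (2 * Real.log t + Real.log m)) := by
      rw [Real.exp_add, Real.exp_add, Real.exp_log hm0]
      have a1 : Real.exp (3 * Real.log 2) = 8 := by
        rw [mul_comm, Real.exp_mul, Real.exp_log (by norm_num)]
        norm_num
      have a2 : Real.exp (2 * Real.log t) = (t : ℝ) ^ 2 := by
        rw [mul_comm, Real.exp_mul, Real.exp_log ht0]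
        norm_cast
      rw [a1, a2]
    rw [e4, e5, ← Real.exp_add, ← Real.exp_add]
    apply Real.exp_le_exp.2
    have h4 := mul_le_mul_of_nonneg_left h1 (by positivity : (0 : ℝ) ≤ (t : ℝ) ^ 2)
    have hln : Real.log 2 ≤ Real.log m := Real.log_le_log (by norm_num) hmr
    have hl2 : Real.log 2 ≤ 1 := by
      have := Real.log_two_lt_d9
      linarith
    have hlt : Real.log t ≤ (t : ℝ) ^ 2 := by
      have := Real.log_le_sub_one_of_pos ht0
      nlinarith
    have ht2 : (1 : ℝ) ≤ (t : ℝ) ^ 2 := one_le_pow₀ ht1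
    have h6 : 10 ≤ 10 / Real.log 2 ^ 2 * Real.log m ^ 2 := by
      rw [div_mul_eq_mul_div, le_div_iff₀ (by positivity)]
      have := pow_le_pow_left₀ hL2.le hln 2
      linarith
    have h7 : 10 * Real.log m ≤ 10 / Real.log 2 * Real.log m ^ 2 := by
      rw [div_mul_eq_mul_div, le_div_iff₀ hL2]
      nlinarith
    have h8 : 3 * Real.log 2 + (2 * Real.log t + Real.log m) ≤
        (t : ℝ) ^ 2 * (10 / Real.log 2 ^ 2 * Real.log m ^ 2 + 10 / Real.log 2 * Real.log m ^ 2) := by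
      have h9 : (t : ℝ) ^ 2 * (10 + 10 * Real.log m) ≤
        (t : ℝ) ^ 2 * (10 / Real.log 2 ^ 2 * Real.log m ^ 2 + 10 / Real.log 2 * Real.log m ^ 2) :=
        mul_le_mul_of_nonneg_left (by linarith) (by positivity)
      refine le_trans ?_ h9
      have h10 : 0 ≤ Real.log m := by linarith
      nlinarith [mul_nonneg h10 (sub_nonneg.2 ht2)]
    nlinarith [h4, h8]

/-- the mean width from the pressure -/
theorem width_of_pressure {W lm : ℕ → ℝ} {K θ C : ℝ} (hK : 0 < K) (hθ : 0 < θ)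
    (hW : ∀ n : ℕ, 2 ≤ n → 1 ≤ W n)
    (h1 : ∀ n : ℕ, 2 ≤ n → Real.log n ^ 2 ≤ K * lm n * W n ^ 2)
    (h2 : ∀ n : ℕ, 2 ≤ n → K * Real.log n ^ 2 ≤ n →
      lm n ≤ C * (K * Real.log n ^ 2 / n) ^ (2 * θ)) :
    ∃ c : ℝ, 0 < c ∧ ∀ n : ℕ, 2 ≤ n → c * ((n : ℝ) / Real.log n ^ 2) ^ θ ≤ W n := by
  have hL2 : (0 : ℝ) < Real.log 2 := Real.log_pos (by norm_num)
  obtain ⟨D, hD⟩ : ∃ D : ℝ, D = K * (|C| + 1) * K ^ (2 * θ) / Real.log 2 ^ 2 := ⟨_, rfl⟩
  have hD0 : 0 < D := by rw [hD]; positivity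
  have hsD : 0 < Real.sqrt D := Real.sqrt_pos.2 hD0
  refine ⟨min (1 / K ^ θ) (1 / Real.sqrt D), by positivity, fun n hn => ?_⟩
  have hnr : (2 : ℝ) ≤ n := by exact_mod_cast hn
  have hn0 : (0 : ℝ) < n := by linarith
  have hln : Real.log 2 ≤ Real.log n := Real.log_le_log (by norm_num) hnr
  have hln0 : 0 < Real.log n := by linarith
  obtain ⟨y, hy⟩ : ∃ y : ℝ, y = (n : ℝ) / Real.log n ^ 2 := ⟨_, rfl⟩
  have hy0 : 0 < y := by rw [hy]; positivity
  have hyθ : 0 < y ^ θ := Real.rpow_pos_of_pos hy0 _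
  have hKθ : 0 < K ^ θ := Real.rpow_pos_of_pos hK _
  rw [← hy]
  rcases le_or_gt (K * Real.log n ^ 2) n with h3 | h3
  · have h4 := h2 n hn h3
    have h5 := h1 n hn
    have e1 : K * Real.log n ^ 2 / n = K / y := by
      rw [hy]; field_simp
    rw [e1, Real.div_rpow hK.le hy0.le] at h4
    have h6 : lm n ≤ (|C| + 1) * (K ^ (2 * θ) / y ^ (2 * θ)) := by
      refine h4.trans ?_
      apply mul_le_mul_of_nonneg_right _ (by positivity)
      have := le_abs_self C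
      linarith
    have hW0 : 0 < W n := by linarith [hW n hn]
    have h7 : Real.log 2 ^ 2 ≤ K * ((|C| + 1) * (K ^ (2 * θ) / y ^ (2 * θ))) * W n ^ 2 := by
      have h8 : Real.log 2 ^ 2 ≤ Real.log n ^ 2 := pow_le_pow_left₀ hL2.le hln 2
      refine h8.trans (h5.trans ?_)
      apply mul_le_mul_of_nonneg_right _ (by positivity)
      exact mul_le_mul_of_nonneg_left h6 hK.le
    have e2 : y ^ (2 * θ) = (y ^ θ) ^ 2 := by
      rw [two_mul, Real.rpow_add hy0]
      ring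
    have h8 : (y ^ θ) ^ 2 ≤ D * W n ^ 2 := by
      rw [← e2, hD]
      have hy2 : 0 < y ^ (2 * θ) := Real.rpow_pos_of_pos hy0 _
      have h9 := mul_le_mul_of_nonneg_right h7 (by positivity : (0 : ℝ) ≤ y ^ (2 * θ) /
        Real.log 2 ^ 2)
      have e3 : Real.log 2 ^ 2 * (y ^ (2 * θ) / Real.log 2 ^ 2) = y ^ (2 * θ) := by
        field_simp
      rw [e3] at h9
      refine h9.trans (le_of_eq ?_)
      field_simp
    have h10 : y ^ θ ≤ Real.sqrt D * W n := by
      apply abs_le_of_sq_le_sq' _ (by positivity) |>.2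
      rw [mul_pow, Real.sq_sqrt hD0.le]
      exact h8
    calc min (1 / K ^ θ) (1 / Real.sqrt D) * y ^ θ ≤ 1 / Real.sqrt D * y ^ θ :=
          mul_le_mul_of_nonneg_right (min_le_right _ _) hyθ.le
      _ ≤ 1 / Real.sqrt D * (Real.sqrt D * W n) := mul_le_mul_of_nonneg_left h10 (by positivity)
      _ = W n := by field_simp
  · have h4 : y ≤ K := by
      rw [hy, div_le_iff₀ (by positivity)]
      exact h3.le
    have h5 : y ^ θ ≤ K ^ θ := Real.rpow_le_rpow hy0.le h4 hθ.le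
    calc min (1 / K ^ θ) (1 / Real.sqrt D) * y ^ θ ≤ 1 / K ^ θ * y ^ θ :=
          mul_le_mul_of_nonneg_right (min_le_left _ _) hyθ.le
      _ ≤ 1 / K ^ θ * K ^ θ := mul_le_mul_of_nonneg_left h5 (by positivity)
      _ = 1 := by field_simp
      _ ≤ W n := hW n hn

end Pool.Agent.K6.H36.PJ
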