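import Pool.Agent.K6.H36.PJ.Dm5
import Pool.Agent.K6.H36.PJ.Sq3
import Pool.Agent.H739K.HOR

/-!
The dense phase: the pressure and the free energy; the mean area.
-/

set_option autoImplicit false

namespace Pool.Agent.K6.H36.PJ

open Pool.Agent.N223.PS Pool.Agent.N457.PS Filter Topology

/-! ### the area and the perimeter -/

theorem area_ge_quarter {m : ℕ} (hm : 4 ≤ m) {f : ZMod m → ℤ × ℤ} (hf : IsLoop m f) :
    m ≤ 4 * area m f := by
  classical
  have : NeZero m := ⟨by omega⟩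
  have h1 : Nat.card {k : ZMod m // (f (k + 1)).2 = (f k).2} ≤ 2 * area m f :=
    Pool.Agent.H739K.HOR_proof m f hm hf
  have h2 : Nat.card {k : ZMod m // (swp f (k + 1)).2 = (swp f k).2} ≤ 2 * area m (swp f) :=
    Pool.Agent.H739K.HOR_proof m (swp f) hm (swp_loop hf)
  rw [area_swp hf] at h2
  rw [Nat.card_eq_fintype_card, Fintype.card_subtype] at h1 h2
  have h3 : (Finset.univ : Finset (ZMod m)) ⊆
      (Finset.univ.filter fun k : ZMod m => (f (k + 1)).2 = (f k).2) ∪
        (Finset.univ.filter fun k : ZMod m => (swp f (k + 1)).2 = (swp f k).2) := by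
    intro k _
    rw [Finset.mem_union, Finset.mem_filter, Finset.mem_filter]
    rcases step_cases hf k with ⟨s1, s2⟩ | ⟨s1, s2⟩ | ⟨s1, s2⟩ | ⟨s1, s2⟩
    · exact Or.inl ⟨Finset.mem_univ _, s2⟩
    · exact Or.inl ⟨Finset.mem_univ _, s2⟩
    · exact Or.inr ⟨Finset.mem_univ _, s1⟩
    · exact Or.inr ⟨Finset.mem_univ _, s1⟩
  have h4 := (Finset.card_le_card h3).trans (Finset.card_union_le _ _)
  rw [Finset.card_univ, ZMod.card] at h4
  omega

theorem gg_ge {e : ℝ} (he : 0 ≤ e) : e / 4 ≤ gg e := by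
  refine ge_of_tendsto (gg_tendsto he) ?_
  filter_upwards [eventually_ge_atTop 2] with n hn
  have hn0 : (0 : ℝ) < n := by exact_mod_cast (by omega : 0 < n)
  have hZ := Zl_pos 0 (by omega : 1 ≤ n)
  have h1 : Zl e (2 * n) ≤ Real.exp (-(e * n / 2)) * Zl 0 (2 * n) := by
    unfold Zl
    rw [Finset.mul_sum]
    refine Finset.sum_le_sum fun f hf => ?_
    have h2 := area_ge_quarter (m := 2 * n) (by omega) ((mem_LF (by omega)).1 hf)
    have h3 : (n : ℝ) / 2 ≤ area (2 * n) f := by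
      have : ((2 * n : ℕ) : ℝ) ≤ ((4 * area (2 * n) f : ℕ) : ℝ) := by exact_mod_cast h2
      push_cast at this
      linarith
    rw [← Real.exp_add]
    apply Real.exp_le_exp.2
    have := mul_le_mul_of_nonneg_left h3 he
    linarith
  have h2 : Real.log (Zl e (2 * n) / Zl 0 (2 * n)) ≤ -(e * n / 2) := by
    rw [← Real.log_exp (-(e * n / 2))]
    apply Real.log_le_log (div_pos (Zl_pos e (by omega)) hZ)
    rwa [div_le_iff₀ hZ]
  rw [le_div_iff₀ (by positivity)]
  linarith

/-! ### the pressure is positive if and only if `g(e) < log(μ x)` -/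

theorem Bw_le_Zl (e : ℝ) (w h : ℤ) (L : ℕ) : Bw e w h L ≤ Zl e L := by
  classical
  unfold Bw Zl
  refine Finset.sum_le_sum fun f _ => ?_
  split_ifs
  · exact le_rfl
  · exact (Real.exp_pos _).le

theorem Bw_eq_Zl (e : ℝ) {n : ℕ} (hn : 1 ≤ n) :
    Bw e ((4 * n : ℕ) : ℤ) ((4 * n : ℕ) : ℤ) (2 * n) = Zl e (2 * n) := by
  classical
  have : NeZero (2 * n) := ⟨by omega⟩
  unfold Bw Zl
  refine Finset.sum_congr rfl fun f hf => ?_
  have hl := (mem_LF (by omega)).1 hf
  have hb : ∀ i : ZMod (2 * n), |(f i).1| ≤ 2 * n ∧ |(f i).2| ≤ 2 * n := by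
    intro i
    have h1 := loop_bound hl i.val
    rw [ZMod.natCast_zmod_val] at h1
    have h2 := ZMod.val_lt i
    have h3 := abs_nonneg (f i).1
    have h4 := abs_nonneg (f i).2
    constructor <;> omega
  rw [if_pos]
  · rfl
  · constructor
    · intro i j
      have h1 := abs_le.1 (hb i).1
      have h2 := abs_le.1 (hb j).1
      push_cast
      omega
    · intro i j
      have h1 := abs_le.1 (hb i).2
      have h2 := abs_le.1 (hb j).2
      push_cast
      omega

theorem Lam_eq (e : ℝ) : Lam e = Real.log H981.mu - gg e := by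
  unfold gg
  rw [Lam_zero]
  ring

theorem lam2_le {x : ℝ} (hx : 0 < x) {e : ℝ} (he : 0 ≤ e) :
    lam2 x e ≤ max 0 (Real.log (H981.mu * x) - gg e) := by
  have hmu : 0 < H981.mu := H981.mu_pos
  obtain ⟨M, hM⟩ : ∃ M : ℝ, M = max 0 (Real.log (H981.mu * x) - gg e) := ⟨_, rfl⟩
  have hM0 : 0 ≤ M := by rw [hM]; exact le_max_left _ _
  have hM1 : Lam e + Real.log x ≤ M := by
    rw [hM, Real.log_mul hmu.ne' hx.ne', Lam_eq]
    refine le_trans (le_of_eq ?_) (le_max_right _ _)
    ring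
  rw [← hM]
  have hb : ∀ w : ℕ, 1 ≤ w → Real.log (Zw x e w) ≤
      2 * Real.log ((w : ℝ) + 1) + (Real.log 2 + e) + ((w : ℝ) + 1) ^ 2 * M := by
    intro w hw
    have h1 : Zw x e w ≤ ((w : ℝ) + 1) ^ 2 * (2 * Real.exp (e + ((w : ℝ) + 1) ^ 2 * M)) := by
      unfold Zw
      have hb : ∀ n ∈ Finset.Icc 2 ((w + 1) ^ 2),
          Bw e w w (2 * n) / (4 * n) * x ^ (2 * n) ≤
            2 * Real.exp (e + ((w : ℝ) + 1) ^ 2 * M) := by
        intro n hn
        rw [Finset.mem_Icc] at hn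
        rcases Nat.lt_or_ge ((w + 1) ^ 2) (2 * n) with h2 | h2
        · rw [Bw_zero e (by omega) h2]
          simp only [zero_div, zero_mul]
          positivity
        · have hn0 : (0 : ℝ) < n := by exact_mod_cast (by omega : 0 < n)
          have h3 : Bw e w w (2 * n) / (4 * n) ≤ 2 * Real.exp (e + 2 * n * Lam e) := by
            rw [div_le_iff₀ (by positivity)]
            refine (Bw_le_Zl _ _ _ _).trans ((Zl_le_Ct e (L := 2 * n) (by omega)).trans ?_)
            have h4 := Ct_le he (n := n) (by omega)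
            have h5 := mul_le_mul_of_nonneg_left h4 (by positivity : (0 : ℝ) ≤ 2 * ((2 * n : ℕ) : ℝ))
            refine h5.trans (le_of_eq ?_)
            push_cast
            ring
          refine (mul_le_mul_of_nonneg_right h3 (by positivity)).trans ?_
          have e1 : 2 * Real.exp (e + 2 * n * Lam e) * x ^ (2 * n) =
              2 * Real.exp (e + 2 * n * (Lam e + Real.log x)) := by
            have : x ^ (2 * n) = Real.exp (2 * n * Real.log x) := by
              rw [← Real.exp_log hx, Real.log_exp, ← Real.exp_nat_mul]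
              push_cast
              rfl
            rw [this, mul_assoc, ← Real.exp_add]
            congr 2
            ring
          rw [e1]
          apply mul_le_mul_of_nonneg_left _ (by norm_num)
          apply Real.exp_le_exp.2
          have h6 : 2 * (n : ℝ) * (Lam e + Real.log x) ≤ ((w : ℝ) + 1) ^ 2 * M := by
            have h8 : 2 * (n : ℝ) ≤ ((w : ℝ) + 1) ^ 2 := by exact_mod_cast h2
            calc 2 * (n : ℝ) * (Lam e + Real.log x) ≤ 2 * n * M :=
                  mul_le_mul_of_nonneg_left hM1 (by positivity)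
              _ ≤ _ := mul_le_mul_of_nonneg_right h8 hM0
          linarith
      refine (Finset.sum_le_card_nsmul _ _ _ hb).trans ?_
      rw [nsmul_eq_mul]
      apply mul_le_mul_of_nonneg_right _ (by positivity)
      rw [Nat.card_Icc]
      have : (((w + 1) ^ 2 + 1 - 2 : ℕ) : ℝ) ≤ (((w + 1) ^ 2 : ℕ) : ℝ) := by
        exact_mod_cast (by omega : (w + 1) ^ 2 + 1 - 2 ≤ (w + 1) ^ 2)
      push_cast at this
      exact this
    have h2 := Real.log_le_log (Zw_pos hx e hw) h1
    rw [Real.log_mul (by positivity) (by positivity), Real.log_mul (by norm_num)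
      (Real.exp_pos _).ne', Real.log_exp, Real.log_pow] at h2
    push_cast at h2
    linarith
  have h3 : Tendsto (fun W : ℕ => 1 / (W : ℝ)) atTop (𝓝 0) :=
    tendsto_natCast_atTop_atTop.const_div_atTop 1
  have h1 : Tendsto (fun w : ℕ => 2 * (Real.log ((w : ℝ) + 1) / (w : ℝ) ^ 2) +
      (Real.log 2 + e) * ((1 / (w : ℝ)) * (1 / (w : ℝ))) +
      (((w : ℝ) + 1) / w) ^ 2 * M) atTop
      (𝓝 (2 * 0 + (Real.log 2 + e) * (0 * 0) + 1 ^ 2 * M)) :=
    ((tendsto_log_sq.const_mul 2).add ((h3.mul h3).const_mul _)).add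
      (((tendsto_add_div 1).pow 2).mul_const _)
  have e0 : 2 * 0 + (Real.log 2 + e) * (0 * 0) + 1 ^ 2 * M = M := by ring
  rw [e0] at h1
  refine le_of_tendsto_of_tendsto (lam2_tendsto hx e) h1 ?_
  filter_upwards [eventually_ge_atTop 1] with w hw
  have hw0 : (0 : ℝ) < w := by exact_mod_cast hw
  rw [div_le_iff₀ (by positivity)]
  refine (hb w hw).trans (le_of_eq ?_)
  field_simp

theorem lam2_pos {x : ℝ} (hx : 0 < x) {e : ℝ} (he : 0 ≤ e)
    (h : gg e < Real.log (H981.mu * x)) : 0 < lam2 x e := by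
  have hmu : 0 < H981.mu := H981.mu_pos
  have hs : 0 < Lam e + Real.log x := by
    rw [Lam_eq]
    rw [Real.log_mul hmu.ne' hx.ne'] at h
    linarith
  -- the logarithms
  have hl : Tendsto (fun n : ℕ => (9 + 2 * |e| + 4 * Real.log (2 * n) +
      4 * Real.log (((4 * n : ℕ) : ℝ) + 1)) / (2 * (n : ℝ))) atTop (𝓝 0) := by
    have h1 : Tendsto (fun n : ℕ => (9 + 2 * |e|) / (2 * (n : ℝ)) +
        8 * (Real.log (4 * n) / (2 * (n : ℝ))) + 4 * Real.log 2 / (2 * (n : ℝ))) atTop
        (𝓝 (0 + 8 * 0 + 0)) := by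
      refine ((tendsto_two_mul.const_div_atTop _).add (tendsto_log_div.const_mul 8)).add
        (tendsto_two_mul.const_div_atTop _)
    have e0 : (0 : ℝ) + 8 * 0 + 0 = 0 := by ring
    rw [e0] at h1
    refine squeeze_zero' ?_ ?_ h1
    · filter_upwards [eventually_ge_atTop 1] with n hn
      have hn0 : (1 : ℝ) ≤ n := by exact_mod_cast hn
      have a1 := Real.log_nonneg (by linarith : (1 : ℝ) ≤ 2 * n)
      have a2 : 0 ≤ Real.log (((4 * n : ℕ) : ℝ) + 1) := by
        apply Real.log_nonneg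
        have : (0 : ℝ) ≤ ((4 * n : ℕ) : ℝ) := Nat.cast_nonneg _
        linarith
      have := abs_nonneg e
      positivity
    · filter_upwards [eventually_ge_atTop 1] with n hn
      have hn0 : (1 : ℝ) ≤ n := by exact_mod_cast hn
      have a1 : Real.log (2 * n) ≤ Real.log (4 * n) :=
        Real.log_le_log (by positivity) (by linarith)
      have a2 : Real.log (((4 * n : ℕ) : ℝ) + 1) ≤ Real.log (4 * n) + Real.log 2 := by
        rw [← Real.log_mul (by positivity) (by norm_num)]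
        apply Real.log_le_log (by positivity)
        push_cast
        linarith
      have e1 : (9 + 2 * |e|) / (2 * (n : ℝ)) + 8 * (Real.log (4 * n) / (2 * (n : ℝ))) +
          4 * Real.log 2 / (2 * (n : ℝ)) =
          (9 + 2 * |e| + 8 * Real.log (4 * n) + 4 * Real.log 2) / (2 * (n : ℝ)) := by ring
      rw [e1]
      apply div_le_div_of_nonneg_right _ (by positivity)
      linarith
  have h2 := (Zl_tendsto he).sub hl
  rw [sub_zero] at h2
  have h4 := h2.eventually (lt_mem_nhds (by linarith : Lam e - (Lam e + Real.log x) / 2 < Lam e))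
  obtain ⟨n, hn1, hn2⟩ := (h4.and (eventually_ge_atTop 2)).exists
  have hn0 : (0 : ℝ) < n := by exact_mod_cast (by omega : 0 < n)
  have hB : 0 < Bw e ((4 * n : ℕ) : ℤ) ((4 * n : ℕ) : ℤ) (2 * n) := by
    rw [Bw_eq_Zl e (by omega)]
    exact Zl_pos e (by omega)
  have h5 := lam2_ge hx e (w := 4 * n) (by omega) hn2 hB
  refine lt_of_lt_of_le ?_ h5
  apply div_pos _ (by positivity)
  rw [Bw_eq_Zl e (by omega)]
  rw [← sub_div, lt_div_iff₀ (by positivity)] at hn1
  have h6 : 0 < (Lam e + Real.log x) / 2 * (2 * n) := by positivity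
  nlinarith

theorem lam2_pos_iff {x : ℝ} (hx : 0 < x) {e : ℝ} (he : 0 ≤ e) :
    0 < lam2 x e ↔ gg e < Real.log (H981.mu * x) := by
  refine ⟨fun h => ?_, lam2_pos hx he⟩
  by_contra hcon
  push Not at hcon
  have h1 := lam2_le hx he
  rw [max_eq_left (by linarith)] at h1
  linarith

theorem lam2_eq_zero {x : ℝ} (hx : 0 < x) {e : ℝ} (he : 0 ≤ e)
    (h : Real.log (H981.mu * x) ≤ gg e) : lam2 x e = 0 := by
  have h1 := lam2_le hx he
  rw [max_eq_left (by linarith)] at h1
  exact le_antisymm h1 (lam2_nonneg hx e)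

/-! ### the mean area of the polygons in a square -/

open scoped Classical in
/-- the sum of the areas -/
noncomputable def Za (x : ℝ) (w : ℕ) : ℝ :=
  ∑ n ∈ Finset.Icc 2 ((w + 1) ^ 2),
    (∑ f ∈ (LF (2 * n)).filter (fun f => Nr (w : ℤ) f ∧ Lw (w : ℤ) f), (area (2 * n) f : ℝ)) /
      (4 * n) * x ^ (2 * n)

/-- the mean area -/
noncomputable def ma (x : ℝ) (w : ℕ) : ℝ := Za x w / Zs x w

open scoped Classical in
theorem Bw_filter (e : ℝ) (w : ℕ) (L : ℕ) : Bw e w w L =
    ∑ f ∈ (LF L).filter (fun f => Nr (w : ℤ) f ∧ Lw (w : ℤ) f), Real.exp (-(e * area L f)) := by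
  unfold Bw ex
  rw [Finset.sum_filter]

open scoped Classical in
/-- Jensen's inequality -/
theorem Zw_jensen {x : ℝ} (hx : 0 < x) (e : ℝ) {w : ℕ} (hw : 1 ≤ w) :
    Zs x w * Real.exp (-(e * ma x w)) ≤ Zw x e w := by
  have hZ := Zs_pos hx hw
  obtain ⟨a, ha⟩ : ∃ a, a = ma x w := ⟨_, rfl⟩
  have hZa : Za x w = a * Zs x w := by
    rw [ha]
    unfold ma
    rw [div_mul_cancel₀ _ hZ.ne']
  rw [← ha]
  have h1 : ∀ n : ℕ, Real.exp (-(e * a)) * (Bn w w (2 * n) + e * a * Bn w w (2 * n) -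
      e * ∑ f ∈ (LF (2 * n)).filter (fun f => Nr (w : ℤ) f ∧ Lw (w : ℤ) f),
        (area (2 * n) f : ℝ)) ≤ Bw e w w (2 * n) := by
    intro n
    have e1 : Bn w w (2 * n) =
        ∑ f ∈ (LF (2 * n)).filter (fun f => Nr (w : ℤ) f ∧ Lw (w : ℤ) f), (1 : ℝ) := by
      unfold Bn
      rw [Finset.sum_filter]
    rw [e1, Bw_filter, Finset.mul_sum, Finset.mul_sum, ← Finset.sum_add_distrib,
      ← Finset.sum_sub_distrib, Finset.mul_sum]
    refine Finset.sum_le_sum fun f _ => ?_
    have h2 := Real.add_one_le_exp (-(e * (area (2 * n) f - a)))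
    have h3 := mul_le_mul_of_nonneg_left h2 (Real.exp_pos (-(e * a))).le
    rw [← Real.exp_add] at h3
    calc _ = Real.exp (-(e * a)) * (-(e * (area (2 * n) f - a)) + 1) := by ring
      _ ≤ _ := h3
      _ = _ := by congr 1; ring
  have h2 : Zs x w * Real.exp (-(e * a)) = ∑ n ∈ Finset.Icc 2 ((w + 1) ^ 2),
      Real.exp (-(e * a)) * (Bn w w (2 * n) + e * a * Bn w w (2 * n) -
      e * ∑ f ∈ (LF (2 * n)).filter (fun f => Nr (w : ℤ) f ∧ Lw (w : ℤ) f),
        (area (2 * n) f : ℝ)) / (4 * n) * x ^ (2 * n) := by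
    have e2 : ∀ n : ℕ, Real.exp (-(e * a)) * (Bn w w (2 * n) + e * a * Bn w w (2 * n) -
        e * ∑ f ∈ (LF (2 * n)).filter (fun f => Nr (w : ℤ) f ∧ Lw (w : ℤ) f),
        (area (2 * n) f : ℝ)) / (4 * n) * x ^ (2 * n) =
        Real.exp (-(e * a)) * ((1 + e * a) * (Bn w w (2 * n) / (4 * n) * x ^ (2 * n)) -
        e * ((∑ f ∈ (LF (2 * n)).filter (fun f => Nr (w : ℤ) f ∧ Lw (w : ℤ) f),
        (area (2 * n) f : ℝ)) / (4 * n) * x ^ (2 * n))) := by
      intro n
      ring
    rw [Finset.sum_congr rfl (fun n _ => e2 n), ← Finset.mul_sum, Finset.sum_sub_distrib,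
      ← Finset.mul_sum, ← Finset.mul_sum]
    have e3 : ∑ n ∈ Finset.Icc 2 ((w + 1) ^ 2), Bn w w (2 * n) / (4 * n) * x ^ (2 * n) =
      Zs x w := rfl
    have e4 : ∑ n ∈ Finset.Icc 2 ((w + 1) ^ 2),
      (∑ f ∈ (LF (2 * n)).filter (fun f => Nr (w : ℤ) f ∧ Lw (w : ℤ) f),
        (area (2 * n) f : ℝ)) / (4 * n) * x ^ (2 * n) = Za x w := rfl
    rw [e3, e4, hZa]
    ring
  rw [h2]
  unfold Zw
  refine Finset.sum_le_sum fun n _ => ?_
  apply mul_le_mul_of_nonneg_right _ (by positivity)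
  exact div_le_div_of_nonneg_right (h1 n) (by positivity)

theorem log_jensen {x : ℝ} (hx : 0 < x) (e : ℝ) {w : ℕ} (hw : 1 ≤ w) :
    Real.log (Zs x w) - e * ma x w ≤ Real.log (Zw x e w) := by
  have hZ := Zs_pos hx hw
  have h := Real.log_le_log (by positivity) (Zw_jensen hx e hw)
  rw [Real.log_mul hZ.ne' (Real.exp_pos _).ne', Real.log_exp] at h
  linarith

/-- bounds for the mean area -/
theorem ma_bounds {x : ℝ} (hx : 0 < x) {e : ℝ} (he : 0 < e) {η : ℝ} (hη : 0 < η) :
    ∀ᶠ w : ℕ in atTop, (lam x - lam2 x e) / e - η ≤ ma x w / (w : ℝ) ^ 2 ∧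
      ma x w / (w : ℝ) ^ 2 ≤ 1 - (lam x - lam2 x e) / e + η := by
  have h1 := ((lam_tendsto hx).sub (lam2_tendsto hx e)).div_const e
  have h2 := ((lam2_tendsto hx (-e)).sub (lam_tendsto hx)).div_const e
  rw [dual hx e] at h2
  have e1 : (lam2 x e + e - lam x) / e = 1 - (lam x - lam2 x e) / e := by
    field_simp
    ring
  rw [e1] at h2
  have h3 := h1.eventually (lt_mem_nhds (by linarith :
    (lam x - lam2 x e) / e - η < (lam x - lam2 x e) / e))
  have h4 := h2.eventually (gt_mem_nhds (by linarith :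
    1 - (lam x - lam2 x e) / e < 1 - (lam x - lam2 x e) / e + η))
  filter_upwards [h3, h4, eventually_ge_atTop 1] with w w3 w4 hw
  have hw0 : (0 : ℝ) < w := by exact_mod_cast hw
  have j1 := log_jensen hx e hw
  have j2 := log_jensen hx (-e) hw
  constructor
  · refine w3.le.trans ?_
    rw [← sub_div, div_div, div_le_div_iff₀ (by positivity) (by positivity)]
    have h5 : Real.log (Zs x w) - Real.log (Zw x e w) ≤ e * ma x w := by linarith
    have := mul_le_mul_of_nonneg_right h5 (by positivity : (0 : ℝ) ≤ (w : ℝ) ^ 2)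
    linarith
  · refine le_trans ?_ w4.le
    rw [← sub_div, div_div, div_le_div_iff₀ (by positivity) (by positivity)]
    have h5 : e * ma x w ≤ Real.log (Zw x (-e) w) - Real.log (Zs x w) := by linarith
    have := mul_le_mul_of_nonneg_right h5 (by positivity : (0 : ℝ) ≤ (w : ℝ) ^ 2)
    linarith

theorem lam_le_half {x : ℝ} (hx : 0 < x) {e : ℝ} (he : 0 < e) : lam x ≤ lam2 x e + e / 2 := by
  by_contra hcon
  push Not at hcon
  obtain ⟨r, hr⟩ : ∃ r, r = (lam x - lam2 x e) / e := ⟨_, rfl⟩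
  have h1 : 1 / 2 < r := by
    rw [hr, lt_div_iff₀ he]
    linarith
  obtain ⟨w, hw1, hw2⟩ := (ma_bounds hx he (η := (r - 1 / 2) / 2) (by linarith)).exists
  rw [← hr] at hw1 hw2
  linarith

/-- the mean area if the pressure is differentiable -/
theorem ma_half {x : ℝ} (hx : 0 < x) {d : ℝ} (h : HasDerivAt (lam2 x) d 0) :
    d = -(1 / 2) ∧ Tendsto (fun w : ℕ => ma x w / (w : ℝ) ^ 2) atTop (𝓝 (1 / 2)) := by
  have hd : d = -(1 / 2) := by
    have h1 : HasDerivAt (fun e => lam2 x (-e)) (-d) 0 := by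
      have h0 : HasDerivAt (lam2 x) d (-(0 : ℝ)) := by rwa [neg_zero]
      have := HasDerivAt.comp (0 : ℝ) h0 (hasDerivAt_neg (0 : ℝ))
      rw [mul_neg, mul_one] at this
      exact this
    have h2 : HasDerivAt (fun e => lam2 x (-e)) (d + 1) 0 := by
      have h3 := h.add (hasDerivAt_id (0 : ℝ))
      refine h3.congr_of_eventuallyEq ?_
      filter_upwards with e
      exact dual hx e
    have := h1.unique h2
    linarith
  refine ⟨hd, ?_⟩
  -- the quotients converge
  have h1 : Tendsto (fun e : ℝ => (lam x - lam2 x e) / e) (𝓝[>] 0) (𝓝 (1 / 2)) := by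
    have h2 := (hasDerivAt_iff_tendsto_slope.1 h).mono_left
      (nhdsWithin_mono (0 : ℝ) (fun y (hy : y ∈ Set.Ioi (0 : ℝ)) =>
        (ne_of_gt hy : y ≠ 0)))
    have h4 := h2.neg
    rw [hd, neg_neg] at h4
    refine h4.congr' ?_
    filter_upwards [self_mem_nhdsWithin] with e he
    have he0 : (0 : ℝ) < e := he
    rw [slope_def_field, lam2_zero hx, sub_zero, ← neg_div]
    congr 1
    ring
  rw [Metric.tendsto_atTop]
  intro η hη
  have h2 := h1.eventually (Metric.ball_mem_nhds (1 / 2 : ℝ) (half_pos hη))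
  obtain ⟨e, he1, he2⟩ := (h2.and self_mem_nhdsWithin).exists
  have he0 : (0 : ℝ) < e := he2
  rw [Real.dist_eq, abs_lt] at he1
  obtain ⟨N, hN⟩ := eventually_atTop.1 (ma_bounds hx he0 (half_pos hη))
  refine ⟨N, fun w hw => ?_⟩
  obtain ⟨h3, h4⟩ := hN w hw
  rw [Real.dist_eq, abs_lt]
  constructor <;> linarith [he1.1, he1.2]

end Pool.Agent.K6.H36.PJ
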