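import Pool.Agent.K6.H36.PJ.Dm6

/-!
The dense phase: convexity of the pressure; the pressure, the mean width and the mean area.
-/

set_option autoImplicit false

namespace Pool.Agent.K6.H36.PJ

open Pool.Agent.N223.PS Pool.Agent.N457.PS Filter Topology

theorem sq_block' : ∃ K : ℝ, 0 ≤ K ∧ ∀ m : ℕ, 2 ≤ m → ∃ w : ℕ, 1 ≤ w ∧ (w : ℝ) + 1 ≤ 5 * mW m ∧
    Zl 0 (2 * m) / 2 ≤ Bn w w (2 * m) ∧ 2 * m * Real.log H981.mu - K * Real.log m ^ 2 ≤
      Real.log (Bn w w (2 * m)) - (9 + 4 * Real.log (2 * m) + 4 * Real.log ((w : ℝ) + 1)) := by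
  obtain ⟨K, hK, h⟩ := counts
  have hmu : 0 < H981.mu := H981.mu_pos
  have hL2 : (0 : ℝ) < Real.log 2 := Real.log_pos (by norm_num)
  refine ⟨K + 30 / Real.log 2 ^ 2 + 8 / Real.log 2, by positivity, fun m hm => ?_⟩
  have hW1 := mW_ge_one hm
  have hWm := mW_le (by omega : 1 ≤ m)
  have hmr : (2 : ℝ) ≤ m := by exact_mod_cast hm
  have hm0 : (0 : ℝ) < m := by linarith
  obtain ⟨w, hw⟩ : ∃ w, w = ⌊4 * mW m⌋₊ := ⟨_, rfl⟩
  have hw1 : (w : ℝ) ≤ 4 * mW m := by rw [hw]; exact Nat.floor_le (by linarith)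
  have hw2 : 4 * mW m ≤ (w : ℝ) + 1 := by rw [hw]; exact (Nat.lt_floor_add_one _).le
  have hw3 : 1 ≤ w := by
    rw [hw]
    exact Nat.le_floor (by push_cast; linarith)
  have hB := sq_half (by omega : 1 ≤ m) hw2
  have hZ := Zl_pos 0 (by omega : 1 ≤ m)
  refine ⟨w, hw3, by linarith, hB, ?_⟩
  have h1 := (h m hm).1
  rw [← Zl_zero] at h1
  have h2 : H981.mu ^ (2 * m) * Real.exp (-(K * Real.log m ^ 2)) / 2 ≤ Bn w w (2 * m) := by
    linarith
  have h3 := Real.log_le_log (by positivity) h2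
  rw [Real.log_div (by positivity) (by norm_num), Real.log_mul (by positivity)
    (Real.exp_pos _).ne', Real.log_exp, Real.log_pow] at h3
  have hln : Real.log 2 ≤ Real.log m := Real.log_le_log (by norm_num) hmr
  have hl2 : Real.log 2 ≤ 1 := by
    have := Real.log_two_lt_d9
    linarith
  have h4 : Real.log (2 * m) ≤ 1 + Real.log m := by
    rw [Real.log_mul (by norm_num) hm0.ne']
    linarith
  have h5 : Real.log ((w : ℝ) + 1) ≤ 3 + Real.log m := by
    have h6 : (w : ℝ) + 1 ≤ 8 * m := by linarith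
    have h7 := Real.log_le_log (by positivity) h6
    rw [Real.log_mul (by norm_num) hm0.ne'] at h7
    have : Real.log 8 = 3 * Real.log 2 := by
      have : (8 : ℝ) = 2 ^ 3 := by norm_num
      rw [this, Real.log_pow]
      push_cast
      rfl
    linarith
  have h6 : 30 ≤ 30 / Real.log 2 ^ 2 * Real.log m ^ 2 := by
    rw [div_mul_eq_mul_div, le_div_iff₀ (by positivity)]
    have := pow_le_pow_left₀ hL2.le hln 2
    linarith
  have h7 : 8 * Real.log m ≤ 8 / Real.log 2 * Real.log m ^ 2 := by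
    rw [div_mul_eq_mul_div, le_div_iff₀ hL2]
    nlinarith
  push_cast at h3
  linarith


open scoped Classical in
/-- Jensen's inequality in a box -/
theorem Bw_jensen (e : ℝ) {w L : ℕ} (hB : 0 < Bn w w L) :
    Bn w w L * Real.exp (-(e * ((∑ f ∈ (LF L).filter (fun f => Nr (w : ℤ) f ∧ Lw (w : ℤ) f),
      (area L f : ℝ)) / Bn w w L))) ≤ Bw e w w L := by
  obtain ⟨S, hS⟩ : ∃ S : ℝ, S = ∑ f ∈ (LF L).filter (fun f => Nr (w : ℤ) f ∧ Lw (w : ℤ) f),
    (area L f : ℝ) := ⟨_, rfl⟩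
  obtain ⟨a, ha⟩ : ∃ a, a = S / Bn w w L := ⟨_, rfl⟩
  have hSa : S = a * Bn w w L := by
    rw [ha, div_mul_cancel₀ _ hB.ne']
  rw [← hS, ← ha]
  have e1 : Bn w w L =
      ∑ f ∈ (LF L).filter (fun f => Nr (w : ℤ) f ∧ Lw (w : ℤ) f), (1 : ℝ) := by
    unfold Bn
    rw [Finset.sum_filter]
  have h1 : Real.exp (-(e * a)) * (Bn w w L + e * a * Bn w w L - e * S) ≤ Bw e w w L := by
    rw [hS, e1, Bw_filter, Finset.mul_sum, Finset.mul_sum, ← Finset.sum_add_distrib,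
      ← Finset.sum_sub_distrib, Finset.mul_sum]
    refine Finset.sum_le_sum fun f _ => ?_
    have h2 := Real.add_one_le_exp (-(e * (area L f - a)))
    have h3 := mul_le_mul_of_nonneg_left h2 (Real.exp_pos (-(e * a))).le
    rw [← Real.exp_add] at h3
    calc _ = Real.exp (-(e * a)) * (-(e * (area L f - a)) + 1) := by ring
      _ ≤ _ := h3
      _ = _ := by congr 1; ring
  refine le_trans (le_of_eq ?_) h1
  rw [hSa]
  ring

/-- the pressure, the mean width and the mean area -/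
theorem lam2_ge_width : ∃ K : ℝ, 0 < K ∧ ∀ m : ℕ, 2 ≤ m → ∀ x e : ℝ, 0 < x → 0 ≤ e →
    (2 * m * Real.log (H981.mu * x) - 2 * e * (mA m + 1) - K * Real.log m ^ 2) /
      (25 * mW m ^ 2) ≤ lam2 x e := by
  classical
  obtain ⟨K, hK, h⟩ := sq_block'
  have hmu : 0 < H981.mu := H981.mu_pos
  refine ⟨K + 1, by linarith, fun m hm x e hx he => ?_⟩
  obtain ⟨w, hw1, hw2, hB0, h1⟩ := h m hm
  have hZ := Zl_pos 0 (by omega : 1 ≤ m)
  have hB : 0 < Bn w w (2 * m) := by linarith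
  have hW1 := mW_ge_one hm
  have hBw : 0 < Bw e w w (2 * m) := Bw_pos_of_Bn hB
  have h2 := lam2_ge hx e hw1 hm hBw
  obtain ⟨S, hS⟩ : ∃ S : ℝ, S = ∑ f ∈ (LF (2 * m)).filter (fun f => Nr (w : ℤ) f ∧ Lw (w : ℤ) f),
    (area (2 * m) f : ℝ) := ⟨_, rfl⟩
  have hS1 : S ≤ mA m * Zl 0 (2 * m) := by
    unfold mA
    rw [div_mul_cancel₀ _ hZ.ne', hS]
    exact Finset.sum_le_sum_of_subset_of_nonneg (Finset.filter_subset _ _)
      (fun _ _ _ => Nat.cast_nonneg _)
  have hmA : 1 ≤ mA m := mA_ge_one hm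
  have hS2 : S / Bn w w (2 * m) ≤ 2 * mA m := by
    rw [div_le_iff₀ hB]
    refine hS1.trans ?_
    have := mul_le_mul_of_nonneg_left hB0 (by linarith : 0 ≤ 2 * mA m)
    linarith
  have h3 : Real.log (Bn w w (2 * m)) - 2 * e * mA m ≤ Real.log (Bw e w w (2 * m)) := by
    have h4 := Real.log_le_log (by positivity) (Bw_jensen e hB)
    rw [Real.log_mul hB.ne' (Real.exp_pos _).ne', Real.log_exp, ← hS] at h4
    have h5 := mul_le_mul_of_nonneg_left hS2 he
    linarith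
  rcases le_or_gt (2 * m * Real.log (H981.mu * x) - 2 * e * (mA m + 1) -
    (K + 1) * Real.log m ^ 2) 0 with h4 | h4
  · exact (div_nonpos_of_nonpos_of_nonneg h4 (by positivity)).trans (lam2_nonneg hx e)
  · refine le_trans ?_ h2
    have h5 : ((w : ℝ) + 1) ^ 2 ≤ 25 * mW m ^ 2 := by
      have := pow_le_pow_left₀ (by positivity) hw2 2
      linarith [this, mul_pow 5 (mW m) 2]
    have h6 : 2 * m * Real.log (H981.mu * x) - 2 * e * (mA m + 1) - (K + 1) * Real.log m ^ 2 ≤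
        Real.log (Bw e w w (2 * m)) + 2 * m * Real.log x -
          (9 + 2 * |e| + 4 * Real.log (2 * m) + 4 * Real.log ((w : ℝ) + 1)) := by
      rw [Real.log_mul hmu.ne' hx.ne', abs_of_nonneg he]
      have := sq_nonneg (Real.log m)
      linarith
    exact div_le_div₀ (h4.le.trans h6) h6 (by positivity) h5

/-! ### convexity -/

theorem Bw_holder (w v : ℤ) (L : ℕ) (ε δ : ℝ) {t s : ℝ} (ht : 0 < t) (hs : 0 < s)
    (hts : t + s = 1) : Bw (t * ε + s * δ) w v L ≤ Bw ε w v L ^ t * Bw δ w v L ^ s := by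
  classical
  have hpq : (1 / t).HolderConjugate (1 / s) := by
    rw [Real.holderConjugate_iff]
    constructor
    · rw [one_lt_div ht]; linarith
    · rw [one_div, one_div, inv_inv, inv_inv]; exact hts
  obtain ⟨F, hF⟩ : ∃ F, F = (LF L).filter (fun f => Nr w f ∧ Lw v f) := ⟨_, rfl⟩
  have h := Real.inner_le_Lp_mul_Lq_of_nonneg F
    (f := fun f => Real.exp (-(ε * area L f)) ^ t) (g := fun f => Real.exp (-(δ * area L f)) ^ s)
    hpq (fun _ _ => by positivity) (fun _ _ => by positivity)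
  have e1 : ∀ f : ZMod L → ℤ × ℤ, (Real.exp (-(ε * area L f)) ^ t) ^ (1 / t) =
      Real.exp (-(ε * area L f)) := by
    intro f
    rw [← Real.rpow_mul (Real.exp_pos _).le, mul_one_div_cancel ht.ne', Real.rpow_one]
  have e2 : ∀ f : ZMod L → ℤ × ℤ, (Real.exp (-(δ * area L f)) ^ s) ^ (1 / s) =
      Real.exp (-(δ * area L f)) := by
    intro f
    rw [← Real.rpow_mul (Real.exp_pos _).le, mul_one_div_cancel hs.ne', Real.rpow_one]
  simp only [e1, e2, one_div_one_div] at h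
  have e3 : ∀ e : ℝ, Bw e w v L = ∑ f ∈ F, Real.exp (-(e * area L f)) := by
    intro e
    unfold Bw ex
    rw [hF, Finset.sum_filter]
  rw [e3, e3, e3]
  refine le_trans (le_of_eq ?_) h
  refine Finset.sum_congr rfl fun f _ => ?_
  rw [← Real.exp_mul, ← Real.exp_mul, ← Real.exp_add]
  congr 1
  ring

theorem Zw_holder {x y : ℝ} (hx : 0 < x) (hy : 0 < y) (w : ℕ) (ε δ : ℝ) {t s : ℝ} (ht : 0 < t)
    (hs : 0 < s) (hts : t + s = 1) :
    Zw (x ^ t * y ^ s) (t * ε + s * δ) w ≤ Zw x ε w ^ t * Zw y δ w ^ s := by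
  have hpq : (1 / t).HolderConjugate (1 / s) := by
    rw [Real.holderConjugate_iff]
    constructor
    · rw [one_lt_div ht]; linarith
    · rw [one_div, one_div, inv_inv, inv_inv]; exact hts
  have h := Real.inner_le_Lp_mul_Lq_of_nonneg (Finset.Icc 2 ((w + 1) ^ 2))
    (f := fun n : ℕ => (Bw ε w w (2 * n) / (4 * n) * x ^ (2 * n)) ^ t)
    (g := fun n : ℕ => (Bw δ w w (2 * n) / (4 * n) * y ^ (2 * n)) ^ s)
    hpq (fun n _ => Real.rpow_nonneg (wterm_nonneg hx ε w n) _)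
    (fun n _ => Real.rpow_nonneg (wterm_nonneg hy δ w n) _)
  have e1 : ∀ n : ℕ, ((Bw ε w w (2 * n) / (4 * n) * x ^ (2 * n)) ^ t) ^ (1 / t) =
      Bw ε w w (2 * n) / (4 * n) * x ^ (2 * n) := by
    intro n
    rw [← Real.rpow_mul (wterm_nonneg hx ε w n), mul_one_div_cancel ht.ne', Real.rpow_one]
  have e2 : ∀ n : ℕ, ((Bw δ w w (2 * n) / (4 * n) * y ^ (2 * n)) ^ s) ^ (1 / s) =
      Bw δ w w (2 * n) / (4 * n) * y ^ (2 * n) := by
    intro n
    rw [← Real.rpow_mul (wterm_nonneg hy δ w n), mul_one_div_cancel hs.ne', Real.rpow_one]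
  simp only [e1, e2, one_div_one_div] at h
  refine le_trans ?_ h
  unfold Zw
  refine Finset.sum_le_sum fun n hn => ?_
  rw [Finset.mem_Icc] at hn
  have hn0 : (0 : ℝ) < 4 * n := by
    have : (0 : ℝ) < n := by exact_mod_cast (by omega : 0 < n)
    positivity
  have h1 := Bw_nonneg ε w w (2 * n)
  have h2 := Bw_nonneg δ w w (2 * n)
  have h3 := Bw_holder w w (2 * n) ε δ ht hs hts
  rw [Real.mul_rpow (by positivity) (by positivity), Real.mul_rpow (by positivity) (by positivity),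
    Real.div_rpow h1 hn0.le, Real.div_rpow h2 hn0.le]
  have e3 : (4 * (n : ℝ)) ^ t * (4 * (n : ℝ)) ^ s = 4 * n := by
    rw [← Real.rpow_add hn0, hts, Real.rpow_one]
  have e4 : (x ^ t * y ^ s) ^ (2 * n) = (x ^ (2 * n)) ^ t * (y ^ (2 * n)) ^ s := by
    rw [mul_pow, ← Real.rpow_natCast, ← Real.rpow_natCast, ← Real.rpow_natCast x,
      ← Real.rpow_natCast y, ← Real.rpow_mul hx.le, ← Real.rpow_mul hy.le, ← Real.rpow_mul hx.le,
      ← Real.rpow_mul hy.le, mul_comm t, mul_comm s]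
  have e5 : Bw ε w w (2 * n) ^ t / (4 * (n : ℝ)) ^ t * (x ^ (2 * n)) ^ t *
      (Bw δ w w (2 * n) ^ s / (4 * (n : ℝ)) ^ s * (y ^ (2 * n)) ^ s) =
      Bw ε w w (2 * n) ^ t * Bw δ w w (2 * n) ^ s / ((4 * (n : ℝ)) ^ t * (4 * (n : ℝ)) ^ s) *
        ((x ^ (2 * n)) ^ t * (y ^ (2 * n)) ^ s) := by
    have a1 : 0 < (4 * (n : ℝ)) ^ t := Real.rpow_pos_of_pos hn0 _
    have a2 : 0 < (4 * (n : ℝ)) ^ s := Real.rpow_pos_of_pos hn0 _
    field_simp
  rw [e5, e3, e4]
  apply mul_le_mul_of_nonneg_right _ (by positivity)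
  exact div_le_div_of_nonneg_right h3 hn0.le

theorem lam2_convex {x y : ℝ} (hx : 0 < x) (hy : 0 < y) (ε δ : ℝ) {t s : ℝ} (ht : 0 < t)
    (hs : 0 < s) (hts : t + s = 1) :
    lam2 (x ^ t * y ^ s) (t * ε + s * δ) ≤ t * lam2 x ε + s * lam2 y δ := by
  have hxy : 0 < x ^ t * y ^ s := mul_pos (Real.rpow_pos_of_pos hx _) (Real.rpow_pos_of_pos hy _)
  refine le_of_tendsto_of_tendsto (lam2_tendsto hxy _)
    (((lam2_tendsto hx ε).const_mul t).add ((lam2_tendsto hy δ).const_mul s)) ?_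
  filter_upwards [eventually_ge_atTop 1] with w hw
  have hw0 : (0 : ℝ) < w := by exact_mod_cast hw
  have h1 := Zw_pos hx ε hw
  have h2 := Zw_pos hy δ hw
  have h3 := Real.log_le_log (Zw_pos hxy _ hw) (Zw_holder hx hy w ε δ ht hs hts)
  rw [Real.log_mul (Real.rpow_pos_of_pos h1 _).ne' (Real.rpow_pos_of_pos h2 _).ne',
    Real.log_rpow h1, Real.log_rpow h2] at h3
  have h4 := div_le_div_of_nonneg_right h3 (by positivity : (0 : ℝ) ≤ (w : ℝ) ^ 2)
  refine h4.trans (le_of_eq ?_)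
  ring

end Pool.Agent.K6.H36.PJ
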