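import Pool.Agent.K6.H36.PJ.Dm7

/-!
Joins of loops in a box, with a bound for the area.
-/

set_option autoImplicit false

namespace Pool.Agent.K6.H36.PJ

open Pool.Agent.N223.PS Pool.Agent.N457.PS Filter Topology

open scoped Classical in
/-- the number of the loops of the class `(a, b)` of height at most `h` -/
noncomputable def Vr (r : ℝ) (k h a b : ℤ) (L : ℕ) : ℝ :=
  ∑ f ∈ TF L, if (Pl k a b f ∧ Lw h f) ∧ (area L f : ℝ) ≤ r then (1 : ℝ) else 0

open scoped Classical in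
/-- all the rooted loops of the class `(a, b)` of height at most `h` -/
noncomputable def Ur (r : ℝ) (k h a b : ℤ) (L : ℕ) : ℝ :=
  ∑ f ∈ LF L, if (Pl k a b f ∧ Lw h f) ∧ (area L f : ℝ) ≤ r then (1 : ℝ) else 0

open scoped Classical in
/-- the number of the rooted loops of width at most `w` and height at most `h` -/
noncomputable def Br (r : ℝ) (w h : ℤ) (L : ℕ) : ℝ :=
  ∑ f ∈ LF L, if (Nr w f ∧ Lw h f) ∧ (area L f : ℝ) ≤ r then (1 : ℝ) else 0

theorem Vr_nonneg (r : ℝ) (k h a b : ℤ) (L : ℕ) : 0 ≤ Vr r k h a b L := by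
  unfold Vr
  exact Finset.sum_nonneg fun f _ => by split_ifs <;> norm_num

theorem Br_nonneg (r : ℝ) (w h : ℤ) (L : ℕ) : 0 ≤ Br r w h L := by
  unfold Br
  exact Finset.sum_nonneg fun f _ => by split_ifs <;> norm_num

theorem Vr_mul (r r' : ℝ) (k h h' a b c : ℤ) {M N : ℕ} (hM : 2 ≤ M) (hN : 2 ≤ N) :
    Vr r' k h' c b M * Vr r k h a b N ≤ 2 * Vr (r + r' + 1) k (h + h' + 1) a c (M + N) := by
  classical
  have iM : NeZero M := ⟨by omega⟩
  have hinv : Inv (fun f : ZMod (M + N) → ℤ × ℤ =>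
      if (Pl k a c f ∧ Lw (h + h' + 1) f) ∧ (area (M + N) f : ℝ) ≤ r + r' + 1 then (1 : ℝ) else 0) := by
    refine ⟨fun f => ?_, fun f s hf => ?_, fun f hf => ?_⟩
    · split_ifs <;> norm_num
    · simp only [pl_rot hf s, lw_rot, area_rot]
    · simp only [pl_rev, lw_rev, area_rev hf]
  have hj := join_le hM hN hinv
  refine le_trans ?_ hj
  rw [sum_BF (by omega)]
  unfold Vr
  rw [Finset.sum_mul_sum]
  refine Finset.sum_le_sum fun g hg => Finset.sum_le_sum fun f hf => ?_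
  have hg' := (mem_TF (by omega)).1 hg
  have hf' := (mem_TF (by omega)).1 hf
  by_cases h1 : (Pl k c b g ∧ Lw h' g) ∧ (area M g : ℝ) ≤ r'
  · by_cases h2 : (Pl k a b f ∧ Lw h f) ∧ (area N f : ℝ) ≤ r
    · have h3 : Pl k b c (flp (rev g)) := pl_flp.2 (pl_rev.2 h1.1.1)
      have h4 : Lw h' (flp (rev g)) := (lw_flp _).2 ((lw_rev _).2 h1.1.2)
      have h5 : (area (M + N) (join M N (flp (rev g)) f) : ℝ) ≤ r + r' + 1 := by
        rw [join_area hg'.bot hf' hM hN, area_flp (rev_loop hg'.loop), area_rev hg'.loop]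
        push_cast
        linarith [h1.2, h2.2]
      rw [if_pos h1, if_pos h2, if_pos ⟨⟨pl_join hg'.bot hf' hM hN h2.1.1 h3,
        lw_join hg'.bot hf' hM hN h2.1.2 h4⟩, h5⟩]
      norm_num
    · rw [if_neg h2]
      split_ifs <;> norm_num
  · rw [if_neg h1]
    split_ifs <;> norm_num

theorem Vr_le_Ur (r : ℝ) (k h a b : ℤ) {L : ℕ} (hL : 0 < L) : Vr r k h a b L ≤ Ur r k h a b L := by
  classical
  unfold Vr Ur
  exact Finset.sum_le_sum_of_subset_of_nonneg (TF_sub hL)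
    (fun _ _ _ => by split_ifs <;> norm_num)

theorem Ur_le_Vr (r : ℝ) (k h a b : ℤ) {L : ℕ} (hL : 3 ≤ L) : Ur r k h a b L ≤ 2 * L * Vr r k h a b L := by
  classical
  have : NeZero L := ⟨by omega⟩
  refine sum_loops_le hL ⟨fun f => ?_, fun f s hf => ?_, fun f hf => ?_⟩
  · split_ifs <;> norm_num
  · simp only [pl_rot hf s, lw_rot, area_rot]
  · simp only [pl_rev, lw_rev, area_rev hf]

theorem Ur_symm (r : ℝ) (k h a b : ℤ) {L : ℕ} (hL : 0 < L) :
    Ur r k h a b L = Ur r k h b a L := by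
  classical
  have : NeZero L := ⟨by omega⟩
  unfold Ur
  refine Finset.sum_bij' (fun f _ => flp f) (fun f _ => flp f) ?_ ?_ ?_ ?_ ?_
  · intro f hf
    exact (mem_LF hL).2 (flp_loop ((mem_LF hL).1 hf))
  · intro f hf
    exact (mem_LF hL).2 (flp_loop ((mem_LF hL).1 hf))
  · intro f _
    exact flp_flp f
  · intro f _
    exact flp_flp f
  · intro f hf
    simp only [pl_flp, lw_flp, area_flp ((mem_LF hL).1 hf)]

theorem Vr_symm_le (r : ℝ) (k h a b : ℤ) {L : ℕ} (hL : 3 ≤ L) :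
    Vr r k h a b L ≤ 2 * L * Vr r k h b a L := by
  refine (Vr_le_Ur r k h a b (by omega)).trans ?_
  rw [Ur_symm r k h a b (by omega)]
  exact Ur_le_Vr r k h b a hL

theorem Br_symm (r : ℝ) (w h : ℤ) {L : ℕ} (hL : 0 < L) : Br r w h L = Br r h w L := by
  classical
  have : NeZero L := ⟨by omega⟩
  unfold Br
  refine Finset.sum_bij' (fun f _ => swp f) (fun f _ => swp f) ?_ ?_ ?_ ?_ ?_
  · intro f hf
    exact (mem_LF hL).2 (swp_loop ((mem_LF hL).1 hf))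
  · intro f hf
    exact (mem_LF hL).2 (swp_loop ((mem_LF hL).1 hf))
  · intro f _
    exact swp_swp f
  · intro f _
    exact swp_swp f
  · intro f hf
    have e1 : (Nr w f ∧ Lw h f) ↔ (Nr h (swp f) ∧ Lw w (swp f)) := by
      unfold Nr Lw swp
      exact and_comm
    simp only [e1, area_swp ((mem_LF hL).1 hf)]

theorem Ur_le_Br (r : ℝ) (k h a b : ℤ) {L : ℕ} : Ur r k h a b L ≤ Br r k h L := by
  classical
  unfold Ur Br
  refine Finset.sum_le_sum fun f _ => ?_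
  by_cases H : (Pl k a b f ∧ Lw h f) ∧ (area L f : ℝ) ≤ r
  · rw [if_pos H, if_pos ⟨⟨pl_nr H.1.1, H.1.2⟩, H.2⟩]
  · rw [if_neg H]
    split_ifs <;> norm_num

theorem Br_le (r : ℝ) {k : ℕ} (h : ℤ) {L : ℕ} (hL : 0 < L) :
    Br r k h L ≤ ∑ ab ∈ Finset.Icc (0 : ℤ) k ×ˢ Finset.Icc (0 : ℤ) k, Ur r k h ab.1 ab.2 L := by
  classical
  have : NeZero L := ⟨by omega⟩
  unfold Ur Br
  rw [Finset.sum_comm]
  refine Finset.sum_le_sum fun f _ => ?_
  have hnn : ∀ ab ∈ Finset.Icc (0 : ℤ) k ×ˢ Finset.Icc (0 : ℤ) k,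
      0 ≤ (if (Pl k ab.1 ab.2 f ∧ Lw h f) ∧ (area L f : ℝ) ≤ r then (1 : ℝ) else 0) := by
    intro ab _
    split_ifs <;> norm_num
  by_cases H : (Nr (k : ℤ) f ∧ Lw h f) ∧ (area L f : ℝ) ≤ r
  · rw [if_pos H]
    obtain ⟨a, ha, b, hb, hab⟩ := wid_pl (nr_wid.1 H.1.1)
    have h1 := Finset.single_le_sum hnn (Finset.mem_product.2 ⟨ha, hb⟩ :
      ((a, b) : ℤ × ℤ) ∈ Finset.Icc (0 : ℤ) k ×ˢ Finset.Icc (0 : ℤ) k)
    simp only at h1
    rw [if_pos ⟨⟨hab, H.1.2⟩, H.2⟩] at h1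
    exact h1
  · rw [if_neg H]
    exact Finset.sum_nonneg hnn

/-- the most frequent class -/
theorem exists_class_r (r : ℝ) {k : ℕ} (h : ℤ) {L : ℕ} (hL : 3 ≤ L) :
    ∃ a b : ℤ, (0 ≤ a ∧ a ≤ k) ∧ (0 ≤ b ∧ b ≤ k) ∧
      Br r k h L ≤ 2 * L * ((k : ℝ) + 1) ^ 2 * Vr r k h a b L := by
  classical
  obtain ⟨ab, hab, hmax⟩ := Finset.exists_max_image
    (Finset.Icc (0 : ℤ) k ×ˢ Finset.Icc (0 : ℤ) k) (fun ab => Ur r k h ab.1 ab.2 L)
    ⟨(0, 0), Finset.mem_product.2 ⟨Finset.mem_Icc.2 ⟨le_rfl, by positivity⟩,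
      Finset.mem_Icc.2 ⟨le_rfl, by positivity⟩⟩⟩
  rw [Finset.mem_product, Finset.mem_Icc, Finset.mem_Icc] at hab
  refine ⟨ab.1, ab.2, hab.1, hab.2, (Br_le r h (by omega)).trans ?_⟩
  refine (Finset.sum_le_card_nsmul _ _ _ hmax).trans ?_
  rw [Finset.card_product, Int.card_Icc, nsmul_eq_mul]
  have e : ((k : ℤ) + 1 - 0).toNat = k + 1 := by omega
  rw [e]
  push_cast
  have h1 := mul_le_mul_of_nonneg_left (Ur_le_Vr r k h ab.1 ab.2 hL)
    (by positivity : (0 : ℝ) ≤ ((k : ℝ) + 1) * (k + 1))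
  refine h1.trans (le_of_eq ?_)
  ring

theorem Br_mono {r r' : ℝ} (hr : r ≤ r') {w w' h h' : ℤ} (hw : w ≤ w') (hh : h ≤ h') (L : ℕ) :
    Br r w h L ≤ Br r' w' h' L := by
  classical
  unfold Br
  refine Finset.sum_le_sum fun f _ => ?_
  by_cases H : (Nr w f ∧ Lw h f) ∧ (area L f : ℝ) ≤ r
  · rw [if_pos H, if_pos ⟨⟨fun i j => (H.1.1 i j).trans hw, fun i j => (H.1.2 i j).trans hh⟩,
      H.2.trans hr⟩]
  · rw [if_neg H]
    split_ifs <;> norm_num

theorem Br_le_Bn (r : ℝ) (w h : ℤ) (L : ℕ) : Br r w h L ≤ Bn w h L := by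
  classical
  unfold Br Bn
  refine Finset.sum_le_sum fun f _ => ?_
  by_cases H : (Nr w f ∧ Lw h f) ∧ (area L f : ℝ) ≤ r
  · rw [if_pos H, if_pos H.1]
  · rw [if_neg H]
    split_ifs <;> norm_num

/-- chains of loops of the same class -/
theorem rq_chain_even (r : ℝ) (k h a b : ℤ) {L : ℕ} (hL : 2 ≤ L) {t : ℕ} (ht : 1 ≤ t) :
    2 * (Vr r k h a b L / 2) ^ (2 * t) ≤
      Vr (2 * t * (r + 1) - 1) k (2 * t * (h + 1) - 1) a a (2 * t * L) := by
  have hv := Vr_nonneg r k h a b L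
  have base : 2 * (Vr r k h a b L / 2) ^ 2 ≤ Vr (2 * (r + 1) - 1) k (2 * (h + 1) - 1) a a (2 * L) := by
    have h1 := Vr_mul r r k h h a b a hL hL
    have e : h + h + 1 = 2 * (h + 1) - 1 := by ring
    have e' : r + r + 1 = 2 * (r + 1) - 1 := by ring
    rw [e, e', ← two_mul] at h1
    nlinarith
  induction t, ht using Nat.le_induction with
  | base =>
    have e1 : (2 : ℤ) * ((1 : ℕ) : ℤ) * (h + 1) - 1 = 2 * (h + 1) - 1 := by push_cast; ring
    have e2 : (2 : ℝ) * ((1 : ℕ) : ℝ) * (r + 1) - 1 = 2 * (r + 1) - 1 := by push_cast; ring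
    rw [mul_one, e1, e2]
    exact base
  | succ t ht ih =>
    have hM : 2 ≤ 2 * t * L := by nlinarith
    have h1 := Vr_mul (2 * (r + 1) - 1) (2 * t * (r + 1) - 1) k (2 * (h + 1) - 1)
      (2 * t * (h + 1) - 1) a a a hM (by omega : 2 ≤ 2 * L)
    have e : 2 * (h + 1) - 1 + (2 * t * (h + 1) - 1) + 1 = 2 * ((t + 1 : ℕ) : ℤ) * (h + 1) - 1 := by
      push_cast; ring
    have e' : 2 * (r + 1) - 1 + (2 * t * (r + 1) - 1) + 1 =
      2 * ((t + 1 : ℕ) : ℝ) * (r + 1) - 1 := by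
      push_cast; ring
    have e2 : 2 * t * L + 2 * L = 2 * (t + 1) * L := by ring
    rw [e, e', e2] at h1
    have h2 := mul_le_mul ih base (by positivity) (Vr_nonneg _ _ _ _ _ _)
    have e3 : 2 * (Vr r k h a b L / 2) ^ (2 * t) * (2 * (Vr r k h a b L / 2) ^ 2) =
        2 * (2 * (Vr r k h a b L / 2) ^ (2 * (t + 1))) := by ring
    rw [e3] at h2
    linarith

/-- the columns of the last vertices are positive -/
theorem pos_of_Vr {r : ℝ} {k h a b : ℤ} {L : ℕ} (hL : 3 ≤ L) (h1 : 0 < Vr r k h a b L) :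
    1 ≤ a ∧ 1 ≤ b := by
  classical
  have key : ∀ a b : ℤ, 0 < Vr r k h a b L → 1 ≤ b := by
    intro a b h1
    unfold Vr at h1
    obtain ⟨f, hf, h2⟩ := Finset.exists_ne_zero_of_sum_ne_zero h1.ne'
    have h3 : (Pl k a b f ∧ Lw h f) ∧ (area L f : ℝ) ≤ r := by
      by_contra hcon
      rw [if_neg hcon] at h2
      exact h2 rfl
    have hf' := (mem_TF (by omega)).1 hf
    obtain ⟨p, g1, -, j, g4, g5⟩ := h3.1.1
    have t1 := g4 0
    rw [hf'.loop.1] at t1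
    have t2 := hf'.hgt j
    have t3 := hf'.rgt j
    have t4 := g1 1
    rw [hf'.one] at t4
    simp only [Prod.fst_zero, Prod.snd_zero] at t1 t4
    omega
  refine ⟨?_, key a b h1⟩
  apply key b a
  have h2 := Vr_symm_le r k h a b hL
  have hL0 : (0 : ℝ) < L := by exact_mod_cast (by omega : 0 < L)
  by_contra hcon
  have h3 := mul_nonpos_of_nonneg_of_nonpos (by positivity : (0 : ℝ) ≤ 2 * L) (not_lt.1 hcon)
  linarith

end Pool.Agent.K6.H36.PJ
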