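import Pool.Agent.K6.H36.PJ.Dm8

/-!
Connectors; squares with two kinds of loops.
-/

set_option autoImplicit false

namespace Pool.Agent.K6.H36.PJ

open Pool.Agent.N223.PS Pool.Agent.N457.PS Filter Topology

/-! ### connectors -/

/-- the boundary of a bar of length `p` and of a bar of length `p + d` above it, as a path -/
def cn (p d : ℕ) (k : ℕ) : ℤ × ℤ :=
  if k ≤ 1 then (0, (k : ℤ))
  else if k ≤ d + 1 then ((k : ℤ) - 1, 1)
  else if k ≤ d + 2 then ((d : ℤ), (k : ℤ) - d)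
  else if k ≤ 2 * d + p + 2 then (2 * (d : ℤ) + 2 - k, 2)
  else if k ≤ 2 * d + p + 4 then (-(p : ℤ), 2 * (d : ℤ) + p + 4 - k)
  else ((k : ℤ) - (2 * d + 2 * p + 4), 0)

theorem cn_cl {p d : ℕ} (hp : 1 ≤ p) : Cl (2 * (d + p + 2)) (cn p d) := by
  refine ⟨by omega, ?_, ?_, ?_⟩
  · intro i hi
    apply nb_of
    unfold cn
    split_ifs <;> dsimp only <;> omega
  · intro i hi j hj hij
    unfold cn at hij
    split_ifs at hij <;> rw [Prod.mk.injEq] at hij <;> omega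
  · unfold cn
    split_ifs <;> rw [Prod.mk.injEq] <;> omega

/-- the connector -/
def cnl (p d : ℕ) : ZMod (2 * (d + p + 2)) → ℤ × ℤ := tol (2 * (d + p + 2)) (cn p d)

theorem cnl_loop {p d : ℕ} (hp : 1 ≤ p) : IsLoop (2 * (d + p + 2)) (cnl p d) :=
  tol_loop (cn_cl hp) (by
    unfold cn
    rw [if_pos (by omega)]
    rfl)

theorem cnl_cast {p d : ℕ} (hp : 1 ≤ p) {k : ℕ} (hk : k ≤ 2 * (d + p + 2)) :
    cnl p d (k : ZMod (2 * (d + p + 2))) = cn p d k :=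
  tol_cast_le (cn_cl hp).clo (by omega) hk

theorem cnl_pl {p d : ℕ} (hp : 1 ≤ p) {k : ℤ} (hk : (p : ℤ) + d ≤ k) :
    Pl k p ((p : ℤ) + d) (cnl p d) ∧ Lw 2 (cnl p d) := by
  have key : ∀ i, (-(p : ℤ) ≤ (cnl p d i).1 ∧ (cnl p d i).1 ≤ d) ∧
      (0 ≤ (cnl p d i).2 ∧ (cnl p d i).2 ≤ 2) ∧ ((cnl p d i).2 = 0 → (cnl p d i).1 ≤ 0) := by
    intro i
    obtain ⟨j, hj, rfl⟩ := exists_cast (by omega) i
    rw [cnl_cast hp hj.le]
    unfold cn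
    split_ifs <;> dsimp only <;> omega
  constructor
  · refine ⟨p, fun i => ?_, ⟨((0 : ℕ) : ZMod (2 * (d + p + 2))), ?_, ?_⟩,
      ((d + 2 : ℕ) : ZMod (2 * (d + p + 2))), ?_, ?_⟩
    · have := key i
      constructor <;> omega
    · intro j
      have := key j
      rw [cnl_cast hp (by omega)]
      unfold cn
      rw [if_pos (by omega)]
      simp only [Nat.cast_zero]
      omega
    · rw [cnl_cast hp (by omega)]
      unfold cn
      rw [if_pos (by omega)]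
      simp
    · intro j
      have := key j
      rw [cnl_cast hp (by omega)]
      unfold cn
      rw [if_neg (by omega), if_neg (by omega), if_pos (by omega)]
      simp only
      push_cast
      omega
    · rw [cnl_cast hp (by omega)]
      unfold cn
      rw [if_neg (by omega), if_neg (by omega), if_pos (by omega)]
  · intro i j
    have h1 := key i
    have h2 := key j
    omega

theorem conn_le {k : ℕ} {a b : ℤ} (ha : 1 ≤ a) (hab : a ≤ b) (hb : b ≤ k) :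
    ∃ n : ℕ, 2 ≤ n ∧ n ≤ k + 2 ∧ 1 ≤ Ur (2 * k) k 2 a b (2 * n) := by
  classical
  obtain ⟨p, hp⟩ : ∃ p : ℕ, (p : ℤ) = a := ⟨a.toNat, by omega⟩
  obtain ⟨d, hd⟩ : ∃ d : ℕ, (p : ℤ) + d = b := ⟨(b - a).toNat, by omega⟩
  have hp1 : 1 ≤ p := by omega
  obtain ⟨h1, h2⟩ := cnl_pl hp1 (d := d) (k := k) (by omega)
  have hl := cnl_loop (d := d) hp1
  rw [hd, hp] at h1
  have : NeZero (2 * (d + p + 2)) := ⟨by omega⟩
  have h3 : (area (2 * (d + p + 2)) (cnl p d) : ℝ) ≤ 2 * k := by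
    have h4 : area (2 * (d + p + 2)) (cnl p d) ≤ k * 2 := area_le_box hl (pl_nr h1) h2
    have : (area (2 * (d + p + 2)) (cnl p d) : ℝ) ≤ ((k * 2 : ℕ) : ℝ) := by exact_mod_cast h4
    push_cast at this
    linarith
  refine ⟨d + p + 2, by omega, by omega, ?_⟩
  unfold Ur
  have h5 : (1 : ℝ) = if (Pl (k : ℤ) a b (cnl p d) ∧ Lw 2 (cnl p d)) ∧
      (area (2 * (d + p + 2)) (cnl p d) : ℝ) ≤ 2 * k then (1 : ℝ) else 0 := by
    rw [if_pos ⟨⟨h1, h2⟩, h3⟩]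
  refine le_trans (le_of_eq h5) ?_
  exact Finset.single_le_sum (f := fun f : ZMod (2 * (d + p + 2)) → ℤ × ℤ =>
      if (Pl (k : ℤ) a b f ∧ Lw 2 f) ∧ (area (2 * (d + p + 2)) f : ℝ) ≤ 2 * k then (1 : ℝ) else 0)
    (fun f _ => by
      split_ifs <;> norm_num) ((mem_LF (by omega)).2 hl)

/-- connectors -/
theorem conn {k : ℕ} {a b : ℤ} (ha : 1 ≤ a) (ha' : a ≤ k) (hb : 1 ≤ b) (hb' : b ≤ k) :
    ∃ n : ℕ, 2 ≤ n ∧ n ≤ k + 2 ∧ 1 / (4 * ((k : ℝ) + 2)) ≤ Vr (2 * k) k 2 a b (2 * n) := by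
  obtain ⟨n, h1, h2, h3⟩ : ∃ n : ℕ, 2 ≤ n ∧ n ≤ k + 2 ∧ 1 ≤ Ur (2 * k) k 2 a b (2 * n) := by
    rcases le_total a b with h | h
    · exact conn_le ha h hb'
    · obtain ⟨n, h1, h2, h3⟩ := conn_le hb h ha'
      refine ⟨n, h1, h2, ?_⟩
      rw [Ur_symm _ _ _ _ _ (by omega)]
      exact h3
  refine ⟨n, h1, h2, ?_⟩
  have h4 := Ur_le_Vr (2 * k) k 2 a b (L := 2 * n) (by omega)
  have h5 : (n : ℝ) ≤ k + 2 := by exact_mod_cast h2
  have h6 := Vr_nonneg (2 * k) k 2 a b (2 * n)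
  rw [div_le_iff₀ (by positivity)]
  push_cast at h4
  have h7 := mul_le_mul_of_nonneg_left h5 h6
  linarith

/-! ### columns with two kinds of loops -/

theorem column {w : ℕ} {r1 r2 : ℝ} {n1 n2 s1 s2 : ℕ} (hn1 : 2 ≤ n1) (hn2 : 2 ≤ n2) (h1 : 1 ≤ s1)
    (h2 : 1 ≤ s2) (hB1 : 0 < Br r1 w w (2 * n1)) (hB2 : 0 < Br r2 w w (2 * n2)) :
    ∃ nc : ℕ, nc ≤ w + 2 ∧
      (Br r1 w w (2 * n1) / (8 * n1 * ((w : ℝ) + 1) ^ 2)) ^ (2 * s1) *
        (Br r2 w w (2 * n2) / (8 * n2 * ((w : ℝ) + 1) ^ 2)) ^ (2 * s2) / (8 * ((w : ℝ) + 2)) ≤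
      Br (2 * s1 * (r1 + 1) + 2 * s2 * (r2 + 1) + 2 * w) w (2 * (s1 + s2) * (w + 1) + 2 : ℕ)
        (2 * (2 * s1 * n1 + 2 * s2 * n2 + nc)) := by
  have hn10 : (0 : ℝ) < n1 := by exact_mod_cast (by omega : 0 < n1)
  have hn20 : (0 : ℝ) < n2 := by exact_mod_cast (by omega : 0 < n2)
  obtain ⟨a1, b1, ha1, hb1, c1⟩ := exists_class_r r1 (k := w) w (L := 2 * n1) (by omega)
  obtain ⟨a2, b2, ha2, hb2, c2⟩ := exists_class_r r2 (k := w) w (L := 2 * n2) (by omega)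
  have v1 : 0 < Vr r1 w w a1 b1 (2 * n1) := by
    by_contra hcon
    have := mul_nonpos_of_nonneg_of_nonpos
      (by positivity : (0 : ℝ) ≤ 2 * ((2 * n1 : ℕ) : ℝ) * ((w : ℝ) + 1) ^ 2) (not_lt.1 hcon)
    linarith
  have v2 : 0 < Vr r2 w w a2 b2 (2 * n2) := by
    by_contra hcon
    have := mul_nonpos_of_nonneg_of_nonpos
      (by positivity : (0 : ℝ) ≤ 2 * ((2 * n2 : ℕ) : ℝ) * ((w : ℝ) + 1) ^ 2) (not_lt.1 hcon)
    linarith
  have p1 := pos_of_Vr (by omega) v1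
  have p2 := pos_of_Vr (by omega) v2
  obtain ⟨nc, hc1, hc2, hc3⟩ := conn (k := w) p2.1 ha2.2 p1.1 ha1.2
  refine ⟨nc, hc2, ?_⟩
  have X := rq_chain_even r1 w w a1 b1 (L := 2 * n1) (by omega) h1
  have Y := rq_chain_even r2 w w a2 b2 (L := 2 * n2) (by omega) h2
  have q1 : 2 ≤ 2 * s1 * (2 * n1) := by nlinarith
  have q2 : 2 ≤ 2 * s2 * (2 * n2) := by nlinarith
  have J1 := Vr_mul (2 * s1 * (r1 + 1) - 1) (2 * w) w (2 * s1 * (w + 1) - 1) 2 a1 a1 a2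
    (M := 2 * nc) (N := 2 * s1 * (2 * n1)) (by omega) q1
  have J2 := Vr_mul (2 * s1 * (r1 + 1) - 1 + 2 * w + 1) (2 * s2 * (r2 + 1) - 1) w
    (2 * s1 * (w + 1) - 1 + 2 + 1) (2 * s2 * (w + 1) - 1) a1 a2 a2
    (M := 2 * s2 * (2 * n2)) (N := 2 * nc + 2 * s1 * (2 * n1)) q2 (by omega)
  obtain ⟨P1, hP1⟩ : ∃ P1, P1 = (Vr r1 w w a1 b1 (2 * n1) / 2) ^ (2 * s1) := ⟨_, rfl⟩
  obtain ⟨P2, hP2⟩ : ∃ P2, P2 = (Vr r2 w w a2 b2 (2 * n2) / 2) ^ (2 * s2) := ⟨_, rfl⟩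
  have hP10 : 0 < P1 := by rw [hP1]; positivity
  have hP20 : 0 < P2 := by rw [hP2]; positivity
  rw [← hP1] at X
  rw [← hP2] at Y
  obtain ⟨V12, hV12⟩ : ∃ V, V = Vr (2 * s1 * (r1 + 1) - 1 + 2 * w + 1) w
    (2 * s1 * (w + 1) - 1 + 2 + 1) a1 a2 (2 * nc + 2 * s1 * (2 * n1)) := ⟨_, rfl⟩
  rw [← hV12] at J1 J2
  obtain ⟨c, hc⟩ : ∃ c, c = 1 / (4 * ((w : ℝ) + 2)) := ⟨_, rfl⟩
  have hc0 : 0 < c := by rw [hc]; positivity
  rw [← hc] at hc3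
  have K1 : c * (2 * P1) ≤ 2 * V12 :=
    (mul_le_mul hc3 X (by positivity) (Vr_nonneg _ _ _ _ _ _)).trans J1
  have K2 : 2 * P2 * (c * P1) ≤ 2 * Vr (2 * s1 * (r1 + 1) - 1 + 2 * w + 1 +
      (2 * s2 * (r2 + 1) - 1) + 1) w (2 * s1 * (w + 1) - 1 + 2 + 1 + (2 * s2 * (w + 1) - 1) + 1)
      a1 a2 (2 * s2 * (2 * n2) + (2 * nc + 2 * s1 * (2 * n1))) :=
    (mul_le_mul Y (by linarith : c * P1 ≤ V12) (by positivity) (Vr_nonneg _ _ _ _ _ _)).trans J2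
  have e1 : (2 * s1 * (r1 + 1) - 1 + 2 * w + 1 + (2 * s2 * (r2 + 1) - 1) + 1 : ℝ) =
    2 * s1 * (r1 + 1) + 2 * s2 * (r2 + 1) + 2 * w := by ring
  have e2 : (2 * s1 * (w + 1) - 1 + 2 + 1 + (2 * s2 * (w + 1) - 1) + 1 : ℤ) =
    (2 * (s1 + s2) * (w + 1) + 2 : ℕ) := by push_cast; ring
  have e3 : 2 * s2 * (2 * n2) + (2 * nc + 2 * s1 * (2 * n1)) =
    2 * (2 * s1 * n1 + 2 * s2 * n2 + nc) := by ring
  rw [e1, e2, e3] at K2
  have K3 : P2 * (c * P1) ≤ Br (2 * s1 * (r1 + 1) + 2 * s2 * (r2 + 1) + 2 * w) w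
      (2 * (s1 + s2) * (w + 1) + 2 : ℕ) (2 * (2 * s1 * n1 + 2 * s2 * n2 + nc)) := by
    refine le_trans (by linarith) ((Vr_le_Ur _ _ _ a1 a2 (by omega)).trans (Ur_le_Br _ _ _ _ _))
  refine le_trans ?_ K3
  have g1 : Br r1 w w (2 * n1) / (8 * n1 * ((w : ℝ) + 1) ^ 2) ≤ Vr r1 w w a1 b1 (2 * n1) / 2 := by
    rw [div_le_iff₀ (by positivity)]
    push_cast at c1
    refine c1.trans (le_of_eq ?_)
    ring
  have g2 : Br r2 w w (2 * n2) / (8 * n2 * ((w : ℝ) + 1) ^ 2) ≤ Vr r2 w w a2 b2 (2 * n2) / 2 := by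
    rw [div_le_iff₀ (by positivity)]
    push_cast at c2
    refine c2.trans (le_of_eq ?_)
    ring
  have g3 := pow_le_pow_left₀ (by positivity) g1 (2 * s1)
  have g4 := pow_le_pow_left₀ (by positivity) g2 (2 * s2)
  rw [← hP1] at g3
  rw [← hP2] at g4
  have g5 := mul_le_mul g3 g4 (by positivity) hP10.le
  have g6 : P1 * P2 / (8 * ((w : ℝ) + 2)) ≤ P2 * (c * P1) := by
    rw [hc, div_le_iff₀ (by positivity)]
    have : P2 * (1 / (4 * ((w : ℝ) + 2)) * P1) * (8 * ((w : ℝ) + 2)) = 2 * (P1 * P2) := by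
      field_simp
      ring
    rw [this]
    have : 0 < P1 * P2 := by positivity
    linarith
  exact (div_le_div_of_nonneg_right g5 (by positivity)).trans g6

/-- squares with two kinds of loops -/
theorem mixsq {w H : ℕ} {R : ℝ} {N s : ℕ} (hN : 2 ≤ N) (hs : 1 ≤ s) (hH : 2 * s * (w + 1) ≤ H)
    (hB : 0 < Br R w H (2 * N)) :
    (Br R w H (2 * N) / (8 * N * ((H : ℝ) + 1) ^ 2)) ^ (2 * s) ≤
      Br (2 * s * (R + 1)) H H (2 * (2 * s * N)) := by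
  have hN0 : (0 : ℝ) < N := by exact_mod_cast (by omega : 0 < N)
  rw [Br_symm R w H (by omega)] at hB ⊢
  obtain ⟨a, b, -, -, c1⟩ := exists_class_r R (k := H) w (L := 2 * N) (by omega)
  have X := rq_chain_even R H w a b (L := 2 * N) (by omega) hs
  have hpos : 0 < 2 * s * (2 * N) := by positivity
  have h1 := (Vr_le_Ur (2 * s * (R + 1) - 1) H (2 * s * (w + 1) - 1) a a hpos).trans
    (Ur_le_Br _ _ _ _ _)
  have h2 : Br (2 * s * (R + 1) - 1) H (2 * s * (w + 1) - 1) (2 * s * (2 * N)) ≤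
      Br (2 * s * (R + 1)) H H (2 * s * (2 * N)) := by
    apply Br_mono (by linarith) le_rfl
    have : ((2 * s * (w + 1) : ℕ) : ℤ) ≤ H := by exact_mod_cast hH
    push_cast at this
    linarith
  have e3 : 2 * s * (2 * N) = 2 * (2 * s * N) := by ring
  rw [e3] at h1 h2 X
  refine le_trans ?_ (h1.trans h2)
  refine le_trans ?_ X
  have g1 : Br R H w (2 * N) / (8 * N * ((H : ℝ) + 1) ^ 2) ≤ Vr R H w a b (2 * N) / 2 := by
    rw [div_le_iff₀ (by positivity)]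
    push_cast at c1
    refine c1.trans (le_of_eq ?_)
    ring
  have g3 := pow_le_pow_left₀ (by positivity) g1 (2 * s)
  have g4 : 0 ≤ (Vr R H w a b (2 * N) / 2) ^ (2 * s) := by
    have := Vr_nonneg R H w a b (2 * N)
    positivity
  linarith

end Pool.Agent.K6.H36.PJ
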