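import Mathlib

/-!
Supermultiplicative sequences.
-/

set_option autoImplicit false

namespace Pool.Agent.K6.H36.PJ

open Filter Topology

theorem fekete {a : ℕ → ℝ} (hpos : ∀ n, 1 ≤ n → 0 < a n)
    (hmul : ∀ m n, 1 ≤ m → 1 ≤ n → a m * a n ≤ a (m + n)) {B : ℝ}
    (hB : ∀ n, 1 ≤ n → a n ≤ Real.exp (B * n)) :
    ∃ l : ℝ, Tendsto (fun n : ℕ => Real.log (a n) / (2 * n)) atTop (𝓝 l) ∧
      ∀ n : ℕ, 1 ≤ n → a n ≤ Real.exp (2 * n * l) := by
  obtain ⟨u, hu⟩ : ∃ u : ℕ → ℝ, u = fun n => if n = 0 then 0 else -Real.log (a n) := ⟨_, rfl⟩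
  have hu1 : ∀ n, 1 ≤ n → u n = -Real.log (a n) := by
    intro n hn
    rw [hu]
    simp only
    rw [if_neg (by omega)]
  have hu0 : u 0 = 0 := by rw [hu]; simp
  have hs : Subadditive u := by
    intro m n
    rcases Nat.eq_zero_or_pos m with hm | hm
    · subst hm
      rw [hu0, zero_add, zero_add]
    rcases Nat.eq_zero_or_pos n with hn | hn
    · subst hn
      rw [hu0, add_zero, add_zero]
    rw [hu1 _ (by omega), hu1 _ hm, hu1 _ hn]
    have h1 := Real.log_le_log (mul_pos (hpos m hm) (hpos n hn)) (hmul m n hm hn)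
    rw [Real.log_mul (hpos m hm).ne' (hpos n hn).ne'] at h1
    linarith
  have hb : BddBelow (Set.range fun n => u n / n) := by
    refine ⟨-|B|, ?_⟩
    rintro x ⟨n, rfl⟩
    simp only
    rcases Nat.eq_zero_or_pos n with hn | hn
    · subst hn
      simp
    have hn0 : (0 : ℝ) < n := by exact_mod_cast hn
    rw [hu1 n hn, le_div_iff₀ hn0]
    have h1 := Real.log_le_log (hpos n hn) (hB n hn)
    rw [Real.log_exp] at h1
    have h2 := mul_le_mul_of_nonneg_right (le_abs_self B) hn0.le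
    linarith
  have h1 := hs.tendsto_lim hb
  refine ⟨-hs.lim / 2, ?_, ?_⟩
  · have h2 : Tendsto (fun n : ℕ => -(u n / n) / 2) atTop (𝓝 (-hs.lim / 2)) :=
      (h1.neg).div_const 2
    refine h2.congr' ?_
    filter_upwards [eventually_ge_atTop 1] with n hn
    rw [hu1 n hn]
    have hn0 : (0 : ℝ) < n := by exact_mod_cast hn
    field_simp
  · intro n hn
    have h2 := hs.lim_le_div hb (n := n) (by omega)
    have hn0 : (0 : ℝ) < n := by exact_mod_cast hn
    rw [hu1 n hn, le_div_iff₀ hn0] at h2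
    rw [← Real.log_le_iff_le_exp (hpos n hn)]
    linarith

end Pool.Agent.K6.H36.PJ
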