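import Pool.Agent.K6.H36.PJ.Join

/-!
The area of a join.
-/

set_option autoImplicit false

namespace Pool.Agent.K6.H36.PJ

open Pool.Agent.N223.PS Pool.Agent.N457.PS

theorem sum_cast {L : ℕ} [NeZero L] {A : Type*} [AddCommMonoid A] (F : ZMod L → A) :
    ∑ k : ZMod L, F k = ∑ k ∈ Finset.range L, F (k : ZMod L) := by
  symm
  refine Finset.sum_bij (fun k _ => (k : ZMod L)) (fun k _ => Finset.mem_univ _) ?_ ?_
    (fun k _ => rfl)
  · intro a ha b hb hab
    exact cast_inj (Finset.mem_range.1 ha) (Finset.mem_range.1 hb) hab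
  · intro b _
    obtain ⟨k, hk, rfl⟩ := exists_cast (Nat.pos_of_ne_zero (NeZero.ne L)) b
    exact ⟨k, Finset.mem_range.2 hk, rfl⟩

theorem encl_range {L : ℕ} [NeZero L] (f : ZMod L → ℤ × ℤ) (c : ℤ × ℤ) :
    Encl L f c ↔ ∑ k ∈ Finset.range L, tv (Above L f c.1 c.2 (k : ZMod L)) = 1 := by
  rw [encl_iff, sum_cast]

/-- the enclosed cells are in the bounding box -/
theorem encl_box {L : ℕ} [NeZero L] {f : ZMod L → ℤ × ℤ} (hf : IsLoop L f) {x0 x1 y0 y1 : ℤ}
    (hx : ∀ i, x0 ≤ (f i).1 ∧ (f i).1 ≤ x1) (hy : ∀ i, y0 ≤ (f i).2 ∧ (f i).2 ≤ y1)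
    {c : ℤ × ℤ} (hc : Encl L f c) : (x0 ≤ c.1 ∧ c.1 < x1) ∧ (y0 ≤ c.2 ∧ c.2 < y1) := by
  rw [encl_iff] at hc
  have hne : ∃ k, Above L f c.1 c.2 k := by
    by_contra hcon
    push Not at hcon
    rw [Finset.sum_eq_zero (fun k _ => tv_false (hcon k))] at hc
    exact absurd hc (by decide)
  obtain ⟨k, h1, h2⟩ := hne
  have h3 := hx k
  have h5 := hx (k + 1)
  have h6 := hy k
  refine ⟨⟨by omega, by omega⟩, ?_, by omega⟩
  by_contra hlt
  push Not at hlt
  have h7 : ∑ k : ZMod L, tv (Above L f c.1 c.2 k) = ∑ k : ZMod L, tv (Hj f c.1 k) := by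
    refine Finset.sum_congr rfl fun k _ => ?_
    apply tv_congr
    have := hy k
    constructor
    · exact fun h => h.1
    · exact fun h => ⟨h, by omega⟩
  rw [h7, sum_hj hf] at hc
  exact absurd hc (by decide)

theorem encl_finite {L : ℕ} [NeZero L] {f : ZMod L → ℤ × ℤ} (hf : IsLoop L f) :
    {c : ℤ × ℤ | Encl L f c}.Finite := by
  have hb : ∀ i : ZMod L, |(f i).1| ≤ L ∧ |(f i).2| ≤ L := by
    intro i
    have h1 := loop_bound hf i.val
    rw [ZMod.natCast_zmod_val] at h1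
    have h2 := ZMod.val_lt i
    have h3 := abs_nonneg (f i).1
    have h4 := abs_nonneg (f i).2
    constructor <;> omega
  refine Set.Finite.subset (Finset.finite_toSet
    ((Finset.Icc (-(L : ℤ)) L) ×ˢ (Finset.Icc (-(L : ℤ)) L))) ?_
  intro c hc
  obtain ⟨⟨h1, h2⟩, h3, h4⟩ := encl_box hf (x0 := -(L : ℤ)) (x1 := L) (y0 := -(L : ℤ)) (y1 := L)
    (fun i => abs_le.1 (hb i).1) (fun i => abs_le.1 (hb i).2) hc
  simp only [Finset.coe_product, Finset.coe_Icc, Set.mem_prod, Set.mem_Icc]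
  exact ⟨⟨h1, h2.le⟩, h3, h4.le⟩

section
variable {M N : ℕ} {G : ZMod M → ℤ × ℤ} {f : ZMod N → ℤ × ℤ}

theorem join_encl (hG : Bot M G) (hf : Top N f) (hM : 2 ≤ M) (hN : 2 ≤ N) (c : ℤ × ℤ) :
    ∑ k ∈ Finset.range (M + N), tv (Above (M + N) (join M N G f) c.1 c.2 (k : ZMod (M + N))) =
      ∑ k ∈ Finset.range M, tv (Above M G c.1 (c.2 - 1) (k : ZMod M)) +
      ∑ k ∈ Finset.range N, tv (Above N f c.1 c.2 (k : ZMod N)) + tv (c = (-1, 0)) := by
  obtain ⟨a, b⟩ := c
  obtain ⟨M', rfl⟩ : ∃ M', M = M' + 1 := ⟨M - 1, by omega⟩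
  obtain ⟨N', rfl⟩ : ∃ N', N = N' + 1 := ⟨N - 1, by omega⟩
  simp only
  -- the values
  have z0 : tv (Above (M' + 1 + (N' + 1)) (join (M' + 1) (N' + 1) G f) a b
      ((0 : ℕ) : ZMod (M' + 1 + (N' + 1)))) = 0 := by
    apply tv_false
    rintro ⟨h, -⟩
    have e1 := join_low (M := M' + 1) (N := N' + 1) (G := G) (f := f) (j := 0) hN (by omega)
    rw [Nat.cast_zero, hG.loop.1] at e1
    have e2 : ((0 : ℕ) : ZMod (M' + 1 + (N' + 1))) + 1 =
      ((0 + 1 : ℕ) : ZMod (M' + 1 + (N' + 1))) := by push_cast; ring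
    rw [e2, e1, Nat.cast_zero, join_zero hM] at h
    simp only [Prod.fst_zero] at h
    omega
  have z1 : ∀ k, k < M' → tv (Above (M' + 1 + (N' + 1)) (join (M' + 1) (N' + 1) G f) a b
      ((k + 1 : ℕ) : ZMod (M' + 1 + (N' + 1)))) =
        tv (Above (M' + 1) G a (b - 1) ((k : ℕ) : ZMod (M' + 1))) := by
    intro k hk
    apply tv_congr
    have e1 := join_low (M := M' + 1) (N := N' + 1) (G := G) (f := f) (j := k) hN (by omega)
    have e2 := join_low (M := M' + 1) (N := N' + 1) (G := G) (f := f) (j := k + 1) hN (by omega)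
    have e3 : ((k + 1 : ℕ) : ZMod (M' + 1 + (N' + 1))) + 1 =
      ((k + 1 + 1 : ℕ) : ZMod (M' + 1 + (N' + 1))) := by push_cast; ring
    have e4 : ((k : ℕ) : ZMod (M' + 1)) + 1 = ((k + 1 : ℕ) : ZMod (M' + 1)) := by
      push_cast; ring
    unfold Above
    rw [e3, e1, e2, e4]
    simp only
    constructor
    · rintro ⟨h1, h2⟩
      exact ⟨h1, by omega⟩
    · rintro ⟨h1, h2⟩
      exact ⟨h1, by omega⟩
  have z2 : tv (Above (M' + 1 + (N' + 1)) (join (M' + 1) (N' + 1) G f) a b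
      ((M' + 1 : ℕ) : ZMod (M' + 1 + (N' + 1)))) = 0 := by
    apply tv_false
    rintro ⟨h, -⟩
    have e1 := join_low (M := M' + 1) (N := N' + 1) (G := G) (f := f) (j := M') hN (by omega)
    have e2 := join_high (M := M' + 1) (N := N' + 1) (G := G) (f := f) (j := 1) (by omega)
      (by omega)
    have e3 : ((M' + 1 : ℕ) : ZMod (M' + 1 + (N' + 1))) + 1 =
      ((M' + 1 + 1 : ℕ) : ZMod (M' + 1 + (N' + 1))) := by push_cast; ring
    have e4 : ((M' : ℕ) : ZMod (M' + 1)) = -1 := by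
      have := cast_pred (M := M' + 1) (by omega)
      rwa [Nat.add_sub_cancel] at this
    rw [e3, e1, e2, e4, hG.last, Nat.cast_one, hf.one] at h
    simp only at h
    omega
  have z3 : ∀ k, k < N' → tv (Above (M' + 1 + (N' + 1)) (join (M' + 1) (N' + 1) G f) a b
      ((M' + 1 + (k + 1) : ℕ) : ZMod (M' + 1 + (N' + 1)))) =
        tv (Above (N' + 1) f a b ((k + 1 : ℕ) : ZMod (N' + 1))) := by
    intro k hk
    apply tv_congr
    have e1 := join_high (M := M' + 1) (N := N' + 1) (G := G) (f := f) (j := k + 1) (by omega)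
      (by omega)
    have e3 : ((M' + 1 + (k + 1) : ℕ) : ZMod (M' + 1 + (N' + 1))) + 1 =
      ((M' + 1 + (k + 1 + 1) : ℕ) : ZMod (M' + 1 + (N' + 1))) := by push_cast; ring
    have e4 : ((k + 1 : ℕ) : ZMod (N' + 1)) + 1 = ((k + 1 + 1 : ℕ) : ZMod (N' + 1)) := by
      push_cast; ring
    have e2 : join (M' + 1) (N' + 1) G f
        ((M' + 1 + (k + 1 + 1) : ℕ) : ZMod (M' + 1 + (N' + 1))) =
          f ((k + 1 + 1 : ℕ) : ZMod (N' + 1)) := by
      rcases Nat.lt_or_ge (k + 1) N' with h1 | h1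
      · exact join_high (by omega) (by omega)
      · have e5 : k + 1 + 1 = N' + 1 := by omega
        rw [e5, ZMod.natCast_self, ZMod.natCast_self, join_zero hM, hf.loop.1]
    unfold Above
    rw [e3, e1, e2, e4]
  have z4 : tv (Above (M' + 1) G a (b - 1) ((M' : ℕ) : ZMod (M' + 1))) =
      tv (a = -1 ∧ b < 1) := by
    apply tv_congr
    have e4 : ((M' : ℕ) : ZMod (M' + 1)) = -1 := by
      have := cast_pred (M := M' + 1) (by omega)
      rwa [Nat.add_sub_cancel] at this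
    unfold Above
    rw [e4, neg_add_cancel, hG.last, hG.loop.1]
    simp only [Prod.fst_zero]
    omega
  have z5 : tv (Above (N' + 1) f a b ((0 : ℕ) : ZMod (N' + 1))) = tv (a = -1 ∧ b < 0) := by
    apply tv_congr
    unfold Above
    rw [Nat.cast_zero, zero_add, hf.one, hf.loop.1]
    simp only [Prod.fst_zero, Prod.snd_zero]
    omega
  rw [Finset.sum_range_add, Finset.sum_range_succ', z0, add_zero, Finset.sum_range_succ' _ N',
    add_zero, z2, add_zero, Finset.sum_range_succ _ M', z4, Finset.sum_range_succ' _ N', z5,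
    Finset.sum_congr rfl (fun k hk => z1 k (Finset.mem_range.1 hk)),
    Finset.sum_congr rfl (fun k hk => z3 k (Finset.mem_range.1 hk))]
  have z6 : tv (a = -1 ∧ b < 1) + tv (a = -1 ∧ b < 0) + tv ((a, b) = ((-1, 0) : ℤ × ℤ)) = 0 := by
    by_cases h1 : a = -1
    · rcases lt_trichotomy b 0 with h2 | h2 | h2
      · rw [tv_true ⟨h1, by omega⟩, tv_true ⟨h1, h2⟩, tv_false]
        · decide
        · rw [Prod.mk.injEq]; omega
      · rw [tv_true ⟨h1, by omega⟩, tv_false (by omega), tv_true]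
        · decide
        · rw [Prod.mk.injEq]; omega
      · rw [tv_false (by omega), tv_false (by omega), tv_false]
        · decide
        · rw [Prod.mk.injEq]; omega
    · rw [tv_false (fun h => h1 h.1), tv_false (fun h => h1 h.1), tv_false]
      · decide
      · rw [Prod.mk.injEq]; omega
  linear_combination -z6 + (CharTwo.two_eq_zero : (2 : ZMod 2) = 0) * 0

theorem join_area (hG : Bot M G) (hf : Top N f) (hM : 2 ≤ M) (hN : 2 ≤ N) :
    area (M + N) (join M N G f) = area M G + area N f + 1 := by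
  have i1 : NeZero M := ⟨by omega⟩
  have i2 : NeZero N := ⟨by omega⟩
  have i3 : NeZero (M + N) := ⟨by omega⟩
  have hGc : ∀ c, Encl M G c → 0 ≤ c.2 := by
    intro c hc
    have h1 : ∀ i, |(G i).1| ≤ M ∧ |(G i).2| ≤ M := by
      intro i
      have h1 := loop_bound hG.loop i.val
      rw [ZMod.natCast_zmod_val] at h1
      have h2 := ZMod.val_lt i
      have h3 := abs_nonneg (G i).1
      have h4 := abs_nonneg (G i).2
      constructor <;> omega
    exact (encl_box hG.loop (x0 := -(M : ℤ)) (x1 := M) (y0 := 0) (y1 := M)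
      (fun i => abs_le.1 (h1 i).1) (fun i => ⟨hG.hgt i, (abs_le.1 (h1 i).2).2⟩) hc).2.1
  have hfc : ∀ c, Encl N f c → c.2 < 0 := by
    intro c hc
    have h1 : ∀ i, |(f i).1| ≤ N ∧ |(f i).2| ≤ N := by
      intro i
      have h1 := loop_bound hf.loop i.val
      rw [ZMod.natCast_zmod_val] at h1
      have h2 := ZMod.val_lt i
      have h3 := abs_nonneg (f i).1
      have h4 := abs_nonneg (f i).2
      constructor <;> omega
    exact (encl_box hf.loop (x0 := -(N : ℤ)) (x1 := N) (y0 := -(N : ℤ)) (y1 := 0)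
      (fun i => abs_le.1 (h1 i).1) (fun i => ⟨(abs_le.1 (h1 i).2).1, hf.hgt i⟩) hc).2.2
  have e1 : {c : ℤ × ℤ | Encl (M + N) (join M N G f) c} =
      {c : ℤ × ℤ | Encl N f c} ∪ ((fun c : ℤ × ℤ => (c.1, c.2 + 1)) '' {c | Encl M G c} ∪
        {(-1, 0)}) := by
    ext c
    have h1 := join_encl hG hf hM hN c
    have h2 : Encl M G (c.1, c.2 - 1) ↔ c ∈ (fun c : ℤ × ℤ => (c.1, c.2 + 1)) ''
        {c | Encl M G c} := by
      constructor
      · intro h
        exact ⟨(c.1, c.2 - 1), h, by ext <;> simp⟩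
      · rintro ⟨d, hd, rfl⟩
        simpa using hd
    rw [Set.mem_ofPred_eq, encl_range, h1, Set.mem_union, Set.mem_union, ← h2, Set.mem_ofPred_eq,
      Set.mem_singleton_iff, encl_range, encl_range]
    have g1 : (∑ k ∈ Finset.range M, tv (Above M G c.1 (c.2 - 1) (k : ZMod M)) = 1) → 1 ≤ c.2 := by
      intro h
      have h3 := hGc (c.1, c.2 - 1) ((encl_range _ _).2 h)
      simp only at h3
      omega
    have g2 : (∑ k ∈ Finset.range N, tv (Above N f c.1 c.2 (k : ZMod N)) = 1) → c.2 < 0 := by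
      intro h
      exact hfc c ((encl_range _ _).2 h)
    have g3 : c = (-1, 0) → c.2 = 0 := by rintro rfl; rfl
    obtain ⟨x, hx⟩ : ∃ x, x = ∑ k ∈ Finset.range M,
      tv (Above M G c.1 (c.2 - 1) (k : ZMod M)) := ⟨_, rfl⟩
    obtain ⟨y, hy⟩ : ∃ y, y = ∑ k ∈ Finset.range N, tv (Above N f c.1 c.2 (k : ZMod N)) :=
      ⟨_, rfl⟩
    simp only at *
    rw [← hx] at g1 ⊢
    rw [← hy] at g2 ⊢
    have two : ∀ z : ZMod 2, z = 0 ∨ z = 1 := by decide
    by_cases h3 : c = (-1, 0)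
    · rw [tv_true h3]
      have hx0 : x = 0 := (two x).resolve_right (fun h => by have := g1 h; have := g3 h3; omega)
      have hy0 : y = 0 := (two y).resolve_right (fun h => by have := g2 h; have := g3 h3; omega)
      rw [hx0, hy0]
      simp [h3]
    · rw [tv_false h3]
      rcases two x with hx1 | hx1 <;> rcases two y with hy1 | hy1
      · rw [hx1, hy1]; simp [h3]
      · rw [hx1, hy1]; simp
      · rw [hx1, hy1]; simp
      · exfalso
        have := g1 hx1
        have := g2 hy1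
        omega
  have f1 := encl_finite hf.loop
  have f2 := (encl_finite hG.loop).image (fun c : ℤ × ℤ => (c.1, c.2 + 1))
  have a1 : area (M + N) (join M N G f) = {c : ℤ × ℤ | Encl (M + N) (join M N G f) c}.ncard := rfl
  have a2 : area M G = {c : ℤ × ℤ | Encl M G c}.ncard := rfl
  have a3 : area N f = {c : ℤ × ℤ | Encl N f c}.ncard := rfl
  have i : Function.Injective (fun c : ℤ × ℤ => (c.1, c.2 + 1)) := by
    intro c d h
    simp only [Prod.mk.injEq] at h
    exact Prod.ext h.1 (by omega)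
  have d2 : Disjoint ((fun c : ℤ × ℤ => (c.1, c.2 + 1)) '' {c | Encl M G c})
      {((-1, 0) : ℤ × ℤ)} := by
    rw [Set.disjoint_singleton_right]
    rintro ⟨d, hd, h⟩
    have h1 := hGc d hd
    simp only [Prod.mk.injEq] at h
    omega
  have d1 : Disjoint {c : ℤ × ℤ | Encl N f c}
      ((fun c : ℤ × ℤ => (c.1, c.2 + 1)) '' {c | Encl M G c} ∪ {(-1, 0)}) := by
    rw [Set.disjoint_left]
    rintro c hc (⟨d, hd, rfl⟩ | hc2)
    · have h1 := hGc d hd
      have h2 := hfc _ hc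
      simp only at h2
      omega
    · have h2 := hfc _ hc
      rw [Set.mem_singleton_iff] at hc2
      rw [hc2] at h2
      simp at h2
  rw [a1, e1, Set.ncard_union_eq d1 f1 (f2.union (Set.finite_singleton _)),
    Set.ncard_union_eq d2 f2 (Set.finite_singleton _), Set.ncard_image_of_injective _ i,
    Set.ncard_singleton, a2, a3]
  ring

end

end Pool.Agent.K6.H36.PJ
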