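import Pool.Agent.K6.H36.PJ.Base

/-!
Joins of rooted self-avoiding loops of `ℤ²`, rooted at the last vertex of the top row and at the
last vertex of the bottom row.
-/

set_option autoImplicit false

namespace Pool.Agent.K6.H36.PJ

open Pool.Agent.N223.PS Pool.Agent.N457.PS

/-- the root is the last vertex of the top row -/
structure Top (L : ℕ) (f : ZMod L → ℤ × ℤ) : Prop where
  loop : IsLoop L f
  hgt : ∀ i, (f i).2 ≤ 0
  rgt : ∀ i, (f i).2 = 0 → (f i).1 ≤ 0
  one : f 1 = (-1, 0)

/-- the root is the last vertex of the bottom row -/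
structure Bot (L : ℕ) (f : ZMod L → ℤ × ℤ) : Prop where
  loop : IsLoop L f
  hgt : ∀ i, 0 ≤ (f i).2
  rgt : ∀ i, (f i).2 = 0 → (f i).1 ≤ 0
  last : f (-1) = (-1, 0)

theorem Top.bot {L : ℕ} {f : ZMod L → ℤ × ℤ} (h : Top L f) : Bot L (flp (rev f)) := by
  refine ⟨flp_loop (rev_loop h.loop), ?_, ?_, ?_⟩
  · intro i
    have := h.hgt (-i)
    simp only [flp, rev]
    omega
  · intro i hi
    simp only [flp, rev] at hi ⊢
    exact h.rgt (-i) (by omega)
  · simp [flp, rev, h.one]

theorem Bot.top {L : ℕ} {f : ZMod L → ℤ × ℤ} (h : Bot L f) : Top L (flp (rev f)) := by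
  refine ⟨flp_loop (rev_loop h.loop), ?_, ?_, ?_⟩
  · intro i
    have := h.hgt (-i)
    simp only [flp, rev]
    omega
  · intro i hi
    simp only [flp, rev] at hi ⊢
    exact h.rgt (-i) (by omega)
  · simp [flp, rev, h.last]

theorem flp_rev_flp_rev {L : ℕ} (f : ZMod L → ℤ × ℤ) : flp (rev (flp (rev f))) = f := by
  funext i
  simp [flp, rev]

/-- the join as a path -/
def jn (M N : ℕ) (G : ZMod M → ℤ × ℤ) (f : ZMod N → ℤ × ℤ) (j : ℕ) : ℤ × ℤ :=
  if j = 0 then 0 else if j ≤ M then ((G ((j - 1 : ℕ) : ZMod M)).1, (G ((j - 1 : ℕ) : ZMod M)).2 + 1)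
    else f ((j - M : ℕ) : ZMod N)

/-- the join -/
def join (M N : ℕ) (G : ZMod M → ℤ × ℤ) (f : ZMod N → ℤ × ℤ) : ZMod (M + N) → ℤ × ℤ :=
  tol (M + N) (jn M N G f)

section
variable {M N : ℕ} {G : ZMod M → ℤ × ℤ} {f : ZMod N → ℤ × ℤ}

theorem jn_zero : jn M N G f 0 = 0 := rfl

theorem jn_low {j : ℕ} (hj : j < M) :
    jn M N G f (j + 1) = ((G (j : ZMod M)).1, (G (j : ZMod M)).2 + 1) := by
  unfold jn
  rw [if_neg (by omega), if_pos (by omega), Nat.add_sub_cancel]

theorem jn_high (j : ℕ) (hj : 0 < j) : jn M N G f (M + j) = f (j : ZMod N) := by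
  unfold jn
  rw [if_neg (by omega), if_neg (by omega), Nat.add_sub_cancel_left]

theorem cast_pred {M : ℕ} (hM : 0 < M) : ((M - 1 : ℕ) : ZMod M) = -1 := by
  have h : ((M - 1 + 1 : ℕ) : ZMod M) = 0 := by
    rw [Nat.sub_add_cancel hM]; exact ZMod.natCast_self M
  push_cast at h
  exact eq_neg_of_add_eq_zero_left h

theorem cast_inj {M a b : ℕ} (ha : a < M) (hb : b < M) (h : (a : ZMod M) = (b : ZMod M)) :
    a = b := by
  rw [ZMod.natCast_eq_natCast_iff'] at h
  rwa [Nat.mod_eq_of_lt ha, Nat.mod_eq_of_lt hb] at h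

theorem jn_cl (hG : Bot M G) (hf : Top N f) (hM : 2 ≤ M) (hN : 2 ≤ N) :
    Cl (M + N) (jn M N G f) := by
  have hz : jn M N G f (M + N) = 0 := by
    rw [jn_high N (by omega), ZMod.natCast_self, hf.loop.1]
  refine ⟨by omega, ?_, ?_, ?_⟩
  · intro i hi
    rcases Nat.lt_or_ge i 1 with h0 | h0
    · have e : i = 0 := by omega
      subst e
      rw [jn_zero, jn_low (by omega), Nat.cast_zero, hG.loop.1]
      unfold Nb
      norm_num
    rcases Nat.lt_or_ge i M with h1 | h1
    · obtain ⟨j, rfl⟩ : ∃ j, i = j + 1 := ⟨i - 1, by omega⟩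
      rw [jn_low (by omega), jn_low (by omega)]
      have h2 := hG.loop.2.2 (j : ZMod M)
      unfold Nb
      push_cast
      rw [abs_sub_comm, abs_sub_comm ((G (j : ZMod M)).2 + 1)]
      rw [add_sub_add_right_eq_sub]
      exact h2
    rcases Nat.lt_or_ge M i with h2 | h2
    · obtain ⟨j, rfl⟩ : ∃ j, i = M + j := ⟨i - M, by omega⟩
      rw [jn_high j (by omega), add_assoc, jn_high (j + 1) (by omega)]
      have h2 := hf.loop.2.2 (j : ZMod N)
      unfold Nb
      push_cast
      rw [abs_sub_comm, abs_sub_comm (f (j : ZMod N)).2]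
      exact h2
    · have e : i = M := by omega
      subst e
      obtain ⟨j, hj⟩ : ∃ j, i = j + 1 := ⟨i - 1, by omega⟩
      rw [jn_high 1 (by omega), Nat.cast_one, hf.one]
      have e2 : jn i N G f i = (-1, 1) := by
        have e3 := jn_low (M := i) (N := N) (G := G) (f := f) (j := j) (by omega)
        rw [← hj] at e3
        rw [e3]
        have e4 : ((j : ℕ) : ZMod i) = -1 := by
          rw [← cast_pred (by omega : 0 < i)]
          congr 1
          omega
        rw [e4, hG.last]
        norm_num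
      rw [e2]
      unfold Nb
      norm_num
  · intro i hi j hj hij
    have key : ∀ i < M + N, (i = 0 ∧ jn M N G f i = 0) ∨
        (1 ≤ i ∧ i ≤ M ∧ 1 ≤ (jn M N G f i).2 ∧
          jn M N G f i = ((G ((i - 1 : ℕ) : ZMod M)).1, (G ((i - 1 : ℕ) : ZMod M)).2 + 1)) ∨
        (M < i ∧ (jn M N G f i).2 ≤ 0 ∧ jn M N G f i = f ((i - M : ℕ) : ZMod N)) := by
      intro i hi
      rcases Nat.lt_or_ge i 1 with h0 | h0
      · left
        have e : i = 0 := by omega
        subst e
        exact ⟨rfl, jn_zero⟩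
      rcases Nat.lt_or_ge M i with h1 | h1
      · right; right
        have e : jn M N G f i = f ((i - M : ℕ) : ZMod N) := by
          unfold jn
          rw [if_neg (by omega), if_neg (by omega)]
        refine ⟨h1, ?_, e⟩
        rw [e]
        exact hf.hgt _
      · right; left
        have e : jn M N G f i =
            ((G ((i - 1 : ℕ) : ZMod M)).1, (G ((i - 1 : ℕ) : ZMod M)).2 + 1) := by
          unfold jn
          rw [if_neg (by omega), if_pos (by omega)]
        refine ⟨h0, h1, ?_, e⟩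
        rw [e]
        have := hG.hgt ((i - 1 : ℕ) : ZMod M)
        simp only
        omega
    have hne : ∀ i, M < i → i < M + N → f ((i - M : ℕ) : ZMod N) ≠ 0 := by
      intro i h1 h2 h3
      rw [← hf.loop.1] at h3
      have h4 := hf.loop.2.1 h3
      have h5 : (((i - M : ℕ)) : ZMod N) = ((0 : ℕ) : ZMod N) := by rw [h4, Nat.cast_zero]
      have := cast_inj (by omega) (by omega) h5
      omega
    rcases key i hi with ⟨h1, h2⟩ | ⟨h1, h2, h3, h4⟩ | ⟨h1, h2, h3⟩ <;>
      rcases key j hj with ⟨g1, g2⟩ | ⟨g1, g2, g3, g4⟩ | ⟨g1, g2, g3⟩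
    · omega
    · exfalso
      rw [← hij, h2] at g3
      simp at g3
    · exfalso
      rw [h2, g3] at hij
      exact hne j g1 hj hij.symm
    · exfalso
      rw [hij, g2] at h3
      simp at h3
    · rw [h4, g4, Prod.mk.injEq] at hij
      have h5 : G ((i - 1 : ℕ) : ZMod M) = G ((j - 1 : ℕ) : ZMod M) :=
        Prod.ext hij.1 (by omega)
      have := cast_inj (by omega) (by omega) (hG.loop.2.1 h5)
      omega
    · exfalso
      rw [hij] at h3
      omega
    · exfalso
      rw [g2, h3] at hij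
      exact hne i h1 hi hij
    · exfalso
      rw [hij] at h2
      omega
    · rw [h3, g3] at hij
      have := cast_inj (by omega) (by omega) (hf.loop.2.1 hij)
      omega
  · rw [hz, jn_zero]

theorem join_loop (hG : Bot M G) (hf : Top N f) (hM : 2 ≤ M) (hN : 2 ≤ N) :
    IsLoop (M + N) (join M N G f) :=
  tol_loop (jn_cl hG hf hM hN) jn_zero

theorem join_zero (hM : 2 ≤ M) : join M N G f 0 = 0 := by
  have := tol_cast (jn M N G f) (n := M + N) (k := 0) (by omega)
  rw [Nat.cast_zero] at this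
  unfold join
  rw [this, jn_zero]

theorem join_low (hN : 2 ≤ N) {j : ℕ} (hj : j < M) :
    join M N G f ((j + 1 : ℕ) : ZMod (M + N)) = ((G (j : ZMod M)).1, (G (j : ZMod M)).2 + 1) := by
  unfold join
  rw [tol_cast _ (by omega), jn_low hj]

theorem join_high {j : ℕ} (hj : 0 < j) (hj2 : j < N) :
    join M N G f ((M + j : ℕ) : ZMod (M + N)) = f (j : ZMod N) := by
  unfold join
  rw [tol_cast _ (by omega), jn_high j hj]

/-- all values of a join -/
theorem join_cases (hM : 2 ≤ M) (hN : 2 ≤ N) (hG : Bot M G) (hf : Top N f) (i : ZMod (M + N)) :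
    (i = 0 ∧ join M N G f i = 0) ∨
    (∃ j, j < M ∧ i = ((j + 1 : ℕ) : ZMod (M + N)) ∧
      join M N G f i = ((G (j : ZMod M)).1, (G (j : ZMod M)).2 + 1)) ∨
    (∃ j, 0 < j ∧ j < N ∧ i = ((M + j : ℕ) : ZMod (M + N)) ∧
      join M N G f i = f (j : ZMod N)) := by
  obtain ⟨k, hk, rfl⟩ := exists_cast (by omega) i
  rcases Nat.lt_or_ge k 1 with h0 | h0
  · left
    have e : k = 0 := by omega
    subst e
    rw [Nat.cast_zero]
    exact ⟨rfl, join_zero hM⟩
  rcases Nat.lt_or_ge M k with h1 | h1
  · right; right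
    refine ⟨k - M, by omega, by omega, ?_, ?_⟩
    · congr 1; omega
    · have e : k = M + (k - M) := by omega
      have h2 := join_high (M := M) (N := N) (G := G) (f := f) (j := k - M) (by omega) (by omega)
      rw [← e] at h2
      exact h2
  · right; left
    refine ⟨k - 1, by omega, ?_, ?_⟩
    · congr 1; omega
    · have e : k - 1 + 1 = k := by omega
      have h2 := join_low (M := M) (N := N) (G := G) (f := f) (j := k - 1) hN (by omega)
      rw [e] at h2
      exact h2

theorem join_inj (hN : 2 ≤ N) (hM : 2 ≤ M) {G' : ZMod M → ℤ × ℤ} {f' : ZMod N → ℤ × ℤ}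
    (hf : Top N f) (hf' : Top N f') (h : join M N G f = join M N G' f') : G = G' ∧ f = f' := by
  constructor
  · funext i
    obtain ⟨k, hk, rfl⟩ := exists_cast (by omega) i
    have h1 := join_low (M := M) (N := N) (G := G) (f := f) (j := k) hN hk
    have h2 := join_low (M := M) (N := N) (G := G') (f := f') (j := k) hN hk
    rw [h, h2, Prod.mk.injEq] at h1
    exact Prod.ext h1.1.symm (by omega)
  · funext i
    obtain ⟨k, hk, rfl⟩ := exists_cast (by omega) i
    rcases Nat.eq_zero_or_pos k with h0 | h0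
    · subst h0
      rw [Nat.cast_zero, hf.loop.1, hf'.loop.1]
    · rw [← join_high (M := M) (N := N) (G := G) (f := f) h0 hk, h, join_high h0 hk]

theorem join_rgt (hM : 2 ≤ M) (hN : 2 ≤ N) (hG : Bot M G) (hf : Top N f) (i : ZMod (M + N))
    (hi : (join M N G f i).2 = 0) : (join M N G f i).1 ≤ 0 := by
  rcases join_cases hM hN hG hf i with ⟨-, h⟩ | ⟨j, -, -, h⟩ | ⟨j, -, -, -, h⟩
  · rw [h]; simp
  · exfalso
    rw [h] at hi
    have := hG.hgt (j : ZMod M)
    simp only at hi
    omega
  · rw [h] at hi ⊢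
    exact hf.rgt _ hi

/-- the number of vertices above the cut -/
theorem join_count (hM : 2 ≤ M) (hN : 2 ≤ N) (hG : Bot M G) (hf : Top N f) :
    Nat.card {i : ZMod (M + N) // 0 < (join M N G f i).2} = M := by
  classical
  have : NeZero (M + N) := ⟨by omega⟩
  rw [Nat.card_eq_fintype_card, Fintype.card_subtype]
  have e : (Finset.univ.filter fun i : ZMod (M + N) => 0 < (join M N G f i).2) =
      (Finset.range M).image (fun j => ((j + 1 : ℕ) : ZMod (M + N))) := by
    ext i
    rw [Finset.mem_filter, Finset.mem_image]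
    constructor
    · rintro ⟨-, hi⟩
      rcases join_cases hM hN hG hf i with ⟨-, h⟩ | ⟨j, hj, hj2, h⟩ | ⟨j, -, -, -, h⟩
      · rw [h] at hi
        simp at hi
      · exact ⟨j, Finset.mem_range.2 hj, hj2.symm⟩
      · rw [h] at hi
        have := hf.hgt (j : ZMod N)
        omega
    · rintro ⟨j, hj, rfl⟩
      refine ⟨Finset.mem_univ _, ?_⟩
      rw [join_low hN (Finset.mem_range.1 hj)]
      have := hG.hgt (j : ZMod M)
      simp only
      omega
  rw [e, Finset.card_image_of_injOn, Finset.card_range]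
  intro a ha b hb hab
  have ha' := Finset.mem_range.1 (Finset.mem_coe.1 ha)
  have hb' := Finset.mem_range.1 (Finset.mem_coe.1 hb)
  have := cast_inj (by omega : a + 1 < M + N) (by omega : b + 1 < M + N) hab
  omega

end

/-- an aid for the recovery of the root -/
theorem level_aux {L : ℕ} [NeZero L] {J J' : ZMod L → ℤ × ℤ} {s s' : ZMod L} {M : ℕ}
    (h0' : J' 0 = 0)
    (hc : Nat.card {i : ZMod L // 0 < (J i).2} = M)
    (hc' : Nat.card {i : ZMod L // 0 < (J' i).2} = M) (h : rot s J = rot s' J') :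
    (J s).2 ≤ (J' s').2 := by
  classical
  by_contra hlt
  push Not at hlt
  -- the set of the indices which are above the cut
  have c1 : Nat.card {i : ZMod L // -(J s).2 < (rot s J i).2} = M := by
    rw [← hc]
    refine Nat.card_congr (Equiv.subtypeEquiv (Equiv.addRight s) ?_)
    intro i
    simp only [rot, Equiv.coe_addRight, Prod.snd_sub]
    omega
  have c2 : Nat.card {i : ZMod L // -(J' s').2 < (rot s J i).2} = M := by
    rw [← hc', h]
    refine Nat.card_congr (Equiv.subtypeEquiv (Equiv.addRight s') ?_)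
    intro i
    simp only [rot, Equiv.coe_addRight, Prod.snd_sub]
    omega
  have hsub : (Finset.univ.filter fun i : ZMod L => -(J' s').2 < (rot s J i).2) ⊆
      (Finset.univ.filter fun i : ZMod L => -(J s).2 < (rot s J i).2) := by
    intro i hi
    rw [Finset.mem_filter] at hi ⊢
    exact ⟨hi.1, by omega⟩
  rw [Nat.card_eq_fintype_card, Fintype.card_subtype] at c1 c2
  have heq := Finset.eq_of_subset_of_card_le hsub (by rw [c1, c2])
  have hmem : (-s' : ZMod L) ∈
      (Finset.univ.filter fun i : ZMod L => -(J s).2 < (rot s J i).2) := by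
    rw [Finset.mem_filter, h]
    refine ⟨Finset.mem_univ _, ?_⟩
    unfold rot
    rw [neg_add_cancel, h0']
    simp only [Prod.snd_sub, Prod.snd_zero]
    omega
  rw [← heq, Finset.mem_filter, h] at hmem
  have h2 := hmem.2
  unfold rot at h2
  rw [neg_add_cancel, h0'] at h2
  simp only [Prod.snd_sub, Prod.snd_zero] at h2
  omega

/-- the root of a join is recovered from any rotation of the join -/
theorem root_eq {L : ℕ} [NeZero L] {J J' : ZMod L → ℤ × ℤ} {s s' : ZMod L} {M : ℕ}
    (hJ : IsLoop L J) (hJ' : IsLoop L J')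
    (hr : ∀ i, (J i).2 = 0 → (J i).1 ≤ 0) (hr' : ∀ i, (J' i).2 = 0 → (J' i).1 ≤ 0)
    (hc : Nat.card {i : ZMod L // 0 < (J i).2} = M)
    (hc' : Nat.card {i : ZMod L // 0 < (J' i).2} = M) (h : rot s J = rot s' J') :
    s = s' ∧ J = J' := by
  have h2 : (J s).2 = (J' s').2 := by
    rcases le_total (J' s').2 (J s).2 with h3 | h3
    · exact le_antisymm (level_aux hJ'.1 hc hc' h) h3
    · exact le_antisymm h3 (level_aux hJ.1 hc' hc h.symm)
  have h4 : J (-s' + s) = J s - J' s' := by
    have := congrFun h (-s')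
    unfold rot at this
    rw [neg_add_cancel, hJ'.1] at this
    rw [eq_comm, sub_eq_iff_eq_add]
    rw [sub_eq_iff_eq_add] at this
    rw [this]
    abel
  have h5 : J' (-s + s') = J' s' - J s := by
    have := congrFun h (-s)
    unfold rot at this
    rw [neg_add_cancel, hJ.1] at this
    rw [eq_comm] at this
    rw [sub_eq_iff_eq_add] at this
    rw [this]
    abel
  have h6 := hr (-s' + s) (by rw [h4]; simp [h2])
  have h7 := hr' (-s + s') (by rw [h5]; simp [h2])
  rw [h4] at h6
  rw [h5] at h7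
  simp only [Prod.fst_sub] at h6 h7
  have h8 : J s = J' s' := Prod.ext (by omega) h2
  rw [h8, sub_self, ← hJ.1] at h4
  have h9 := hJ.2.1 h4
  have h10 : s = s' := by
    have : s = s' + (-s' + s) := by ring
    rw [this, h9, add_zero]
  refine ⟨h10, ?_⟩
  subst h10
  have h11 := congrArg (rot (-s)) h
  rw [rot_rot, rot_rot, neg_add_cancel, rot_zero hJ.1, rot_zero hJ'.1] at h11
  exact h11

end Pool.Agent.K6.H36.PJ
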