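import Pool.Agent.K6.H36.PJ.Cnt
import Pool.Agent.K6.H36.PJ.Fek

/-!
The limit of the exponential moments of the area.
-/

set_option autoImplicit false

namespace Pool.Agent.K6.H36.PJ

open Pool.Agent.N223.PS Filter Topology

/-! ### the narrow loops -/

/-- the degenerate loop with two steps -/
def dg (i : ZMod 2) : ℤ × ℤ := if i = 0 then 0 else (-1, 0)

theorem dg_top : Top 2 dg := by
  refine ⟨⟨rfl, ?_, ?_⟩, ?_, ?_, rfl⟩
  · unfold Function.Injective
    decide
  · intro i
    fin_cases i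
    · decide
    · decide
  · intro i
    fin_cases i
    · decide
    · decide
  · intro i
    fin_cases i
    · decide
    · decide

theorem dg_area : area 2 dg = 0 := by
  have h : {c : ℤ × ℤ | Encl 2 dg c} = ∅ := by
    rw [Set.eq_empty_iff_forall_notMem]
    intro c hc
    have h2 : Encl 2 dg c := hc
    have h3 := encl_box dg_top.loop (x0 := -1) (x1 := 0) (y0 := 0) (y1 := 0)
      (by
        intro i
        fin_cases i
        · decide
        · decide)
      (by
        intro i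
        fin_cases i
        · decide
        · decide) h2
    omega
  have e : area 2 dg = {c : ℤ × ℤ | Encl 2 dg c}.ncard := rfl
  rw [e, h, Set.ncard_empty]

/-- there are loops with the least area -/
theorem exists_narrow (n : ℕ) (hn : 1 ≤ n) : ∃ f, Top (2 * n) f ∧ area (2 * n) f = n - 1 := by
  induction n, hn using Nat.le_induction with
  | base => exact ⟨dg, dg_top, dg_area⟩
  | succ n hn ih =>
    obtain ⟨f, hf, hfa⟩ := ih
    have i2 : NeZero (2 * n) := ⟨by omega⟩
    have h1 := join_loop dg_top.bot hf (le_refl 2) (by omega)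
    have h2 := join_area dg_top.bot hf (le_refl 2) (by omega)
    rw [area_flp (rev_loop dg_top.loop), area_rev dg_top.loop, dg_area, hfa] at h2
    obtain ⟨s, g, hg, h3⟩ := exists_top (L := 2 + 2 * n) (by omega) h1
    have h4 : area (2 + 2 * n) g = n + 1 - 1 := by
      rcases h3 with h3 | h3
      · rw [h3, area_rot] at h2
        omega
      · rw [h3, area_rot, area_rev hg.loop] at h2
        omega
    have e : 2 * (n + 1) = 2 + 2 * n := by ring
    rw [e]
    exact ⟨g, hg, h4⟩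

/-! ### the exponential sums -/

/-- exponential sums over the loops with the root at the end of the top row -/
noncomputable def Ct (ε : ℝ) (L : ℕ) : ℝ := tsm (fun a => Real.exp (-(ε * a))) L

/-- exponential sums over all loops -/
noncomputable def Zl (ε : ℝ) (L : ℕ) : ℝ := ∑ f ∈ LF L, Real.exp (-(ε * area L f))

theorem Ct_pos (ε : ℝ) {n : ℕ} (hn : 1 ≤ n) : 0 < Ct ε (2 * n) := by
  obtain ⟨f, hf, -⟩ := exists_narrow n hn
  unfold Ct tsm
  exact Finset.sum_pos (fun _ _ => Real.exp_pos _) ⟨f, (mem_TF (by omega)).2 hf⟩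

theorem Ct_mul (ε : ℝ) {M N : ℕ} (hM : 2 ≤ M) (hN : 2 ≤ N) :
    Ct ε M * Ct ε N * Real.exp (-ε) ≤ 2 * Ct ε (M + N) := by
  have h := area_join_le (w := fun a => Real.exp (-(ε * a))) (fun _ => (Real.exp_pos _).le) hM hN
  refine le_trans (le_of_eq ?_) h
  unfold Ct tsm
  rw [Finset.sum_mul_sum, Finset.sum_mul]
  refine Finset.sum_congr rfl fun g _ => ?_
  rw [Finset.sum_mul]
  refine Finset.sum_congr rfl fun f _ => ?_
  rw [← Real.exp_add, ← Real.exp_add]
  congr 1
  push_cast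
  ring

theorem TF_sub {L : ℕ} (hL : 0 < L) : TF L ⊆ LF L := fun _ hf =>
  (mem_LF hL).2 ((mem_TF hL).1 hf).loop

theorem Ct_le_card {ε : ℝ} (hε : 0 ≤ ε) (L : ℕ) : Ct ε L ≤ ((TF L).card : ℝ) := by
  unfold Ct tsm
  have h : ∀ f ∈ TF L, Real.exp (-(ε * area L f)) ≤ 1 := by
    intro f _
    rw [Real.exp_le_one_iff]
    have : 0 ≤ ε * (area L f : ℝ) := by positivity
    linarith
  have := Finset.sum_le_card_nsmul _ _ _ h
  rwa [nsmul_eq_mul, mul_one] at this

theorem Ct_zero (L : ℕ) : Ct 0 L = ((TF L).card : ℝ) := by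
  unfold Ct tsm
  simp

theorem Zl_zero (L : ℕ) : Zl 0 L = ((LF L).card : ℝ) := by
  unfold Zl
  simp

theorem Ct_le_Zl (ε : ℝ) {L : ℕ} (hL : 0 < L) : Ct ε L ≤ Zl ε L := by
  unfold Ct tsm Zl
  exact Finset.sum_le_sum_of_subset_of_nonneg (TF_sub hL) (fun _ _ _ => (Real.exp_pos _).le)

theorem Zl_le_Ct (ε : ℝ) {L : ℕ} (hL : 3 ≤ L) : Zl ε L ≤ 2 * L * Ct ε L :=
  sum_loops_le hL (inv_area (w := fun a => Real.exp (-(ε * a))) (fun _ => (Real.exp_pos _).le) L)

theorem log_sq_le {x : ℝ} (hx : 1 ≤ x) : Real.log x ^ 2 ≤ 4 * x := by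
  have h0 : 0 ≤ Real.log x := Real.log_nonneg hx
  have h1 : Real.log x ≤ 2 * Real.sqrt x := by
    have h2 := Real.log_le_sub_one_of_pos (Real.sqrt_pos.2 (by linarith : 0 < x))
    rw [Real.log_sqrt (by linarith)] at h2
    linarith
  have h3 := pow_le_pow_left₀ h0 h1 2
  rw [mul_pow, Real.sq_sqrt (by linarith)] at h3
  linarith

/-- an exponential bound -/
theorem card_exp : ∃ B : ℝ, 0 ≤ B ∧ ∀ n : ℕ, 1 ≤ n → ((LF (2 * n)).card : ℝ) ≤ Real.exp (B * n) := by
  obtain ⟨K, hK, h⟩ := counts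
  have hmu : 0 < H981.mu := H981.mu_pos
  refine ⟨2 * |Real.log H981.mu| + 4 * K + ((LF 2).card : ℝ), by positivity, fun n hn => ?_⟩
  have hnr : (1 : ℝ) ≤ n := by exact_mod_cast hn
  have hc0 : (0 : ℝ) ≤ ((LF 2).card : ℝ) := Nat.cast_nonneg _
  rcases Nat.lt_or_ge n 2 with h2 | h2
  · have e : n = 1 := by omega
    subst e
    have h3 := Real.add_one_le_exp ((LF 2).card : ℝ)
    have h4 : ((LF 2).card : ℝ) ≤ (2 * |Real.log H981.mu| + 4 * K + ((LF 2).card : ℝ)) *
        ((1 : ℕ) : ℝ) := by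
      rw [Nat.cast_one, mul_one]
      have := abs_nonneg (Real.log H981.mu)
      linarith
    have h5 := Real.exp_le_exp.2 h4
    have e2 : ((LF (2 * 1)).card : ℝ) = ((LF 2).card : ℝ) := rfl
    rw [e2]
    linarith
  · refine (h n h2).2.trans ?_
    rw [← Real.exp_log hmu, ← Real.exp_nat_mul, ← Real.exp_add, Real.exp_log hmu]
    apply Real.exp_le_exp.2
    have h3 := mul_le_mul_of_nonneg_left (log_sq_le hnr) hK
    have h4 := mul_le_mul_of_nonneg_right (le_abs_self (Real.log H981.mu)) (by linarith : (0:ℝ) ≤ 2 * n)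
    push_cast
    nlinarith [mul_nonneg hc0 (by linarith : (0:ℝ) ≤ n)]

/-- the pressure -/
theorem exists_pressure {ε : ℝ} (hε : 0 ≤ ε) : ∃ l : ℝ,
    Tendsto (fun n : ℕ => Real.log (Ct ε (2 * n)) / (2 * n)) atTop (𝓝 l) ∧
      ∀ n : ℕ, 1 ≤ n → Ct ε (2 * n) ≤ 2 * Real.exp (ε + 2 * n * l) := by
  obtain ⟨B, hB, hcard⟩ := card_exp
  obtain ⟨a, ha⟩ : ∃ a : ℕ → ℝ, a = fun n => Ct ε (2 * n) * Real.exp (-ε) / 2 := ⟨_, rfl⟩
  have hpos : ∀ n, 1 ≤ n → 0 < a n := by
    intro n hn
    rw [ha]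
    have := Ct_pos ε hn
    positivity
  obtain ⟨l, h1, h2⟩ := fekete (a := a) (B := B) hpos (by
    intro m n hm hn
    have h := Ct_mul ε (M := 2 * m) (N := 2 * n) (by omega) (by omega)
    rw [ha]
    simp only
    rw [show 2 * (m + n) = 2 * m + 2 * n by ring]
    have h3 := mul_le_mul_of_nonneg_right h (by positivity : 0 ≤ Real.exp (-ε) / 4)
    calc _ = Ct ε (2 * m) * Ct ε (2 * n) * Real.exp (-ε) * (Real.exp (-ε) / 4) := by ring
      _ ≤ 2 * Ct ε (2 * m + 2 * n) * (Real.exp (-ε) / 4) := h3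
      _ = _ := by ring) (by
    intro n hn
    rw [ha]
    simp only
    have h3 : Ct ε (2 * n) ≤ Real.exp (B * n) :=
      (Ct_le_card hε _).trans (le_trans (by exact_mod_cast Finset.card_le_card (TF_sub (by omega)))
        (hcard n hn))
    have h4 : Real.exp (-ε) ≤ 1 := Real.exp_le_one_iff.2 (by linarith)
    have h5 := Ct_pos ε hn
    have h6 : Ct ε (2 * n) * Real.exp (-ε) ≤ Ct ε (2 * n) * 1 :=
      mul_le_mul_of_nonneg_left h4 h5.le
    have h7 := Real.exp_pos (-ε)
    have h8 : 0 ≤ Ct ε (2 * n) * Real.exp (-ε) := by positivity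
    linarith)
  refine ⟨l, ?_, ?_⟩
  · have h3 : Tendsto (fun n : ℕ => Real.log (a n) / (2 * n) + (ε + Real.log 2) / (2 * (n : ℝ)))
        atTop (𝓝 (l + 0)) := by
      apply h1.add
      have h4 : Tendsto (fun n : ℕ => (2 * (n : ℝ))) atTop atTop :=
        tendsto_natCast_atTop_atTop.const_mul_atTop (by norm_num)
      exact h4.const_div_atTop _
    rw [add_zero] at h3
    refine h3.congr' ?_
    filter_upwards [eventually_ge_atTop 1] with n hn
    rw [← add_div]
    congr 1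
    rw [ha]
    simp only
    rw [Real.log_div (mul_pos (Ct_pos ε hn) (Real.exp_pos _)).ne' (by norm_num),
      Real.log_mul (Ct_pos ε hn).ne' (Real.exp_pos _).ne', Real.log_exp]
    ring
  · intro n hn
    have h3 := h2 n hn
    rw [ha] at h3
    simp only at h3
    rw [Real.exp_add]
    have h4 : Real.exp (-ε) * Real.exp ε = 1 := by rw [← Real.exp_add]; simp
    have h5 := mul_le_mul_of_nonneg_right h3 (by positivity : 0 ≤ 2 * Real.exp ε)
    calc Ct ε (2 * n) = Ct ε (2 * n) * (Real.exp (-ε) * Real.exp ε) := by rw [h4, mul_one]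
      _ = Ct ε (2 * n) * Real.exp (-ε) / 2 * (2 * Real.exp ε) := by ring
      _ ≤ _ := h5
      _ = _ := by ring

end Pool.Agent.K6.H36.PJ
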