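import Pool.Agent.K6.H36.PJ.Press

/-!
The rate of the exponential moments of the area: concavity and bounds at finite perimeter.
-/

set_option autoImplicit false

namespace Pool.Agent.K6.H36.PJ

open Pool.Agent.N223.PS Filter Topology

/-- the pressure -/
noncomputable def Lam (ε : ℝ) : ℝ :=
  if h : 0 ≤ ε then Classical.choose (exists_pressure h) else 0

theorem Lam_tendsto {ε : ℝ} (hε : 0 ≤ ε) :
    Tendsto (fun n : ℕ => Real.log (Ct ε (2 * n)) / (2 * n)) atTop (𝓝 (Lam ε)) := by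
  unfold Lam
  rw [dif_pos hε]
  exact (Classical.choose_spec (exists_pressure hε)).1

theorem Ct_le {ε : ℝ} (hε : 0 ≤ ε) {n : ℕ} (hn : 1 ≤ n) :
    Ct ε (2 * n) ≤ 2 * Real.exp (ε + 2 * n * Lam ε) := by
  unfold Lam
  rw [dif_pos hε]
  exact (Classical.choose_spec (exists_pressure hε)).2 n hn

theorem Zl_pos (ε : ℝ) {n : ℕ} (hn : 1 ≤ n) : 0 < Zl ε (2 * n) :=
  (Ct_pos ε hn).trans_le (Ct_le_Zl ε (by omega))

theorem tendsto_two_mul : Tendsto (fun n : ℕ => (2 * (n : ℝ))) atTop atTop :=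
  tendsto_natCast_atTop_atTop.const_mul_atTop (by norm_num)

theorem tendsto_log_div : Tendsto (fun n : ℕ => Real.log (4 * n) / (2 * (n : ℝ))) atTop (𝓝 0) := by
  have h1 : Tendsto (fun x : ℝ => Real.log x / x) atTop (𝓝 0) :=
    (Real.isLittleO_log_id_atTop).tendsto_div_nhds_zero
  have h2 : Tendsto (fun n : ℕ => (4 * (n : ℝ))) atTop atTop :=
    tendsto_natCast_atTop_atTop.const_mul_atTop (by norm_num)
  have h3 := (h1.comp h2).const_mul 2
  rw [mul_zero] at h3
  refine h3.congr' ?_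
  filter_upwards [eventually_ge_atTop 1] with n hn
  have hn0 : (0 : ℝ) < n := by exact_mod_cast hn
  simp only [Function.comp]
  field_simp
  ring

theorem Zl_tendsto {ε : ℝ} (hε : 0 ≤ ε) :
    Tendsto (fun n : ℕ => Real.log (Zl ε (2 * n)) / (2 * n)) atTop (𝓝 (Lam ε)) := by
  have h1 := Lam_tendsto hε
  have h2 := (Lam_tendsto hε).add tendsto_log_div
  rw [add_zero] at h2
  refine tendsto_of_tendsto_of_tendsto_of_le_of_le' h1 h2 ?_ ?_
  · filter_upwards [eventually_ge_atTop 1] with n hn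
    have hn0 : (0 : ℝ) < n := by exact_mod_cast hn
    apply div_le_div_of_nonneg_right _ (by positivity)
    exact Real.log_le_log (Ct_pos ε hn) (Ct_le_Zl ε (by omega))
  · filter_upwards [eventually_ge_atTop 2] with n hn
    have hn0 : (0 : ℝ) < n := by exact_mod_cast (by omega : 0 < n)
    rw [← add_div]
    apply div_le_div_of_nonneg_right _ (by positivity)
    have h3 := Real.log_le_log (Zl_pos ε (by omega : 1 ≤ n)) (Zl_le_Ct ε (L := 2 * n) (by omega))
    refine h3.trans (le_of_eq ?_)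
    have h4 := Ct_pos ε (n := n) (by omega)
    push_cast
    rw [Real.log_mul (by positivity) h4.ne', add_comm]
    congr 2
    ring

theorem tendsto_logsq (K : ℝ) :
    Tendsto (fun n : ℕ => K * Real.log n ^ 2 / (2 * (n : ℝ))) atTop (𝓝 0) := by
  have h1 : Tendsto (fun x : ℝ => Real.log x ^ 2 / x) atTop (𝓝 0) :=
    (Real.isLittleO_pow_log_id_atTop (n := 2)).tendsto_div_nhds_zero
  have h3 := (h1.comp tendsto_natCast_atTop_atTop).const_mul (K / 2)
  rw [mul_zero] at h3
  refine h3.congr' ?_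
  filter_upwards [eventually_ge_atTop 1] with n hn
  have hn0 : (0 : ℝ) < n := by exact_mod_cast hn
  simp only [Function.comp]
  field_simp

theorem Lam_zero : Lam 0 = Real.log H981.mu := by
  obtain ⟨K, hK, h⟩ := counts
  have hmu : 0 < H981.mu := H981.mu_pos
  refine tendsto_nhds_unique (Zl_tendsto le_rfl) ?_
  have h1 : Tendsto (fun n : ℕ => Real.log H981.mu - K * Real.log n ^ 2 / (2 * (n : ℝ))) atTop
      (𝓝 (Real.log H981.mu - 0)) := (tendsto_const_nhds).sub (tendsto_logsq K)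
  have h2 : Tendsto (fun n : ℕ => Real.log H981.mu + K * Real.log n ^ 2 / (2 * (n : ℝ))) atTop
      (𝓝 (Real.log H981.mu + 0)) := (tendsto_const_nhds).add (tendsto_logsq K)
  rw [sub_zero] at h1
  rw [add_zero] at h2
  refine tendsto_of_tendsto_of_tendsto_of_le_of_le' h1 h2 ?_ ?_
  · filter_upwards [eventually_ge_atTop 2] with n hn
    have hn0 : (0 : ℝ) < n := by exact_mod_cast (by omega : 0 < n)
    have h3 := Real.log_le_log (by positivity) (h n hn).1
    rw [Real.log_mul (by positivity) (by positivity), Real.log_exp, Real.log_pow] at h3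
    push_cast at h3
    rw [Zl_zero, le_div_iff₀ (by positivity), sub_mul, div_mul_cancel₀ _ (by positivity)]
    linarith
  · filter_upwards [eventually_ge_atTop 2] with n hn
    have hn0 : (0 : ℝ) < n := by exact_mod_cast (by omega : 0 < n)
    have h5 := Zl_pos 0 (n := n) (by omega)
    rw [Zl_zero] at h5
    have h3 := Real.log_le_log h5 (h n hn).2
    rw [Real.log_mul (by positivity) (by positivity), Real.log_exp, Real.log_pow] at h3
    push_cast at h3
    rw [Zl_zero, div_le_iff₀ (by positivity), add_mul, div_mul_cancel₀ _ (by positivity)]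
    linarith

/-- the rate -/
noncomputable def gg (ε : ℝ) : ℝ := Lam 0 - Lam ε

theorem gg_zero : gg 0 = 0 := sub_self _

theorem gg_tendsto {ε : ℝ} (hε : 0 ≤ ε) :
    Tendsto (fun n : ℕ => -Real.log (Zl ε (2 * n) / Zl 0 (2 * n)) / (2 * n)) atTop
      (𝓝 (gg ε)) := by
  have h := (Zl_tendsto le_rfl).sub (Zl_tendsto hε)
  refine h.congr' ?_
  filter_upwards [eventually_ge_atTop 1] with n hn
  rw [Real.log_div (Zl_pos ε hn).ne' (Zl_pos 0 hn).ne']
  ring

theorem Zl_anti {ε δ : ℝ} (h : ε ≤ δ) (L : ℕ) : Zl δ L ≤ Zl ε L := by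
  unfold Zl
  refine Finset.sum_le_sum fun f _ => ?_
  apply Real.exp_le_exp.2
  have : (0 : ℝ) ≤ area L f := Nat.cast_nonneg _
  nlinarith

theorem gg_mono : MonotoneOn gg (Set.Ici 0) := by
  intro ε hε δ hδ h
  refine le_of_tendsto_of_tendsto (gg_tendsto hε) (gg_tendsto hδ) ?_
  filter_upwards [eventually_ge_atTop 1] with n hn
  apply div_le_div_of_nonneg_right _ (by positivity)
  apply neg_le_neg
  apply Real.log_le_log (div_pos (Zl_pos δ hn) (Zl_pos 0 hn))
  exact div_le_div_of_nonneg_right (Zl_anti h _) (Zl_pos 0 hn).le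

theorem Zl_holder (L : ℕ) (ε δ : ℝ) {t s : ℝ} (ht : 0 < t) (hs : 0 < s) (hts : t + s = 1) :
    Zl (t * ε + s * δ) L ≤ Zl ε L ^ t * Zl δ L ^ s := by
  have hpq : (1 / t).HolderConjugate (1 / s) := by
    rw [Real.holderConjugate_iff]
    constructor
    · rw [one_lt_div ht]; linarith
    · rw [one_div, one_div, inv_inv, inv_inv]; exact hts
  have h := Real.inner_le_Lp_mul_Lq_of_nonneg (LF L)
    (f := fun f => Real.exp (-(ε * area L f)) ^ t) (g := fun f => Real.exp (-(δ * area L f)) ^ s)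
    hpq (fun _ _ => by positivity) (fun _ _ => by positivity)
  have e1 : ∀ f : ZMod L → ℤ × ℤ, (Real.exp (-(ε * area L f)) ^ t) ^ (1 / t) =
      Real.exp (-(ε * area L f)) := by
    intro f
    rw [← Real.rpow_mul (Real.exp_pos _).le, mul_one_div_cancel ht.ne', Real.rpow_one]
  have e2 : ∀ f : ZMod L → ℤ × ℤ, (Real.exp (-(δ * area L f)) ^ s) ^ (1 / s) =
      Real.exp (-(δ * area L f)) := by
    intro f
    rw [← Real.rpow_mul (Real.exp_pos _).le, mul_one_div_cancel hs.ne', Real.rpow_one]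
  simp only [e1, e2, one_div_one_div] at h
  refine le_trans (le_of_eq ?_) h
  unfold Zl
  refine Finset.sum_congr rfl fun f _ => ?_
  rw [← Real.exp_mul, ← Real.exp_mul, ← Real.exp_add]
  congr 1
  ring

theorem gg_concave : ConcaveOn ℝ (Set.Ici 0) gg := by
  refine ⟨convex_Ici 0, ?_⟩
  intro x hx y hy a b ha hb hab
  rw [Set.mem_Ici] at hx hy
  simp only [smul_eq_mul]
  rcases ha.eq_or_lt with ha0 | ha0
  · have hb1 : b = 1 := by linarith
    rw [← ha0, hb1]
    simp
  rcases hb.eq_or_lt with hb0 | hb0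
  · have ha1 : a = 1 := by linarith
    rw [← hb0, ha1]
    simp
  have hxy : 0 ≤ a * x + b * y := by positivity
  have h1 : Lam (a * x + b * y) ≤ a * Lam x + b * Lam y := by
    have h2 := ((Zl_tendsto hx).const_mul a).add ((Zl_tendsto hy).const_mul b)
    refine le_of_tendsto_of_tendsto (Zl_tendsto hxy) h2 ?_
    filter_upwards [eventually_ge_atTop 1] with n hn
    have h3 := Zl_holder (2 * n) x y ha0 hb0 hab
    have h4 := Real.log_le_log (Zl_pos _ hn) h3
    rw [Real.log_mul (Real.rpow_pos_of_pos (Zl_pos x hn) _).ne'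
      (Real.rpow_pos_of_pos (Zl_pos y hn) _).ne', Real.log_rpow (Zl_pos x hn),
      Real.log_rpow (Zl_pos y hn)] at h4
    have hn0 : (0 : ℝ) < n := by exact_mod_cast hn
    calc Real.log (Zl (a * x + b * y) (2 * n)) / (2 * n)
        ≤ (a * Real.log (Zl x (2 * n)) + b * Real.log (Zl y (2 * n))) / (2 * n) :=
          div_le_div_of_nonneg_right h4 (by positivity)
      _ = _ := by ring
  unfold gg
  have h5 : a * Lam 0 + b * Lam 0 = Lam 0 := by rw [← add_mul, hab, one_mul]
  linarith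

/-- bounds at finite perimeter -/
theorem laplace_le : ∃ K : ℝ, 0 ≤ K ∧ ∀ n : ℕ, 2 ≤ n → ∀ ε : ℝ, 0 ≤ ε →
    Zl ε (2 * n) / Zl 0 (2 * n) ≤ Real.exp (ε + K * Real.log n ^ 2 - 2 * n * gg ε) := by
  obtain ⟨K, hK, h⟩ := counts
  have hmu : 0 < H981.mu := H981.mu_pos
  have hL2 : (0 : ℝ) < Real.log 2 := Real.log_pos (by norm_num)
  refine ⟨K + 4 / Real.log 2, by positivity, fun n hn ε hε => ?_⟩
  have hnr : (2 : ℝ) ≤ n := by exact_mod_cast hn
  have hln : Real.log 2 ≤ Real.log n := Real.log_le_log (by norm_num) hnr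
  rw [div_le_iff₀ (Zl_pos 0 (by omega))]
  have h1 := (Zl_le_Ct ε (L := 2 * n) (by omega)).trans
    (mul_le_mul_of_nonneg_left (Ct_le hε (by omega : 1 ≤ n)) (by positivity))
  refine h1.trans ?_
  have h2 : (8 * n : ℝ) ≤ Real.exp (4 / Real.log 2 * Real.log n ^ 2) := by
    rw [← Real.log_le_iff_le_exp (by positivity), Real.log_mul (by norm_num) (by positivity)]
    have e8 : Real.log 8 = 3 * Real.log 2 := by
      rw [show (8 : ℝ) = 2 ^ 3 by norm_num, Real.log_pow]
      norm_num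
    have h3 : 4 * Real.log n ≤ 4 / Real.log 2 * Real.log n ^ 2 := by
      rw [div_mul_eq_mul_div, le_div_iff₀ hL2]
      nlinarith
    linarith
  have h3 := (h n hn).1
  rw [← Zl_zero] at h3
  have e1 : H981.mu ^ (2 * n) = Real.exp (2 * n * Lam 0) := by
    rw [Lam_zero, ← Real.exp_log hmu, Real.log_exp, ← Real.exp_nat_mul]
    push_cast
    rfl
  rw [e1, ← Real.exp_add] at h3
  calc 2 * ((2 * n : ℕ) : ℝ) * (2 * Real.exp (ε + 2 * n * Lam ε))
      = (8 * n) * Real.exp (ε + 2 * n * Lam ε) := by push_cast; ring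
    _ ≤ Real.exp (4 / Real.log 2 * Real.log n ^ 2) * Real.exp (ε + 2 * n * Lam ε) :=
        mul_le_mul_of_nonneg_right h2 (Real.exp_pos _).le
    _ = Real.exp (ε + (K + 4 / Real.log 2) * Real.log n ^ 2 - 2 * n * gg ε) *
        Real.exp (2 * n * Lam 0 + -(K * Real.log n ^ 2)) := by
        rw [← Real.exp_add, ← Real.exp_add]
        congr 1
        unfold gg
        ring
    _ ≤ _ := mul_le_mul_of_nonneg_left h3 (Real.exp_pos _).le

/-- the mean area -/
noncomputable def mA (n : ℕ) : ℝ := (∑ f ∈ LF (2 * n), (area (2 * n) f : ℝ)) / Zl 0 (2 * n)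

/-- Jensen's inequality -/
theorem laplace_ge {n : ℕ} (hn : 1 ≤ n) (ε : ℝ) :
    Real.exp (-(ε * mA n)) ≤ Zl ε (2 * n) / Zl 0 (2 * n) := by
  have hc := Zl_pos 0 hn
  rw [le_div_iff₀ hc]
  have h1 : ∀ f ∈ LF (2 * n), Real.exp (-(ε * mA n)) * (1 - ε * (area (2 * n) f - mA n)) ≤
      Real.exp (-(ε * area (2 * n) f)) := by
    intro f _
    have h2 := Real.add_one_le_exp (-(ε * (area (2 * n) f - mA n)))
    have h3 := mul_le_mul_of_nonneg_left h2 (Real.exp_pos (-(ε * mA n))).le
    rw [← Real.exp_add] at h3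
    calc _ = Real.exp (-(ε * mA n)) * (-(ε * (area (2 * n) f - mA n)) + 1) := by ring
      _ ≤ _ := h3
      _ = _ := by congr 1; ring
  have h2 := Finset.sum_le_sum h1
  refine le_trans (le_of_eq ?_) h2
  rw [← Finset.mul_sum]
  congr 1
  have h3 : ∑ f ∈ LF (2 * n), (area (2 * n) f : ℝ) = mA n * Zl 0 (2 * n) := by
    unfold mA
    rw [div_mul_cancel₀ _ hc.ne']
  rw [Finset.sum_sub_distrib, ← Finset.mul_sum, Finset.sum_sub_distrib, h3, Finset.sum_const,
    Finset.sum_const, nsmul_eq_mul, nsmul_eq_mul, ← Zl_zero]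
  ring

/-- Markov's inequality -/
theorem small_le {n : ℕ} (hn : 1 ≤ n) {ε : ℝ} (hε : 0 ≤ ε) (a : ℝ) :
    (((LF (2 * n)).filter (fun f => (area (2 * n) f : ℝ) ≤ a)).card : ℝ) / Zl 0 (2 * n) ≤
      Real.exp (ε * a) * (Zl ε (2 * n) / Zl 0 (2 * n)) := by
  rw [← mul_div_assoc]
  apply div_le_div_of_nonneg_right _ (Zl_pos 0 hn).le
  unfold Zl
  rw [Finset.mul_sum, Finset.card_filter, Nat.cast_sum]
  refine Finset.sum_le_sum fun f _ => ?_
  split_ifs with h
  · rw [← Real.exp_add, Nat.cast_one, ← Real.exp_zero]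
    apply Real.exp_le_exp.2
    have := mul_le_mul_of_nonneg_left h hε
    linarith
  · rw [Nat.cast_zero]
    positivity

end Pool.Agent.K6.H36.PJ
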