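import Pool.Agent.K6.H36.PJ.Press2
import Pool.Agent.Results.MP_f6626d_co.AllOrders

/-!
The mean area and the rate of its exponential moments.
-/

set_option autoImplicit false

namespace Pool.Agent.K6.H36.PJ

open Pool.Agent.N223.PS Filter Topology

theorem finsum_LF {n : ℕ} (hn : 1 ≤ n) (F : (ZMod (2 * n) → ℤ × ℤ) → ℝ) :
    ∑ᶠ f ∈ {f : ZMod (2 * n) → ℤ × ℤ | IsLoop (2 * n) f}, F f = ∑ f ∈ LF (2 * n), F f := by
  have : NeZero (2 * n) := ⟨by omega⟩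
  rw [finsum_mem_eq_finite_toFinset_sum F (loops_finite (2 * n))]
  unfold LF
  rw [dif_pos (loops_finite (2 * n))]

theorem ncard_LF {n : ℕ} (hn : 1 ≤ n) :
    (({f : ZMod (2 * n) → ℤ × ℤ | IsLoop (2 * n) f}.ncard : ℕ) : ℝ) = Zl 0 (2 * n) := by
  have : NeZero (2 * n) := ⟨by omega⟩
  rw [Zl_zero]
  unfold LF
  rw [dif_pos (loops_finite (2 * n)), Set.ncard_eq_toFinset_card _ (loops_finite (2 * n))]

theorem mA_ge_one {n : ℕ} (hn : 2 ≤ n) : 1 ≤ mA n := by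
  have h1 := Pool.Agent.Results.MP_f6626d_co.AllOrders.mean_eq hn
  have h2 := Pool.Agent.N929.EZ.area_low_pow (n := 2 * n - 1) (by omega) (by omega) 1
  have h3 := Pool.Agent.N929.EZ.KP_pos (n := 2 * n - 1) (by omega) (by omega)
  have h4 : Pool.Agent.Results.MP_f6626d_co.AllOrders.meanArea n =
      (∑ᶠ f ∈ {f : ZMod (2 * n) → ℤ × ℤ | IsLoop (2 * n) f}, ((area (2 * n) f : ℕ) : ℝ)) /
        (({f : ZMod (2 * n) → ℤ × ℤ | IsLoop (2 * n) f}.ncard : ℕ) : ℝ) := rfl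
  rw [finsum_LF (by omega), ncard_LF (by omega)] at h4
  have h5 : mA n = Pool.Agent.Results.MP_f6626d_co.AllOrders.meanArea n := h4.symm
  rw [h5, h1, le_div_iff₀ h3, one_mul]
  refine le_trans ?_ h2
  rw [pow_one]
  have h6 : (1 : ℝ) ≤ (((2 * n - 1 : ℕ) : ℝ) + 1) / 4 := by
    have : (3 : ℝ) ≤ ((2 * n - 1 : ℕ) : ℝ) := by exact_mod_cast (by omega : 3 ≤ 2 * n - 1)
    linarith
  calc ((Pool.Agent.H739K.KP (2 * n - 1)).card : ℝ)
      = 1 * ((Pool.Agent.H739K.KP (2 * n - 1)).card : ℝ) := (one_mul _).symm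
    _ ≤ _ := mul_le_mul_of_nonneg_right h6 h3.le

/-- the inequality between the mean area and the rate -/
theorem rate_le : ∃ K : ℝ, 0 ≤ K ∧ ∀ n : ℕ, 2 ≤ n → ∀ ε : ℝ, 0 ≤ ε →
    2 * n * gg ε ≤ ε * (mA n + 1) + K * Real.log n ^ 2 := by
  obtain ⟨K, hK, h⟩ := laplace_le
  refine ⟨K, hK, fun n hn ε hε => ?_⟩
  have h1 := (laplace_ge (by omega : 1 ≤ n) ε).trans (h n hn ε hε)
  have h2 := Real.exp_le_exp.1 h1
  linarith

theorem mean_ge_of {K : ℝ} (hK : 0 ≤ K) {A : ℕ → ℝ} {G : ℝ → ℝ}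
    (h : ∀ n : ℕ, 2 ≤ n → ∀ ε : ℝ, 0 ≤ ε → 2 * n * G ε ≤ ε * (A n + 1) + K * Real.log n ^ 2)
    (hA : ∀ n : ℕ, 2 ≤ n → 1 ≤ A n) {a c ε₀ : ℝ} (ha : 1 ≤ a) (hc : 0 < c) (hε₀ : 0 < ε₀)
    (hG : ∀ ε : ℝ, 0 < ε → ε < ε₀ → c * ε ^ (1 / a) ≤ G ε) :
    ∃ c' : ℝ, 0 < c' ∧ ∀ n : ℕ, 2 ≤ n →
      c' * ((n : ℝ) ^ a * Real.log n ^ (2 - 2 * a)) ≤ A n := by
  have ha0 : 0 < a := by linarith
  obtain ⟨K1, hK1⟩ : ∃ K1 : ℝ, K1 = K + 1 := ⟨_, rfl⟩
  have hK10 : 0 < K1 := by linarith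
  have ht : Tendsto (fun n : ℕ => K1 * Real.log n ^ 2 / (c * (n : ℝ))) atTop (𝓝 0) := by
    have h1 := (tendsto_logsq (2 * K1 / c))
    refine h1.congr' ?_
    filter_upwards [eventually_ge_atTop 1] with n hn
    have hn0 : (0 : ℝ) < n := by exact_mod_cast hn
    field_simp
  have hlt : 0 < ε₀ ^ (1 / a) := Real.rpow_pos_of_pos hε₀ _
  obtain ⟨n0, hn0⟩ := eventually_atTop.1 (ht.eventually (gt_mem_nhds hlt))
  obtain ⟨X, hX⟩ : ∃ X : ℕ → ℝ, X = fun n : ℕ => (n : ℝ) ^ a * Real.log n ^ (2 - 2 * a) :=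
    ⟨_, rfl⟩
  have hX0 : ∀ n : ℕ, 0 ≤ X n := by
    intro n
    rw [hX]
    exact mul_nonneg (Real.rpow_nonneg (Nat.cast_nonneg _) _)
      (Real.rpow_nonneg (Real.log_natCast_nonneg _) _)
  obtain ⟨κ, hκ⟩ : ∃ κ : ℝ, κ = K1 * c ^ a / K1 ^ a := ⟨_, rfl⟩
  have hκ0 : 0 < κ := by rw [hκ]; positivity
  have hS : 0 ≤ ∑ i ∈ Finset.range n0, X i := Finset.sum_nonneg fun i _ => hX0 i
  refine ⟨min (κ / 2) (1 / (1 + ∑ i ∈ Finset.range n0, X i)), by positivity, fun n hn => ?_⟩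
  have hXn : (n : ℝ) ^ a * Real.log n ^ (2 - 2 * a) = X n := by rw [hX]
  rw [hXn]
  rcases Nat.lt_or_ge n n0 with h1 | h1
  · have h2 : X n ≤ ∑ i ∈ Finset.range n0, X i :=
      Finset.single_le_sum (fun i _ => hX0 i) (Finset.mem_range.2 h1)
    calc _ ≤ 1 / (1 + ∑ i ∈ Finset.range n0, X i) * X n :=
          mul_le_mul_of_nonneg_right (min_le_right _ _) (hX0 n)
      _ ≤ 1 := by
          rw [one_div, inv_mul_le_iff₀ (by positivity)]
          linarith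
      _ ≤ A n := hA n hn
  · have hnr : (2 : ℝ) ≤ n := by exact_mod_cast hn
    have hn1 : (0 : ℝ) < n := by linarith
    have hL : 0 < Real.log n := Real.log_pos (by linarith)
    have h2 := hn0 n h1
    obtain ⟨y, hy⟩ : ∃ y : ℝ, y = K1 * Real.log n ^ 2 / (c * (n : ℝ)) := ⟨_, rfl⟩
    have hy0 : 0 < y := by rw [hy]; positivity
    rw [← hy] at h2
    have h3 : y ^ a < ε₀ := by
      have := Real.rpow_lt_rpow hy0.le h2 ha0
      rwa [← Real.rpow_mul hε₀.le, one_div_mul_cancel ha0.ne', Real.rpow_one] at this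
    have hya : 0 < y ^ a := Real.rpow_pos_of_pos hy0 _
    have h4 := hG (y ^ a) hya h3
    rw [← Real.rpow_mul hy0.le, mul_one_div_cancel ha0.ne', Real.rpow_one] at h4
    have h5 := h n hn (y ^ a) hya.le
    have h6 : 2 * (n : ℝ) * (c * y) ≤ 2 * n * G (y ^ a) :=
      mul_le_mul_of_nonneg_left h4 (by positivity)
    have h7 : 2 * (n : ℝ) * (c * y) = 2 * (K1 * Real.log n ^ 2) := by
      rw [hy]
      field_simp
    have h8 : K1 * Real.log n ^ 2 ≤ y ^ a * (A n + 1) := by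
      have : K * Real.log n ^ 2 ≤ K1 * Real.log n ^ 2 :=
        mul_le_mul_of_nonneg_right (by linarith) (sq_nonneg _)
      linarith
    have h9 : κ * X n * y ^ a = K1 * Real.log n ^ 2 := by
      rw [hκ, hX, hy]
      simp only
      rw [Real.div_rpow (by positivity) (by positivity), Real.mul_rpow hK10.le (by positivity),
        Real.mul_rpow hc.le hn1.le, ← Real.rpow_natCast (Real.log n) 2, ← Real.rpow_mul hL.le,
        Real.rpow_sub hL]
      have e1 : (2 : ℝ) * a = ((2 : ℕ) : ℝ) * a := by norm_num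
      have e2 : Real.log (n : ℝ) ^ (2 : ℝ) = Real.log n ^ ((2 : ℕ) : ℝ) := by norm_num
      rw [e1, e2]
      have p1 : 0 < Real.log (n : ℝ) ^ (((2 : ℕ) : ℝ) * a) := Real.rpow_pos_of_pos hL _
      have p2 : 0 < (n : ℝ) ^ a := Real.rpow_pos_of_pos hn1 _
      have p3 : 0 < K1 ^ a := Real.rpow_pos_of_pos hK10 _
      have p4 : 0 < c ^ a := Real.rpow_pos_of_pos hc _
      field_simp
    have h10 : κ * X n ≤ A n + 1 := by
      rw [← h9, mul_comm (y ^ a)] at h8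
      exact le_of_mul_le_mul_right h8 hya
    have h11 := hA n hn
    calc _ ≤ κ / 2 * X n := mul_le_mul_of_nonneg_right (min_le_left _ _) (hX0 n)
      _ ≤ A n := by linarith

theorem rate_le_of {K : ℝ} (hK : 0 ≤ K) {A : ℕ → ℝ} {G : ℝ → ℝ}
    (h : ∀ n : ℕ, 2 ≤ n → ∀ ε : ℝ, 0 ≤ ε → 2 * n * G ε ≤ ε * (A n + 1) + K * Real.log n ^ 2)
    {a C : ℝ} (ha : 1 ≤ a) (hC : 0 ≤ C) (hA : ∀ n : ℕ, 2 ≤ n → A n ≤ C * (n : ℝ) ^ a) :
    ∃ C' : ℝ, ∀ ε : ℝ, 0 < ε → ε ≤ 1 / 2 →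
      G ε ≤ C' * (ε ^ (1 / a) * Real.log (1 / ε) ^ (2 - 2 / a)) := by
  have ha0 : 0 < a := by linarith
  have hl2 : (0.69 : ℝ) < Real.log 2 := by
    have := Real.log_two_gt_d9
    linarith
  refine ⟨(C * 5 ^ a + 3 + K * 36) / 2, fun ε hε hε2 => ?_⟩
  obtain ⟨l, hl⟩ : ∃ l : ℝ, l = Real.log (1 / ε) := ⟨_, rfl⟩
  have h2ε : 2 ≤ 1 / ε := by
    rw [le_div_iff₀ hε]
    linarith
  have hlge : Real.log 2 ≤ l := by
    rw [hl]
    exact Real.log_le_log (by norm_num) h2ε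
  have hl0 : 0 < l := by linarith
  have hl3 : 1 ≤ 3 * l ^ 2 := by nlinarith
  obtain ⟨x, hx⟩ : ∃ x : ℝ, x = (l ^ 2 / ε) ^ (1 / a) := ⟨_, rfl⟩
  have hq : (1 / 2 : ℝ) ≤ l ^ 2 / ε := by
    rw [← mul_one_div (l ^ 2) ε]
    have q1 := mul_le_mul_of_nonneg_left h2ε (sq_nonneg l)
    have q2 : (0.3 : ℝ) ≤ l ^ 2 := by nlinarith
    linarith
  have hx1 : (1 / 2 : ℝ) ≤ x := by
    rw [hx]
    rcases le_total 1 (l ^ 2 / ε) with h1 | h1
    · have := Real.one_le_rpow h1 (by positivity : 0 ≤ 1 / a)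
      linarith
    · have h2 : (l ^ 2 / ε) ^ (1 : ℝ) ≤ (l ^ 2 / ε) ^ (1 / a) :=
        Real.rpow_le_rpow_of_exponent_ge (by positivity) h1 (by rw [div_le_one ha0]; exact ha)
      rw [Real.rpow_one] at h2
      linarith
  have hx0 : 0 < x := by linarith
  have hxa : x ^ a = l ^ 2 / ε := by
    rw [hx, ← Real.rpow_mul (by positivity), one_div_mul_cancel ha0.ne', Real.rpow_one]
  obtain ⟨n, hn⟩ : ∃ n : ℕ, n = ⌈x⌉₊ + 1 := ⟨_, rfl⟩
  have hn1 : x ≤ n := by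
    rw [hn]
    push_cast
    have := Nat.le_ceil x
    linarith
  have hn2 : (n : ℝ) ≤ 5 * x := by
    rw [hn]
    push_cast
    have := Nat.ceil_lt_add_one hx0.le
    linarith
  have hn3 : 2 ≤ n := by
    rw [hn]
    have : 0 < ⌈x⌉₊ := Nat.ceil_pos.2 hx0
    omega
  have hnr : (2 : ℝ) ≤ n := by exact_mod_cast hn3
  have hlogn : Real.log n ≤ 6 * l := by
    have h1 : Real.log n ≤ Real.log (5 * x) := Real.log_le_log (by linarith) hn2
    rw [Real.log_mul (by norm_num) hx0.ne'] at h1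
    have h2 : Real.log x ≤ 2 * l := by
      rw [hx, Real.log_rpow (by positivity), Real.log_div (by positivity) hε.ne', Real.log_pow]
      have h3 : Real.log l ≤ l - 1 := Real.log_le_sub_one_of_pos hl0
      have h4 : -Real.log ε = l := by
        rw [hl, one_div, Real.log_inv]
      have h5 : 2 * Real.log l + l ≤ 3 * l - 2 := by linarith
      push_cast
      rcases le_total 0 (2 * Real.log l - Real.log ε) with h6 | h6
      · have h7 : 1 / a * (2 * Real.log l - Real.log ε) ≤ 1 * (2 * Real.log l - Real.log ε) :=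
          mul_le_mul_of_nonneg_right (by rw [div_le_one ha0]; exact ha) h6
        -- use the sharper bound `log l ≤ l / e`
        have h8 : Real.log l ≤ l / 2 := by
          have h9 : Real.log (l / 2) ≤ l / 2 - 1 :=
            Real.log_le_sub_one_of_pos (by positivity)
          rw [Real.log_div hl0.ne' (by norm_num)] at h9
          have h10 : Real.log 2 < 1 := by
            have := Real.log_two_lt_d9
            linarith
          linarith
        linarith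
      · have h7 : 1 / a * (2 * Real.log l - Real.log ε) ≤ 0 :=
          mul_nonpos_of_nonneg_of_nonpos (by positivity) h6
        linarith
    have h3 : Real.log 5 ≤ 4 * l := by
      have h4 : Real.log 5 ≤ Real.log (2 ^ 4) := Real.log_le_log (by norm_num) (by norm_num)
      rw [Real.log_pow] at h4
      push_cast at h4
      linarith
    linarith
  have hlogn0 : 0 ≤ Real.log n := Real.log_natCast_nonneg _
  have hsq : Real.log n ^ 2 ≤ 36 * l ^ 2 := by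
    have := pow_le_pow_left₀ hlogn0 hlogn 2
    rw [mul_pow] at this
    linarith
  have h1 := h n hn3 ε hε.le
  have h2 := hA n hn3
  have h3 : (n : ℝ) ^ a ≤ 5 ^ a * (l ^ 2 / ε) := by
    rw [← hxa, ← Real.mul_rpow (by norm_num) hx0.le]
    exact Real.rpow_le_rpow (by linarith) hn2 ha0.le
  have h4 : ε * (A n + 1) ≤ (C * 5 ^ a + 3) * l ^ 2 := by
    have h5 : A n ≤ C * (5 ^ a * (l ^ 2 / ε)) := h2.trans (mul_le_mul_of_nonneg_left h3 hC)
    have h6 := mul_le_mul_of_nonneg_left h5 hε.le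
    have h7 : ε * (C * (5 ^ a * (l ^ 2 / ε))) = C * 5 ^ a * l ^ 2 := by
      field_simp
    rw [h7] at h6
    nlinarith
  have h5 : 2 * (n : ℝ) * G ε ≤ (C * 5 ^ a + 3 + K * 36) * l ^ 2 := by
    have := mul_le_mul_of_nonneg_left hsq hK
    nlinarith
  have hM : 0 ≤ (C * 5 ^ a + 3 + K * 36) * l ^ 2 := by positivity
  have h6 : G ε ≤ (C * 5 ^ a + 3 + K * 36) * l ^ 2 / (2 * x) := by
    rw [le_div_iff₀ (by positivity)]
    rcases le_total 0 (G ε) with h7 | h7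
    · have : G ε * (2 * x) ≤ G ε * (2 * n) := mul_le_mul_of_nonneg_left (by linarith) h7
      linarith
    · have : G ε * (2 * x) ≤ 0 := mul_nonpos_of_nonpos_of_nonneg h7 (by positivity)
      linarith
  refine h6.trans (le_of_eq ?_)
  rw [← hl, hx, Real.div_rpow (by positivity) hε.le, ← Real.rpow_natCast l 2,
    ← Real.rpow_mul hl0.le, Real.rpow_sub hl0]
  have e1 : (2 : ℝ) / a = ((2 : ℕ) : ℝ) * (1 / a) := by
    rw [mul_one_div]; norm_num
  have e2 : l ^ (2 : ℝ) = l ^ ((2 : ℕ) : ℝ) := by norm_num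
  rw [e1, e2]
  have p1 : 0 < l ^ (((2 : ℕ) : ℝ) * (1 / a)) := Real.rpow_pos_of_pos hl0 _
  have p2 : 0 < ε ^ (1 / a) := Real.rpow_pos_of_pos hε _
  field_simp

end Pool.Agent.K6.H36.PJ
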