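import Pool.Agent.K6.H36.PJ.Press3

/-!
The rate function of small areas.
-/

set_option autoImplicit false

namespace Pool.Agent.K6.H36.PJ

open Pool.Agent.N223.PS Filter Topology

open scoped Classical in
/-- the number of the loops with area at most `r` and root at the end of the top row -/
noncomputable def qn (L : ℕ) (r : ℝ) : ℝ := ∑ f ∈ TF L, if (area L f : ℝ) ≤ r then (1 : ℝ) else 0

open scoped Classical in
/-- the number of the loops with area at most `r` -/
noncomputable def ln (L : ℕ) (r : ℝ) : ℝ := ∑ f ∈ LF L, if (area L f : ℝ) ≤ r then (1 : ℝ) else 0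

theorem ite_nn (p : Prop) [Decidable p] : (0 : ℝ) ≤ if p then (1 : ℝ) else 0 := by
  split_ifs <;> norm_num

theorem qn_nonneg (L : ℕ) (r : ℝ) : 0 ≤ qn L r := Finset.sum_nonneg fun _ _ => ite_nn _

theorem qn_mono (L : ℕ) {r s : ℝ} (h : r ≤ s) : qn L r ≤ qn L s := by
  classical
  unfold qn
  refine Finset.sum_le_sum fun f _ => ?_
  by_cases h1 : (area L f : ℝ) ≤ r
  · rw [if_pos h1, if_pos (h1.trans h)]
  · rw [if_neg h1]
    exact ite_nn _

theorem ln_mono (L : ℕ) {r s : ℝ} (h : r ≤ s) : ln L r ≤ ln L s := by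
  classical
  unfold ln
  refine Finset.sum_le_sum fun f _ => ?_
  by_cases h1 : (area L f : ℝ) ≤ r
  · rw [if_pos h1, if_pos (h1.trans h)]
  · rw [if_neg h1]
    exact ite_nn _

theorem qn_mul {M N : ℕ} (hM : 2 ≤ M) (hN : 2 ≤ N) (r s : ℝ) :
    qn M r * qn N s ≤ 2 * qn (M + N) (r + s + 1) := by
  classical
  have h := area_join_le (w := fun a => if (a : ℝ) ≤ r + s + 1 then (1 : ℝ) else 0)
    (fun _ => ite_nn _) hM hN
  refine le_trans ?_ h
  unfold qn
  rw [Finset.sum_mul_sum]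
  refine Finset.sum_le_sum fun g _ => Finset.sum_le_sum fun f _ => ?_
  by_cases h1 : (area M g : ℝ) ≤ r
  · by_cases h2 : (area N f : ℝ) ≤ s
    · rw [if_pos h1, if_pos h2, if_pos]
      · norm_num
      · push_cast
        linarith
    · rw [if_neg h2, mul_zero]
      exact ite_nn _
  · rw [if_neg h1, zero_mul]
    exact ite_nn _

theorem qn_le_card (L : ℕ) (r : ℝ) : qn L r ≤ ((TF L).card : ℝ) := by
  classical
  unfold qn
  have h : ∀ f ∈ TF L, (if (area L f : ℝ) ≤ r then (1 : ℝ) else 0) ≤ 1 := by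
    intro f _
    split_ifs <;> norm_num
  have := Finset.sum_le_card_nsmul _ _ _ h
  rwa [nsmul_eq_mul, mul_one] at this

theorem qn_le_ln {L : ℕ} (hL : 0 < L) (r : ℝ) : qn L r ≤ ln L r := by
  classical
  unfold qn ln
  exact Finset.sum_le_sum_of_subset_of_nonneg (TF_sub hL) (fun _ _ _ => ite_nn _)

theorem ln_le_qn {L : ℕ} (hL : 3 ≤ L) (r : ℝ) : ln L r ≤ 2 * L * qn L r := by
  classical
  exact sum_loops_le hL (inv_area (w := fun a => if (a : ℝ) ≤ r then (1 : ℝ) else 0)
    (fun _ => ite_nn _) L)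

theorem qn_pos {n : ℕ} (hn : 1 ≤ n) {r : ℝ} (hr : (n : ℝ) - 1 ≤ r) : 0 < qn (2 * n) r := by
  classical
  obtain ⟨f, hf, ha⟩ := exists_narrow n hn
  unfold qn
  refine Finset.sum_pos' (fun _ _ => ite_nn _) ⟨f, (mem_TF (by omega)).2 hf, ?_⟩
  rw [if_pos]
  · norm_num
  · rw [ha, Nat.cast_sub hn]
    push_cast
    exact hr

/-- the rate of the numbers of the loops with small area -/
theorem exists_J {x : ℝ} (hx : 1 / 2 ≤ x) : ∃ l : ℝ,
    Tendsto (fun n : ℕ => Real.log (qn (2 * n) (2 * n * x - 1)) / (2 * n)) atTop (𝓝 l) ∧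
      ∀ n : ℕ, 1 ≤ n → qn (2 * n) (2 * n * x - 1) ≤ 2 * Real.exp (2 * n * l) := by
  obtain ⟨B, hB, hcard⟩ := card_exp
  obtain ⟨t, ht⟩ : ∃ t : ℕ → ℝ, t = fun n => qn (2 * n) (2 * n * x - 1) / 2 := ⟨_, rfl⟩
  have hq : ∀ n : ℕ, 1 ≤ n → 0 < qn (2 * n) (2 * n * x - 1) := by
    intro n hn
    apply qn_pos hn
    have hn0 : (0 : ℝ) < n := by exact_mod_cast hn
    nlinarith
  have hpos : ∀ n, 1 ≤ n → 0 < t n := by
    intro n hn
    rw [ht]
    have := hq n hn
    simp only
    linarith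
  obtain ⟨l, h1, h2⟩ := fekete (a := t) (B := B) hpos (by
    intro m n hm hn
    have h := qn_mul (M := 2 * m) (N := 2 * n) (by omega) (by omega) (2 * m * x - 1)
      (2 * n * x - 1)
    rw [ht]
    simp only
    rw [show 2 * (m + n) = 2 * m + 2 * n by ring,
      show 2 * ((m + n : ℕ) : ℝ) * x - 1 = 2 * m * x - 1 + (2 * n * x - 1) + 1 by
        push_cast; ring]
    linarith) (by
    intro n hn
    rw [ht]
    simp only
    have h3 : qn (2 * n) (2 * n * x - 1) ≤ Real.exp (B * n) :=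
      (qn_le_card _ _).trans (le_trans
        (by exact_mod_cast Finset.card_le_card (TF_sub (by omega))) (hcard n hn))
    have h5 := hq n hn
    linarith)
  refine ⟨l, ?_, ?_⟩
  · have h3 : Tendsto (fun n : ℕ => Real.log (t n) / (2 * n) + (Real.log 2) / (2 * (n : ℝ)))
        atTop (𝓝 (l + 0)) := h1.add (tendsto_two_mul.const_div_atTop _)
    rw [add_zero] at h3
    refine h3.congr' ?_
    filter_upwards [eventually_ge_atTop 1] with n hn
    rw [← add_div]
    congr 1
    rw [ht]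
    simp only
    rw [Real.log_div (hq n hn).ne' (by norm_num)]
    ring
  · intro n hn
    have h3 := h2 n hn
    rw [ht] at h3
    simp only at h3
    linarith

/-- the growth rate of the numbers of the loops with area at most `2 n x` -/
noncomputable def JJ (x : ℝ) : ℝ :=
  if h : 1 / 2 ≤ x then Classical.choose (exists_J h) else 0

theorem JJ_tendsto {x : ℝ} (hx : 1 / 2 ≤ x) :
    Tendsto (fun n : ℕ => Real.log (qn (2 * n) (2 * n * x - 1)) / (2 * n)) atTop (𝓝 (JJ x)) := by
  unfold JJ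
  rw [dif_pos hx]
  exact (Classical.choose_spec (exists_J hx)).1

theorem qn_le {x : ℝ} (hx : 1 / 2 ≤ x) {n : ℕ} (hn : 1 ≤ n) :
    qn (2 * n) (2 * n * x - 1) ≤ 2 * Real.exp (2 * n * JJ x) := by
  unfold JJ
  rw [dif_pos hx]
  exact (Classical.choose_spec (exists_J hx)).2 n hn

theorem qx_pos {x : ℝ} (hx : 1 / 2 ≤ x) {n : ℕ} (hn : 1 ≤ n) :
    0 < qn (2 * n) (2 * n * x - 1) := by
  apply qn_pos hn
  have hn0 : (0 : ℝ) < n := by exact_mod_cast hn
  nlinarith

theorem JJ_mono {x y : ℝ} (hx : 1 / 2 ≤ x) (h : x ≤ y) : JJ x ≤ JJ y := by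
  refine le_of_tendsto_of_tendsto (JJ_tendsto hx) (JJ_tendsto (hx.trans h)) ?_
  filter_upwards [eventually_ge_atTop 1] with n hn
  apply div_le_div_of_nonneg_right _ (by positivity)
  apply Real.log_le_log (qx_pos hx hn)
  apply qn_mono
  have hn0 : (0 : ℝ) < n := by exact_mod_cast hn
  nlinarith

theorem JJ_le {x : ℝ} (hx : 1 / 2 ≤ x) : JJ x ≤ Real.log H981.mu := by
  rw [← Lam_zero]
  refine le_of_tendsto_of_tendsto (JJ_tendsto hx) (Lam_tendsto le_rfl) ?_
  filter_upwards [eventually_ge_atTop 1] with n hn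
  apply div_le_div_of_nonneg_right _ (by positivity)
  rw [Ct_zero]
  exact Real.log_le_log (qx_pos hx hn) (qn_le_card _ _)

/-- the natural limit -/
theorem ln_tendsto {x : ℝ} (hx : 1 / 2 < x) :
    Tendsto (fun n : ℕ => Real.log (ln (2 * n) (2 * n * x)) / (2 * n)) atTop (𝓝 (JJ x)) := by
  -- joins with the degenerate loop
  have hdeg : ∀ (j n : ℕ) (r : ℝ), 1 ≤ n → qn (2 * n) r ≤ 2 ^ j * qn (2 * (n + j)) (r + j) := by
    intro j
    induction j with
    | zero => intro n r _; simp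
    | succ j ih =>
      intro n r hn
      have h1 := ih n r hn
      have h2 := qn_mul (M := 2) (N := 2 * (n + j)) le_rfl (by omega) 0 (r + j)
      have h3 : (1 : ℝ) ≤ qn 2 0 := by
        classical
        unfold qn
        have h4 : ∀ f ∈ TF 2, (0 : ℝ) ≤ if (area 2 f : ℝ) ≤ 0 then (1 : ℝ) else 0 :=
          fun _ _ => ite_nn _
        have h5 := Finset.single_le_sum h4 ((mem_TF (by omega)).2 dg_top)
        simp only [dg_area, Nat.cast_zero, le_refl, if_true] at h5
        exact h5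
      have h4 := qn_nonneg (2 * (n + j)) (r + j)
      have h5 : qn (2 * (n + j)) (r + j) ≤ 2 * qn (2 * (n + (j + 1))) (r + (j + 1 : ℕ)) := by
        have e1 : 2 * (n + (j + 1)) = 2 + 2 * (n + j) := by ring
        have e2 : r + ((j + 1 : ℕ) : ℝ) = 0 + (r + j) + 1 := by push_cast; ring
        rw [e1, e2]
        nlinarith
      calc qn (2 * n) r ≤ 2 ^ j * qn (2 * (n + j)) (r + j) := h1
        _ ≤ 2 ^ j * (2 * qn (2 * (n + (j + 1))) (r + (j + 1 : ℕ))) :=
          mul_le_mul_of_nonneg_left h5 (by positivity)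
        _ = _ := by rw [pow_succ]; ring
  obtain ⟨j, hj⟩ : ∃ j : ℕ, 1 / (2 * x - 1) ≤ j := exists_nat_ge _
  have hj1 : 1 ≤ j * (2 * x - 1) := by
    rw [div_le_iff₀ (by linarith)] at hj
    exact hj
  have hup : ∀ n : ℕ, 2 ≤ n → ln (2 * n) (2 * n * x) ≤
      (4 * n) * (2 ^ j * (2 * Real.exp (2 * (n + j : ℕ) * JJ x))) := by
    intro n hn
    have h1 := ln_le_qn (L := 2 * n) (by omega) (2 * n * x)
    have h2 := hdeg j n (2 * n * x) (by omega)
    have h3 : qn (2 * (n + j)) (2 * n * x + j) ≤ qn (2 * (n + j)) (2 * (n + j : ℕ) * x - 1) := by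
      apply qn_mono
      push_cast
      linarith
    have h4 := qn_le hx.le (n := n + j) (by omega)
    refine h1.trans ?_
    have e : (2 : ℝ) * ((2 * n : ℕ) : ℝ) = 4 * n := by push_cast; ring
    rw [e]
    apply mul_le_mul_of_nonneg_left _ (by positivity)
    refine h2.trans (mul_le_mul_of_nonneg_left (h3.trans h4) (by positivity))
  have h2 : Tendsto (fun n : ℕ => JJ x + (Real.log (4 * n) / (2 * (n : ℝ)) +
      (Real.log (2 ^ j * 2) + 2 * j * JJ x) / (2 * (n : ℝ)))) atTop (𝓝 (JJ x + (0 + 0))) :=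
    tendsto_const_nhds.add (tendsto_log_div.add (tendsto_two_mul.const_div_atTop _))
  rw [add_zero, add_zero] at h2
  have hlow : ∀ n : ℕ, 1 ≤ n → qn (2 * n) (2 * n * x - 1) ≤ ln (2 * n) (2 * n * x) := by
    intro n hn
    refine (qn_le_ln (by omega) _).trans (ln_mono _ (by linarith))
  refine tendsto_of_tendsto_of_tendsto_of_le_of_le' (JJ_tendsto hx.le) h2 ?_ ?_
  · filter_upwards [eventually_ge_atTop 1] with n hn
    apply div_le_div_of_nonneg_right _ (by positivity)
    exact Real.log_le_log (qx_pos hx.le hn) (hlow n hn)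
  · filter_upwards [eventually_ge_atTop 2] with n hn
    have hn0 : (0 : ℝ) < n := by exact_mod_cast (by omega : 0 < n)
    have h5 : 0 < ln (2 * n) (2 * n * x) := (qx_pos hx.le (by omega)).trans_le (hlow n (by omega))
    have h3 := Real.log_le_log h5 (hup n hn)
    have e : (4 * (n : ℝ)) * (2 ^ j * (2 * Real.exp (2 * (n + j : ℕ) * JJ x))) =
      (4 * n) * ((2 ^ j * 2) * Real.exp (2 * (n + j : ℕ) * JJ x)) := by ring
    rw [e, Real.log_mul (by positivity) (by positivity),
      Real.log_mul (by positivity) (Real.exp_pos _).ne', Real.log_exp] at h3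
    rw [div_le_iff₀ (by positivity)]
    refine h3.trans (le_of_eq ?_)
    push_cast
    field_simp
    ring

/-- concavity -/
theorem JJ_concave_aux {x y : ℝ} (hx : 1 / 2 ≤ x) (hxy : x ≤ y) {a b : ℝ} (ha : 0 < a)
    (hb : 0 < b) (hab : a + b = 1) : a * JJ x + b * JJ y ≤ JJ (a * x + b * y) := by
  have hy : 1 / 2 ≤ y := hx.trans hxy
  have hz : 1 / 2 ≤ a * x + b * y := by nlinarith
  obtain ⟨m, hm⟩ : ∃ m : ℕ → ℕ, m = fun N : ℕ => ⌈a * (N : ℝ)⌉₊ := ⟨_, rfl⟩
  have hm1 : ∀ N : ℕ, a * N ≤ m N := fun N => by rw [hm]; exact Nat.le_ceil _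
  have hm2 : ∀ N : ℕ, (m N : ℝ) < a * N + 1 := fun N => by
    rw [hm]; exact Nat.ceil_lt_add_one (by positivity)
  have hmN : ∀ N : ℕ, m N ≤ N := by
    intro N
    rw [hm]
    apply Nat.ceil_le.2
    have : (0 : ℝ) ≤ N := Nat.cast_nonneg _
    nlinarith
  -- the ratios
  have r1 : Tendsto (fun N : ℕ => (m N : ℝ) / N) atTop (𝓝 a) := by
    have h1 : Tendsto (fun N : ℕ => a + 1 / (N : ℝ)) atTop (𝓝 (a + 0)) :=
      tendsto_const_nhds.add tendsto_one_div_atTop_nhds_zero_nat
    rw [add_zero] at h1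
    refine tendsto_of_tendsto_of_tendsto_of_le_of_le' tendsto_const_nhds h1 ?_ ?_
    · filter_upwards [eventually_ge_atTop 1] with N hN
      have hN0 : (0 : ℝ) < N := by exact_mod_cast hN
      rw [le_div_iff₀ hN0]
      exact hm1 N
    · filter_upwards [eventually_ge_atTop 1] with N hN
      have hN0 : (0 : ℝ) < N := by exact_mod_cast hN
      rw [div_le_iff₀ hN0, add_mul, one_div_mul_cancel hN0.ne']
      exact (hm2 N).le
  have r2 : Tendsto (fun N : ℕ => ((N - m N : ℕ) : ℝ) / N) atTop (𝓝 b) := by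
    have h1 : Tendsto (fun N : ℕ => 1 - (m N : ℝ) / N) atTop (𝓝 (1 - a)) :=
      tendsto_const_nhds.sub r1
    have e : 1 - a = b := by linarith
    rw [e] at h1
    refine h1.congr' ?_
    filter_upwards [eventually_ge_atTop 1] with N hN
    have hN0 : (0 : ℝ) < N := by exact_mod_cast hN
    rw [Nat.cast_sub (hmN N)]
    field_simp
  have t1 : Tendsto m atTop atTop := by
    have h1 : Tendsto (fun N : ℕ => (m N : ℝ)) atTop atTop := by
      refine tendsto_atTop_mono hm1 ?_
      exact tendsto_natCast_atTop_atTop.const_mul_atTop ha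
    exact tendsto_natCast_atTop_iff.1 h1
  have t2 : Tendsto (fun N => N - m N) atTop atTop := by
    have h1 : Tendsto (fun N : ℕ => ((N - m N : ℕ) : ℝ)) atTop atTop := by
      have h2 : Tendsto (fun N : ℕ => b * (N : ℝ) - 1) atTop atTop :=
        tendsto_atTop_add_const_right _ _ (tendsto_natCast_atTop_atTop.const_mul_atTop hb)
      refine tendsto_atTop_mono (fun N => ?_) h2
      rw [Nat.cast_sub (hmN N)]
      have := hm2 N
      have e : b = 1 - a := by linarith
      rw [e]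
      nlinarith
    exact tendsto_natCast_atTop_iff.1 h1
  have h1 := r1.mul ((JJ_tendsto hx).comp t1)
  have h2 := r2.mul ((JJ_tendsto hy).comp t2)
  have h3 := h1.add h2
  have h4 : Tendsto (fun N : ℕ => Real.log (qn (2 * N) (2 * N * (a * x + b * y) - 1)) / (2 * N) +
      Real.log 2 / (2 * (N : ℝ))) atTop (𝓝 (JJ (a * x + b * y) + 0)) :=
    (JJ_tendsto hz).add (tendsto_two_mul.const_div_atTop _)
  rw [add_zero] at h4
  refine le_of_tendsto_of_tendsto h3 h4 ?_
  filter_upwards [eventually_ge_atTop 1, t1.eventually_ge_atTop 1, t2.eventually_ge_atTop 1]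
    with N hN hN1 hN2
  have hN0 : (0 : ℝ) < N := by exact_mod_cast hN
  have hm0 : (0 : ℝ) < m N := by exact_mod_cast hN1
  have hk0 : (0 : ℝ) < ((N - m N : ℕ) : ℝ) := by exact_mod_cast hN2
  simp only [Function.comp]
  have h5 := qn_mul (M := 2 * m N) (N := 2 * (N - m N)) (by omega) (by omega)
    (2 * (m N : ℝ) * x - 1) (2 * ((N - m N : ℕ) : ℝ) * y - 1)
  have hcast : ((N - m N : ℕ) : ℝ) = N - m N := Nat.cast_sub (hmN N)
  have h6 : qn (2 * m N + 2 * (N - m N))
      (2 * (m N : ℝ) * x - 1 + (2 * ((N - m N : ℕ) : ℝ) * y - 1) + 1) ≤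
      qn (2 * N) (2 * N * (a * x + b * y) - 1) := by
    have e1 : 2 * m N + 2 * (N - m N) = 2 * N := by
      have := hmN N
      omega
    rw [e1]
    apply qn_mono
    rw [hcast]
    have h7 := hm1 N
    have e2 : b = 1 - a := by linarith
    rw [e2]
    nlinarith [mul_nonneg (sub_nonneg.2 h7) (sub_nonneg.2 hxy)]
  have p1 := qx_pos hx hN1
  have p2 := qx_pos hy hN2
  have p3 := qx_pos hz hN
  have h8 := Real.log_le_log (mul_pos p1 p2) (h5.trans (mul_le_mul_of_nonneg_left h6 (by norm_num)))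
  rw [Real.log_mul p1.ne' p2.ne', Real.log_mul (by norm_num) p3.ne'] at h8
  have e3 : (m N : ℝ) / N * (Real.log (qn (2 * m N) (2 * (m N : ℝ) * x - 1)) / (2 * (m N : ℝ))) +
      ((N - m N : ℕ) : ℝ) / N *
        (Real.log (qn (2 * (N - m N)) (2 * ((N - m N : ℕ) : ℝ) * y - 1)) /
          (2 * ((N - m N : ℕ) : ℝ))) =
      (Real.log (qn (2 * m N) (2 * (m N : ℝ) * x - 1)) +
        Real.log (qn (2 * (N - m N)) (2 * ((N - m N : ℕ) : ℝ) * y - 1))) / (2 * N) := by
    field_simp
  rw [e3, ← add_div]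
  apply div_le_div_of_nonneg_right _ (by positivity)
  linarith

theorem JJ_concave : ConcaveOn ℝ (Set.Ici (1 / 2)) JJ := by
  refine ⟨convex_Ici _, ?_⟩
  intro x hx y hy a b ha hb hab
  rw [Set.mem_Ici] at hx hy
  simp only [smul_eq_mul]
  rcases ha.eq_or_lt with ha0 | ha0
  · have hb1 : b = 1 := by linarith
    rw [← ha0, hb1]
    simp
  rcases hb.eq_or_lt with hb0 | hb0
  · have ha1 : a = 1 := by linarith
    rw [← hb0, ha1]
    simp
  rcases le_total x y with h | h
  · exact JJ_concave_aux hx h ha0 hb0 hab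
  · have := JJ_concave_aux hy h hb0 ha0 (by linarith)
    rw [add_comm (a * JJ x), add_comm (a * x)]
    exact this

end Pool.Agent.K6.H36.PJ
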