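import Pool.Agent.K6.H36.PJ.Strip3

/-!
Joins of loops in a box.
-/

set_option autoImplicit false

namespace Pool.Agent.K6.H36.PJ

open Pool.Agent.N223.PS Filter Topology

/-- the height is at most `h` -/
def Lw {L : ℕ} (h : ℤ) (f : ZMod L → ℤ × ℤ) : Prop := ∀ i j, (f i).2 - (f j).2 ≤ h

/-- the width is at most `w` -/
def Nr {L : ℕ} (w : ℤ) (f : ZMod L → ℤ × ℤ) : Prop := ∀ i j, (f i).1 - (f j).1 ≤ w

theorem lw_rot {L : ℕ} {h : ℤ} (f : ZMod L → ℤ × ℤ) (s : ZMod L) : Lw h (rot s f) ↔ Lw h f := by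
  unfold Lw
  constructor
  · intro H i j
    have := H (i - s) (j - s)
    simp only [rot, Prod.snd_sub, sub_add_cancel] at this
    omega
  · intro H i j
    have := H (i + s) (j + s)
    simp only [rot, Prod.snd_sub]
    omega

theorem nr_rot {L : ℕ} {h : ℤ} (f : ZMod L → ℤ × ℤ) (s : ZMod L) : Nr h (rot s f) ↔ Nr h f := by
  unfold Nr
  constructor
  · intro H i j
    have := H (i - s) (j - s)
    simp only [rot, Prod.fst_sub, sub_add_cancel] at this
    omega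
  · intro H i j
    have := H (i + s) (j + s)
    simp only [rot, Prod.fst_sub]
    omega

theorem lw_rev {L : ℕ} {h : ℤ} (f : ZMod L → ℤ × ℤ) : Lw h (rev f) ↔ Lw h f := by
  unfold Lw
  constructor
  · intro H i j
    have := H (-i) (-j)
    simp only [rev, neg_neg] at this
    exact this
  · intro H i j
    exact H (-i) (-j)

theorem nr_rev {L : ℕ} {h : ℤ} (f : ZMod L → ℤ × ℤ) : Nr h (rev f) ↔ Nr h f := by
  unfold Nr
  constructor
  · intro H i j
    have := H (-i) (-j)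
    simp only [rev, neg_neg] at this
    exact this
  · intro H i j
    exact H (-i) (-j)

theorem lw_flp {L : ℕ} {h : ℤ} (f : ZMod L → ℤ × ℤ) : Lw h (flp f) ↔ Lw h f := by
  unfold Lw
  constructor
  · intro H i j
    have := H j i
    simp only [flp] at this
    omega
  · intro H i j
    have := H j i
    simp only [flp]
    omega

theorem lw_join {M N : ℕ} {G : ZMod M → ℤ × ℤ} {f : ZMod N → ℤ × ℤ} (hG : Bot M G) (hf : Top N f)
    (hM : 2 ≤ M) (hN : 2 ≤ N) {h h' : ℤ} (h1 : Lw h f) (h2 : Lw h' G) :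
    Lw (h + h' + 1) (join M N G f) := by
  have hh : 0 ≤ h := by have := h1 0 0; omega
  have hh' : 0 ≤ h' := by have := h2 0 0; omega
  have key : ∀ i, -h ≤ (join M N G f i).2 ∧ (join M N G f i).2 ≤ h' + 1 := by
    intro i
    rcases join_cases hM hN hG hf i with ⟨-, e⟩ | ⟨t, -, -, e⟩ | ⟨t, -, -, -, e⟩
    · rw [e]
      simp only [Prod.snd_zero]
      omega
    · rw [e]
      have t1 := hG.hgt (t : ZMod M)
      have t2 := h2 (t : ZMod M) 0
      rw [hG.loop.1] at t2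
      simp only [Prod.snd_zero] at t2
      simp only
      omega
    · rw [e]
      have t1 := hf.hgt (t : ZMod N)
      have t2 := h1 0 (t : ZMod N)
      rw [hf.loop.1] at t2
      simp only [Prod.snd_zero] at t2
      omega
  intro i j
  have := key i
  have := key j
  omega

open scoped Classical in
/-- the number of the loops of the class `(a, b)` of height at most `h` -/
noncomputable def Vn (k h a b : ℤ) (L : ℕ) : ℝ :=
  ∑ f ∈ TF L, if Pl k a b f ∧ Lw h f then (1 : ℝ) else 0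

open scoped Classical in
/-- all the rooted loops of the class `(a, b)` of height at most `h` -/
noncomputable def Un (k h a b : ℤ) (L : ℕ) : ℝ :=
  ∑ f ∈ LF L, if Pl k a b f ∧ Lw h f then (1 : ℝ) else 0

open scoped Classical in
/-- the number of the rooted loops of width at most `w` and height at most `h` -/
noncomputable def Bn (w h : ℤ) (L : ℕ) : ℝ :=
  ∑ f ∈ LF L, if Nr w f ∧ Lw h f then (1 : ℝ) else 0

theorem Vn_nonneg (k h a b : ℤ) (L : ℕ) : 0 ≤ Vn k h a b L := by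
  unfold Vn
  exact Finset.sum_nonneg fun f _ => by split_ifs <;> norm_num

theorem Bn_nonneg (w h : ℤ) (L : ℕ) : 0 ≤ Bn w h L := by
  unfold Bn
  exact Finset.sum_nonneg fun f _ => by split_ifs <;> norm_num

theorem Vn_mul (k h h' a b c : ℤ) {M N : ℕ} (hM : 2 ≤ M) (hN : 2 ≤ N) :
    Vn k h' c b M * Vn k h a b N ≤ 2 * Vn k (h + h' + 1) a c (M + N) := by
  classical
  have hinv : Inv (fun f : ZMod (M + N) → ℤ × ℤ =>
      if Pl k a c f ∧ Lw (h + h' + 1) f then (1 : ℝ) else 0) := by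
    refine ⟨fun f => ?_, fun f s hf => ?_, fun f hf => ?_⟩
    · split_ifs <;> norm_num
    · simp only [pl_rot hf s, lw_rot]
    · simp only [pl_rev, lw_rev]
  have hj := join_le hM hN hinv
  refine le_trans ?_ hj
  rw [sum_BF (by omega)]
  unfold Vn
  rw [Finset.sum_mul_sum]
  refine Finset.sum_le_sum fun g hg => Finset.sum_le_sum fun f hf => ?_
  have hg' := (mem_TF (by omega)).1 hg
  have hf' := (mem_TF (by omega)).1 hf
  by_cases h1 : Pl k c b g ∧ Lw h' g
  · by_cases h2 : Pl k a b f ∧ Lw h f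
    · have h3 : Pl k b c (flp (rev g)) := pl_flp.2 (pl_rev.2 h1.1)
      have h4 : Lw h' (flp (rev g)) := (lw_flp _).2 ((lw_rev _).2 h1.2)
      rw [if_pos h1, if_pos h2, if_pos ⟨pl_join hg'.bot hf' hM hN h2.1 h3,
        lw_join hg'.bot hf' hM hN h2.2 h4⟩]
      norm_num
    · rw [if_neg h2]
      split_ifs <;> norm_num
  · rw [if_neg h1]
    split_ifs <;> norm_num

theorem Vn_le_Un (k h a b : ℤ) {L : ℕ} (hL : 0 < L) : Vn k h a b L ≤ Un k h a b L := by
  classical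
  unfold Vn Un
  exact Finset.sum_le_sum_of_subset_of_nonneg (TF_sub hL)
    (fun _ _ _ => by split_ifs <;> norm_num)

theorem Un_le_Vn (k h a b : ℤ) {L : ℕ} (hL : 3 ≤ L) : Un k h a b L ≤ 2 * L * Vn k h a b L := by
  classical
  have : NeZero L := ⟨by omega⟩
  refine sum_loops_le hL ⟨fun f => ?_, fun f s hf => ?_, fun f hf => ?_⟩
  · split_ifs <;> norm_num
  · simp only [pl_rot hf s, lw_rot]
  · simp only [pl_rev, lw_rev]

theorem Un_symm (k h a b : ℤ) {L : ℕ} (hL : 0 < L) : Un k h a b L = Un k h b a L := by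
  classical
  unfold Un
  refine Finset.sum_bij' (fun f _ => flp f) (fun f _ => flp f) ?_ ?_ ?_ ?_ ?_
  · intro f hf
    exact (mem_LF hL).2 (flp_loop ((mem_LF hL).1 hf))
  · intro f hf
    exact (mem_LF hL).2 (flp_loop ((mem_LF hL).1 hf))
  · intro f _
    exact flp_flp f
  · intro f _
    exact flp_flp f
  · intro f _
    simp only [pl_flp, lw_flp]

theorem Vn_symm_le (k h a b : ℤ) {L : ℕ} (hL : 3 ≤ L) : Vn k h a b L ≤ 2 * L * Vn k h b a L := by
  refine (Vn_le_Un k h a b (by omega)).trans ?_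
  rw [Un_symm k h a b (by omega)]
  exact Un_le_Vn k h b a hL

/-- exchange of the coordinates -/
def swp {L : ℕ} (f : ZMod L → ℤ × ℤ) (i : ZMod L) : ℤ × ℤ := ((f i).2, (f i).1)

theorem swp_swp {L : ℕ} (f : ZMod L → ℤ × ℤ) : swp (swp f) = f := by
  funext i
  simp [swp]

theorem swp_loop {L : ℕ} {f : ZMod L → ℤ × ℤ} (hf : IsLoop L f) : IsLoop L (swp f) := by
  obtain ⟨h0, h1, h2⟩ := hf
  refine ⟨?_, ?_, ?_⟩
  · simp [swp, h0]
  · intro i j hij
    apply h1
    unfold swp at hij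
    rw [Prod.mk.injEq] at hij
    exact Prod.ext hij.2 hij.1
  · intro i
    have := h2 i
    unfold swp
    simp only
    rw [add_comm]
    exact this

theorem Bn_symm (w h : ℤ) {L : ℕ} (hL : 0 < L) : Bn w h L = Bn h w L := by
  classical
  unfold Bn
  refine Finset.sum_bij' (fun f _ => swp f) (fun f _ => swp f) ?_ ?_ ?_ ?_ ?_
  · intro f hf
    exact (mem_LF hL).2 (swp_loop ((mem_LF hL).1 hf))
  · intro f hf
    exact (mem_LF hL).2 (swp_loop ((mem_LF hL).1 hf))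
  · intro f _
    exact swp_swp f
  · intro f _
    exact swp_swp f
  · intro f _
    have e : (Nr w f ∧ Lw h f) ↔ (Nr h (swp f) ∧ Lw w (swp f)) := by
      unfold Nr Lw swp
      exact and_comm
    simp only [e]

theorem pl_nr {m : ℕ} {k a b : ℤ} {f : ZMod m → ℤ × ℤ} (h : Pl k a b f) : Nr k f := by
  obtain ⟨p, h1, -⟩ := h
  intro i j
  have := h1 i
  have := h1 j
  omega

theorem nr_wid {m : ℕ} [NeZero m] {k : ℕ} {f : ZMod m → ℤ × ℤ} : Nr (k : ℤ) f ↔ wid m f ≤ k := by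
  rw [wid_le_iff]
  rfl

theorem Un_le_Bn (k h a b : ℤ) {L : ℕ} : Un k h a b L ≤ Bn k h L := by
  classical
  unfold Un Bn
  refine Finset.sum_le_sum fun f _ => ?_
  by_cases H : Pl k a b f ∧ Lw h f
  · rw [if_pos H, if_pos ⟨pl_nr H.1, H.2⟩]
  · rw [if_neg H]
    split_ifs <;> norm_num

theorem Bn_le {k : ℕ} (h : ℤ) {L : ℕ} (hL : 0 < L) :
    Bn k h L ≤ ∑ ab ∈ Finset.Icc (0 : ℤ) k ×ˢ Finset.Icc (0 : ℤ) k, Un k h ab.1 ab.2 L := by
  classical
  have : NeZero L := ⟨by omega⟩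
  unfold Un Bn
  rw [Finset.sum_comm]
  refine Finset.sum_le_sum fun f _ => ?_
  have hnn : ∀ ab ∈ Finset.Icc (0 : ℤ) k ×ˢ Finset.Icc (0 : ℤ) k,
      0 ≤ (if Pl k ab.1 ab.2 f ∧ Lw h f then (1 : ℝ) else 0) := by
    intro ab _
    split_ifs <;> norm_num
  by_cases H : Nr (k : ℤ) f ∧ Lw h f
  · rw [if_pos H]
    obtain ⟨a, ha, b, hb, hab⟩ := wid_pl (nr_wid.1 H.1)
    have h1 := Finset.single_le_sum hnn (Finset.mem_product.2 ⟨ha, hb⟩ :
      ((a, b) : ℤ × ℤ) ∈ Finset.Icc (0 : ℤ) k ×ˢ Finset.Icc (0 : ℤ) k)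
    simp only at h1
    rw [if_pos ⟨hab, H.2⟩] at h1
    exact h1
  · rw [if_neg H]
    exact Finset.sum_nonneg hnn

/-- the most frequent class -/
theorem exists_class {k : ℕ} (h : ℤ) {L : ℕ} (hL : 3 ≤ L) :
    ∃ a b : ℤ, Bn k h L ≤ 2 * L * ((k : ℝ) + 1) ^ 2 * Vn k h a b L := by
  classical
  obtain ⟨ab, hab, hmax⟩ := Finset.exists_max_image
    (Finset.Icc (0 : ℤ) k ×ˢ Finset.Icc (0 : ℤ) k) (fun ab => Un k h ab.1 ab.2 L)
    ⟨(0, 0), Finset.mem_product.2 ⟨Finset.mem_Icc.2 ⟨le_rfl, by positivity⟩,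
      Finset.mem_Icc.2 ⟨le_rfl, by positivity⟩⟩⟩
  refine ⟨ab.1, ab.2, (Bn_le h (by omega)).trans ?_⟩
  refine (Finset.sum_le_card_nsmul _ _ _ hmax).trans ?_
  rw [Finset.card_product, Int.card_Icc, nsmul_eq_mul]
  have e : ((k : ℤ) + 1 - 0).toNat = k + 1 := by omega
  rw [e]
  push_cast
  have h1 := mul_le_mul_of_nonneg_left (Un_le_Vn k h ab.1 ab.2 hL)
    (by positivity : (0 : ℝ) ≤ ((k : ℝ) + 1) * (k + 1))
  refine h1.trans (le_of_eq ?_)
  ring

/-- chains of loops of the same class -/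
theorem sq_chain_even (k h a b : ℤ) {L : ℕ} (hL : 2 ≤ L) {t : ℕ} (ht : 1 ≤ t) :
    2 * (Vn k h a b L / 2) ^ (2 * t) ≤ Vn k (2 * t * (h + 1) - 1) a a (2 * t * L) := by
  have hv := Vn_nonneg k h a b L
  have base : 2 * (Vn k h a b L / 2) ^ 2 ≤ Vn k (2 * (h + 1) - 1) a a (2 * L) := by
    have h1 := Vn_mul k h h a b a hL hL
    have e : h + h + 1 = 2 * (h + 1) - 1 := by ring
    rw [e, ← two_mul] at h1
    nlinarith
  induction t, ht using Nat.le_induction with
  | base =>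
    have e1 : (2 : ℤ) * ((1 : ℕ) : ℤ) * (h + 1) - 1 = 2 * (h + 1) - 1 := by push_cast; ring
    rw [mul_one, e1]
    exact base
  | succ t ht ih =>
    have hM : 2 ≤ 2 * t * L := by nlinarith
    have h1 := Vn_mul k (2 * (h + 1) - 1) (2 * t * (h + 1) - 1) a a a hM
      (by omega : 2 ≤ 2 * L)
    have e : 2 * (h + 1) - 1 + (2 * t * (h + 1) - 1) + 1 = 2 * ((t + 1 : ℕ) : ℤ) * (h + 1) - 1 := by
      push_cast; ring
    have e2 : 2 * t * L + 2 * L = 2 * (t + 1) * L := by ring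
    rw [e, e2] at h1
    have h2 := mul_le_mul ih base (by positivity) (Vn_nonneg _ _ _ _ _)
    have e3 : 2 * (Vn k h a b L / 2) ^ (2 * t) * (2 * (Vn k h a b L / 2) ^ 2) =
        2 * (2 * (Vn k h a b L / 2) ^ (2 * (t + 1))) := by ring
    rw [e3] at h2
    linarith

theorem sq_chain (k h a b : ℤ) {L : ℕ} (hL : 3 ≤ L) {t : ℕ} (ht : 1 ≤ t) :
    ∃ a' b' : ℤ, (Vn k h a b L / (4 * L)) ^ t ≤ Vn k (t * (h + 1) - 1) a' b' (t * L) := by
  have hv := Vn_nonneg k h a b L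
  have hL0 : (0 : ℝ) < L := by exact_mod_cast (by omega : 0 < L)
  have hL1 : (1 : ℝ) ≤ L := by exact_mod_cast (by omega : 1 ≤ L)
  have hle : Vn k h a b L / (4 * L) ≤ Vn k h a b L / 2 :=
    div_le_div_of_nonneg_left hv (by norm_num) (by linarith)
  have h0 : 0 ≤ Vn k h a b L / (4 * L) := by positivity
  obtain ⟨s, hs | hs⟩ := Nat.even_or_odd' t
  · refine ⟨a, a, ?_⟩
    have h1 := sq_chain_even k h a b (by omega : 2 ≤ L) (by omega : 1 ≤ s)
    rw [hs]
    push_cast at h1 ⊢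
    refine le_trans ?_ h1
    have h2 := pow_le_pow_left₀ h0 hle (2 * s)
    have h3 : 0 ≤ (Vn k h a b L / 2) ^ (2 * s) := by positivity
    linarith
  · have hs1 := Vn_symm_le k h a b hL
    have h2 : Vn k h a b L / (2 * L) ≤ Vn k h b a L := by
      rw [div_le_iff₀ (by positivity)]
      linarith
    rcases Nat.eq_zero_or_pos s with h3 | h3
    · refine ⟨a, b, ?_⟩
      subst h3
      rw [hs]
      push_cast
      simp only [pow_one, one_mul]
      have e : h + 1 - 1 = h := by ring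
      rw [e]
      refine hle.trans ?_
      linarith
    · refine ⟨b, a, ?_⟩
      have h4 := sq_chain_even k h a b (by omega : 2 ≤ L) h3
      have hM : 2 ≤ 2 * s * L := by nlinarith
      have h5 := Vn_mul k h (2 * s * (h + 1) - 1) b a a hM (by omega : 2 ≤ L)
      rw [hs]
      have e1 : h + (2 * s * (h + 1) - 1) + 1 = ((2 * s + 1 : ℕ) : ℤ) * (h + 1) - 1 := by
        push_cast; ring
      have e2 : 2 * s * L + L = (2 * s + 1) * L := by ring
      rw [e1, e2] at h5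
      have h6 := mul_le_mul h4 h2 (by positivity) (Vn_nonneg _ _ _ _ _)
      have h7 := h6.trans h5
      have h8 : (Vn k h a b L / (4 * L)) ^ (2 * s + 1) ≤
          (Vn k h a b L / 2) ^ (2 * s) * (Vn k h a b L / (2 * L)) := by
        rw [pow_succ]
        apply mul_le_mul (pow_le_pow_left₀ h0 hle _) _ h0 (by positivity)
        exact div_le_div_of_nonneg_left hv (by positivity) (by linarith)
      linarith

/-- stacks of loops in a box -/
theorem sq_stack {w : ℕ} (h : ℤ) {L : ℕ} (hL : 3 ≤ L) {t : ℕ} (ht : 1 ≤ t) :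
    (Bn w h L / (8 * L ^ 2 * ((w : ℝ) + 1) ^ 2)) ^ t ≤ Bn w (t * (h + 1) - 1) (t * L) := by
  have hL0 : (0 : ℝ) < L := by exact_mod_cast (by omega : 0 < L)
  obtain ⟨a, b, hab⟩ := exists_class h hL (k := w)
  obtain ⟨a', b', h1⟩ := sq_chain w h a b hL ht
  have htL : 0 < t * L := by positivity
  refine le_trans (le_trans (pow_le_pow_left₀ ?_ ?_ t) h1)
    ((Vn_le_Un _ _ _ _ htL).trans (Un_le_Bn _ _ _ _))
  · have := Bn_nonneg w h L
    positivity
  · rw [div_le_div_iff₀ (by positivity) (by positivity)]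
    have h2 := mul_le_mul_of_nonneg_right hab (by positivity : (0 : ℝ) ≤ 4 * L)
    refine h2.trans (le_of_eq ?_)
    ring

/-- squares of loops in a box -/
theorem square {w : ℕ} {L : ℕ} (hL : 3 ≤ L) {t : ℕ} (ht : 1 ≤ t) :
    (Bn w w L / (8 * L ^ 2 * ((w : ℝ) + 1) ^ 2)) ^ (t ^ 2) /
      (8 * (t * L : ℝ) ^ 2 * (t * ((w : ℝ) + 1)) ^ 2) ^ t ≤
      Bn (t * (w + 1) - 1 : ℤ) (t * (w + 1) - 1 : ℤ) (t ^ 2 * L) := by
  have hL0 : (0 : ℝ) < L := by exact_mod_cast (by omega : 0 < L)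
  have ht0 : (0 : ℝ) < t := by exact_mod_cast ht
  have htL : 3 ≤ t * L := by nlinarith
  have h1 := sq_stack (w := w) w hL ht
  obtain ⟨H, hH⟩ : ∃ H : ℕ, (t * (w + 1) - 1 : ℤ) = H ∧ ((H : ℝ) + 1) = t * (w + 1) := by
    refine ⟨t * (w + 1) - 1, ?_, ?_⟩
    · have : 1 ≤ t * (w + 1) := Nat.mul_pos ht (by omega)
      push_cast [Nat.cast_sub this]
      ring
    · have : 1 ≤ t * (w + 1) := Nat.mul_pos ht (by omega)
      push_cast [Nat.cast_sub this]
      ring
  have h2 := sq_stack (w := H) w htL ht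
  rw [hH.1] at h1 ⊢
  rw [Bn_symm (w : ℤ) (H : ℤ) (by positivity)] at h1
  have h0 := Bn_nonneg w w L
  have h3 : ((Bn w w L / (8 * L ^ 2 * ((w : ℝ) + 1) ^ 2)) ^ t /
      (8 * ((t * L : ℕ) : ℝ) ^ 2 * ((H : ℝ) + 1) ^ 2)) ^ t ≤
      (Bn H w (t * L) / (8 * ((t * L : ℕ) : ℝ) ^ 2 * ((H : ℝ) + 1) ^ 2)) ^ t := by
    apply pow_le_pow_left₀ (by positivity)
    exact div_le_div_of_nonneg_right h1 (by positivity)
  have h4 := h3.trans h2
  rw [hH.1] at h4
  rw [div_pow, ← pow_mul, hH.2] at h4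
  have e : t * (t * L) = t ^ 2 * L := by ring
  rw [e] at h4
  push_cast at h4
  have e2 : t * t = t ^ 2 := by ring
  rw [e2] at h4
  exact h4

/-- squares of loops, simple form -/
theorem square' {w : ℕ} {L : ℕ} (hL : 3 ≤ L) {t : ℕ} (ht : 1 ≤ t) :
    (Bn w w L * Real.exp (-(9 + 4 * Real.log L + 4 * Real.log ((w : ℝ) + 1)))) ^ (t ^ 2) ≤
      Bn (t * (w + 1) - 1 : ℤ) (t * (w + 1) - 1 : ℤ) (t ^ 2 * L) := by
  refine le_trans ?_ (square hL ht)
  have hL0 : (0 : ℝ) < L := by exact_mod_cast (by omega : 0 < L)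
  have hL1 : (1 : ℝ) ≤ L := by exact_mod_cast (by omega : 1 ≤ L)
  have ht0 : (0 : ℝ) < t := by exact_mod_cast ht
  have ht1 : (1 : ℝ) ≤ t := by exact_mod_cast ht
  have h0 := Bn_nonneg w w L
  have hw1 : (1 : ℝ) ≤ (w : ℝ) + 1 := by
    have : (0 : ℝ) ≤ w := by positivity
    linarith
  obtain ⟨A, hA⟩ : ∃ A : ℝ, A = 8 * L ^ 2 * ((w : ℝ) + 1) ^ 2 := ⟨_, rfl⟩
  have hA1 : 1 ≤ A := by
    rw [hA]
    have h1 : (1 : ℝ) ≤ (L : ℝ) ^ 2 := one_le_pow₀ hL1
    have h2 : (1 : ℝ) ≤ ((w : ℝ) + 1) ^ 2 := one_le_pow₀ hw1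
    nlinarith
  have hA0 : 0 < A := by linarith
  rw [← hA]
  -- the factor of the last joins
  have hB : (8 * (t * L : ℝ) ^ 2 * (t * ((w : ℝ) + 1)) ^ 2) ^ t ≤ (Real.exp 4 * A) ^ (t ^ 2) := by
    have e : 8 * (t * L : ℝ) ^ 2 * (t * ((w : ℝ) + 1)) ^ 2 = t ^ 4 * A := by
      rw [hA]; ring
    have ht4 : (t : ℝ) ^ 4 ≤ Real.exp 4 ^ t := by
      rw [← Real.exp_nat_mul]
      have h1 : (t : ℝ) ≤ Real.exp t := by
        have := Real.add_one_le_exp (t : ℝ)
        linarith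
      calc (t : ℝ) ^ 4 ≤ Real.exp t ^ 4 := pow_le_pow_left₀ ht0.le h1 4
        _ = Real.exp (t * 4) := by
          rw [← Real.exp_nat_mul]
          congr 1
          push_cast
          ring
    have hAt : A ≤ A ^ t := le_self_pow₀ hA1 (by omega)
    rw [e]
    have h1 : (t : ℝ) ^ 4 * A ≤ (Real.exp 4 * A) ^ t := by
      rw [mul_pow]
      exact mul_le_mul ht4 hAt hA0.le (by positivity)
    have h2 := pow_le_pow_left₀ (by positivity) h1 t
    rw [← pow_mul] at h2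
    have e2 : t * t = t ^ 2 := by ring
    rw [e2] at h2
    exact h2
  rw [le_div_iff₀ (by positivity)]
  refine (mul_le_mul_of_nonneg_left hB (by positivity)).trans ?_
  rw [← mul_pow]
  apply pow_le_pow_left₀ (by positivity)
  rw [mul_assoc]
  rw [le_div_iff₀ hA0, mul_assoc]
  apply mul_le_of_le_one_right h0
  have e3 : A = 8 * Real.exp (2 * Real.log L + 2 * Real.log ((w : ℝ) + 1)) := by
    rw [Real.exp_add, hA]
    have e4 : Real.exp (2 * Real.log L) = (L : ℝ) ^ 2 := by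
      rw [mul_comm, Real.exp_mul, Real.exp_log hL0]
      norm_cast
    have e5 : Real.exp (2 * Real.log ((w : ℝ) + 1)) = ((w : ℝ) + 1) ^ 2 := by
      rw [mul_comm, Real.exp_mul, Real.exp_log (by linarith)]
      norm_cast
    rw [e4, e5]
    ring
  have e6 : Real.exp (-(9 + 4 * Real.log L + 4 * Real.log ((w : ℝ) + 1))) * (Real.exp 4 * A * A) =
      64 * Real.exp (-5) := by
    rw [e3]
    have : Real.exp (-(9 + 4 * Real.log L + 4 * Real.log ((w : ℝ) + 1))) * (Real.exp 4 *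
        (8 * Real.exp (2 * Real.log L + 2 * Real.log ((w : ℝ) + 1))) *
        (8 * Real.exp (2 * Real.log L + 2 * Real.log ((w : ℝ) + 1)))) =
        64 * (Real.exp (-(9 + 4 * Real.log L + 4 * Real.log ((w : ℝ) + 1))) * Real.exp 4 *
          Real.exp (2 * Real.log L + 2 * Real.log ((w : ℝ) + 1)) *
          Real.exp (2 * Real.log L + 2 * Real.log ((w : ℝ) + 1))) := by ring
    rw [this, ← Real.exp_add, ← Real.exp_add, ← Real.exp_add]
    congr 2
    ring
  rw [mul_assoc, e6, Real.exp_neg, ← div_eq_mul_inv, div_le_one (Real.exp_pos _)]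
  have e8 : Real.exp 5 = Real.exp 1 ^ 5 := by
    rw [← Real.exp_nat_mul]
    norm_num
  rw [e8]
  have h3 := Real.exp_one_gt_d9
  have h4 := pow_le_pow_left₀ (by norm_num : (0 : ℝ) ≤ 2.7182818283) h3.le 5
  refine le_trans ?_ h4
  norm_num

end Pool.Agent.K6.H36.PJ
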