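import Mathlib

/-!
Sequences which are superadditive for squares.
-/

set_option autoImplicit false

namespace Pool.Agent.K6.H36.PJ

open Filter Topology

theorem tendsto_add_div (c : ℝ) : Tendsto (fun W : ℕ => ((W : ℝ) + c) / W) atTop (𝓝 1) := by
  have h : Tendsto (fun W : ℕ => 1 + c / (W : ℝ)) atTop (𝓝 (1 + 0)) :=
    tendsto_const_nhds.add (tendsto_natCast_atTop_atTop.const_div_atTop c)
  rw [add_zero] at h
  refine h.congr' ?_
  filter_upwards [eventually_ge_atTop 1] with W hW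
  have : (W : ℝ) ≠ 0 := by positivity
  field_simp

theorem tendsto_log_sq : Tendsto (fun W : ℕ => Real.log ((W : ℝ) + 1) / (W : ℝ) ^ 2) atTop (𝓝 0) := by
  have h1 : Tendsto (fun W : ℕ => 1 / (W : ℝ)) atTop (𝓝 0) :=
    tendsto_natCast_atTop_atTop.const_div_atTop 1
  refine squeeze_zero' ?_ ?_ h1
  · filter_upwards [eventually_ge_atTop 1] with W hW
    have : (0 : ℝ) ≤ W := by positivity
    have := Real.log_nonneg (by linarith : (1 : ℝ) ≤ (W : ℝ) + 1)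
    positivity
  · filter_upwards [eventually_ge_atTop 1] with W hW
    have hW0 : (0 : ℝ) < W := by exact_mod_cast hW
    have h := Real.add_one_le_exp (Real.log ((W : ℝ) + 1))
    rw [Real.exp_log (by positivity)] at h
    rw [div_le_div_iff₀ (by positivity) hW0]
    nlinarith

/-- the number of blocks of side `v` -/
theorem tendsto_blocks {v : ℕ} (hv : 1 ≤ v) :
    Tendsto (fun W : ℕ => ((((W + 1) / v : ℕ) : ℝ) * v) / W) atTop (𝓝 1) := by
  refine tendsto_of_tendsto_of_tendsto_of_le_of_le' (tendsto_add_div (-(v : ℝ)))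
    (tendsto_add_div 1) ?_ ?_
  · filter_upwards [eventually_ge_atTop 1] with W hW
    apply div_le_div_of_nonneg_right _ (by positivity)
    have h := Nat.div_add_mod (W + 1) v
    have h2 := Nat.mod_lt (W + 1) (by omega : v > 0)
    have h3 : (W + 1 : ℝ) = v * ((W + 1) / v : ℕ) + ((W + 1) % v : ℕ) := by exact_mod_cast h.symm
    have h4 : (((W + 1) % v : ℕ) : ℝ) ≤ v := by exact_mod_cast h2.le
    nlinarith
  · filter_upwards [eventually_ge_atTop 1] with W hW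
    apply div_le_div_of_nonneg_right _ (by positivity)
    have h := Nat.div_mul_le_self (W + 1) v
    exact_mod_cast h

theorem block_le (v W : ℕ) : (W + 1) / v * v - 1 ≤ W := by
  have h := Nat.div_mul_le_self (W + 1) v
  omega

theorem blocks_lower {a : ℕ → ℝ} (hmono : ∀ w w', 1 ≤ w → w ≤ w' → a w ≤ a w') {v : ℕ} (hv : 2 ≤ v)
    {β D : ℝ} (h : ∀ t : ℕ, 1 ≤ t → (t : ℝ) ^ 2 * β - D * t ≤ a (t * v - 1)) :
    ∃ u : ℕ → ℝ, Tendsto u atTop (𝓝 (β / (v : ℝ) ^ 2)) ∧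
      ∀ᶠ W : ℕ in atTop, u W ≤ a W / (W : ℝ) ^ 2 := by
  have hv0 : (0 : ℝ) < v := by exact_mod_cast (by omega : 0 < v)
  refine ⟨fun W => ((((W + 1) / v : ℕ) : ℝ) * v / W) ^ 2 * (β / (v : ℝ) ^ 2) -
    (D / v) * ((((W + 1) / v : ℕ) : ℝ) * v / W) * (1 / (W : ℝ)), ?_, ?_⟩
  · have h1 := tendsto_blocks (by omega : 1 ≤ v)
    have h2 : Tendsto (fun W : ℕ => 1 / (W : ℝ)) atTop (𝓝 0) :=
      tendsto_natCast_atTop_atTop.const_div_atTop 1
    have h3 := ((h1.pow 2).mul_const (β / (v : ℝ) ^ 2)).sub ((h1.const_mul (D / v)).mul h2)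
    simpa using h3
  · filter_upwards [eventually_ge_atTop v] with W hW
    have hW0 : (0 : ℝ) < W := by exact_mod_cast (by omega : 0 < W)
    have ht : 1 ≤ (W + 1) / v := (Nat.one_le_div_iff (by omega)).2 (by omega)
    obtain ⟨t, ht2⟩ : ∃ t, t = (W + 1) / v := ⟨_, rfl⟩
    have h1 := h t (by omega)
    have h2 : a (t * v - 1) ≤ a W := by
      apply hmono
      · have : 1 * 2 ≤ t * v := Nat.mul_le_mul (by omega) hv
        omega
      · rw [ht2]
        exact block_le v W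
    rw [← ht2]
    rw [le_div_iff₀ (by positivity)]
    refine le_trans (le_of_eq ?_) (h1.trans h2)
    field_simp

/-- the limit exists -/
theorem exists_limit {a : ℕ → ℝ} (hmono : ∀ w w', 1 ≤ w → w ≤ w' → a w ≤ a w') {C : ℝ}
    (h1 : ∀ w t : ℕ, 1 ≤ w → 1 ≤ t →
      (t : ℝ) ^ 2 * (a w - C * (1 + Real.log ((w : ℝ) + 1))) -
        C * (1 + Real.log ((w : ℝ) + 1)) * t ≤ a (t * (w + 1) - 1))
    (h2 : ∀ w : ℕ, 1 ≤ w → a w ≤ C * ((w : ℝ) + 1) ^ 2) (hC : 0 ≤ C) :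
    ∃ l : ℝ, Tendsto (fun w : ℕ => a w / (w : ℝ) ^ 2) atTop (𝓝 l) := by
  obtain ⟨b, hb⟩ : ∃ b : ℕ → ℝ, b = fun w =>
    (a w - C * (1 + Real.log ((w : ℝ) + 1))) / ((w : ℝ) + 1) ^ 2 := ⟨_, rfl⟩
  have hlog : ∀ w : ℕ, 0 ≤ Real.log ((w : ℝ) + 1) := fun w =>
    Real.log_nonneg (by have : (0 : ℝ) ≤ w := by positivity
                        linarith)
  have hbdd : BddAbove (b '' Set.Ici 1) := by
    refine ⟨C, ?_⟩
    rintro x ⟨w, hw, rfl⟩
    rw [hb]
    simp only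
    rw [div_le_iff₀ (by positivity)]
    have := h2 w hw
    have := mul_nonneg hC (hlog w)
    linarith
  have hne : (b '' Set.Ici 1).Nonempty := ⟨b 1, 1, Set.mem_Ici.2 le_rfl, rfl⟩
  refine ⟨sSup (b '' Set.Ici 1), tendsto_order.2 ⟨fun l hl => ?_, fun u hu => ?_⟩⟩
  · obtain ⟨x, ⟨w, hw, rfl⟩, hx⟩ := exists_lt_of_lt_csSup hne hl
    have hw1 : 1 ≤ w := hw
    obtain ⟨y, hy1, hy2⟩ := blocks_lower hmono (v := w + 1) (by omega) (h1 w · hw1)
    have h3 : l < (a w - C * (1 + Real.log ((w : ℝ) + 1))) / ((w + 1 : ℕ) : ℝ) ^ 2 := by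
      rw [hb] at hx
      push_cast
      exact hx
    filter_upwards [hy2, hy1.eventually (lt_mem_nhds h3)] with W hW1 hW2
    linarith
  · have hle : ∀ w : ℕ, 1 ≤ w → b w ≤ sSup (b '' Set.Ici 1) := fun w hw =>
      le_csSup hbdd ⟨w, hw, rfl⟩
    have hup : Tendsto (fun W : ℕ => (((W : ℝ) + 1) / W) ^ 2 * sSup (b '' Set.Ici 1) +
        (C * (1 / (W : ℝ)) * (1 / (W : ℝ)) + C * (Real.log ((W : ℝ) + 1) / (W : ℝ) ^ 2))) atTop
        (𝓝 (1 ^ 2 * sSup (b '' Set.Ici 1) + (C * 0 * 0 + C * 0))) := by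
      have h3 : Tendsto (fun W : ℕ => 1 / (W : ℝ)) atTop (𝓝 0) :=
        tendsto_natCast_atTop_atTop.const_div_atTop 1
      exact (((tendsto_add_div 1).pow 2).mul_const _).add
        (((h3.const_mul C).mul h3).add (tendsto_log_sq.const_mul C))
    have hu2 : 1 ^ 2 * sSup (b '' Set.Ici 1) + (C * 0 * 0 + C * 0) < u := by linarith
    filter_upwards [hup.eventually (gt_mem_nhds hu2), eventually_ge_atTop 1] with W hW1 hW2
    refine lt_of_le_of_lt ?_ hW1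
    have hW0 : (0 : ℝ) < W := by exact_mod_cast hW2
    have h3 := hle W hW2
    rw [hb] at h3
    simp only at h3
    rw [← hb] at h3
    rw [div_le_iff₀ (by positivity)] at h3
    rw [div_le_iff₀ (by positivity)]
    have e : ((((W : ℝ) + 1) / W) ^ 2 * sSup (b '' Set.Ici 1) +
        (C * (1 / (W : ℝ)) * (1 / (W : ℝ)) + C * (Real.log ((W : ℝ) + 1) / (W : ℝ) ^ 2))) *
        (W : ℝ) ^ 2 = sSup (b '' Set.Ici 1) * ((W : ℝ) + 1) ^ 2 +
          C * (1 + Real.log ((W : ℝ) + 1)) := by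
      field_simp
    rw [e]
    linarith

/-- lower bounds of the limit -/
theorem limit_ge {a : ℕ → ℝ} (hmono : ∀ w w', 1 ≤ w → w ≤ w' → a w ≤ a w') {l : ℝ}
    (hl : Tendsto (fun w : ℕ => a w / (w : ℝ) ^ 2) atTop (𝓝 l)) {v : ℕ} (hv : 2 ≤ v) {β D : ℝ}
    (h : ∀ t : ℕ, 1 ≤ t → (t : ℝ) ^ 2 * β - D * t ≤ a (t * v - 1)) : β / (v : ℝ) ^ 2 ≤ l := by
  obtain ⟨u, h1, h2⟩ := blocks_lower hmono hv h
  exact le_of_tendsto_of_tendsto h1 hl h2

end Pool.Agent.K6.H36.PJ
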