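import Pool.Agent.K6.H36.PJ.Sq
import Pool.Agent.K6.H36.PJ.SqLim

/-!
The pressure of the polygons in a square.
-/

set_option autoImplicit false

namespace Pool.Agent.K6.H36.PJ

open Pool.Agent.N223.PS Filter Topology

theorem Bn_mono {w w' h h' : ℤ} (hw : w ≤ w') (hh : h ≤ h') (L : ℕ) : Bn w h L ≤ Bn w' h' L := by
  classical
  unfold Bn
  refine Finset.sum_le_sum fun f _ => ?_
  by_cases H : Nr w f ∧ Lw h f
  · rw [if_pos H, if_pos ⟨fun i j => (H.1 i j).trans hw, fun i j => (H.2 i j).trans hh⟩]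
  · rw [if_neg H]
    split_ifs <;> norm_num

theorem Bn_le_card (w h : ℤ) (L : ℕ) : Bn w h L ≤ ((LF L).card : ℝ) := by
  classical
  unfold Bn
  have h : ∀ f ∈ LF L, (if Nr w f ∧ Lw h f then (1 : ℝ) else 0) ≤ 1 := by
    intro f _
    split_ifs <;> norm_num
  have := Finset.sum_le_card_nsmul _ _ _ h
  rwa [nsmul_eq_mul, mul_one] at this

/-- a loop in a square has at most as many vertices as the square -/
theorem card_le_of_box {L : ℕ} [NeZero L] {w : ℕ} {f : ZMod L → ℤ × ℤ}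
    (hf : Function.Injective f) (h1 : Nr (w : ℤ) f) (h2 : Lw (w : ℤ) f) : L ≤ (w + 1) ^ 2 := by
  classical
  obtain ⟨i0, h0⟩ := Finite.exists_min (fun i : ZMod L => (f i).1)
  obtain ⟨j0, h0'⟩ := Finite.exists_min (fun i : ZMod L => (f i).2)
  have h3 : (Finset.univ : Finset (ZMod L)).card ≤
      (Finset.Icc (f i0).1 ((f i0).1 + w) ×ˢ Finset.Icc (f j0).2 ((f j0).2 + w)).card := by
    apply Finset.card_le_card_of_injOn f
    · intro i _
      rw [Finset.mem_coe, Finset.mem_product, Finset.mem_Icc, Finset.mem_Icc]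
      have := h0 i
      have := h0' i
      have := h1 i i0
      have := h2 i j0
      constructor <;> constructor <;> omega
    · exact hf.injOn
  rw [Finset.card_univ, ZMod.card, Finset.card_product, Int.card_Icc, Int.card_Icc] at h3
  have e1 : ((f i0).1 + w + 1 - (f i0).1).toNat = w + 1 := by omega
  have e2 : ((f j0).2 + w + 1 - (f j0).2).toNat = w + 1 := by omega
  rw [e1, e2] at h3
  rw [pow_two]
  exact h3

theorem Bn_zero {w L : ℕ} (hL : 0 < L) (h : (w + 1) ^ 2 < L) : Bn w w L = 0 := by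
  classical
  have : NeZero L := ⟨by omega⟩
  unfold Bn
  refine Finset.sum_eq_zero fun f hf => ?_
  rw [if_neg]
  rintro ⟨h1, h2⟩
  have := card_le_of_box ((mem_LF hL).1 hf).2.1 h1 h2
  omega

/-- the unit square -/
def usq (i : ZMod 4) : ℤ × ℤ := if i = 0 then (0, 0) else if i = 1 then (1, 0) else
  if i = 2 then (1, 1) else (0, 1)

theorem Bn_unit : 1 ≤ Bn 1 1 4 := by
  classical
  unfold Bn
  have hl : IsLoop 4 usq := by
    refine ⟨by decide, by decide, by decide⟩
  have hin : usq ∈ LF 4 := (mem_LF (by norm_num)).2 hl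
  have h := Finset.single_le_sum (f := fun f : ZMod 4 → ℤ × ℤ =>
    if Nr (1 : ℤ) f ∧ Lw (1 : ℤ) f then (1 : ℝ) else 0)
    (fun f _ => by split_ifs <;> norm_num) hin
  rw [if_pos ⟨by unfold Nr; decide, by unfold Lw; decide⟩] at h
  exact h

/-- the sum of `x ^ |P|` over the polygons `P` in a square of side `w`, up to translation -/
noncomputable def Zs (x : ℝ) (w : ℕ) : ℝ :=
  ∑ n ∈ Finset.Icc 2 ((w + 1) ^ 2), Bn w w (2 * n) / (4 * n) * x ^ (2 * n)

theorem term_nonneg {x : ℝ} (hx : 0 < x) (w n : ℕ) :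
    0 ≤ Bn w w (2 * n) / (4 * n) * x ^ (2 * n) := by
  have := Bn_nonneg w w (2 * n)
  positivity

theorem Zs_mono {x : ℝ} (hx : 0 < x) {w w' : ℕ} (h : w ≤ w') : Zs x w ≤ Zs x w' := by
  unfold Zs
  refine le_trans (Finset.sum_le_sum (g := fun n => Bn w' w' (2 * n) / (4 * n) * x ^ (2 * n))
    fun n _ => ?_) ?_
  · apply mul_le_mul_of_nonneg_right _ (by positivity)
    apply div_le_div_of_nonneg_right _ (by positivity)
    exact Bn_mono (by exact_mod_cast h) (by exact_mod_cast h) _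
  · apply Finset.sum_le_sum_of_subset_of_nonneg
    · apply Finset.Icc_subset_Icc le_rfl
      exact Nat.pow_le_pow_left (by omega) 2
    · intro n _ _
      exact term_nonneg hx w' n

theorem Zs_ge {x : ℝ} (hx : 0 < x) {w : ℕ} (hw : 1 ≤ w) : x ^ 4 / 8 ≤ Zs x w := by
  unfold Zs
  have h1 : 2 ∈ Finset.Icc 2 ((w + 1) ^ 2) := by
    rw [Finset.mem_Icc]
    have : 2 ^ 2 ≤ (w + 1) ^ 2 := Nat.pow_le_pow_left (by omega) 2
    omega
  refine le_trans ?_ (Finset.single_le_sum (fun n _ => term_nonneg hx w n) h1)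
  have h2 : 1 ≤ Bn w w (2 * 2) := Bn_unit.trans
    (Bn_mono (by exact_mod_cast hw) (by exact_mod_cast hw) _)
  have e : x ^ 4 / 8 = 1 / (4 * ((2 : ℕ) : ℝ)) * x ^ (2 * 2) := by
    push_cast; ring
  rw [e]
  apply mul_le_mul_of_nonneg_right _ (by positivity)
  exact div_le_div_of_nonneg_right h2 (by positivity)

theorem Zs_pos {x : ℝ} (hx : 0 < x) {w : ℕ} (hw : 1 ≤ w) : 0 < Zs x w :=
  lt_of_lt_of_le (by positivity) (Zs_ge hx hw)

theorem term_lower {x : ℝ} (hx : 0 < x) {w n t : ℕ} (hn : 2 ≤ n) (hn2 : n ≤ (w + 1) ^ 2)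
    (ht : 1 ≤ t) (hB : 0 < Bn w w (2 * n)) :
    (t : ℝ) ^ 2 * (Real.log (Bn w w (2 * n)) + 2 * n * Real.log x -
      (9 + 4 * Real.log (2 * n) + 4 * Real.log ((w : ℝ) + 1))) - Real.log (4 * (t ^ 2 * n)) ≤
      Real.log (Zs x (t * (w + 1) - 1)) := by
  have ht0 : (0 : ℝ) < t := by exact_mod_cast ht
  have hn0 : (0 : ℝ) < n := by exact_mod_cast (by omega : 0 < n)
  have htw : 1 ≤ t * (w + 1) := Nat.mul_pos ht (by omega)
  obtain ⟨W, hW⟩ : ∃ W, W = t * (w + 1) - 1 := ⟨_, rfl⟩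
  have hW1 : W + 1 = t * (w + 1) := by omega
  have h1 := square' (w := w) (L := 2 * n) (by omega) ht
  have e1 : (t * (w + 1) - 1 : ℤ) = (W : ℤ) := by
    have : ((W : ℤ) + 1) = t * (w + 1) := by exact_mod_cast hW1
    linarith
  have e2 : t ^ 2 * (2 * n) = 2 * (t ^ 2 * n) := by ring
  rw [e1, e2] at h1
  rw [← hW]
  have h2 : t ^ 2 * n ∈ Finset.Icc 2 ((W + 1) ^ 2) := by
    rw [Finset.mem_Icc, hW1, mul_pow]
    constructor
    · have : 1 ≤ t ^ 2 := Nat.one_le_pow _ _ ht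
      nlinarith
    · exact Nat.mul_le_mul_left _ hn2
  have h3 : Bn W W (2 * (t ^ 2 * n)) / (4 * ((t ^ 2 * n : ℕ) : ℝ)) * x ^ (2 * (t ^ 2 * n)) ≤
      Zs x W := by
    unfold Zs
    exact Finset.single_le_sum (f := fun n : ℕ => Bn W W (2 * n) / (4 * n) * x ^ (2 * n))
      (fun n _ => term_nonneg hx W n) h2
  obtain ⟨E, hE⟩ : ∃ E : ℝ, E = 9 + 4 * Real.log (2 * n) + 4 * Real.log ((w : ℝ) + 1) := ⟨_, rfl⟩
  have h4 : (Bn w w (2 * n) * Real.exp (-E)) ^ (t ^ 2) / (4 * (t ^ 2 * n : ℝ)) *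
      x ^ (2 * (t ^ 2 * n)) ≤ Zs x W := by
    refine le_trans ?_ h3
    push_cast at h1 ⊢
    rw [hE]
    apply mul_le_mul_of_nonneg_right _ (by positivity)
    exact div_le_div_of_nonneg_right h1 (by positivity)
  have h5 := Real.log_le_log (by positivity) h4
  refine le_trans (le_of_eq ?_) h5
  rw [← hE]
  symm
  rw [Real.log_mul (by positivity) (by positivity), Real.log_div (by positivity) (by positivity),
    Real.log_pow, Real.log_mul hB.ne' (Real.exp_pos _).ne', Real.log_exp, Real.log_pow]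
  push_cast
  ring

theorem exists_term {x : ℝ} (hx : 0 < x) {w : ℕ} (hw : 1 ≤ w) : ∃ n : ℕ, 2 ≤ n ∧
    n ≤ (w + 1) ^ 2 ∧ 0 < Bn w w (2 * n) ∧
    Real.log (Zs x w) - 2 * Real.log ((w : ℝ) + 1) ≤
      Real.log (Bn w w (2 * n)) + 2 * n * Real.log x := by
  have h1 : 2 ∈ Finset.Icc 2 ((w + 1) ^ 2) := by
    rw [Finset.mem_Icc]
    have : 2 ^ 2 ≤ (w + 1) ^ 2 := Nat.pow_le_pow_left (by omega) 2
    omega
  obtain ⟨n, hn, hmax⟩ := Finset.exists_max_image (Finset.Icc 2 ((w + 1) ^ 2))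
    (fun n : ℕ => Bn w w (2 * n) / (4 * n) * x ^ (2 * n)) ⟨2, h1⟩
  rw [Finset.mem_Icc] at hn
  have hn0 : (1 : ℝ) ≤ n := by exact_mod_cast (by omega : 1 ≤ n)
  have hZ := Zs_pos hx hw
  have h2 : Zs x w ≤ ((w : ℝ) + 1) ^ 2 * (Bn w w (2 * n) / (4 * n) * x ^ (2 * n)) := by
    unfold Zs
    refine (Finset.sum_le_card_nsmul _ _ _ hmax).trans ?_
    rw [nsmul_eq_mul]
    apply mul_le_mul_of_nonneg_right _ (term_nonneg hx w n)
    rw [Nat.card_Icc]
    have : (((w + 1) ^ 2 + 1 - 2 : ℕ) : ℝ) ≤ (((w + 1) ^ 2 : ℕ) : ℝ) := by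
      exact_mod_cast (by omega : (w + 1) ^ 2 + 1 - 2 ≤ (w + 1) ^ 2)
    push_cast at this
    exact this
  have hB : 0 < Bn w w (2 * n) := by
    rcases (Bn_nonneg w w (2 * n)).lt_or_eq with h | h
    · exact h
    · rw [← h] at h2
      simp at h2
      linarith
  refine ⟨n, hn.1, hn.2, hB, ?_⟩
  have h3 := Real.log_le_log hZ h2
  rw [Real.log_mul (by positivity) (by positivity), Real.log_mul (by positivity) (by positivity),
    Real.log_div hB.ne' (by positivity), Real.log_pow, Real.log_pow] at h3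
  have h4 : 0 ≤ Real.log (4 * n) := Real.log_nonneg (by linarith)
  push_cast at h3
  linarith

theorem Zs_super {x : ℝ} (hx : 0 < x) (w t : ℕ) (hw : 1 ≤ w) (ht : 1 ≤ t) :
    (t : ℝ) ^ 2 * (Real.log (Zs x w) - 14 * (1 + Real.log ((w : ℝ) + 1))) -
      14 * (1 + Real.log ((w : ℝ) + 1)) * t ≤ Real.log (Zs x (t * (w + 1) - 1)) := by
  obtain ⟨n, hn, hn2, hB, h1⟩ := exists_term hx hw
  have h2 := term_lower hx hn hn2 ht hB
  have ht0 : (0 : ℝ) < t := by exact_mod_cast ht
  have ht1 : (1 : ℝ) ≤ t := by exact_mod_cast ht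
  have hn0 : (0 : ℝ) < n := by exact_mod_cast (by omega : 0 < n)
  have hw0 : (0 : ℝ) ≤ w := by positivity
  have hl0 : 0 ≤ Real.log ((w : ℝ) + 1) := Real.log_nonneg (by linarith)
  have hln : Real.log n ≤ 2 * Real.log ((w : ℝ) + 1) := by
    have h3 : (n : ℝ) ≤ ((w : ℝ) + 1) ^ 2 := by exact_mod_cast hn2
    have := Real.log_le_log hn0 h3
    rwa [Real.log_pow] at this
  have hl2 : Real.log 2 ≤ 1 := by
    have := Real.log_two_lt_d9
    linarith
  have e1 : Real.log (2 * n) = Real.log 2 + Real.log n := Real.log_mul (by norm_num) hn0.ne'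
  have hlt : Real.log t ≤ t := (Real.log_le_sub_one_of_pos ht0).trans (by linarith)
  have e2 : Real.log (4 * (t ^ 2 * n)) = 2 * Real.log 2 + (2 * Real.log t + Real.log n) := by
    rw [Real.log_mul (by norm_num) (by positivity), Real.log_mul (by positivity) hn0.ne',
      Real.log_pow]
    have : (4 : ℝ) = 2 ^ 2 := by norm_num
    rw [this, Real.log_pow]
    push_cast
    ring
  rw [e2, e1] at h2
  refine le_trans ?_ h2
  have h3 : Real.log (Zs x w) - 14 * (1 + Real.log ((w : ℝ) + 1)) ≤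
      Real.log (Bn w w (2 * n)) + 2 * n * Real.log x -
        (9 + 4 * (Real.log 2 + Real.log n) + 4 * Real.log ((w : ℝ) + 1)) := by linarith
  have h4 := mul_le_mul_of_nonneg_left h3 (by positivity : (0 : ℝ) ≤ (t : ℝ) ^ 2)
  have h5 : 2 * Real.log 2 + (2 * Real.log t + Real.log n) ≤
      14 * (1 + Real.log ((w : ℝ) + 1)) * t := by
    nlinarith [mul_nonneg hl0 ht0.le, mul_nonneg hl0 (sub_nonneg.2 ht1)]
  linarith

theorem Zs_le : ∃ K : ℝ, 0 ≤ K ∧ ∀ x : ℝ, 0 < x → ∀ w : ℕ, 1 ≤ w →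
    Real.log (Zs x w) ≤ 2 * Real.log ((w : ℝ) + 1) + K * Real.log ((w : ℝ) + 1) ^ 2 +
      ((w : ℝ) + 1) ^ 2 * max 0 (Real.log (H981.mu * x)) := by
  obtain ⟨K, hK, h⟩ := counts
  have hmu : 0 < H981.mu := H981.mu_pos
  refine ⟨4 * K, by positivity, fun x hx w hw => ?_⟩
  have hw0 : (0 : ℝ) ≤ w := by positivity
  have hl0 : 0 ≤ Real.log ((w : ℝ) + 1) := Real.log_nonneg (by linarith)
  obtain ⟨R, hR⟩ : ∃ R : ℝ, R = 4 * K * Real.log ((w : ℝ) + 1) ^ 2 +
      ((w : ℝ) + 1) ^ 2 * max 0 (Real.log (H981.mu * x)) := ⟨_, rfl⟩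
  have h1 : Zs x w ≤ ((w : ℝ) + 1) ^ 2 * Real.exp R := by
    unfold Zs
    have hb : ∀ n ∈ Finset.Icc 2 ((w + 1) ^ 2),
        Bn w w (2 * n) / (4 * n) * x ^ (2 * n) ≤ Real.exp R := by
      intro n hn
      rw [Finset.mem_Icc] at hn
      rcases Nat.lt_or_ge ((w + 1) ^ 2) (2 * n) with h2 | h2
      · rw [Bn_zero (by omega) h2]
        simp only [zero_div, zero_mul]
        exact (Real.exp_pos _).le
      · have hn0 : (0 : ℝ) < n := by exact_mod_cast (by omega : 0 < n)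
        have hn1 : (1 : ℝ) ≤ n := by exact_mod_cast (by omega : 1 ≤ n)
        have h3 : Bn w w (2 * n) / (4 * n) ≤ H981.mu ^ (2 * n) * Real.exp (K * Real.log n ^ 2) := by
          refine le_trans (div_le_self (Bn_nonneg _ _ _) (by linarith)) ?_
          exact (Bn_le_card _ _ _).trans (h n hn.1).2
        have h4 : Real.log n ≤ 2 * Real.log ((w : ℝ) + 1) := by
          have h3 : (n : ℝ) ≤ ((w : ℝ) + 1) ^ 2 := by exact_mod_cast hn.2
          have := Real.log_le_log hn0 h3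
          rwa [Real.log_pow] at this
        have h5 : Real.log n ^ 2 ≤ 4 * Real.log ((w : ℝ) + 1) ^ 2 := by
          have := pow_le_pow_left₀ (Real.log_natCast_nonneg n) h4 2
          linarith [this, mul_pow 2 (Real.log ((w : ℝ) + 1)) 2]
        refine (mul_le_mul_of_nonneg_right h3 (by positivity)).trans ?_
        have e : H981.mu ^ (2 * n) * Real.exp (K * Real.log n ^ 2) * x ^ (2 * n) =
            Real.exp (K * Real.log n ^ 2 + 2 * n * Real.log (H981.mu * x)) := by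
          rw [Real.exp_add]
          have : Real.exp (2 * n * Real.log (H981.mu * x)) = (H981.mu * x) ^ (2 * n) := by
            rw [← Real.exp_log (by positivity : 0 < H981.mu * x), Real.log_exp,
              ← Real.exp_nat_mul]
            push_cast
            rfl
          rw [this, mul_pow]
          ring
        rw [e]
        apply Real.exp_le_exp.2
        rw [hR]
        have h6 := mul_le_mul_of_nonneg_left h5 hK
        have h7 : 2 * (n : ℝ) * Real.log (H981.mu * x) ≤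
            ((w : ℝ) + 1) ^ 2 * max 0 (Real.log (H981.mu * x)) := by
          have h8 : 2 * (n : ℝ) ≤ ((w : ℝ) + 1) ^ 2 := by exact_mod_cast h2
          calc 2 * (n : ℝ) * Real.log (H981.mu * x) ≤ 2 * n * max 0 (Real.log (H981.mu * x)) :=
                mul_le_mul_of_nonneg_left (le_max_right _ _) (by positivity)
            _ ≤ _ := mul_le_mul_of_nonneg_right h8 (le_max_left _ _)
        linarith
    refine (Finset.sum_le_card_nsmul _ _ _ hb).trans ?_
    rw [nsmul_eq_mul]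
    apply mul_le_mul_of_nonneg_right _ (Real.exp_pos _).le
    rw [Nat.card_Icc]
    have : (((w + 1) ^ 2 + 1 - 2 : ℕ) : ℝ) ≤ (((w + 1) ^ 2 : ℕ) : ℝ) := by
      exact_mod_cast (by omega : (w + 1) ^ 2 + 1 - 2 ≤ (w + 1) ^ 2)
    push_cast at this
    exact this
  have h2 := Real.log_le_log (Zs_pos hx hw) h1
  rw [Real.log_mul (by positivity) (Real.exp_pos _).ne', Real.log_exp, Real.log_pow, hR] at h2
  push_cast at h2
  linarith

theorem exists_lam {x : ℝ} (hx : 0 < x) : ∃ l : ℝ,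
    Tendsto (fun w : ℕ => Real.log (Zs x w) / (w : ℝ) ^ 2) atTop (𝓝 l) := by
  obtain ⟨K, hK, h⟩ := Zs_le
  have hM : 0 ≤ max 0 (Real.log (H981.mu * x)) := le_max_left _ _
  refine exists_limit (C := 14 + K + max 0 (Real.log (H981.mu * x))) ?_ ?_ ?_ (by positivity)
  · intro w w' hw hww
    exact Real.log_le_log (Zs_pos hx hw) (Zs_mono hx hww)
  · intro w t hw ht
    refine le_trans ?_ (Zs_super hx w t hw ht)
    have hw0 : (0 : ℝ) ≤ w := by positivity
    have hl0 : 0 ≤ Real.log ((w : ℝ) + 1) := Real.log_nonneg (by linarith)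
    have ht0 : (0 : ℝ) < t := by exact_mod_cast ht
    have h1 : 14 * (1 + Real.log ((w : ℝ) + 1)) ≤
        (14 + K + max 0 (Real.log (H981.mu * x))) * (1 + Real.log ((w : ℝ) + 1)) :=
      mul_le_mul_of_nonneg_right (by linarith) (by linarith)
    have h2 := mul_le_mul_of_nonneg_left h1 ht0.le
    have h3 := mul_le_mul_of_nonneg_left h1 (by positivity : (0 : ℝ) ≤ (t : ℝ) ^ 2)
    linarith
  · intro w hw
    refine (h x hx w hw).trans ?_
    have hw1 : (1 : ℝ) ≤ w := by exact_mod_cast hw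
    have hl0 : 0 ≤ Real.log ((w : ℝ) + 1) := Real.log_nonneg (by linarith)
    have hl1 : Real.log ((w : ℝ) + 1) ≤ (w : ℝ) + 1 := by
      have := Real.log_le_sub_one_of_pos (by linarith : (0 : ℝ) < (w : ℝ) + 1)
      linarith
    have h2 : Real.log ((w : ℝ) + 1) ^ 2 ≤ ((w : ℝ) + 1) ^ 2 := pow_le_pow_left₀ hl0 hl1 2
    have h3 := mul_le_mul_of_nonneg_left h2 hK
    nlinarith

/-- the pressure -/
noncomputable def lam (x : ℝ) : ℝ := if h : 0 < x then Classical.choose (exists_lam h) else 0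

theorem lam_tendsto {x : ℝ} (hx : 0 < x) :
    Tendsto (fun w : ℕ => Real.log (Zs x w) / (w : ℝ) ^ 2) atTop (𝓝 (lam x)) := by
  unfold lam
  rw [dif_pos hx]
  exact Classical.choose_spec (exists_lam hx)

theorem lam_nonneg {x : ℝ} (hx : 0 < x) : 0 ≤ lam x := by
  have h1 : Tendsto (fun w : ℕ => Real.log (x ^ 4 / 8) * ((1 / (w : ℝ)) * (1 / (w : ℝ)))) atTop
      (𝓝 (Real.log (x ^ 4 / 8) * (0 * 0))) := by
    have h3 : Tendsto (fun W : ℕ => 1 / (W : ℝ)) atTop (𝓝 0) :=
      tendsto_natCast_atTop_atTop.const_div_atTop 1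
    exact (h3.mul h3).const_mul _
  rw [mul_zero, mul_zero] at h1
  refine le_of_tendsto_of_tendsto h1 (lam_tendsto hx) ?_
  filter_upwards [eventually_ge_atTop 1] with w hw
  have hw0 : (0 : ℝ) < w := by exact_mod_cast hw
  have h2 := Real.log_le_log (by positivity) (Zs_ge hx hw)
  have e : Real.log (x ^ 4 / 8) * ((1 / (w : ℝ)) * (1 / (w : ℝ))) =
      Real.log (x ^ 4 / 8) / (w : ℝ) ^ 2 := by
    field_simp
  rw [e]
  exact div_le_div_of_nonneg_right h2 (by positivity)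

theorem tendsto_logsq_sq : Tendsto (fun W : ℕ => Real.log ((W : ℝ) + 1) ^ 2 / (W : ℝ) ^ 2) atTop
    (𝓝 0) := by
  have h1 : Tendsto (fun W : ℕ => 16 * (1 / (W : ℝ) * (((W : ℝ) + 1) / W))) atTop
      (𝓝 (16 * (0 * 1))) :=
    ((tendsto_natCast_atTop_atTop.const_div_atTop 1).mul (tendsto_add_div 1)).const_mul 16
  simp only [zero_mul, mul_zero] at h1
  refine squeeze_zero' ?_ ?_ h1
  · filter_upwards [eventually_ge_atTop 1] with W hW
    positivity
  · filter_upwards [eventually_ge_atTop 1] with W hW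
    have hW0 : (0 : ℝ) < W := by exact_mod_cast hW
    obtain ⟨s, hs⟩ : ∃ s : ℝ, s = Real.sqrt ((W : ℝ) + 1) := ⟨_, rfl⟩
    have hs2 : s ^ 2 = (W : ℝ) + 1 := by rw [hs]; exact Real.sq_sqrt (by positivity)
    have hs0 : 0 < s := by rw [hs]; positivity
    have h2 : Real.log ((W : ℝ) + 1) ≤ 2 * s := by
      rw [← hs2, Real.log_pow]
      have := Real.log_le_sub_one_of_pos hs0
      push_cast
      linarith
    have h0 : 0 ≤ Real.log ((W : ℝ) + 1) := Real.log_nonneg (by linarith)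
    have h3 : Real.log ((W : ℝ) + 1) ^ 2 ≤ 4 * ((W : ℝ) + 1) := by
      have := pow_le_pow_left₀ h0 h2 2
      rw [mul_pow, hs2] at this
      linarith
    have e : 16 * (1 / (W : ℝ) * (((W : ℝ) + 1) / W)) = 16 * ((W : ℝ) + 1) / (W : ℝ) ^ 2 := by
      field_simp
    rw [e]
    apply div_le_div_of_nonneg_right _ (by positivity)
    linarith

theorem lam_le {x : ℝ} (hx : 0 < x) : lam x ≤ max 0 (Real.log (H981.mu * x)) := by
  obtain ⟨K, hK, h⟩ := Zs_le
  have h1 : Tendsto (fun w : ℕ => 2 * (Real.log ((w : ℝ) + 1) / (w : ℝ) ^ 2) +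
      K * (Real.log ((w : ℝ) + 1) ^ 2 / (w : ℝ) ^ 2) +
      (((w : ℝ) + 1) / w) ^ 2 * max 0 (Real.log (H981.mu * x))) atTop
      (𝓝 (2 * 0 + K * 0 + 1 ^ 2 * max 0 (Real.log (H981.mu * x)))) :=
    ((tendsto_log_sq.const_mul 2).add (tendsto_logsq_sq.const_mul K)).add
      (((tendsto_add_div 1).pow 2).mul_const _)
  have e0 : 2 * 0 + K * 0 + 1 ^ 2 * max 0 (Real.log (H981.mu * x)) =
      max 0 (Real.log (H981.mu * x)) := by ring
  rw [e0] at h1
  refine le_of_tendsto_of_tendsto (lam_tendsto hx) h1 ?_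
  filter_upwards [eventually_ge_atTop 1] with w hw
  have hw0 : (0 : ℝ) < w := by exact_mod_cast hw
  rw [div_le_iff₀ (by positivity)]
  refine (h x hx w hw).trans (le_of_eq ?_)
  field_simp

theorem lam_mono {x y : ℝ} (hx : 0 < x) (hxy : x ≤ y) : lam x ≤ lam y := by
  have hy : 0 < y := by linarith
  refine le_of_tendsto_of_tendsto (lam_tendsto hx) (lam_tendsto hy) ?_
  filter_upwards [eventually_ge_atTop 1] with w hw
  apply div_le_div_of_nonneg_right _ (by positivity)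
  refine Real.log_le_log (Zs_pos hx hw) ?_
  unfold Zs
  refine Finset.sum_le_sum fun n _ => ?_
  have := Bn_nonneg w w (2 * n)
  exact mul_le_mul_of_nonneg_left (pow_le_pow_left₀ hx.le hxy _) (by positivity)

theorem lam_ge {x : ℝ} (hx : 0 < x) {w n : ℕ} (hw : 1 ≤ w) (hn : 2 ≤ n)
    (hB : 0 < Bn w w (2 * n)) :
    (Real.log (Bn w w (2 * n)) + 2 * n * Real.log x -
      (9 + 4 * Real.log (2 * n) + 4 * Real.log ((w : ℝ) + 1))) / ((w : ℝ) + 1) ^ 2 ≤ lam x := by
  have hn0 : (0 : ℝ) < n := by exact_mod_cast (by omega : 0 < n)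
  have hn1 : (1 : ℝ) ≤ n := by exact_mod_cast (by omega : 1 ≤ n)
  have hn2 : n ≤ (w + 1) ^ 2 := by
    by_contra hcon
    rw [Bn_zero (by omega) (by omega)] at hB
    exact lt_irrefl _ hB
  have h := limit_ge (a := fun w => Real.log (Zs x w)) (v := w + 1)
    (fun w w' hw hww => Real.log_le_log (Zs_pos hx hw) (Zs_mono hx hww)) (lam_tendsto hx)
    (by omega) (β := Real.log (Bn w w (2 * n)) + 2 * n * Real.log x -
      (9 + 4 * Real.log (2 * n) + 4 * Real.log ((w : ℝ) + 1))) (D := 4 + Real.log n) (by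
      intro t ht
      refine le_trans ?_ (term_lower hx hn hn2 ht hB)
      have ht0 : (0 : ℝ) < t := by exact_mod_cast ht
      have ht1 : (1 : ℝ) ≤ t := by exact_mod_cast ht
      have hl2 : Real.log 2 ≤ 1 := by
        have := Real.log_two_lt_d9
        linarith
      have hlt : Real.log t ≤ t := (Real.log_le_sub_one_of_pos ht0).trans (by linarith)
      have hln : 0 ≤ Real.log n := Real.log_nonneg hn1
      have e2 : Real.log (4 * (t ^ 2 * n)) = 2 * Real.log 2 + (2 * Real.log t + Real.log n) := by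
        rw [Real.log_mul (by norm_num) (by positivity), Real.log_mul (by positivity) hn0.ne',
          Real.log_pow]
        have : (4 : ℝ) = 2 ^ 2 := by norm_num
        rw [this, Real.log_pow]
        push_cast
        ring
      rw [e2]
      have : 2 * Real.log 2 + (2 * Real.log t + Real.log n) ≤ (4 + Real.log n) * t := by
        nlinarith [mul_nonneg hln (sub_nonneg.2 ht1)]
      linarith)
  push_cast at h
  exact h

end Pool.Agent.K6.H36.PJ
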