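import Pool.Agent.K6.H36.PJ.Press2

/-!
Joins of loops in a strip.
-/

set_option autoImplicit false

namespace Pool.Agent.K6.H36.PJ

open Pool.Agent.N223.PS Filter Topology

/-- the index `i` is the last vertex of the top row -/
def TRi {L : ℕ} (f : ZMod L → ℤ × ℤ) (i : ZMod L) : Prop :=
  ∀ j, (f j).2 < (f i).2 ∨ ((f j).2 = (f i).2 ∧ (f j).1 ≤ (f i).1)

/-- the index `i` is the last vertex of the bottom row -/
def BRi {L : ℕ} (f : ZMod L → ℤ × ℤ) (i : ZMod L) : Prop :=
  ∀ j, (f i).2 < (f j).2 ∨ ((f j).2 = (f i).2 ∧ (f j).1 ≤ (f i).1)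

/-- the loop can be placed in the strip `0 ≤ x ≤ k` with the last vertex of the bottom row in the
column `a` and the last vertex of the top row in the column `b` -/
def Pl {L : ℕ} (k a b : ℤ) (f : ZMod L → ℤ × ℤ) : Prop :=
  ∃ p : ℤ, (∀ i, 0 ≤ p + (f i).1 ∧ p + (f i).1 ≤ k) ∧ (∃ i, BRi f i ∧ p + (f i).1 = a) ∧
    ∃ i, TRi f i ∧ p + (f i).1 = b

theorem pl_rot' {L : ℕ} {k a b : ℤ} {f : ZMod L → ℤ × ℤ} (h : Pl k a b f) (s : ZMod L) :
    Pl k a b (rot s f) := by
  obtain ⟨p, h1, ⟨i, h2, h3⟩, j, h4, h5⟩ := h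
  refine ⟨p + (f s).1, ?_, ⟨i - s, ?_, ?_⟩, j - s, ?_, ?_⟩
  · intro i
    have := h1 (i + s)
    simp only [rot, Prod.fst_sub]
    constructor <;> omega
  · intro j
    have := h2 (j + s)
    simp only [rot, Prod.fst_sub, Prod.snd_sub, sub_add_cancel]
    omega
  · simp only [rot, Prod.fst_sub, sub_add_cancel]
    omega
  · intro i
    have := h4 (i + s)
    simp only [rot, Prod.fst_sub, Prod.snd_sub, sub_add_cancel]
    omega
  · simp only [rot, Prod.fst_sub, sub_add_cancel]
    omega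

theorem pl_rot {L : ℕ} {k a b : ℤ} {f : ZMod L → ℤ × ℤ} (hf : IsLoop L f) (s : ZMod L) :
    Pl k a b (rot s f) ↔ Pl k a b f := by
  refine ⟨fun h => ?_, fun h => pl_rot' h s⟩
  have := pl_rot' h (-s)
  rwa [rot_rot, neg_add_cancel, rot_zero hf.1] at this

theorem pl_rev' {L : ℕ} {k a b : ℤ} {f : ZMod L → ℤ × ℤ} (h : Pl k a b f) :
    Pl k a b (rev f) := by
  obtain ⟨p, h1, ⟨i, h2, h3⟩, j, h4, h5⟩ := h
  refine ⟨p, fun i => h1 (-i), ⟨-i, ?_, ?_⟩, -j, ?_, ?_⟩
  · intro j
    have := h2 (-j)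
    simp only [rev, neg_neg]
    exact this
  · simp only [rev, neg_neg]
    exact h3
  · intro i
    have := h4 (-i)
    simp only [rev, neg_neg]
    exact this
  · simp only [rev, neg_neg]
    exact h5

theorem pl_rev {L : ℕ} {k a b : ℤ} {f : ZMod L → ℤ × ℤ} : Pl k a b (rev f) ↔ Pl k a b f := by
  refine ⟨fun h => ?_, pl_rev'⟩
  have := pl_rev' h
  rwa [rev_rev] at this

theorem pl_flp' {L : ℕ} {k a b : ℤ} {f : ZMod L → ℤ × ℤ} (h : Pl k a b f) :
    Pl k b a (flp f) := by
  obtain ⟨p, h1, ⟨i, h2, h3⟩, j, h4, h5⟩ := h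
  refine ⟨p, h1, ⟨j, ?_, h5⟩, i, ?_, h3⟩
  · intro l
    have := h4 l
    simp only [flp]
    omega
  · intro l
    have := h2 l
    simp only [flp]
    omega

theorem pl_flp {L : ℕ} {k a b : ℤ} {f : ZMod L → ℤ × ℤ} : Pl k b a (flp f) ↔ Pl k a b f := by
  refine ⟨fun h => ?_, pl_flp'⟩
  have := pl_flp' h
  rwa [flp_flp] at this

theorem pl_join {M N : ℕ} {G : ZMod M → ℤ × ℤ} {f : ZMod N → ℤ × ℤ} (hG : Bot M G) (hf : Top N f)
    (hM : 2 ≤ M) (hN : 2 ≤ N) {k a b c : ℤ} (h : Pl k a b f) (h' : Pl k b c G) :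
    Pl k a c (join M N G f) := by
  obtain ⟨p, h1, ⟨i, h2, h3⟩, j, h4, h5⟩ := h
  obtain ⟨q, g1, ⟨i', g2, g3⟩, j', g4, g5⟩ := h'
  -- the roots are the last vertices
  have hp : p = b := by
    have t1 := h4 0
    rw [hf.loop.1] at t1
    have t2 := hf.hgt j
    have t3 := hf.rgt j
    simp only [Prod.fst_zero, Prod.snd_zero] at t1
    omega
  have hq : q = b := by
    have t1 := g2 0
    rw [hG.loop.1] at t1
    have t2 := hG.hgt i'
    have t3 := hG.rgt i'
    simp only [Prod.fst_zero, Prod.snd_zero] at t1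
    omega
  subst hq
  subst hp
  obtain ⟨i0, hi0, rfl⟩ := exists_cast (by omega) i
  obtain ⟨j0, hj0, rfl⟩ := exists_cast (by omega) j'
  refine ⟨p, ?_, ?_, ⟨((j0 + 1 : ℕ) : ZMod (M + N)), ?_, ?_⟩⟩
  · intro l
    rcases join_cases hM hN hG hf l with ⟨-, e⟩ | ⟨t, -, -, e⟩ | ⟨t, -, -, -, e⟩
    · rw [e]
      have := g1 0
      rw [hG.loop.1] at this
      exact this
    · rw [e]
      exact g1 _
    · rw [e]
      exact h1 _
  · rcases Nat.eq_zero_or_pos i0 with h0 | h0
    · subst h0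
      rw [Nat.cast_zero] at h2 h3
      refine ⟨0, ?_, ?_⟩
      · intro l
        rw [join_zero hM]
        rcases join_cases hM hN hG hf l with ⟨-, e⟩ | ⟨t, -, -, e⟩ | ⟨t, -, -, -, e⟩
        · rw [e]; simp
        · rw [e]
          have := hG.hgt (t : ZMod M)
          left
          simp only [Prod.snd_zero]
          omega
        · rw [e]
          have := h2 t
          rw [hf.loop.1] at this
          exact this
      · rw [join_zero hM]
        rw [hf.loop.1] at h3
        exact h3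
    · refine ⟨((M + i0 : ℕ) : ZMod (M + N)), ?_, ?_⟩
      · intro l
        rw [join_high h0 hi0]
        rcases join_cases hM hN hG hf l with ⟨-, e⟩ | ⟨t, -, -, e⟩ | ⟨t, -, -, -, e⟩
        · rw [e]
          have := h2 0
          rw [hf.loop.1] at this
          exact this
        · rw [e]
          have := hG.hgt (t : ZMod M)
          have t2 := hf.hgt (i0 : ZMod N)
          left
          simp only
          omega
        · rw [e]
          exact h2 _
      · rw [join_high h0 hi0]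
        exact h3
  · intro l
    rw [join_low hN hj0]
    rcases join_cases hM hN hG hf l with ⟨-, e⟩ | ⟨t, -, -, e⟩ | ⟨t, -, -, -, e⟩
    · rw [e]
      have := hG.hgt (j0 : ZMod M)
      left
      simp only [Prod.snd_zero]
      omega
    · rw [e]
      have := g4 t
      omega
    · rw [e]
      have := hG.hgt (j0 : ZMod M)
      have t2 := hf.hgt (t : ZMod N)
      left
      simp only
      omega
  · rw [join_low hN hj0]
    exact g5

open scoped Classical in
/-- the number of the loops of the class `(a, b)` -/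
noncomputable def Tn (k a b : ℤ) (L : ℕ) : ℝ := ∑ f ∈ TF L, if Pl k a b f then (1 : ℝ) else 0

theorem Tn_nonneg (k a b : ℤ) (L : ℕ) : 0 ≤ Tn k a b L := by
  unfold Tn
  exact Finset.sum_nonneg fun f _ => by split_ifs <;> norm_num

theorem Tn_mul (k a b c : ℤ) {M N : ℕ} (hM : 2 ≤ M) (hN : 2 ≤ N) :
    Tn k c b M * Tn k a b N ≤ 2 * Tn k a c (M + N) := by
  classical
  have hinv : Inv (fun f : ZMod (M + N) → ℤ × ℤ => if Pl k a c f then (1 : ℝ) else 0) := by
    refine ⟨fun f => ?_, fun f s hf => ?_, fun f hf => ?_⟩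
    · split_ifs <;> norm_num
    · simp only [pl_rot hf s]
    · simp only [pl_rev]
  have h := join_le hM hN hinv
  refine le_trans ?_ h
  rw [sum_BF (by omega)]
  unfold Tn
  rw [Finset.sum_mul_sum]
  refine Finset.sum_le_sum fun g hg => Finset.sum_le_sum fun f hf => ?_
  have hg' := (mem_TF (by omega)).1 hg
  have hf' := (mem_TF (by omega)).1 hf
  by_cases h1 : Pl k c b g
  · by_cases h2 : Pl k a b f
    · have h3 : Pl k b c (flp (rev g)) := pl_flp.2 (pl_rev.2 h1)
      rw [if_pos h1, if_pos h2, if_pos (pl_join hg'.bot hf' hM hN h2 h3)]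
      norm_num
    · rw [if_neg h2]
      split_ifs <;> norm_num
  · rw [if_neg h1]
    split_ifs <;> norm_num

theorem Tn_two {k a : ℤ} (ha : 1 ≤ a) (hk : a ≤ k) : 0 < Tn k a a 2 := by
  classical
  unfold Tn
  have h : ∀ i : ZMod 2, dg i = 0 ∨ dg i = (-1, 0) := by decide
  refine Finset.sum_pos' (fun f _ => by split_ifs <;> norm_num)
    ⟨dg, (mem_TF (by omega)).2 dg_top, ?_⟩
  rw [if_pos]
  · norm_num
  · refine ⟨a, ?_, ⟨0, ?_, ?_⟩, 0, ?_, ?_⟩
    · intro i
      rcases h i with e | e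
      · rw [e]; simp only [Prod.fst_zero]; omega
      · rw [e]; simp only; omega
    · intro j
      have e0 : dg 0 = 0 := rfl
      rw [e0]
      rcases h j with e | e
      · rw [e]; simp
      · rw [e]; simp
    · have e0 : dg 0 = 0 := rfl
      rw [e0]; simp
    · intro j
      have e0 : dg 0 = 0 := rfl
      rw [e0]
      rcases h j with e | e
      · rw [e]; simp
      · rw [e]; simp
    · have e0 : dg 0 = 0 := rfl
      rw [e0]; simp

theorem Tn_pos {k a : ℤ} (ha : 1 ≤ a) (hk : a ≤ k) {n : ℕ} (hn : 1 ≤ n) :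
    0 < Tn k a a (2 * n) := by
  induction n, hn using Nat.le_induction with
  | base => exact Tn_two ha hk
  | succ n hn ih =>
    have h := Tn_mul k a a a (M := 2) (N := 2 * n) le_rfl (by omega)
    have h2 := mul_pos (Tn_two ha hk) ih
    rw [show 2 * (n + 1) = 2 + 2 * n by ring]
    linarith

theorem Tn_le_card (k a b : ℤ) (L : ℕ) : Tn k a b L ≤ ((TF L).card : ℝ) := by
  classical
  unfold Tn
  have h : ∀ f ∈ TF L, (if Pl k a b f then (1 : ℝ) else 0) ≤ 1 := by
    intro f _
    split_ifs <;> norm_num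
  have := Finset.sum_le_card_nsmul _ _ _ h
  rwa [nsmul_eq_mul, mul_one] at this

theorem exists_strip {k a : ℤ} (ha : 1 ≤ a) (hk : a ≤ k) : ∃ l : ℝ,
    Tendsto (fun n : ℕ => Real.log (Tn k a a (2 * n)) / (2 * n)) atTop (𝓝 l) ∧
      ∀ n : ℕ, 1 ≤ n → Tn k a a (2 * n) ≤ 2 * Real.exp (2 * n * l) := by
  obtain ⟨B, hB, hcard⟩ := card_exp
  obtain ⟨t, ht⟩ : ∃ t : ℕ → ℝ, t = fun n => Tn k a a (2 * n) / 2 := ⟨_, rfl⟩
  have hpos : ∀ n, 1 ≤ n → 0 < t n := by
    intro n hn
    rw [ht]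
    have := Tn_pos ha hk hn
    positivity
  obtain ⟨l, h1, h2⟩ := fekete (a := t) (B := B) hpos (by
    intro m n hm hn
    have h := Tn_mul k a a a (M := 2 * m) (N := 2 * n) (by omega) (by omega)
    rw [ht]
    simp only
    rw [show 2 * (m + n) = 2 * m + 2 * n by ring]
    linarith) (by
    intro n hn
    rw [ht]
    simp only
    have h3 : Tn k a a (2 * n) ≤ Real.exp (B * n) :=
      (Tn_le_card _ _ _ _).trans (le_trans
        (by exact_mod_cast Finset.card_le_card (TF_sub (by omega))) (hcard n hn))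
    have h5 := Tn_pos ha hk hn
    linarith)
  refine ⟨l, ?_, ?_⟩
  · have h3 : Tendsto (fun n : ℕ => Real.log (t n) / (2 * n) + (Real.log 2) / (2 * (n : ℝ)))
        atTop (𝓝 (l + 0)) := h1.add (tendsto_two_mul.const_div_atTop _)
    rw [add_zero] at h3
    refine h3.congr' ?_
    filter_upwards [eventually_ge_atTop 1] with n hn
    rw [← add_div]
    congr 1
    rw [ht]
    simp only
    rw [Real.log_div (Tn_pos ha hk hn).ne' (by norm_num)]
    ring
  · intro n hn
    have h3 := h2 n hn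
    rw [ht] at h3
    simp only at h3
    linarith

end Pool.Agent.K6.H36.PJ
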