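import Pool.Agent.K6.H36.PJ.Strip

/-!
The growth constants of the polygons of bounded width.
-/

set_option autoImplicit false

namespace Pool.Agent.K6.H36.PJ

open Pool.Agent.N223.PS Filter Topology

/-- the width (horizontal extent) of a loop -/
noncomputable def wid (m : ℕ) (f : ZMod m → ℤ × ℤ) : ℕ :=
  sSup {w : ℕ | ∃ i j, w = ((f i).1 - (f j).1).natAbs}

theorem wid_bdd {m : ℕ} [NeZero m] (f : ZMod m → ℤ × ℤ) :
    BddAbove {w : ℕ | ∃ i j, w = ((f i).1 - (f j).1).natAbs} := by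
  have h : {w : ℕ | ∃ i j, w = ((f i).1 - (f j).1).natAbs} =
      Set.range (fun ij : ZMod m × ZMod m => ((f ij.1).1 - (f ij.2).1).natAbs) := by
    ext w
    constructor
    · rintro ⟨i, j, rfl⟩
      exact ⟨(i, j), rfl⟩
    · rintro ⟨⟨i, j⟩, rfl⟩
      exact ⟨i, j, rfl⟩
  rw [h]
  exact (Set.finite_range _).bddAbove

theorem wid_le_iff {m : ℕ} [NeZero m] (f : ZMod m → ℤ × ℤ) (k : ℕ) :
    wid m f ≤ k ↔ ∀ i j, (f i).1 - (f j).1 ≤ k := by
  unfold wid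
  constructor
  · intro h i j
    have h1 := le_csSup (wid_bdd f) ⟨i, j, rfl⟩
    omega
  · intro h
    refine csSup_le ⟨0, 0, 0, by simp⟩ ?_
    rintro w ⟨i, j, rfl⟩
    have h1 := h i j
    have h2 := h j i
    omega

theorem wid_rot {m : ℕ} [NeZero m] (f : ZMod m → ℤ × ℤ) (s : ZMod m) (k : ℕ) :
    wid m (rot s f) ≤ k ↔ wid m f ≤ k := by
  rw [wid_le_iff, wid_le_iff]
  constructor
  · intro h i j
    have := h (i - s) (j - s)
    simp only [rot, Prod.fst_sub, sub_add_cancel] at this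
    omega
  · intro h i j
    have := h (i + s) (j + s)
    simp only [rot, Prod.fst_sub]
    omega

theorem wid_rev {m : ℕ} [NeZero m] (f : ZMod m → ℤ × ℤ) (k : ℕ) :
    wid m (rev f) ≤ k ↔ wid m f ≤ k := by
  rw [wid_le_iff, wid_le_iff]
  constructor
  · intro h i j
    have := h (-i) (-j)
    simp only [rev, neg_neg] at this
    exact this
  · intro h i j
    exact h (-i) (-j)

theorem wid_le_half {n : ℕ} (hn : 1 ≤ n) {f : ZMod (2 * n) → ℤ × ℤ} (hf : IsLoop (2 * n) f) :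
    wid (2 * n) f ≤ n := by
  have : NeZero (2 * n) := ⟨by omega⟩
  rw [wid_le_iff]
  have key : ∀ (s : ZMod (2 * n)) (k : ℕ), |(f (s + k)).1 - (f s).1| ≤ k := by
    intro s k
    have h := loop_bound (rot_loop hf s) k
    unfold rot at h
    simp only [Prod.fst_sub, Prod.snd_sub] at h
    have h2 := abs_nonneg ((f ((k : ZMod (2 * n)) + s)).2 - (f s).2)
    rw [add_comm s]
    omega
  intro i j
  obtain ⟨d, hd, he⟩ := exists_cast (by omega : 0 < 2 * n) (i - j)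
  rcases Nat.lt_or_ge n d with h1 | h1
  · have h2 := key i (2 * n - d)
    have e : i + ((2 * n - d : ℕ) : ZMod (2 * n)) = j := by
      rw [Nat.cast_sub hd.le, ZMod.natCast_self, ← he]
      ring
    rw [e] at h2
    have := abs_le.1 h2
    omega
  · have h2 := key j d
    have e : j + (d : ZMod (2 * n)) = i := by
      rw [← he]
      ring
    rw [e] at h2
    have := abs_le.1 h2
    omega

theorem pl_wid {m : ℕ} [NeZero m] {k : ℕ} {a b : ℤ} {f : ZMod m → ℤ × ℤ} (h : Pl k a b f) :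
    wid m f ≤ k := by
  rw [wid_le_iff]
  obtain ⟨p, h1, -⟩ := h
  intro i j
  have := h1 i
  have := h1 j
  omega

theorem wid_pl {m : ℕ} [NeZero m] {k : ℕ} {f : ZMod m → ℤ × ℤ} (h : wid m f ≤ k) :
    ∃ a ∈ Finset.Icc (0 : ℤ) k, ∃ b ∈ Finset.Icc (0 : ℤ) k, Pl k a b f := by
  rw [wid_le_iff] at h
  obtain ⟨i0, h0⟩ := Finite.exists_min (fun i : ZMod m => (f i).1)
  obtain ⟨i1, h1⟩ := Finite.exists_max (fun i : ZMod m => toLex ((f i).2, (f i).1))
  obtain ⟨i2, h2⟩ := Finite.exists_max (fun i : ZMod m => toLex (-(f i).2, (f i).1))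
  have hr : ∀ i, 0 ≤ -(f i0).1 + (f i).1 ∧ -(f i0).1 + (f i).1 ≤ k := by
    intro i
    have := h0 i
    have := h i i0
    constructor <;> omega
  refine ⟨_, Finset.mem_Icc.2 (hr i2), _, Finset.mem_Icc.2 (hr i1), -(f i0).1, hr,
    ⟨i2, ?_, rfl⟩, i1, ?_, rfl⟩
  · intro j
    have := h2 j
    rw [Prod.Lex.toLex_le_toLex] at this
    simp only at this
    omega
  · intro j
    have := h1 j
    rw [Prod.Lex.toLex_le_toLex] at this
    exact this

open scoped Classical in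
/-- the number of the loops of width at most `k` with the root at the end of the top row -/
noncomputable def Sn (k : ℕ) (L : ℕ) : ℝ := ∑ f ∈ TF L, if wid L f ≤ k then (1 : ℝ) else 0

open scoped Classical in
/-- the number of the loops of width at most `k` -/
noncomputable def Nn (k : ℕ) (L : ℕ) : ℝ := ∑ f ∈ LF L, if wid L f ≤ k then (1 : ℝ) else 0

theorem Tn_le_Sn {k : ℕ} (a b : ℤ) {L : ℕ} (hL : 0 < L) : Tn k a b L ≤ Sn k L := by
  classical
  have : NeZero L := ⟨by omega⟩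
  unfold Tn Sn
  refine Finset.sum_le_sum fun f _ => ?_
  by_cases h : Pl k a b f
  · rw [if_pos h, if_pos (pl_wid h)]
  · rw [if_neg h]
    split_ifs <;> norm_num

theorem Sn_le {k : ℕ} {L : ℕ} (hL : 0 < L) :
    Sn k L ≤ ∑ ab ∈ Finset.Icc (0 : ℤ) k ×ˢ Finset.Icc (0 : ℤ) k, Tn k ab.1 ab.2 L := by
  classical
  have : NeZero L := ⟨by omega⟩
  unfold Sn Tn
  rw [Finset.sum_comm]
  refine Finset.sum_le_sum fun f _ => ?_
  have hnn : ∀ ab ∈ Finset.Icc (0 : ℤ) k ×ˢ Finset.Icc (0 : ℤ) k,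
      0 ≤ (if Pl k ab.1 ab.2 f then (1 : ℝ) else 0) := by
    intro ab _
    split_ifs <;> norm_num
  by_cases h : wid L f ≤ k
  · rw [if_pos h]
    obtain ⟨a, ha, b, hb, hab⟩ := wid_pl h
    have h1 := Finset.single_le_sum hnn (Finset.mem_product.2 ⟨ha, hb⟩ :
      ((a, b) : ℤ × ℤ) ∈ Finset.Icc (0 : ℤ) k ×ˢ Finset.Icc (0 : ℤ) k)
    simp only at h1
    rw [if_pos hab] at h1
    exact h1
  · rw [if_neg h]
    exact Finset.sum_nonneg hnn

theorem Sn_le_Nn (k : ℕ) {L : ℕ} (hL : 0 < L) : Sn k L ≤ Nn k L := by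
  classical
  unfold Sn Nn
  exact Finset.sum_le_sum_of_subset_of_nonneg (TF_sub hL)
    (fun _ _ _ => by split_ifs <;> norm_num)

theorem Nn_le_Sn (k : ℕ) {L : ℕ} (hL : 3 ≤ L) : Nn k L ≤ 2 * L * Sn k L := by
  classical
  have : NeZero L := ⟨by omega⟩
  refine sum_loops_le hL ⟨fun f => ?_, fun f s hf => ?_, fun f hf => ?_⟩
  · split_ifs <;> norm_num
  · simp only [wid_rot]
  · simp only [wid_rev]

/-- the growth rate of the loops of width at most `k` -/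
theorem exists_rate {k : ℕ} (hk : 1 ≤ k) : ∃ l : ℝ,
    (∃ a : ℤ, 1 ≤ a ∧ a ≤ k ∧
      Tendsto (fun n : ℕ => Real.log (Tn k a a (2 * n)) / (2 * n)) atTop (𝓝 l)) ∧
    ∀ a : ℤ, 1 ≤ a → a ≤ k → ∀ n : ℕ, 1 ≤ n → Tn k a a (2 * n) ≤ 2 * Real.exp (2 * n * l) := by
  have h : ∀ a : ℤ, ∃ l : ℝ, 1 ≤ a → a ≤ k →
      Tendsto (fun n : ℕ => Real.log (Tn k a a (2 * n)) / (2 * n)) atTop (𝓝 l) ∧
      ∀ n : ℕ, 1 ≤ n → Tn k a a (2 * n) ≤ 2 * Real.exp (2 * n * l) := by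
    intro a
    by_cases ha : 1 ≤ a ∧ a ≤ k
    · obtain ⟨l, hl⟩ := exists_strip ha.1 ha.2
      exact ⟨l, fun _ _ => hl⟩
    · exact ⟨0, fun h1 h2 => absurd ⟨h1, h2⟩ ha⟩
  choose l hl using h
  obtain ⟨a, ha, hmax⟩ := Finset.exists_max_image (Finset.Icc (1 : ℤ) k) l
    ⟨1, Finset.mem_Icc.2 ⟨le_rfl, by exact_mod_cast hk⟩⟩
  rw [Finset.mem_Icc] at ha
  refine ⟨l a, ⟨a, ha.1, ha.2, (hl a ha.1 ha.2).1⟩, fun b h1 h2 n hn => ?_⟩
  refine ((hl b h1 h2).2 n hn).trans ?_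
  have h3 := hmax b (Finset.mem_Icc.2 ⟨h1, h2⟩)
  have h4 : 2 * (n : ℝ) * l b ≤ 2 * n * l a := mul_le_mul_of_nonneg_left h3 (by positivity)
  linarith [Real.exp_le_exp.2 h4]

theorem Tn_zero {k a : ℤ} (ha : a < 1) {L : ℕ} (hL : 0 < L) (b : ℤ) : Tn k b a L = 0 := by
  classical
  unfold Tn
  refine Finset.sum_eq_zero fun f hf => ?_
  rw [if_neg]
  rintro ⟨p, h1, -, j, h4, h5⟩
  have hf' := (mem_TF hL).1 hf
  have t1 := h4 0
  rw [hf'.loop.1] at t1
  have t2 := hf'.hgt j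
  have t3 := hf'.rgt j
  simp only [Prod.fst_zero, Prod.snd_zero] at t1
  have t4 := h1 1
  rw [hf'.one] at t4
  simp only at t4
  omega

/-- the rate -/
noncomputable def rk (k : ℕ) : ℝ := if h : 1 ≤ k then Classical.choose (exists_rate h) else 0

theorem rk_tendsto_low {k : ℕ} (hk : 1 ≤ k) : ∃ a : ℤ, 1 ≤ a ∧ a ≤ k ∧
    Tendsto (fun n : ℕ => Real.log (Tn k a a (2 * n)) / (2 * n)) atTop (𝓝 (rk k)) := by
  unfold rk
  rw [dif_pos hk]
  exact (Classical.choose_spec (exists_rate hk)).1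

theorem Tn_diag_le {k : ℕ} (hk : 1 ≤ k) {a : ℤ} (h1 : 1 ≤ a) (h2 : a ≤ k) {n : ℕ} (hn : 1 ≤ n) :
    Tn k a a (2 * n) ≤ 2 * Real.exp (2 * n * rk k) := by
  unfold rk
  rw [dif_pos hk]
  exact (Classical.choose_spec (exists_rate hk)).2 a h1 h2 n hn

theorem Tn_le {k : ℕ} (hk : 1 ≤ k) {a : ℤ} (h2 : a ≤ k) (b : ℤ) {n : ℕ} (hn : 1 ≤ n) :
    Tn k a b (2 * n) ≤ 2 * Real.exp (2 * n * rk k) := by
  have h := Tn_mul k a b a (M := 2 * n) (N := 2 * n) (by omega) (by omega)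
  rcases Int.lt_or_le a 1 with h1 | h1
  · rw [Tn_zero h1 (by omega) a, mul_zero] at h
    have h3 : Tn k a b (2 * n) = 0 := by
      have h4 := Tn_nonneg k a b (2 * n)
      nlinarith
    rw [h3]
    positivity
  · have h3 := Tn_diag_le hk h1 h2 (n := n + n) (by omega)
    rw [show 2 * (n + n) = 2 * n + 2 * n by ring] at h3
    have h4 : Tn k a b (2 * n) * Tn k a b (2 * n) ≤
        (2 * Real.exp (2 * n * rk k)) * (2 * Real.exp (2 * n * rk k)) := by
      refine h.trans ((mul_le_mul_of_nonneg_left h3 (by norm_num)).trans (le_of_eq ?_))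
      have e : Real.exp (2 * ((n + n : ℕ) : ℝ) * rk k) =
          Real.exp (2 * n * rk k) * Real.exp (2 * n * rk k) := by
        rw [← Real.exp_add]
        congr 1
        push_cast
        ring
      rw [e]
      ring
    exact abs_le_of_sq_le_sq' (by nlinarith) (by positivity) |>.2

theorem Sn_le_exp {k : ℕ} (hk : 1 ≤ k) {n : ℕ} (hn : 1 ≤ n) :
    Sn k (2 * n) ≤ 2 * ((k : ℝ) + 1) ^ 2 * Real.exp (2 * n * rk k) := by
  refine (Sn_le (by omega)).trans ?_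
  have h : ∀ ab ∈ Finset.Icc (0 : ℤ) k ×ˢ Finset.Icc (0 : ℤ) k,
      Tn k ab.1 ab.2 (2 * n) ≤ 2 * Real.exp (2 * n * rk k) := by
    intro ab hab
    rw [Finset.mem_product, Finset.mem_Icc, Finset.mem_Icc] at hab
    exact Tn_le hk hab.1.2 _ hn
  refine (Finset.sum_le_card_nsmul _ _ _ h).trans (le_of_eq ?_)
  rw [Finset.card_product, Int.card_Icc, nsmul_eq_mul]
  have e : ((k : ℤ) + 1 - 0).toNat = k + 1 := by omega
  rw [e]
  push_cast
  ring

theorem Sn_pos {k : ℕ} (hk : 1 ≤ k) {n : ℕ} (hn : 1 ≤ n) : 0 < Sn k (2 * n) :=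
  (Tn_pos (k := (k : ℤ)) (a := 1) le_rfl (by exact_mod_cast hk) hn).trans_le
    (Tn_le_Sn 1 1 (by omega))

theorem Nn_pos {k : ℕ} (hk : 1 ≤ k) {n : ℕ} (hn : 1 ≤ n) : 0 < Nn k (2 * n) :=
  (Sn_pos hk hn).trans_le (Sn_le_Nn k (by omega))

theorem Nn_le_exp {k : ℕ} (hk : 1 ≤ k) {n : ℕ} (hn : 2 ≤ n) :
    Nn k (2 * n) ≤ 8 * n * ((k : ℝ) + 1) ^ 2 * Real.exp (2 * n * rk k) := by
  refine (Nn_le_Sn k (L := 2 * n) (by omega)).trans ?_
  have h := mul_le_mul_of_nonneg_left (Sn_le_exp hk (by omega : 1 ≤ n))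
    (by positivity : (0 : ℝ) ≤ 2 * ((2 * n : ℕ) : ℝ))
  refine h.trans (le_of_eq ?_)
  push_cast
  ring

theorem Nn_tendsto {k : ℕ} (hk : 1 ≤ k) :
    Tendsto (fun n : ℕ => Real.log (Nn k (2 * n)) / (2 * n)) atTop (𝓝 (rk k)) := by
  obtain ⟨a, ha1, ha2, ha⟩ := rk_tendsto_low hk
  have h2 : Tendsto (fun n : ℕ => rk k + (Real.log (4 * n) / (2 * (n : ℝ)) +
      Real.log (2 * ((k : ℝ) + 1) ^ 2) / (2 * (n : ℝ)))) atTop (𝓝 (rk k + (0 + 0))) :=
    tendsto_const_nhds.add (tendsto_log_div.add (tendsto_two_mul.const_div_atTop _))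
  rw [add_zero, add_zero] at h2
  refine tendsto_of_tendsto_of_tendsto_of_le_of_le' ha h2 ?_ ?_
  · filter_upwards [eventually_ge_atTop 1] with n hn
    apply div_le_div_of_nonneg_right _ (by positivity)
    exact Real.log_le_log (Tn_pos ha1 ha2 hn)
      ((Tn_le_Sn a a (by omega)).trans (Sn_le_Nn k (by omega)))
  · filter_upwards [eventually_ge_atTop 2] with n hn
    have hn0 : (0 : ℝ) < n := by exact_mod_cast (by omega : 0 < n)
    have h3 := Real.log_le_log (Nn_pos hk (by omega : 1 ≤ n)) (Nn_le_exp hk hn)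
    have e : 8 * (n : ℝ) * ((k : ℝ) + 1) ^ 2 = (4 * n) * (2 * ((k : ℝ) + 1) ^ 2) := by ring
    rw [e, Real.log_mul (by positivity) (Real.exp_pos _).ne', Real.log_exp,
      Real.log_mul (by positivity) (by positivity)] at h3
    rw [div_le_iff₀ (by positivity)]
    refine h3.trans (le_of_eq ?_)
    field_simp
    ring

end Pool.Agent.K6.H36.PJ
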