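import Pool.Agent.K6.H36.PJ.Strip2

/-!
The lower tail of the width and the mean width.
-/

set_option autoImplicit false

namespace Pool.Agent.K6.H36.PJ

open Pool.Agent.N223.PS Filter Topology

theorem Nn_mono {j k : ℕ} (h : j ≤ k) (L : ℕ) : Nn j L ≤ Nn k L := by
  classical
  unfold Nn
  refine Finset.sum_le_sum fun f _ => ?_
  by_cases h1 : wid L f ≤ j
  · rw [if_pos h1, if_pos (h1.trans h)]
  · rw [if_neg h1]
    split_ifs <;> norm_num

theorem Nn_le_Zl (k L : ℕ) : Nn k L ≤ Zl 0 L := by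
  classical
  rw [Zl_zero]
  unfold Nn
  have h : ∀ f ∈ LF L, (if wid L f ≤ k then (1 : ℝ) else 0) ≤ 1 := by
    intro f _
    split_ifs <;> norm_num
  have := Finset.sum_le_card_nsmul _ _ _ h
  rwa [nsmul_eq_mul, mul_one] at this

theorem Nn_all {n : ℕ} (hn : 1 ≤ n) {k : ℕ} (hk : n ≤ k) : Nn k (2 * n) = Zl 0 (2 * n) := by
  classical
  rw [Zl_zero]
  unfold Nn
  rw [Finset.sum_congr rfl (fun f hf => if_pos ((wid_le_half hn
    ((mem_LF (by omega)).1 hf)).trans hk)), Finset.sum_const, nsmul_eq_mul, mul_one]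

theorem rk_mono {j k : ℕ} (hj : 1 ≤ j) (h : j ≤ k) : rk j ≤ rk k := by
  refine le_of_tendsto_of_tendsto (Nn_tendsto hj) (Nn_tendsto (hj.trans h)) ?_
  filter_upwards [eventually_ge_atTop 1] with n hn
  apply div_le_div_of_nonneg_right _ (by positivity)
  exact Real.log_le_log (Nn_pos hj hn) (Nn_mono h _)

theorem rk_le {k : ℕ} (hk : 1 ≤ k) : rk k ≤ Real.log H981.mu := by
  rw [← Lam_zero]
  refine le_of_tendsto_of_tendsto (Nn_tendsto hk) (Zl_tendsto le_rfl) ?_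
  filter_upwards [eventually_ge_atTop 1] with n hn
  apply div_le_div_of_nonneg_right _ (by positivity)
  exact Real.log_le_log (Nn_pos hk hn) (Nn_le_Zl k _)

/-- the gap -/
noncomputable def hk (k : ℕ) : ℝ := Real.log H981.mu - rk k

theorem hk_nonneg {k : ℕ} (h : 1 ≤ k) : 0 ≤ hk k := sub_nonneg.2 (rk_le h)

/-- the lower tail of the width -/
theorem narrow_le : ∃ K : ℝ, 0 ≤ K ∧ ∀ n : ℕ, 2 ≤ n → ∀ k : ℕ, 1 ≤ k →
    Nn k (2 * n) / Zl 0 (2 * n) ≤ Real.exp (K * Real.log n ^ 2 - 2 * n * hk k) := by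
  obtain ⟨K, hK, h⟩ := counts
  have hmu : 0 < H981.mu := H981.mu_pos
  have hL2 : (0 : ℝ) < Real.log 2 := Real.log_pos (by norm_num)
  have key : ∀ n : ℕ, 2 ≤ n → ∀ k : ℕ, 1 ≤ k → k ≤ n →
      Nn k (2 * n) / Zl 0 (2 * n) ≤
        Real.exp ((K + 8 / Real.log 2) * Real.log n ^ 2 - 2 * n * hk k) := by
    intro n hn k hk1 hkn
    have hnr : (2 : ℝ) ≤ n := by exact_mod_cast hn
    have hln : Real.log 2 ≤ Real.log n := Real.log_le_log (by norm_num) hnr
    rw [div_le_iff₀ (Zl_pos 0 (by omega))]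
    refine (Nn_le_exp hk1 hn).trans ?_
    have hkr : (k : ℝ) + 1 ≤ 2 * n := by
      have : (k : ℝ) ≤ n := by exact_mod_cast hkn
      linarith
    have h2 : 8 * (n : ℝ) * ((k : ℝ) + 1) ^ 2 ≤ Real.exp (8 / Real.log 2 * Real.log n ^ 2) := by
      have h3 : 8 * (n : ℝ) * ((k : ℝ) + 1) ^ 2 ≤ 8 * n * (2 * n) ^ 2 := by gcongr
      refine h3.trans ?_
      have e8 : (8 : ℝ) * n * (2 * n) ^ 2 = 2 ^ 5 * (n : ℝ) ^ 3 := by ring
      rw [e8, ← Real.log_le_iff_le_exp (by positivity), Real.log_mul (by norm_num) (by positivity),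
        Real.log_pow, Real.log_pow]
      have h3 : 8 * Real.log n ≤ 8 / Real.log 2 * Real.log n ^ 2 := by
        rw [div_mul_eq_mul_div, le_div_iff₀ hL2]
        nlinarith
      push_cast
      linarith
    have h3 := (h n hn).1
    rw [← Zl_zero] at h3
    have e1 : H981.mu ^ (2 * n) = Real.exp (2 * n * Real.log H981.mu) := by
      rw [← Real.exp_log hmu, Real.log_exp, ← Real.exp_nat_mul]
      push_cast
      rfl
    rw [e1, ← Real.exp_add] at h3
    calc 8 * n * ((k : ℝ) + 1) ^ 2 * Real.exp (2 * n * rk k)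
        ≤ Real.exp (8 / Real.log 2 * Real.log n ^ 2) * Real.exp (2 * n * rk k) :=
          mul_le_mul_of_nonneg_right h2 (Real.exp_pos _).le
      _ = Real.exp ((K + 8 / Real.log 2) * Real.log n ^ 2 - 2 * n * hk k) *
          Real.exp (2 * n * Real.log H981.mu + -(K * Real.log n ^ 2)) := by
          rw [← Real.exp_add, ← Real.exp_add]
          congr 1
          unfold hk
          ring
      _ ≤ _ := mul_le_mul_of_nonneg_left h3 (Real.exp_pos _).le
  refine ⟨K + 8 / Real.log 2, by positivity, fun n hn k hk1 => ?_⟩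
  rcases le_total k n with hkn | hkn
  · exact key n hn k hk1 hkn
  · have h1 := key n hn n (by omega) le_rfl
    rw [Nn_all (by omega) le_rfl, div_self (Zl_pos 0 (by omega)).ne'] at h1
    rw [Nn_all (by omega) hkn, div_self (Zl_pos 0 (by omega)).ne']
    refine h1.trans (Real.exp_le_exp.2 ?_)
    have h2 : hk k ≤ hk n := by
      have := rk_mono (by omega : 1 ≤ n) hkn
      unfold hk
      linarith
    have h3 : 2 * (n : ℝ) * hk k ≤ 2 * n * hk n := mul_le_mul_of_nonneg_left h2 (by positivity)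
    linarith

/-- the mean width -/
noncomputable def mW (n : ℕ) : ℝ := (∑ f ∈ LF (2 * n), (wid (2 * n) f : ℝ)) / Zl 0 (2 * n)

theorem mW_ge {n : ℕ} (hn : 1 ≤ n) (k : ℕ) :
    ((k : ℝ) + 1) * (1 - Nn k (2 * n) / Zl 0 (2 * n)) ≤ mW n := by
  classical
  have hc := Zl_pos 0 hn
  have h : ∑ f ∈ LF (2 * n), ((k : ℝ) + 1) * (1 - (if wid (2 * n) f ≤ k then (1 : ℝ) else 0)) ≤
      ∑ f ∈ LF (2 * n), (wid (2 * n) f : ℝ) := by
    refine Finset.sum_le_sum fun f _ => ?_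
    by_cases h1 : wid (2 * n) f ≤ k
    · rw [if_pos h1, sub_self, mul_zero]
      exact Nat.cast_nonneg _
    · rw [if_neg h1, sub_zero, mul_one]
      exact_mod_cast (by omega : k + 1 ≤ wid (2 * n) f)
  rw [← Finset.mul_sum, Finset.sum_sub_distrib, Finset.sum_const, nsmul_eq_mul, mul_one,
    ← Zl_zero] at h
  unfold mW
  rw [le_div_iff₀ hc, mul_assoc, sub_mul, one_mul, div_mul_cancel₀ _ hc.ne']
  exact h

theorem wid_pos {n : ℕ} (hn : 2 ≤ n) {f : ZMod (2 * n) → ℤ × ℤ} (hf : IsLoop (2 * n) f) :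
    1 ≤ wid (2 * n) f := by
  have : NeZero (2 * n) := ⟨by omega⟩
  by_contra hlt
  have h0 : wid (2 * n) f ≤ 0 := by omega
  rw [wid_le_iff] at h0
  have hx : ∀ i j, (f i).1 = (f j).1 := by
    intro i j
    have h1 := h0 i j
    have h2 := h0 j i
    push_cast at h1 h2
    omega
  -- the highest vertex has two neighbours in the same column
  obtain ⟨i, hi⟩ := Finite.exists_max (fun i : ZMod (2 * n) => (f i).2)
  have h1 := hf.2.2 i
  have h2 := hf.2.2 (i - 1)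
  rw [sub_add_cancel] at h2
  rw [hx (i + 1) i, sub_self, abs_zero, zero_add] at h1
  rw [hx i (i - 1), sub_self, abs_zero, zero_add] at h2
  have h3 := hi (i + 1)
  have h4 := hi (i - 1)
  have h5 : (f (i + 1)).2 = (f i).2 - 1 := by
    rcases abs_cases ((f (i + 1)).2 - (f i).2) with ⟨a, b⟩ | ⟨a, b⟩ <;> omega
  have h6 : (f (i - 1)).2 = (f i).2 - 1 := by
    rcases abs_cases ((f i).2 - (f (i - 1)).2) with ⟨a, b⟩ | ⟨a, b⟩ <;> omega
  have h7 : f (i + 1) = f (i - 1) := Prod.ext (hx _ _) (by omega)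
  have h8 := hf.2.1 h7
  have h9 : ((2 : ℕ) : ZMod (2 * n)) = ((0 : ℕ) : ZMod (2 * n)) := by
    push_cast
    linear_combination h8
  have := cast_inj (by omega) (by omega) h9
  omega

theorem mW_ge_one {n : ℕ} (hn : 2 ≤ n) : 1 ≤ mW n := by
  have hc := Zl_pos 0 (by omega : 1 ≤ n)
  unfold mW
  rw [le_div_iff₀ hc, one_mul, Zl_zero]
  have h : ∑ f ∈ LF (2 * n), (1 : ℝ) ≤ ∑ f ∈ LF (2 * n), (wid (2 * n) f : ℝ) := by
    refine Finset.sum_le_sum fun f hf => ?_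
    exact_mod_cast wid_pos hn ((mem_LF (by omega)).1 hf)
  rwa [Finset.sum_const, nsmul_eq_mul, mul_one] at h

/-- the mean width is at least `k / 2` beyond the scale of the gap -/
theorem mean_width_ge : ∃ K : ℝ, 0 < K ∧ ∀ n : ℕ, 2 ≤ n → ∀ k : ℕ, 1 ≤ k →
    K * Real.log n ^ 2 ≤ 2 * n * hk k → ((k : ℝ) + 1) / 2 ≤ mW n := by
  obtain ⟨K, hK, h⟩ := narrow_le
  have hL2 : (0 : ℝ) < Real.log 2 := Real.log_pos (by norm_num)
  refine ⟨K + 1 / Real.log 2 ^ 2, by positivity, fun n hn k hk1 hgap => ?_⟩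
  have hnr : (2 : ℝ) ≤ n := by exact_mod_cast hn
  have hln : Real.log 2 ≤ Real.log n := Real.log_le_log (by norm_num) hnr
  have h1 := h n hn k hk1
  have h2 : K * Real.log n ^ 2 - 2 * n * hk k ≤ -1 := by
    have h3 : 1 ≤ 1 / Real.log 2 ^ 2 * Real.log n ^ 2 := by
      rw [one_div, inv_mul_eq_div, le_div_iff₀ (by positivity), one_mul]
      exact pow_le_pow_left₀ hL2.le hln 2
    nlinarith
  have h3 : Nn k (2 * n) / Zl 0 (2 * n) ≤ 1 / 2 := by
    refine (h1.trans (Real.exp_le_exp.2 h2)).trans ?_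
    rw [Real.exp_neg, ← one_div]
    apply one_div_le_one_div_of_le (by norm_num)
    have := Real.exp_one_gt_d9
    linarith
  refine le_trans ?_ (mW_ge (by omega) k)
  have h4 : (0 : ℝ) ≤ (k : ℝ) + 1 := by positivity
  nlinarith

/-- a lower bound of the gap gives a lower bound of the mean width -/
theorem width_ge_of {W : ℕ → ℝ} {H : ℕ → ℝ} {K : ℝ} (hK : 0 < K)
    (h : ∀ n : ℕ, 2 ≤ n → ∀ k : ℕ, 1 ≤ k → K * Real.log n ^ 2 ≤ 2 * n * H k →
      ((k : ℝ) + 1) / 2 ≤ W n) (hW : ∀ n : ℕ, 2 ≤ n → 1 ≤ W n) {θ c : ℝ} (hθ : 0 < θ)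
    (hc : 0 < c) (hH : ∀ k : ℕ, 1 ≤ k → c * (k : ℝ) ^ (-(1 / θ)) ≤ H k) :
    ∃ c' : ℝ, 0 < c' ∧ ∀ n : ℕ, 2 ≤ n → c' * ((n : ℝ) / Real.log n ^ 2) ^ θ ≤ W n := by
  refine ⟨(2 * c / K) ^ θ / 2, by positivity, fun n hn => ?_⟩
  have hnr : (2 : ℝ) ≤ n := by exact_mod_cast hn
  have hn0 : (0 : ℝ) < n := by linarith
  have hL : 0 < Real.log n := Real.log_pos (by linarith)
  obtain ⟨y, hy⟩ : ∃ y : ℝ, y = 2 * c / K * ((n : ℝ) / Real.log n ^ 2) := ⟨_, rfl⟩
  have hy0 : 0 < y := by rw [hy]; positivity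
  have e1 : (2 * c / K) ^ θ / 2 * ((n : ℝ) / Real.log n ^ 2) ^ θ = y ^ θ / 2 := by
    rw [hy, Real.mul_rpow (by positivity) (by positivity)]
    ring
  rw [e1]
  have hyθ : 0 < y ^ θ := Real.rpow_pos_of_pos hy0 _
  rcases Nat.eq_zero_or_pos ⌊y ^ θ⌋₊ with h0 | h0
  · have h1 : y ^ θ < 1 := by
      have := Nat.lt_floor_add_one (y ^ θ)
      rw [h0] at this
      simpa using this
    have := hW n hn
    linarith
  · obtain ⟨k, hk⟩ : ∃ k, k = ⌊y ^ θ⌋₊ := ⟨_, rfl⟩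
    rw [← hk] at h0
    have hkr : (0 : ℝ) < k := by exact_mod_cast h0
    have h1 : (k : ℝ) ≤ y ^ θ := by rw [hk]; exact Nat.floor_le hyθ.le
    have h2 : y ^ θ < k + 1 := by rw [hk]; exact Nat.lt_floor_add_one _
    have h3 : (k : ℝ) ^ (1 / θ) ≤ y := by
      have := Real.rpow_le_rpow hkr.le h1 (by positivity : 0 ≤ 1 / θ)
      rwa [← Real.rpow_mul hy0.le, mul_one_div_cancel hθ.ne', Real.rpow_one] at this
    have h4 := hH k h0
    rw [Real.rpow_neg hkr.le] at h4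
    have h5 : y⁻¹ ≤ ((k : ℝ) ^ (1 / θ))⁻¹ :=
      inv_anti₀ (Real.rpow_pos_of_pos hkr _) h3
    have h6 : K * Real.log n ^ 2 ≤ 2 * n * H k := by
      have h7 : c * y⁻¹ ≤ H k := (mul_le_mul_of_nonneg_left h5 hc.le).trans h4
      have h8 : 2 * (n : ℝ) * (c * y⁻¹) = K * Real.log n ^ 2 := by
        rw [hy]
        field_simp
      rw [← h8]
      exact mul_le_mul_of_nonneg_left h7 (by positivity)
    have h9 := h n hn k h0 h6
    linarith

/-- an upper bound of the mean width gives an upper bound of the gap -/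
theorem gap_le_of {W : ℕ → ℝ} {H : ℕ → ℝ} {K : ℝ} (hK : 0 < K)
    (h : ∀ n : ℕ, 2 ≤ n → ∀ k : ℕ, 1 ≤ k → K * Real.log n ^ 2 ≤ 2 * n * H k →
      ((k : ℝ) + 1) / 2 ≤ W n) (hW1 : ∀ n : ℕ, 2 ≤ n → 1 ≤ W n) {θ C : ℝ} (hθ : 0 < θ)
    (hW : ∀ n : ℕ, 2 ≤ n → W n ≤ C * (n : ℝ) ^ θ) {B : ℝ} (hB : ∀ k : ℕ, 1 ≤ k → H k ≤ B) :
    ∃ C' : ℝ, ∀ k : ℕ, 2 ≤ k → H k ≤ C' * ((k : ℝ) ^ (-(1 / θ)) * Real.log k ^ 2) := by
  have hC : 0 < C := by
    have h3 := (hW1 2 le_rfl).trans (hW 2 le_rfl)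
    by_contra hneg
    push Not at hneg
    have h4 : C * ((2 : ℕ) : ℝ) ^ θ ≤ 0 :=
      mul_nonpos_of_nonpos_of_nonneg hneg (by positivity)
    linarith
  have hL2 : (0 : ℝ) < Real.log 2 := Real.log_pos (by norm_num)
  obtain ⟨D, hD⟩ : ∃ D : ℝ, D = (2 * C) ^ (1 / θ) := ⟨_, rfl⟩
  have hD0 : 0 < D := by rw [hD]; positivity
  obtain ⟨c3, hc3⟩ : ∃ c3 : ℝ, c3 = 1 / θ * (1 + |Real.log (2 * C)| / Real.log 2) := ⟨_, rfl⟩
  have hc30 : 0 ≤ c3 := by rw [hc3]; positivity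
  refine ⟨K * c3 ^ 2 * D + |B| * (2 * D) / Real.log 2 ^ 2, fun k hk => ?_⟩
  have hkr : (2 : ℝ) ≤ k := by exact_mod_cast hk
  have hk0 : (0 : ℝ) < k := by linarith
  have hlk : Real.log 2 ≤ Real.log k := Real.log_le_log (by norm_num) hkr
  have hlk0 : 0 < Real.log k := by linarith
  obtain ⟨y, hy⟩ : ∃ y : ℝ, y = ((k : ℝ) / (2 * C)) ^ (1 / θ) := ⟨_, rfl⟩
  have hy0 : 0 < y := by rw [hy]; positivity
  have hyD : y * D = (k : ℝ) ^ (1 / θ) := by
    rw [hy, hD, ← Real.mul_rpow (by positivity) (by positivity)]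
    congr 1
    field_simp
  have hkp : 0 < (k : ℝ) ^ (1 / θ) := Real.rpow_pos_of_pos hk0 _
  rw [Real.rpow_neg hk0.le, ← hyD]
  have q1 : 0 ≤ K * c3 ^ 2 * D * ((y * D)⁻¹ * Real.log k ^ 2) := by positivity
  have q2 : 0 ≤ |B| * (2 * D) / Real.log 2 ^ 2 * ((y * D)⁻¹ * Real.log k ^ 2) := by positivity
  rw [add_mul]
  rcases le_or_gt 2 y with h2 | h2
  · obtain ⟨n, hn⟩ : ∃ n, n = ⌊y⌋₊ := ⟨_, rfl⟩
    have hn2 : 2 ≤ n := by
      rw [hn]
      exact Nat.le_floor (by exact_mod_cast h2)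
    have hn1 : (n : ℝ) ≤ y := by rw [hn]; exact Nat.floor_le hy0.le
    have hn3 : y / 2 ≤ n := by
      have := Nat.lt_floor_add_one y
      rw [← hn] at this
      linarith
    have hn0 : (0 : ℝ) < n := by linarith
    have h3 : C * (n : ℝ) ^ θ < ((k : ℝ) + 1) / 2 := by
      have h4 : (n : ℝ) ^ θ ≤ (k : ℝ) / (2 * C) := by
        have := Real.rpow_le_rpow hn0.le hn1 hθ.le
        rwa [hy, ← Real.rpow_mul (by positivity), one_div_mul_cancel hθ.ne',
          Real.rpow_one] at this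
      have h5 := mul_le_mul_of_nonneg_left h4 hC.le
      have h6 : C * ((k : ℝ) / (2 * C)) = k / 2 := by field_simp
      linarith
    have h4 : 2 * n * H k < K * Real.log n ^ 2 := by
      by_contra hcon
      push Not at hcon
      have h5 := h n hn2 k (by omega) hcon
      have h6 := hW n hn2
      linarith
    have h5 : Real.log n ≤ c3 * Real.log k := by
      have h6 : Real.log n ≤ Real.log y := Real.log_le_log hn0 hn1
      rw [hy, Real.log_rpow (by positivity), Real.log_div hk0.ne' (by positivity)] at h6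
      refine h6.trans ?_
      rw [hc3, mul_assoc]
      apply mul_le_mul_of_nonneg_left _ (by positivity)
      have h7 : |Real.log (2 * C)| ≤ |Real.log (2 * C)| / Real.log 2 * Real.log k := by
        rw [div_mul_eq_mul_div, le_div_iff₀ hL2]
        exact mul_le_mul_of_nonneg_left hlk (abs_nonneg _)
      have h8 := neg_abs_le (Real.log (2 * C))
      linarith
    have h6 : Real.log n ^ 2 ≤ c3 ^ 2 * Real.log k ^ 2 := by
      rw [← mul_pow]
      exact pow_le_pow_left₀ (Real.log_natCast_nonneg _) h5 2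
    have h7 : H k * y ≤ K * (c3 ^ 2 * Real.log k ^ 2) := by
      have h8 := mul_le_mul_of_nonneg_left h6 hK.le
      rcases le_total 0 (H k) with h9 | h9
      · have : H k * y ≤ H k * (2 * n) := mul_le_mul_of_nonneg_left (by linarith) h9
        linarith
      · have : H k * y ≤ 0 := mul_nonpos_of_nonpos_of_nonneg h9 hy0.le
        have : 0 ≤ K * (c3 ^ 2 * Real.log k ^ 2) := by positivity
        linarith
    have h8 : H k ≤ K * c3 ^ 2 * D * ((y * D)⁻¹ * Real.log k ^ 2) := by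
      have e : K * c3 ^ 2 * D * ((y * D)⁻¹ * Real.log k ^ 2) =
          K * (c3 ^ 2 * Real.log k ^ 2) / y := by
        field_simp
      rw [e, le_div_iff₀ hy0]
      exact h7
    linarith
  · have h3 : H k ≤ |B| := (hB k (by omega)).trans (le_abs_self B)
    have h4 : |B| ≤ |B| * (2 * D) / Real.log 2 ^ 2 * ((y * D)⁻¹ * Real.log k ^ 2) := by
      have e : |B| * (2 * D) / Real.log 2 ^ 2 * ((y * D)⁻¹ * Real.log k ^ 2) =
          |B| * ((2 / y) * (Real.log k ^ 2 / Real.log 2 ^ 2)) := by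
        field_simp
      rw [e]
      have h5 : 1 ≤ 2 / y := by
        rw [le_div_iff₀ hy0]
        linarith
      have h6 : 1 ≤ Real.log k ^ 2 / Real.log 2 ^ 2 := by
        rw [le_div_iff₀ (by positivity), one_mul]
        exact pow_le_pow_left₀ hL2.le hlk 2
      have h7 : 1 ≤ (2 / y) * (Real.log k ^ 2 / Real.log 2 ^ 2) := by nlinarith
      have := mul_le_mul_of_nonneg_left h7 (abs_nonneg B)
      linarith
    linarith

/-- the gap is at most of the order `log² k / k` -/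
theorem gap_le : ∃ K : ℝ, 0 ≤ K ∧ ∀ k : ℕ, 2 ≤ k → hk k ≤ K * Real.log k ^ 2 / k := by
  obtain ⟨K, hK, h⟩ := narrow_le
  refine ⟨K, hK, fun k hk2 => ?_⟩
  have h1 := h k hk2 k (by omega)
  rw [Nn_all (by omega) le_rfl, div_self (Zl_pos 0 (by omega)).ne', ← Real.exp_zero,
    Real.exp_le_exp] at h1
  have hk0 : (0 : ℝ) < k := by exact_mod_cast (by omega : 0 < k)
  rw [le_div_iff₀ hk0]
  have h2 := hk_nonneg (by omega : 1 ≤ k)
  nlinarith

end Pool.Agent.K6.H36.PJ
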