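import Pool.Agent.K6.H36.PJ.JArea

/-!
Sums over rooted loops, over loops with the root at an end of the top row, and over joins.
-/

set_option autoImplicit false

namespace Pool.Agent.K6.H36.PJ

open Pool.Agent.N223.PS Pool.Agent.N457.PS

open scoped Classical in
/-- the loops -/
noncomputable def LF (L : ℕ) : Finset (ZMod L → ℤ × ℤ) :=
  if h : {f : ZMod L → ℤ × ℤ | IsLoop L f}.Finite then h.toFinset else ∅

open scoped Classical in
/-- the loops with the root at the right end of the top row -/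
noncomputable def TF (L : ℕ) : Finset (ZMod L → ℤ × ℤ) :=
  if h : {f : ZMod L → ℤ × ℤ | Top L f}.Finite then h.toFinset else ∅

open scoped Classical in
/-- the loops with the root at the right end of the bottom row -/
noncomputable def BF (L : ℕ) : Finset (ZMod L → ℤ × ℤ) :=
  if h : {f : ZMod L → ℤ × ℤ | Bot L f}.Finite then h.toFinset else ∅

theorem mem_LF {L : ℕ} (hL : 0 < L) {f : ZMod L → ℤ × ℤ} : f ∈ LF L ↔ IsLoop L f := by
  have : NeZero L := ⟨by omega⟩
  unfold LF
  rw [dif_pos (loops_finite L)]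
  simp

theorem top_finite (L : ℕ) [NeZero L] : {f : ZMod L → ℤ × ℤ | Top L f}.Finite :=
  (loops_finite L).subset (fun _ h => h.loop)

theorem bot_finite (L : ℕ) [NeZero L] : {f : ZMod L → ℤ × ℤ | Bot L f}.Finite :=
  (loops_finite L).subset (fun _ h => h.loop)

theorem mem_TF {L : ℕ} (hL : 0 < L) {f : ZMod L → ℤ × ℤ} : f ∈ TF L ↔ Top L f := by
  have : NeZero L := ⟨by omega⟩
  unfold TF
  rw [dif_pos (top_finite L)]
  simp

theorem mem_BF {L : ℕ} (hL : 0 < L) {f : ZMod L → ℤ × ℤ} : f ∈ BF L ↔ Bot L f := by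
  have : NeZero L := ⟨by omega⟩
  unfold BF
  rw [dif_pos (bot_finite L)]
  simp

/-- every loop is a rotation of a loop of `TF` or of its reversal -/
theorem exists_top {L : ℕ} (hL : 3 ≤ L) {f : ZMod L → ℤ × ℤ} (hf : IsLoop L f) :
    ∃ (s : ZMod L) (g : ZMod L → ℤ × ℤ), Top L g ∧ (f = rot s g ∨ f = rot s (rev g)) := by
  have : NeZero L := ⟨by omega⟩
  obtain ⟨i0, h0⟩ := Finite.exists_max (fun i : ZMod L => toLex ((f i).2, (f i).1))
  have h1 : ∀ i, (f i).2 < (f i0).2 ∨ ((f i).2 = (f i0).2 ∧ (f i).1 ≤ (f i0).1) := by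
    intro i
    have := h0 i
    rw [Prod.Lex.toLex_le_toLex] at this
    exact this
  obtain ⟨g, hg⟩ : ∃ g, g = rot i0 f := ⟨_, rfl⟩
  have hgl : IsLoop L g := by rw [hg]; exact rot_loop hf i0
  have hh : ∀ i, (g i).2 ≤ 0 := by
    intro i
    have := h1 (i + i0)
    rw [hg]
    simp only [rot, Prod.snd_sub]
    omega
  have hr : ∀ i, (g i).2 = 0 → (g i).1 ≤ 0 := by
    intro i hi
    have := h1 (i + i0)
    rw [hg] at hi ⊢
    simp only [rot, Prod.snd_sub, Prod.fst_sub] at hi ⊢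
    omega
  have hfr : f = rot (-i0) g := by
    rw [hg, rot_rot, neg_add_cancel, rot_zero hf.1]
  have n1 : g 1 = (-1, 0) ∨ g 1 = (0, -1) := by
    have h2 := hgl.2.2 0
    rw [zero_add, hgl.1] at h2
    simp only [Prod.fst_zero, Prod.snd_zero, sub_zero] at h2
    have h3 := hh 1
    have h4 := hr 1
    rcases abs_cases (g 1).1 with ⟨h5, h6⟩ | ⟨h5, h6⟩ <;>
      rcases abs_cases (g 1).2 with ⟨h7, h8⟩ | ⟨h7, h8⟩
    · have : (g 1).2 = 0 := by omega
      have := h4 this
      omega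
    · by_cases h9 : (g 1).2 = 0
      · omega
      · right
        exact Prod.ext (by simp only; omega) (by simp only; omega)
    · left
      exact Prod.ext (by simp only; omega) (by simp only; omega)
    · by_cases h9 : (g 1).2 = 0
      · omega
      · omega
  have n2 : g (-1) = (-1, 0) ∨ g (-1) = (0, -1) := by
    have h2 := hgl.2.2 (-1)
    rw [neg_add_cancel, hgl.1] at h2
    simp only [Prod.fst_zero, Prod.snd_zero, zero_sub, abs_neg] at h2
    have h3 := hh (-1)
    have h4 := hr (-1)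
    rcases abs_cases (g (-1)).1 with ⟨h5, h6⟩ | ⟨h5, h6⟩ <;>
      rcases abs_cases (g (-1)).2 with ⟨h7, h8⟩ | ⟨h7, h8⟩
    · have : (g (-1)).2 = 0 := by omega
      have := h4 this
      omega
    · by_cases h9 : (g (-1)).2 = 0
      · omega
      · right
        exact Prod.ext (by simp only; omega) (by simp only; omega)
    · left
      exact Prod.ext (by simp only; omega) (by simp only; omega)
    · by_cases h9 : (g (-1)).2 = 0
      · omega
      · omega
  have hne : g 1 ≠ g (-1) := by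
    intro h
    have h2 := hgl.2.1 h
    have h3 : ((2 : ℕ) : ZMod L) = ((0 : ℕ) : ZMod L) := by
      push_cast
      linear_combination h2
    have := cast_inj (by omega) (by omega) h3
    omega
  rcases n1 with n1 | n1
  · exact ⟨-i0, g, ⟨hgl, hh, hr, n1⟩, Or.inl hfr⟩
  · have n3 : g (-1) = (-1, 0) := by
      rcases n2 with n2 | n2
      · exact n2
      · exact absurd (n1.trans n2.symm) hne
    refine ⟨-i0, rev g, ⟨rev_loop hgl, fun i => hh _, fun i => hr _, n3⟩, Or.inr ?_⟩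
    rw [rev_rev]
    exact hfr

theorem sum_le_of_surj {A B : Type*} (s : Finset A) (t : Finset B) (φ : B → A) (F : A → ℝ)
    (h0 : ∀ b ∈ t, 0 ≤ F (φ b)) (h : ∀ a ∈ s, ∃ b ∈ t, φ b = a) :
    ∑ a ∈ s, F a ≤ ∑ b ∈ t, F (φ b) := by
  classical
  choose ψ h1 h2 using h
  have e : ∑ a ∈ s, F a = ∑ b ∈ s.attach.image (fun a => ψ a.1 a.2), F (φ b) := by
    rw [Finset.sum_image, ← Finset.sum_attach]
    · refine Finset.sum_congr rfl fun a _ => ?_
      rw [h2]
    · intro a _ b _ hab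
      have h3 : φ (ψ a.1 a.2) = φ (ψ b.1 b.2) := congrArg φ hab
      rw [h2, h2] at h3
      exact Subtype.ext h3
  rw [e]
  apply Finset.sum_le_sum_of_subset_of_nonneg
  · intro b hb
    rw [Finset.mem_image] at hb
    obtain ⟨a, -, rfl⟩ := hb
    exact h1 _ _
  · intro b hb _
    exact h0 b hb

theorem sum_le_of_inj {A B : Type*} (s : Finset A) (t : Finset B) (φ : A → B) (F : B → ℝ)
    (h0 : ∀ b ∈ t, 0 ≤ F b) (hm : ∀ a ∈ s, φ a ∈ t)
    (hi : ∀ a ∈ s, ∀ b ∈ s, φ a = φ b → a = b) :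
    ∑ a ∈ s, F (φ a) ≤ ∑ b ∈ t, F b := by
  classical
  rw [← Finset.sum_image (g := φ) (f := F) (fun a ha b hb h => hi a ha b hb h)]
  apply Finset.sum_le_sum_of_subset_of_nonneg
  · intro b hb
    rw [Finset.mem_image] at hb
    obtain ⟨a, ha, rfl⟩ := hb
    exact hm a ha
  · intro b hb _
    exact h0 b hb

/-- invariant functions of loops -/
structure Inv {L : ℕ} (F : (ZMod L → ℤ × ℤ) → ℝ) : Prop where
  nn : ∀ f, 0 ≤ F f
  rot : ∀ f s, IsLoop L f → F (rot s f) = F f
  rev : ∀ f, IsLoop L f → F (rev f) = F f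

theorem sum_loops_le {L : ℕ} (hL : 3 ≤ L) {F : (ZMod L → ℤ × ℤ) → ℝ} (hF : Inv F) :
    ∑ f ∈ LF L, F f ≤ 2 * L * ∑ g ∈ TF L, F g := by
  have : NeZero L := ⟨by omega⟩
  have h1 := sum_le_of_surj (LF L) ((Finset.univ : Finset (ZMod L)) ×ˢ
    ((Finset.univ : Finset Bool) ×ˢ TF L))
    (fun b => rot b.1 (if b.2.1 then rev b.2.2 else b.2.2)) F (fun b _ => hF.nn _) (by
      intro f hf
      rw [mem_LF (by omega)] at hf
      obtain ⟨s, g, hg, h | h⟩ := exists_top hL hf
      · refine ⟨(s, false, g), ?_, ?_⟩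
        · simp only [Finset.mem_product, Finset.mem_univ, true_and]
          exact (mem_TF (by omega)).2 hg
        · simp [h]
      · refine ⟨(s, true, g), ?_, ?_⟩
        · simp only [Finset.mem_product, Finset.mem_univ, true_and]
          exact (mem_TF (by omega)).2 hg
        · simp [h])
  refine h1.trans (le_of_eq ?_)
  rw [Finset.sum_product]
  have h2 : ∀ s : ZMod L, ∑ b ∈ (Finset.univ : Finset Bool) ×ˢ TF L,
      F (rot s (if b.1 then rev b.2 else b.2)) = 2 * ∑ g ∈ TF L, F g := by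
    intro s
    rw [Finset.sum_product]
    simp only [Fintype.sum_bool, if_true, Bool.false_eq_true, if_false]
    rw [two_mul]
    congr 1
    · refine Finset.sum_congr rfl fun g hg => ?_
      have hl := ((mem_TF (by omega)).1 hg).loop
      rw [hF.rot _ _ (rev_loop hl), hF.rev _ hl]
    · refine Finset.sum_congr rfl fun g hg => ?_
      have hl := ((mem_TF (by omega)).1 hg).loop
      rw [hF.rot _ _ hl]
  rw [Finset.sum_congr rfl (fun s _ => h2 s), Finset.sum_const, Finset.card_univ, ZMod.card,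
    nsmul_eq_mul]
  ring

theorem sum_join_le {M N : ℕ} (hM : 2 ≤ M) (hN : 2 ≤ N)
    {F : (ZMod (M + N) → ℤ × ℤ) → ℝ} (hF : Inv F) :
    ((M + N : ℕ) : ℝ) * ∑ G ∈ BF M, ∑ f ∈ TF N, F (join M N G f) ≤ ∑ f ∈ LF (M + N), F f := by
  have : NeZero (M + N) := ⟨by omega⟩
  have h1 := sum_le_of_inj ((Finset.univ : Finset (ZMod (M + N))) ×ˢ (BF M ×ˢ TF N))
    (LF (M + N)) (fun b => rot b.1 (join M N b.2.1 b.2.2)) F (fun b _ => hF.nn _) (by
      rintro ⟨s, G, f⟩ hb
      simp only [Finset.mem_product, Finset.mem_univ, true_and] at hb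
      have hG := (mem_BF (by omega)).1 hb.1
      have hf := (mem_TF (by omega)).1 hb.2
      exact (mem_LF (by omega)).2 (rot_loop (join_loop hG hf hM hN) s)) (by
      rintro ⟨s, G, f⟩ hb ⟨s', G', f'⟩ hb' h
      simp only [Finset.mem_product, Finset.mem_univ, true_and] at hb hb'
      have hG := (mem_BF (by omega)).1 hb.1
      have hf := (mem_TF (by omega)).1 hb.2
      have hG' := (mem_BF (by omega)).1 hb'.1
      have hf' := (mem_TF (by omega)).1 hb'.2
      obtain ⟨h2, h3⟩ := root_eq (join_loop hG hf hM hN) (join_loop hG' hf' hM hN)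
        (join_rgt hM hN hG hf) (join_rgt hM hN hG' hf') (join_count hM hN hG hf)
        (join_count hM hN hG' hf') h
      obtain ⟨h4, h5⟩ := join_inj hN hM hf hf' h3
      have h6 : s = s' := h2
      rw [h6, h4, h5])
  refine le_trans (le_of_eq ?_) h1
  rw [Finset.sum_product]
  have h2 : ∀ s : ZMod (M + N), ∑ b ∈ BF M ×ˢ TF N, F (rot s (join M N b.1 b.2)) =
      ∑ G ∈ BF M, ∑ f ∈ TF N, F (join M N G f) := by
    intro s
    rw [Finset.sum_product]
    refine Finset.sum_congr rfl fun G hG => Finset.sum_congr rfl fun f hf => ?_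
    exact hF.rot _ _ (join_loop ((mem_BF (by omega)).1 hG) ((mem_TF (by omega)).1 hf) hM hN)
  rw [Finset.sum_congr rfl (fun s _ => h2 s), Finset.sum_const, Finset.card_univ, ZMod.card,
    nsmul_eq_mul]

/-- the basic inequality for joins -/
theorem join_le {M N : ℕ} (hM : 2 ≤ M) (hN : 2 ≤ N)
    {F : (ZMod (M + N) → ℤ × ℤ) → ℝ} (hF : Inv F) :
    ∑ G ∈ BF M, ∑ f ∈ TF N, F (join M N G f) ≤ 2 * ∑ g ∈ TF (M + N), F g := by
  have h1 := sum_join_le hM hN hF
  have h2 := sum_loops_le (L := M + N) (by omega) hF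
  have h3 : (0 : ℝ) < ((M + N : ℕ) : ℝ) := by exact_mod_cast (by omega : 0 < M + N)
  have h4 := h1.trans h2
  have h5 : ((M + N : ℕ) : ℝ) * ∑ G ∈ BF M, ∑ f ∈ TF N, F (join M N G f) ≤
      ((M + N : ℕ) : ℝ) * (2 * ∑ g ∈ TF (M + N), F g) := by
    refine h4.trans (le_of_eq ?_)
    ring
  exact le_of_mul_le_mul_left h5 h3

/-- sums over the loops with the root at the right end of the bottom row -/
theorem sum_BF {L : ℕ} (hL : 0 < L) (F : (ZMod L → ℤ × ℤ) → ℝ) :
    ∑ G ∈ BF L, F G = ∑ g ∈ TF L, F (flp (rev g)) := by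
  symm
  refine Finset.sum_bij' (fun g _ => flp (rev g)) (fun G _ => flp (rev G)) ?_ ?_ ?_ ?_ ?_
  · intro g hg
    exact (mem_BF hL).2 ((mem_TF hL).1 hg).bot
  · intro G hG
    exact (mem_TF hL).2 ((mem_BF hL).1 hG).top
  · intro g _
    exact flp_rev_flp_rev g
  · intro G _
    exact flp_rev_flp_rev G
  · intro g _
    rfl

/-- a sum of a function of the area -/
noncomputable def tsm (w : ℕ → ℝ) (L : ℕ) : ℝ := ∑ f ∈ TF L, w (area L f)

theorem inv_area {w : ℕ → ℝ} (hw : ∀ a, 0 ≤ w a) (L : ℕ) :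
    Inv (fun f : ZMod L → ℤ × ℤ => w (area L f)) :=
  ⟨fun _ => hw _, fun f s _ => by rw [area_rot], fun f hf => by rw [area_rev hf]⟩

theorem area_join_le {w : ℕ → ℝ} (hw : ∀ a, 0 ≤ w a) {M N : ℕ} (hM : 2 ≤ M) (hN : 2 ≤ N) :
    ∑ g ∈ TF M, ∑ f ∈ TF N, w (area M g + area N f + 1) ≤ 2 * tsm w (M + N) := by
  have i : NeZero M := ⟨by omega⟩
  refine le_trans (le_of_eq ?_) (join_le hM hN (inv_area hw (M + N)))
  rw [sum_BF (by omega)]
  refine Finset.sum_congr rfl fun g hg => Finset.sum_congr rfl fun f hf => ?_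
  have hg' := (mem_TF (by omega)).1 hg
  have hf' := (mem_TF (by omega)).1 hf
  rw [join_area hg'.bot hf' hM hN, area_flp (rev_loop hg'.loop), area_rev hg'.loop]

end Pool.Agent.K6.H36.PJ
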